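import Pool.Agent.Q211.GLC.Base

/-!
# Project GLC, job DEC
-/

open IsDedekindDomain NumberField Matrix

namespace Q211.GLC

open Q4.GLC

section ev

variable {R : Type} [CommRing R] {n : ℕ}

/-- the matrix `1 + u wᵀ` -/
def EV (u w : Fin n → R) (h : w ⬝ᵥ u = 0) : GL (Fin n) R where
  val := 1 + vecMulVec u w
  inv := 1 - vecMulVec u w
  val_inv := by
    have h1 : vecMulVec u w * vecMulVec u w = 0 := by
      rw [vecMulVec_mul_vecMulVec, h, zero_smul, vecMulVec_zero]
    rw [mul_sub, mul_one, add_mul, one_mul, h1]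
    abel
  inv_val := by
    have h1 : vecMulVec u w * vecMulVec u w = 0 := by
      rw [vecMulVec_mul_vecMulVec, h, zero_smul, vecMulVec_zero]
    rw [mul_add, mul_one, sub_mul, one_mul, h1]
    abel

theorem EV_val (u w : Fin n → R) (h : w ⬝ᵥ u = 0) : (EV u w h).1 = 1 + vecMulVec u w := rfl

theorem EV_mulVec (u w : Fin n → R) (h : w ⬝ᵥ u = 0) (c : Fin n → R) :
    (EV u w h).1 *ᵥ c = c + (w ⬝ᵥ c) • u := by
  rw [EV_val, add_mulVec, one_mulVec]
  congr 1
  funext i
  simp only [mulVec, dotProduct, vecMulVec_apply, Pi.smul_apply, smul_eq_mul, Finset.sum_mul]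
  exact Finset.sum_congr rfl fun l _ => by ring

theorem EV_add_left {u u' w : Fin n → R} (h : w ⬝ᵥ u = 0) (h' : w ⬝ᵥ u' = 0)
    (h'' : w ⬝ᵥ (u + u') = 0) : EV (u + u') w h'' = EV u w h * EV u' w h' := by
  apply Units.ext
  rw [Units.val_mul, EV_val, EV_val, EV_val, mul_add, add_mul, add_mul, vecMulVec_mul_vecMulVec, h',
    zero_smul, vecMulVec_zero, one_mul, one_mul, mul_one, add_vecMulVec]
  abel

theorem EV_add_right {u w w' : Fin n → R} (h : w ⬝ᵥ u = 0) (h' : w' ⬝ᵥ u = 0)
    (h'' : (w + w') ⬝ᵥ u = 0) : EV u (w + w') h'' = EV u w h * EV u w' h' := by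
  apply Units.ext
  rw [Units.val_mul, EV_val, EV_val, EV_val, mul_add, add_mul, add_mul, vecMulVec_mul_vecMulVec, h,
    zero_smul, vecMulVec_zero, one_mul, one_mul, mul_one, vecMulVec_add]
  abel

theorem EV_zero_left (w : Fin n → R) (h : w ⬝ᵥ (0 : Fin n → R) = 0) : EV 0 w h = 1 := by
  apply Units.ext
  rw [EV_val, zero_vecMulVec, add_zero, Units.val_one]

theorem EV_zero_right (u : Fin n → R) (h : (0 : Fin n → R) ⬝ᵥ u = 0) : EV u 0 h = 1 := by
  apply Units.ext
  rw [EV_val, vecMulVec_zero, add_zero, Units.val_one]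

theorem EV_single (i j : Fin n) (hij : i ≠ j) (c r : R)
    (h : (Pi.single j r : Fin n → R) ⬝ᵥ (Pi.single i c : Fin n → R) = 0) :
    EV (Pi.single i c) (Pi.single j r) h = tv i j hij (c * r) := by
  apply Units.ext
  rw [EV_val, tv_val, transvection]
  congr 1
  ext x y
  rw [vecMulVec_apply, Matrix.single_apply, Pi.single_apply, Pi.single_apply]
  by_cases h1 : x = i
  · by_cases h2 : y = j
    · simp [h1, h2]
    · simp [h1, h2, Ne.symm h2]
  · simp [h1, Ne.symm h1]

variable {a : R}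

theorem tv_mem_EN (i j : Fin n) (hij : i ≠ j) {c : R} (hc : a ∣ c) : tv i j hij c ∈ EN R n a := by
  obtain ⟨b, rfl⟩ := hc
  refine Subgroup.subset_closure ⟨1, i, j, b, hij, ?_⟩
  rw [tv_val, Units.val_one, inv_one, Units.val_one, one_mul, mul_one]

theorem conj_mem_EN (h : GL (Fin n) R) {x : GL (Fin n) R} (hx : x ∈ EN R n a) :
    h * x * h⁻¹ ∈ EN R n a := by
  refine Subgroup.closure_induction (p := fun x _ => h * x * h⁻¹ ∈ EN R n a) ?_ ?_ ?_ ?_ hx
  · rintro x ⟨k, i, j, b, hij, hxe⟩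
    refine Subgroup.subset_closure ⟨h * k, i, j, b, hij, ?_⟩
    rw [Units.val_mul, Units.val_mul, Units.val_mul, hxe, _root_.mul_inv_rev, Units.val_mul]
    simp only [mul_assoc]
  · rw [mul_one, mul_inv_cancel]
    exact Subgroup.one_mem _
  · intro p q _ _ hp hq
    have e1 : h * (p * q) * h⁻¹ = (h * p * h⁻¹) * (h * q * h⁻¹) := by group
    rw [e1]
    exact Subgroup.mul_mem _ hp hq
  · intro p _ hp
    have e1 : h * p⁻¹ * h⁻¹ = (h * p * h⁻¹)⁻¹ := by group
    rw [e1]
    exact Subgroup.inv_mem _ hp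

theorem col_mem_EN (j : Fin n) (r : R) : ∀ (s : Finset (Fin n)) (v : Fin n → R)
    (h : (Pi.single j r : Fin n → R) ⬝ᵥ v = 0), v j = 0 → (∀ l, a ∣ v l) → (∀ l ∉ s, v l = 0) →
    EV v (Pi.single j r) h ∈ EN R n a := by
  classical
  intro s
  induction s using Finset.induction_on with
  | empty =>
    intro v h _ _ h0
    have hv : v = 0 := funext fun l => h0 l (Finset.notMem_empty l)
    subst hv
    rw [EV_zero_left]
    exact Subgroup.one_mem _
  | insert i s hi ih =>
    intro v h hj hdiv h0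
    by_cases hij : i = j
    · refine ih v h hj hdiv fun l hl => ?_
      by_cases hlj : l = j
      · rw [hlj, hj]
      · exact h0 l (by rw [Finset.mem_insert, not_or]; exact ⟨fun h' => hlj (h'.trans hij), hl⟩)
    · have e1 : v = Function.update v i 0 + Pi.single i (v i) := by
        funext l
        rw [Pi.add_apply]
        by_cases hl : l = i
        · subst hl
          rw [Function.update_self, Pi.single_eq_same, zero_add]
        · rw [Function.update_of_ne hl, Pi.single_eq_of_ne hl, add_zero]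
      have h1 : (Pi.single j r : Fin n → R) ⬝ᵥ (Pi.single i (v i) : Fin n → R) = 0 := by
        rw [single_dotProduct, Pi.single_eq_of_ne (Ne.symm hij), mul_zero]
      have h2 : (Pi.single j r : Fin n → R) ⬝ᵥ (Function.update v i 0) = 0 := by
        rw [single_dotProduct, Function.update_of_ne (Ne.symm hij), hj, mul_zero]
      have h3 : (Pi.single j r : Fin n → R) ⬝ᵥ (Function.update v i 0 + Pi.single i (v i)) = 0 := by
        rw [← e1, h]
      have e2 : EV v (Pi.single j r) h = EV (Function.update v i 0 + Pi.single i (v i))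
          (Pi.single j r) h3 := by
        apply Units.ext
        rw [EV_val, EV_val, ← e1]
      rw [e2, EV_add_left h2 h1, EV_single i j hij]
      refine Subgroup.mul_mem _ (ih _ h2 ?_ ?_ ?_) (tv_mem_EN i j hij ((hdiv i).mul_right r))
      · rw [Function.update_of_ne (Ne.symm hij), hj]
      · intro l
        by_cases hl : l = i
        · subst hl
          rw [Function.update_self]
          exact dvd_zero _
        · rw [Function.update_of_ne hl]
          exact hdiv l
      · intro l hl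
        by_cases hli : l = i
        · subst hli
          rw [Function.update_self]
        · rw [Function.update_of_ne hli]
          exact h0 l (by rw [Finset.mem_insert, not_or]; exact ⟨hli, hl⟩)

theorem row_mem_EN (i : Fin n) : ∀ (s : Finset (Fin n)) (w : Fin n → R)
    (h : w ⬝ᵥ (Pi.single i 1 : Fin n → R) = 0), w i = 0 → (∀ l, a ∣ w l) → (∀ l ∉ s, w l = 0) →
    EV (Pi.single i 1) w h ∈ EN R n a := by
  classical
  intro s
  induction s using Finset.induction_on with
  | empty =>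
    intro w h _ _ h0
    have hw : w = 0 := funext fun l => h0 l (Finset.notMem_empty l)
    subst hw
    rw [EV_zero_right]
    exact Subgroup.one_mem _
  | insert j s hj' ih =>
    intro w h hi hdiv h0
    by_cases hij : i = j
    · refine ih w h hi hdiv fun l hl => ?_
      by_cases hlj : l = i
      · rw [hlj, hi]
      · exact h0 l (by rw [Finset.mem_insert, not_or]; exact ⟨fun h' => hlj (h'.trans hij.symm), hl⟩)
    · have e1 : w = Function.update w j 0 + Pi.single j (w j) := by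
        funext l
        rw [Pi.add_apply]
        by_cases hl : l = j
        · subst hl
          rw [Function.update_self, Pi.single_eq_same, zero_add]
        · rw [Function.update_of_ne hl, Pi.single_eq_of_ne hl, add_zero]
      have h1 : (Pi.single j (w j) : Fin n → R) ⬝ᵥ (Pi.single i 1 : Fin n → R) = 0 := by
        rw [single_dotProduct, Pi.single_eq_of_ne (Ne.symm hij), mul_zero]
      have h2 : (Function.update w j 0) ⬝ᵥ (Pi.single i 1 : Fin n → R) = 0 := by
        rw [dotProduct_single, Function.update_of_ne hij, hi, zero_mul]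
      have h3 : (Function.update w j 0 + Pi.single j (w j)) ⬝ᵥ (Pi.single i 1 : Fin n → R) = 0 := by
        rw [← e1, h]
      have e2 : EV (Pi.single i 1) w h = EV (Pi.single i 1)
          (Function.update w j 0 + Pi.single j (w j)) h3 := by
        apply Units.ext
        rw [EV_val, EV_val, ← e1]
      rw [e2, EV_add_right h2 h1, EV_single i j hij]
      refine Subgroup.mul_mem _ (ih _ h2 ?_ ?_ ?_)
        (tv_mem_EN i j hij (by rw [one_mul]; exact hdiv j))
      · rw [Function.update_of_ne hij, hi]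
      · intro l
        by_cases hl : l = j
        · subst hl
          rw [Function.update_self]
          exact dvd_zero _
        · rw [Function.update_of_ne hl]
          exact hdiv l
      · intro l hl
        by_cases hli : l = j
        · subst hli
          rw [Function.update_self]
        · rw [Function.update_of_ne hli]
          exact h0 l (by rw [Finset.mem_insert, not_or]; exact ⟨hli, hl⟩)

/-- congruence modulo `a` -/
def Cg (a : R) (n : ℕ) : Subgroup (GL (Fin n) R) :=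
  (Matrix.GeneralLinearGroup.map (Ideal.Quotient.mk (Ideal.span {a}))).ker

theorem mem_Cg {g : GL (Fin n) R} : g ∈ Cg a n ↔
    ∀ i j, a ∣ g.1 i j - (1 : Matrix (Fin n) (Fin n) R) i j := by
  unfold Cg
  rw [MonoidHom.mem_ker]
  have h1 : ∀ i j, (Matrix.GeneralLinearGroup.map (Ideal.Quotient.mk (Ideal.span {a})) g).1 i j =
      (1 : GL (Fin n) (R ⧸ Ideal.span {a})).1 i j ↔
      a ∣ g.1 i j - (1 : Matrix (Fin n) (Fin n) R) i j := by
    intro i j
    rw [← Ideal.mem_span_singleton, ← Ideal.Quotient.eq, Matrix.GeneralLinearGroup.map_apply]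
    have e1 : (1 : GL (Fin n) (R ⧸ Ideal.span {a})).1 i j =
        Ideal.Quotient.mk (Ideal.span {a}) ((1 : Matrix (Fin n) (Fin n) R) i j) := by
      rw [Units.val_one, Matrix.one_apply, Matrix.one_apply]
      split_ifs <;> simp
    rw [e1]
  constructor
  · intro h i j
    rw [← h1, h]
  · intro h
    apply Units.ext
    ext i j
    exact (h1 i j).2 (h i j)

theorem EN_le_Cg : EN R n a ≤ Cg a n := by
  unfold EN
  rw [Subgroup.closure_le]
  rintro x ⟨h, i, j, b, hij, hxe⟩
  have e2 : x = h * tv i j hij (a * b) * h⁻¹ := by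
    apply Units.ext
    rw [hxe, Units.val_mul, Units.val_mul, tv_val]
  have h3 : tv i j hij (a * b) ∈ Cg a n := by
    rw [mem_Cg]
    intro x y
    rw [tv_val, transvection, Matrix.add_apply, add_sub_cancel_left, Matrix.single_apply]
    split_ifs
    · exact dvd_mul_right _ _
    · exact dvd_zero _
  rw [e2]
  have : (Cg a n).Normal := MonoidHom.normal_ker _
  exact this.conj_mem _ h3 h

end ev

/-- stable range over a Dedekind domain -/
theorem exists_coprime {R : Type} [CommRing R] [IsDomain R] [IsDedekindDomain R] {c0 c1 s : R}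
    (h0 : c0 ≠ 0) {x0 x1 : R} (h : x0 * c0 + x1 * c1 + s = 1) : ∃ t, IsCoprime c0 (c1 + t * s) := by
  classical
  have hI : Ideal.span {c0} ≠ ⊥ := by
    rw [Ne, Ideal.span_singleton_eq_bot]
    exact h0
  have hfin := Ideal.finite_factors hI
  obtain ⟨t, ht⟩ := IsDedekindDomain.exists_forall_sub_mem_ideal (s := hfin.toFinset)
    (fun v : HeightOneSpectrum R => v.asIdeal) (fun _ => 1) (fun v _ => v.prime)
    (fun v _ w _ hvw h => hvw (HeightOneSpectrum.ext h))
    (fun v => if c1 ∈ v.1.asIdeal then 1 else 0)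
  refine ⟨t, ?_⟩
  rw [← Ideal.isCoprime_span_singleton_iff, Ideal.isCoprime_iff_sup_eq]
  by_contra hne
  obtain ⟨P, hP, hle⟩ := Ideal.exists_le_maximal _ hne
  have hP0 : c0 ∈ P := hle (Ideal.mem_sup_left (Ideal.mem_span_singleton_self c0))
  have hP1 : c1 + t * s ∈ P := hle (Ideal.mem_sup_right (Ideal.mem_span_singleton_self _))
  have hPb : P ≠ ⊥ := by
    intro hb
    rw [hb, Ideal.mem_bot] at hP0
    exact h0 hP0
  let v : HeightOneSpectrum R := ⟨P, hP.isPrime, hPb⟩
  have hv : v ∈ hfin.toFinset := by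
    rw [Set.Finite.mem_toFinset, Set.mem_setOf_eq, Ideal.dvd_iff_le, Ideal.span_singleton_le_iff_mem]
    exact hP0
  have h1 := ht v hv
  simp only [pow_one] at h1
  change t - (if c1 ∈ P then 1 else 0) ∈ P at h1
  have hone : (1 : R) ∉ P := fun h => hP.ne_top ((Ideal.eq_top_iff_one P).2 h)
  by_cases hc : c1 ∈ P
  · rw [if_pos hc] at h1
    have hs : s ∈ P := by
      have e1 : s = (c1 + t * s) - c1 - (t - 1) * s := by ring
      rw [e1]
      exact P.sub_mem (P.sub_mem hP1 hc) (P.mul_mem_right _ h1)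
    apply hone
    rw [← h]
    exact P.add_mem (P.add_mem (P.mul_mem_left _ hP0) (P.mul_mem_left _ hc)) hs
  · rw [if_neg hc, sub_zero] at h1
    apply hc
    have e1 : c1 = (c1 + t * s) - t * s := by ring
    rw [e1]
    exact P.sub_mem hP1 (P.mul_mem_right _ h1)

end Q211.GLC

namespace Q4.GLC

open Q211.GLC

theorem tDec : SDec := by
  intro R _ _ _ m a ha0 hau g hg
  classical
  have hgC : g ∈ Cg a (m + 3) := mem_Cg.2 hg
  have h10 : (1 : Fin (m + 3)) ≠ 0 := by
    intro h
    have := congrArg Fin.val h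
    simp at this
  have h20 : (2 : Fin (m + 3)) ≠ 0 := by
    intro h
    have := congrArg Fin.val h
    simp at this
    rw [Nat.mod_eq_of_lt (by omega)] at this
    omega
  have h21 : (2 : Fin (m + 3)) ≠ 1 := by
    intro h
    have := congrArg Fin.val h
    simp at this
    rw [Nat.mod_eq_of_lt (by omega)] at this
    omega
  have hcl : ∀ x y : GL (Fin (m + 3)) R, (fun i => (x * y).1 i 0) = x.1 *ᵥ fun i => y.1 i 0 := by
    intro x y
    rfl
  have hdiv : ∀ g : GL (Fin (m + 3)) R, g ∈ Cg a (m + 3) → a ∣ g.1 0 0 - 1 ∧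
      ∀ l, l ≠ 0 → a ∣ g.1 l 0 := by
    intro g hg
    rw [mem_Cg] at hg
    refine ⟨?_, fun l hl => ?_⟩
    · have := hg 0 0
      rwa [Matrix.one_apply_eq] at this
    · have := hg l 0
      rwa [Matrix.one_apply_ne hl, sub_zero] at this
  -- step 1
  obtain ⟨x1, hx1, hcop⟩ : ∃ x1 ∈ EN R (m + 3) a, IsCoprime ((x1 * g).1 0 0) ((x1 * g).1 1 0) := by
    obtain ⟨⟨y, hy⟩, hl⟩ := hdiv g hgC
    have hc0 : g.1 0 0 ≠ 0 := by
      intro h
      rw [h, zero_sub] at hy
      exact hau (IsUnit.of_mul_eq_one (-y) (by linear_combination hy))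
    have hsum : ∑ l, g⁻¹.1 0 l * g.1 l 0 = 1 := by
      have h1 : (g⁻¹.1 * g.1) 0 0 = 1 := by
        rw [← Units.val_mul, inv_mul_cancel, Units.val_one, Matrix.one_apply_eq]
      rw [Matrix.mul_apply] at h1
      exact h1
    obtain ⟨s, hs⟩ : ∃ s, s = 1 - g⁻¹.1 0 0 * g.1 0 0 - g⁻¹.1 0 1 * g.1 1 0 := ⟨_, rfl⟩
    obtain ⟨t, ht⟩ := exists_coprime (c1 := g.1 1 0) (s := s) (x0 := g⁻¹.1 0 0) (x1 := g⁻¹.1 0 1) hc0
      (by rw [hs]; ring)
    -- the row operation
    let w : Fin (m + 3) → R := fun l => if l = 0 ∨ l = 1 then 0 else (1 - g.1 0 0) * t * g⁻¹.1 0 l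
    have hw1 : w 1 = 0 := by simp [w]
    have hw : w ⬝ᵥ (Pi.single 1 1 : Fin (m + 3) → R) = 0 := by
      rw [dotProduct_single, hw1, zero_mul]
    have hws : w ⬝ᵥ (fun l => g.1 l 0) = (1 - g.1 0 0) * t * s := by
      have e1 : w ⬝ᵥ (fun l => g.1 l 0) = (1 - g.1 0 0) * t *
          (∑ l, g⁻¹.1 0 l * g.1 l 0 - g⁻¹.1 0 0 * g.1 0 0 - g⁻¹.1 0 1 * g.1 1 0) := by
        rw [← Finset.add_sum_erase _ _ (Finset.mem_univ (0 : Fin (m + 3))),
          ← Finset.add_sum_erase _ _ (Finset.mem_erase.2 ⟨h10, Finset.mem_univ _⟩)]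
        rw [dotProduct, ← Finset.add_sum_erase _ _ (Finset.mem_univ (0 : Fin (m + 3))),
          ← Finset.add_sum_erase _ _ (Finset.mem_erase.2 ⟨h10, Finset.mem_univ _⟩)]
        have e2 : ∑ x ∈ (Finset.univ.erase (0 : Fin (m + 3))).erase 1, w x * g.1 x 0 =
            (1 - g.1 0 0) * t *
              ∑ x ∈ (Finset.univ.erase (0 : Fin (m + 3))).erase 1, g⁻¹.1 0 x * g.1 x 0 := by
          rw [Finset.mul_sum]
          refine Finset.sum_congr rfl fun l hl => ?_
          rw [Finset.mem_erase, Finset.mem_erase] at hl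
          have e3 : w l = (1 - g.1 0 0) * t * g⁻¹.1 0 l := by
            simp only [w]
            rw [if_neg (not_or.2 ⟨hl.2.1, hl.1⟩)]
          rw [e3]
          ring
        rw [e2, hw1]
        have hw0 : w 0 = 0 := by simp [w]
        rw [hw0]
        ring
      rw [e1, hsum, hs]
    refine ⟨EV (Pi.single 1 1) w hw, row_mem_EN 1 Finset.univ w hw hw1 (fun l => ?_)
      (fun l hl => absurd (Finset.mem_univ l) hl), ?_⟩
    · simp only [w]
      split_ifs
      · exact dvd_zero _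
      · rw [mul_assoc]
        refine Dvd.dvd.mul_right ?_ _
        refine ⟨-y, ?_⟩
        linear_combination -hy
    · have e1 := congrFun (hcl (EV (Pi.single 1 1) w hw) g)
      have e2 := e1 0
      have e3 := e1 1
      simp only [EV_mulVec, hws, Pi.add_apply, Pi.smul_apply, smul_eq_mul] at e2 e3
      rw [Pi.single_eq_of_ne (Ne.symm h10), mul_zero, add_zero] at e2
      rw [Pi.single_eq_same, mul_one] at e3
      rw [e2, e3]
      have e4 : g.1 1 0 + (1 - g.1 0 0) * t * s = (g.1 1 0 + t * s) + g.1 0 0 * (-(t * s)) := by ring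
      rw [e4]
      exact IsCoprime.add_mul_left_right ht _
  -- step 2
  obtain ⟨g1, hg1⟩ : ∃ g1, g1 = x1 * g := ⟨_, rfl⟩
  have hg1C : g1 ∈ Cg a (m + 3) := by
    rw [hg1]
    exact Subgroup.mul_mem _ (EN_le_Cg hx1) hgC
  rw [← hg1] at hcop
  obtain ⟨r, q, hrq⟩ := hcop
  obtain ⟨x2, hx2, hx20, hx21, hx2l⟩ : ∃ x2 ∈ EN R (m + 3) a, (x2 * g1).1 0 0 = g1.1 0 0 ∧
      (x2 * g1).1 1 0 = g1.1 1 0 ∧ ∀ l, l ≠ 0 → l ≠ 1 → (x2 * g1).1 l 0 = 0 := by
    obtain ⟨-, hl⟩ := hdiv g1 hg1C
    let u : Fin (m + 3) → R := fun l => if l = 0 ∨ l = 1 then 0 else -g1.1 l 0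
    have hu0 : u 0 = 0 := by simp [u]
    have hu1 : u 1 = 0 := by simp [u]
    have hudiv : ∀ l, a ∣ u l := by
      intro l
      simp only [u]
      split_ifs with h
      · exact dvd_zero _
      · rw [not_or] at h
        rw [dvd_neg]
        exact hl l h.1
    have hwu0 : (Pi.single 0 r : Fin (m + 3) → R) ⬝ᵥ u = 0 := by
      rw [single_dotProduct, hu0, mul_zero]
    have hwu1 : (Pi.single 1 q : Fin (m + 3) → R) ⬝ᵥ u = 0 := by
      rw [single_dotProduct, hu1, mul_zero]
    have hwu : (Pi.single 0 r + Pi.single 1 q : Fin (m + 3) → R) ⬝ᵥ u = 0 := by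
      rw [add_dotProduct, hwu0, hwu1, add_zero]
    have e1 := congrFun (hcl (EV u (Pi.single 0 r + Pi.single 1 q) hwu) g1)
    have hdot : (Pi.single 0 r + Pi.single 1 q : Fin (m + 3) → R) ⬝ᵥ (fun i => g1.1 i 0) = 1 := by
      rw [add_dotProduct, single_dotProduct, single_dotProduct, hrq]
    simp only [EV_mulVec, hdot, one_smul, Pi.add_apply] at e1
    refine ⟨EV u (Pi.single 0 r + Pi.single 1 q) hwu, ?_, ?_, ?_, ?_⟩
    · rw [EV_add_right hwu0 hwu1]
      exact Subgroup.mul_mem _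
        (col_mem_EN 0 r Finset.univ u hwu0 hu0 hudiv fun l hl => absurd (Finset.mem_univ l) hl)
        (col_mem_EN 1 q Finset.univ u hwu1 hu1 hudiv fun l hl => absurd (Finset.mem_univ l) hl)
    · rw [e1, hu0, add_zero]
    · rw [e1, hu1, add_zero]
    · intro l hl0 hl1
      rw [e1]
      simp only [u]
      rw [if_neg (not_or.2 ⟨hl0, hl1⟩), add_neg_cancel]
  -- step 3
  obtain ⟨g2, hg2⟩ : ∃ g2, g2 = x2 * g1 := ⟨_, rfl⟩
  have hg2C : g2 ∈ Cg a (m + 3) := by
    rw [hg2]
    exact Subgroup.mul_mem _ (EN_le_Cg hx2) hg1C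
  rw [← hg2] at hx20 hx21 hx2l
  rw [← hx20, ← hx21] at hrq
  obtain ⟨x3, hx3, hx30⟩ : ∃ x3 ∈ EN R (m + 3) a, (x3 * g2).1 0 0 = 1 := by
    obtain ⟨⟨y, hy⟩, -⟩ := hdiv g2 hg2C
    have hdv : a ∣ 1 - g2.1 0 0 := ⟨-y, by linear_combination -hy⟩
    obtain ⟨μ, hμ⟩ : ∃ μ, μ = r * (1 - g2.1 0 0) := ⟨_, rfl⟩
    obtain ⟨ν, hν⟩ : ∃ ν, ν = q * (1 - g2.1 0 0) := ⟨_, rfl⟩
    let w : Fin (m + 3) → R := Pi.single 0 μ + Pi.single 1 ν
    have hw2 : w 2 = 0 := by
      simp only [w, Pi.add_apply]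
      rw [Pi.single_eq_of_ne h20, Pi.single_eq_of_ne h21, add_zero]
    have hw : w ⬝ᵥ (Pi.single 2 1 : Fin (m + 3) → R) = 0 := by
      rw [dotProduct_single, hw2, zero_mul]
    have hmem : EV (Pi.single 2 1) w hw ∈ EN R (m + 3) a := by
      refine row_mem_EN 2 Finset.univ w hw hw2 (fun l => ?_)
        (fun l hl => absurd (Finset.mem_univ l) hl)
      simp only [w, Pi.add_apply]
      refine dvd_add ?_ ?_
      · rw [Pi.single_apply]
        split_ifs
        · rw [hμ]
          exact hdv.mul_left r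
        · exact dvd_zero _
      · rw [Pi.single_apply]
        split_ifs
        · rw [hν]
          exact hdv.mul_left q
        · exact dvd_zero _
    have h02 : (0 : Fin (m + 3)) ≠ 2 := Ne.symm h20
    have hx := conj_mem_EN (tv 0 2 h02 (1 : R)) hmem
    refine ⟨_, hx, ?_⟩
    -- compute the column
    have hT : ∀ (c : R) (v : Fin (m + 3) → R), (tv 0 2 h02 c).1 *ᵥ v = v + Pi.single 0 (c * v 2) := by
      intro c v
      rw [tv_val, transvection, add_mulVec, one_mulVec, single_mulVec]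
      congr 1
    have e1 := congrFun (hcl (tv 0 2 h02 (1 : R) * EV (Pi.single 2 1) w hw * (tv 0 2 h02 (1 : R))⁻¹) g2) 0
    rw [e1]
    obtain ⟨cc, hcc⟩ : ∃ cc : Fin (m + 3) → R, cc = fun i => g2.1 i 0 := ⟨_, rfl⟩
    have e2 : cc 2 = 0 := by
      rw [hcc]
      exact hx2l 2 h20 h21
    have e0 : g2.1 0 0 = cc 0 := by rw [hcc]
    have hi : (tv 0 2 h02 (-1)).1 *ᵥ cc = cc := by
      rw [hT, e2, mul_zero, Pi.single_zero, add_zero]
    rw [← hcc, Units.val_mul, Units.val_mul, ← mulVec_mulVec, ← mulVec_mulVec, tv_inv, hi,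
      EV_mulVec]
    have e3 : w ⬝ᵥ cc = 1 - cc 0 := by
      simp only [w]
      rw [add_dotProduct, single_dotProduct, single_dotProduct, hμ, hν, hcc]
      linear_combination (1 - g2.1 0 0) * hrq
    rw [e3, hT]
    simp only [Pi.add_apply, Pi.smul_apply, smul_eq_mul]
    rw [Pi.single_eq_same, Pi.single_eq_same, Pi.single_eq_of_ne h02, e2]
    ring
  -- step 4
  obtain ⟨g3, hg3⟩ : ∃ g3, g3 = x3 * g2 := ⟨_, rfl⟩
  have hg3C : g3 ∈ Cg a (m + 3) := by
    rw [hg3]
    exact Subgroup.mul_mem _ (EN_le_Cg hx3) hg2C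
  rw [← hg3] at hx30
  obtain ⟨x4, hx4, hx4c⟩ : ∃ x4 ∈ EN R (m + 3) a, (fun i => (x4 * g3).1 i 0) = Pi.single 0 1 := by
    obtain ⟨-, hl⟩ := hdiv g3 hg3C
    let u : Fin (m + 3) → R := fun l => if l = 0 then 0 else -g3.1 l 0
    have hu0 : u 0 = 0 := by simp [u]
    have hwu : (Pi.single 0 1 : Fin (m + 3) → R) ⬝ᵥ u = 0 := by
      rw [single_dotProduct, hu0, mul_zero]
    refine ⟨EV u (Pi.single 0 1) hwu, ?_, ?_⟩
    · refine col_mem_EN 0 1 Finset.univ u hwu hu0 (fun l => ?_)
        fun l hl => absurd (Finset.mem_univ l) hl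
      simp only [u]
      split_ifs with h
      · exact dvd_zero _
      · rw [dvd_neg]
        exact hl l h
    · rw [hcl, EV_mulVec, single_dotProduct, hx30, mul_one, one_smul]
      funext l
      rw [Pi.add_apply]
      by_cases h : l = 0
      · subst h
        rw [hu0, hx30, Pi.single_eq_same, add_zero]
      · rw [Pi.single_eq_of_ne h]
        simp only [u]
        rw [if_neg h, add_neg_cancel]
  -- step 5
  obtain ⟨g4, hg4⟩ : ∃ g4, g4 = x4 * g3 := ⟨_, rfl⟩
  have hg4C : g4 ∈ Cg a (m + 3) := by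
    rw [hg4]
    exact Subgroup.mul_mem _ (EN_le_Cg hx4) hg3C
  rw [← hg4] at hx4c
  obtain ⟨x5, hx5, hx5c⟩ : ∃ x5 ∈ EN R (m + 3) a, ∀ i,
      (x5 * g4).1 i 0 = (1 : Matrix (Fin (m + 3)) (Fin (m + 3)) R) i 0 ∧
        (x5 * g4).1 0 i = (1 : Matrix (Fin (m + 3)) (Fin (m + 3)) R) 0 i := by
    have hinvC : g4⁻¹ ∈ Cg a (m + 3) := Subgroup.inv_mem _ hg4C
    rw [mem_Cg] at hinvC
    have hinv : g4⁻¹.1 0 0 = 1 := by
      have h1 : g4⁻¹.1 *ᵥ (fun i => g4.1 i 0) = Pi.single 0 1 := by
        rw [← hcl, inv_mul_cancel]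
        funext i
        rw [Units.val_one, Matrix.one_apply, Pi.single_apply]
      rw [hx4c] at h1
      have h2 := congrFun h1 0
      rw [mulVec_single_one, Pi.single_eq_same] at h2
      exact h2
    let w : Fin (m + 3) → R := fun l => if l = 0 then 0 else g4⁻¹.1 0 l
    have hw0 : w 0 = 0 := by simp [w]
    have hw : w ⬝ᵥ (Pi.single 0 1 : Fin (m + 3) → R) = 0 := by
      rw [dotProduct_single, hw0, zero_mul]
    refine ⟨EV (Pi.single 0 1) w hw, row_mem_EN 0 Finset.univ w hw hw0 (fun l => ?_)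
      (fun l hl => absurd (Finset.mem_univ l) hl), fun i => ⟨?_, ?_⟩⟩
    · simp only [w]
      split_ifs with h
      · exact dvd_zero _
      · have := hinvC 0 l
        rwa [Matrix.one_apply_ne (Ne.symm h), sub_zero] at this
    · have e1 := congrFun (hcl (EV (Pi.single 0 1) w hw) g4) i
      rw [e1, EV_mulVec, hx4c, hw, zero_smul, add_zero, Matrix.one_apply, Pi.single_apply]
    · have e1 : (EV (Pi.single 0 1) w hw * g4).1 0 i = g4.1 0 i + ∑ l, w l * g4.1 l i := by
        rw [Units.val_mul, EV_val, add_mul, one_mul, Matrix.add_apply, Matrix.mul_apply]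
        congr 1
        refine Finset.sum_congr rfl fun l _ => ?_
        rw [vecMulVec_apply, Pi.single_eq_same, one_mul]
      have e2 : (g4⁻¹.1 * g4.1) 0 i = (1 : Matrix (Fin (m + 3)) (Fin (m + 3)) R) 0 i := by
        rw [← Units.val_mul, inv_mul_cancel, Units.val_one]
      rw [e1, ← e2, Matrix.mul_apply, ← Finset.add_sum_erase _ _ (Finset.mem_univ (0 : Fin (m + 3))),
        ← Finset.add_sum_erase _ _ (Finset.mem_univ (0 : Fin (m + 3))), hw0, zero_mul, zero_add,
        hinv, one_mul]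
      congr 1
      refine Finset.sum_congr rfl fun l hl => ?_
      rw [Finset.mem_erase] at hl
      simp only [w]
      rw [if_neg hl.1]
  refine ⟨x5 * (x4 * (x3 * (x2 * x1))), ?_, ?_⟩
  · exact Subgroup.mul_mem _ hx5 (Subgroup.mul_mem _ hx4 (Subgroup.mul_mem _ hx3
      (Subgroup.mul_mem _ hx2 hx1)))
  · have e1 : x5 * (x4 * (x3 * (x2 * x1))) * g = x5 * g4 := by
      rw [hg4, hg3, hg2, hg1]
      group
    rw [e1]
    exact hx5c

end Q4.GLC
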