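import Pool.Agent.Q4.GLC.Van
import Pool.Agent.Q4.GLC.Dec

/-!
# Project GLC, job CEN
-/

open IsDedekindDomain NumberField Matrix

namespace Q211.GLC

open Q4.GLC

variable {F : Type} [Field F] [NumberField F]

theorem sr1_field (K : Type) [Field K] : SR1 K := by
  intro a b x y h
  by_cases ha : a = 0
  · refine ⟨1, ?_⟩
    rw [ha, zero_add, one_mul, isUnit_iff_ne_zero]
    intro hb
    rw [ha, hb, mul_zero, mul_zero, add_zero] at h
    exact zero_ne_one h
  · exact ⟨0, by rw [zero_mul, add_zero, isUnit_iff_ne_zero]; exact ha⟩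

theorem EN_det {R : Type} [CommRing R] {n : ℕ} {a : R} {x : GL (Fin n) R} (hx : x ∈ EN R n a) :
    x.1.det = 1 := by
  refine Subgroup.closure_induction (p := fun x _ => x.1.det = 1) ?_ ?_ ?_ ?_ hx
  · rintro x ⟨h, i, j, b, hij, hxe⟩
    have h3 : h.1.det * h⁻¹.1.det = 1 := by
      rw [← det_mul, ← Units.val_mul, mul_inv_cancel, Units.val_one, det_one]
    rw [hxe, det_mul, det_mul, det_transvection_of_ne i j hij, mul_one, h3]
  · rw [Units.val_one, det_one]
  · intro p q _ _ hp hq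
    rw [Units.val_mul, det_mul, hp, hq, mul_one]
  · intro p _ hp
    have h3 : p.1.det * p⁻¹.1.det = 1 := by
      rw [← det_mul, ← Units.val_mul, mul_inv_cancel, Units.val_one, det_one]
    rwa [hp, one_mul] at h3

/-- natural numbers which are not one are not units -/
theorem not_isUnit_nat {M : ℕ} (hM : 2 ≤ M) : ¬ IsUnit ((M : 𝓞 F)) := by
  intro h
  have h1 : IsUnit (Algebra.norm ℤ ((M : 𝓞 F))) := h.map (Algebra.norm ℤ)
  have h2 : ((M : 𝓞 F)) = algebraMap ℤ (𝓞 F) (M : ℤ) := by simp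
  rw [h2, Algebra.norm_algebraMap, Int.isUnit_iff] at h1
  have h3 : ((M : ℤ) ^ Module.finrank ℤ (𝓞 F)).natAbs = 1 := by
    rcases h1 with h1 | h1 <;> rw [h1] <;> rfl
  rw [Int.natAbs_pow, Int.natAbs_natCast] at h3
  have h4 : 0 < Module.finrank ℤ (𝓞 F) := Module.finrank_pos
  have h5 : 1 < M ^ Module.finrank ℤ (𝓞 F) := Nat.one_lt_pow h4.ne' (by omega)
  omega

/-- a rational matrix of level `L` is integral -/
theorem exists_int_mat (hInt : SInt) {n L : ℕ} (hL : 1 ≤ L) {δ : GQ F n}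
    (hδ : dg F n δ ∈ UN F n L) : ∃ d : GL (Fin n) (𝓞 F), mi F n d = δ ∧
      ∀ i j, (L : 𝓞 F) ∣ d.1 i j - (1 : Matrix (Fin n) (Fin n) (𝓞 F)) i j := by
  have key : ∀ δ : GQ F n, DvdM L ((dg F n δ).1 - 1) → ∃ b : Fin n → Fin n → 𝓞 F, ∀ i j,
      δ.1 i j = algebraMap (𝓞 F) F ((1 : Matrix (Fin n) (Fin n) (𝓞 F)) i j + (L : 𝓞 F) * b i j) := by
    intro δ h
    have h1 : ∀ i j, ∃ b : 𝓞 F, δ.1 i j - (1 : Matrix (Fin n) (Fin n) F) i j =
        (L : F) * algebraMap (𝓞 F) F b := by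
      intro i j
      refine hInt F _ L hL ?_
      have h2 := h i j
      rw [Matrix.sub_apply, dg_apply] at h2
      have e1 : algebraMap F (Af F) (δ.1 i j - (1 : Matrix (Fin n) (Fin n) F) i j) =
          algebraMap F (Af F) (δ.1 i j) - (1 : Matrix (Fin n) (Fin n) (Af F)) i j := by
        rw [map_sub, Matrix.one_apply, Matrix.one_apply]
        split_ifs <;> simp
      rw [e1]
      exact h2
    choose b hb using h1
    refine ⟨b, fun i j => ?_⟩
    rw [map_add, map_mul, map_natCast, ← hb, Matrix.one_apply, Matrix.one_apply]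
    split_ifs <;> simp
  obtain ⟨b, hb⟩ := key δ hδ.1
  have hδ2 : DvdM L ((dg F n δ⁻¹).1 - 1) := by
    rw [map_inv]
    exact hδ.2
  obtain ⟨b', hb'⟩ := key δ⁻¹ hδ2
  obtain ⟨B, hB⟩ : ∃ B : Matrix (Fin n) (Fin n) (𝓞 F), B = Matrix.of fun i j =>
      (1 : Matrix (Fin n) (Fin n) (𝓞 F)) i j + (L : 𝓞 F) * b i j := ⟨_, rfl⟩
  obtain ⟨B', hB'⟩ : ∃ B' : Matrix (Fin n) (Fin n) (𝓞 F), B' = Matrix.of fun i j =>
      (1 : Matrix (Fin n) (Fin n) (𝓞 F)) i j + (L : 𝓞 F) * b' i j := ⟨_, rfl⟩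
  have e1 : B.map (algebraMap (𝓞 F) F) = δ.1 := by
    ext i j
    rw [Matrix.map_apply, hB, Matrix.of_apply, hb]
  have e2 : B'.map (algebraMap (𝓞 F) F) = δ⁻¹.1 := by
    ext i j
    rw [Matrix.map_apply, hB', Matrix.of_apply, hb']
  have hinj : Function.Injective (algebraMap (𝓞 F) F) := RingOfIntegers.coe_injective
  have e3 : B * B' = 1 := by
    apply Matrix.map_injective hinj
    change (B * B').map (algebraMap (𝓞 F) F) = (1 : Matrix (Fin n) (Fin n) (𝓞 F)).map (algebraMap (𝓞 F) F)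
    rw [Matrix.map_mul, e1, e2, ← Units.val_mul, mul_inv_cancel, Units.val_one,
      Matrix.map_one _ (map_zero _) (map_one _)]
  have e4 : B' * B = 1 := mul_eq_one_comm.1 e3
  refine ⟨⟨B, B', e3, e4⟩, ?_, ?_⟩
  · apply Units.ext
    exact e1
  · intro i j
    change (L : 𝓞 F) ∣ B i j - _
    rw [hB, Matrix.of_apply, add_sub_cancel_left]
    exact dvd_mul_right _ _

section gen

variable {m : ℕ}

/-- the condition on a generator -/
def GenC (F : Type) [Field F] [NumberField F] (m : ℕ) (γ : GQ F (m + 3)) : Prop :=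
  ∀ K : ℕ, 1 ≤ K → ∃ T : ℕ, 1 ≤ T ∧ ∀ b : GL (Fin (m + 3)) (𝓞 F),
    (∀ i, b.1 i 0 = (1 : Matrix (Fin (m + 3)) (Fin (m + 3)) (𝓞 F)) i 0 ∧
      b.1 0 i = (1 : Matrix (Fin (m + 3)) (Fin (m + 3)) (𝓞 F)) 0 i) →
    b ∈ Cg (((K * T : ℕ) : 𝓞 F) ^ 2) (m + 3) →
    ∃ x ∈ EN (𝓞 F) (m + 3) ((K : 𝓞 F) ^ 2),
      γ⁻¹ * mi F (m + 3) b * γ = mi F (m + 3) x * mi F (m + 3) b

/-- the diagonal matrix -/
noncomputable def dgn (K : Type) [Field K] (n : ℕ) (α : Kˣ) : GL (Fin (n + 1)) K where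
  val := Matrix.diagonal fun i => if i = 0 then α.1 else 1
  inv := Matrix.diagonal fun i => if i = 0 then α⁻¹.1 else 1
  val_inv := by
    rw [Matrix.diagonal_mul_diagonal, ← Matrix.diagonal_one]
    congr 1
    funext i
    split_ifs <;> simp
  inv_val := by
    rw [Matrix.diagonal_mul_diagonal, ← Matrix.diagonal_one]
    congr 1
    funext i
    split_ifs <;> simp

theorem dgn_det (K : Type) [Field K] (n : ℕ) (α : Kˣ) : (dgn K n α).1.det = α.1 := by
  change (Matrix.diagonal fun i : Fin (n + 1) => if i = 0 then α.1 else 1).det = α.1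
  rw [det_diagonal, Fin.prod_univ_succ]
  simp [Fin.succ_ne_zero]

theorem gen_dgn (α : Fˣ) : GenC F m (dgn F (m + 2) α) := by
  intro K _
  refine ⟨1, le_rfl, fun b hb _ => ⟨1, Subgroup.one_mem _, ?_⟩⟩
  rw [map_one, one_mul]
  have h1 : mi F (m + 3) b * dgn F (m + 2) α = dgn F (m + 2) α * mi F (m + 3) b := by
    apply Units.ext
    rw [Units.val_mul, Units.val_mul]
    ext i j
    change ((mi F (m + 3) b).1 * (Matrix.diagonal fun i => if i = 0 then α.1 else 1) :
      Matrix (Fin (m + 3)) (Fin (m + 3)) F) i j =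
      ((Matrix.diagonal fun i => if i = 0 then α.1 else 1) * (mi F (m + 3) b).1 :
      Matrix (Fin (m + 3)) (Fin (m + 3)) F) i j
    rw [Matrix.mul_diagonal, Matrix.diagonal_mul, mi_apply]
    by_cases hi : i = 0
    · subst hi
      rw [(hb j).2, Matrix.one_apply]
      by_cases hj : j = 0
      · subst hj
        rw [if_pos rfl]
        simp
      · rw [if_neg (Ne.symm hj)]
        simp
    · by_cases hj : j = 0
      · subst hj
        rw [(hb i).1, Matrix.one_apply, if_neg hi]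
        simp
      · simp [hi, hj]
  rw [mul_assoc, h1, ← mul_assoc, inv_mul_cancel, one_mul]

/-- a denominator -/
theorem exists_den (t : F) : ∃ T : ℕ, 1 ≤ T ∧ ∃ τ : 𝓞 F, (T : F) * t = algebraMap (𝓞 F) F τ := by
  obtain ⟨y, hy0, hy⟩ := ((IsFractionRing.isAlgebraic_iff ℤ ℚ F).2
    (Algebra.IsAlgebraic.isAlgebraic (R := ℚ) t)).exists_integral_multiple
  obtain ⟨k, hk⟩ := Int.eq_nat_or_neg y
  have hk0 : 1 ≤ k := by
    rw [Nat.one_le_iff_ne_zero]
    rintro rfl
    rcases hk with h | h <;> exact hy0 (by rw [h]; simp)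
  refine ⟨k, hk0, ?_⟩
  have h1 : IsIntegral ℤ ((k : F) * t) := by
    rcases hk with h | h
    · have e1 : (k : F) * t = y • t := by
        rw [zsmul_eq_mul, h, Int.cast_natCast]
      rw [e1]
      exact hy
    · have e1 : (k : F) * t = -(y • t) := by
        rw [zsmul_eq_mul, h, Int.cast_neg, Int.cast_natCast, neg_mul, neg_neg]
      rw [e1]
      exact hy.neg
  exact ⟨⟨_, h1⟩, rfl⟩

theorem gen_row (j : Fin (m + 3)) (hj : (0 : Fin (m + 3)) ≠ j) (t : F) :
    GenC F m (tv 0 j hj t) := by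
  intro K hK
  obtain ⟨T, hT, τ, hτ⟩ := exists_den t
  refine ⟨T, hT, fun b hb hbC => ?_⟩
  rw [mem_Cg] at hbC
  choose s hs using fun l => hbC j l
  let w : Fin (m + 3) → 𝓞 F := fun l => if l = 0 then 0 else (K : 𝓞 F) ^ 2 * (-((T : 𝓞 F) * τ * s l))
  have hw0 : w 0 = 0 := by simp [w]
  have hw : w ⬝ᵥ (Pi.single 0 1 : Fin (m + 3) → 𝓞 F) = 0 := by
    rw [dotProduct_single, hw0, zero_mul]
  have hwF : ∀ l, algebraMap (𝓞 F) F (w l) = t * ((1 : Matrix (Fin (m + 3)) (Fin (m + 3)) F) j l -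
      algebraMap (𝓞 F) F (b.1 j l)) := by
    intro l
    by_cases hl : l = 0
    · subst hl
      rw [hw0, (hb j).1, Matrix.one_apply_ne (Ne.symm hj), Matrix.one_apply_ne (Ne.symm hj)]
      simp
    · have e1 : w l = (K : 𝓞 F) ^ 2 * (-((T : 𝓞 F) * τ * s l)) := by
        simp only [w]
        rw [if_neg hl]
      have e2 := congrArg (algebraMap (𝓞 F) F) (hs l)
      have e3 : algebraMap (𝓞 F) F ((1 : Matrix (Fin (m + 3)) (Fin (m + 3)) (𝓞 F)) j l) =
          (1 : Matrix (Fin (m + 3)) (Fin (m + 3)) F) j l := by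
        rw [Matrix.one_apply, Matrix.one_apply]
        split_ifs <;> simp
      rw [map_sub, e3, map_mul, map_pow, map_natCast] at e2
      rw [e1]
      simp only [map_mul, map_pow, map_neg, map_natCast]
      push_cast at e2
      rw [← hτ]
      linear_combination t * e2
  refine ⟨b * EV (Pi.single 0 1) w hw * b⁻¹, conj_mem_EN b ?_, ?_⟩
  · refine row_mem_EN 0 Finset.univ w hw hw0 (fun l => ?_)
      (fun l hl => absurd (Finset.mem_univ l) hl)
    simp only [w]
    split_ifs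
    · exact dvd_zero _
    · exact dvd_mul_right _ _
  · have h1 : mi F (m + 3) b * tv 0 j hj t =
        tv 0 j hj t * (mi F (m + 3) b * mi F (m + 3) (EV (Pi.single 0 1) w hw)) := by
      apply Units.ext
      rw [Units.val_mul, Units.val_mul, Units.val_mul]
      have e1 : (mi F (m + 3) (EV (Pi.single 0 1) w hw)).1 =
          1 + Matrix.vecMulVec (Pi.single 0 1) (fun l => algebraMap (𝓞 F) F (w l)) := by
        ext x y
        rw [mi_apply, EV_val, Matrix.add_apply, Matrix.add_apply, map_add, vecMulVec_apply,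
          vecMulVec_apply, map_mul, Matrix.one_apply, Matrix.one_apply, Pi.single_apply,
          Pi.single_apply]
        split_ifs <;> simp
      have hcol : (mi F (m + 3) b).1 *ᵥ (Pi.single 0 1) = Pi.single 0 1 := by
        funext x
        rw [mulVec_single_one]
        change (mi F (m + 3) b).1 x 0 = _
        rw [mi_apply, (hb x).1, Matrix.one_apply, Pi.single_apply]
        split_ifs <;> simp
      rw [e1, mul_add, mul_one, Matrix.mul_vecMulVec, hcol, tv_val, transvection, mul_add, mul_one,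
        add_mul, one_mul]
      ext x y
      simp only [Matrix.add_apply]
      have e2 : ((mi F (m + 3) b).1 * Matrix.single 0 j t : Matrix (Fin (m + 3)) (Fin (m + 3)) F) x y =
          if x = 0 ∧ y = j then t else 0 := by
        by_cases hy : y = j
        · subst hy
          rw [Matrix.mul_single_apply_same, mi_apply, (hb x).1, Matrix.one_apply]
          by_cases hx : x = 0
          · simp [hx]
          · simp [hx]
        · rw [Matrix.mul_single_apply_of_ne _ _ _ _ _ hy, if_neg (fun h => hy h.2)]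
      have e3 : (Matrix.single 0 j t * ((mi F (m + 3) b).1 +
          Matrix.vecMulVec (Pi.single 0 1) (fun l => algebraMap (𝓞 F) F (w l))) :
          Matrix (Fin (m + 3)) (Fin (m + 3)) F) x y =
          if x = 0 then t * algebraMap (𝓞 F) F (b.1 j y) else 0 := by
        by_cases hx : x = 0
        · subst hx
          rw [Matrix.single_mul_apply_same, Matrix.add_apply, vecMulVec_apply,
            Pi.single_eq_of_ne (Ne.symm hj), zero_mul, add_zero, mi_apply, if_pos rfl]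
        · rw [Matrix.single_mul_apply_of_ne _ _ _ _ _ hx, if_neg hx]
      rw [e2, e3, vecMulVec_apply, hwF, Matrix.one_apply]
      by_cases hx : x = 0
      · subst hx
        rw [Pi.single_eq_same, if_pos rfl]
        by_cases hy : y = j
        · subst hy
          simp
          ring
        · rw [if_neg (fun h => hy h.2), if_neg (Ne.symm hy)]
          ring
      · rw [Pi.single_eq_of_ne hx, if_neg (fun h => hx h.1), if_neg hx]
        ring
    rw [mul_assoc, h1, ← mul_assoc, inv_mul_cancel, one_mul]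
    simp only [map_mul, map_inv]
    group

theorem gen_col (j : Fin (m + 3)) (hj : j ≠ (0 : Fin (m + 3))) (t : F) :
    GenC F m (tv j 0 hj t) := by
  intro K hK
  obtain ⟨T, hT, τ, hτ⟩ := exists_den t
  refine ⟨T, hT, fun b hb hbC => ?_⟩
  rw [mem_Cg] at hbC
  choose s hs using fun l => hbC l j
  let u : Fin (m + 3) → 𝓞 F := fun l => if l = 0 then 0 else (K : 𝓞 F) ^ 2 * ((T : 𝓞 F) * τ * s l)
  have hu0 : u 0 = 0 := by simp [u]
  have hu : (Pi.single 0 1 : Fin (m + 3) → 𝓞 F) ⬝ᵥ u = 0 := by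
    rw [single_dotProduct, hu0, mul_zero]
  have huF : ∀ l, algebraMap (𝓞 F) F (u l) = t * (algebraMap (𝓞 F) F (b.1 l j) -
      (1 : Matrix (Fin (m + 3)) (Fin (m + 3)) F) l j) := by
    intro l
    by_cases hl : l = 0
    · subst hl
      rw [hu0, (hb j).2, Matrix.one_apply_ne (Ne.symm hj), Matrix.one_apply_ne (Ne.symm hj)]
      simp
    · have e1 : u l = (K : 𝓞 F) ^ 2 * ((T : 𝓞 F) * τ * s l) := by
        simp only [u]
        rw [if_neg hl]
      have e2 := congrArg (algebraMap (𝓞 F) F) (hs l)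
      have e3 : algebraMap (𝓞 F) F ((1 : Matrix (Fin (m + 3)) (Fin (m + 3)) (𝓞 F)) l j) =
          (1 : Matrix (Fin (m + 3)) (Fin (m + 3)) F) l j := by
        rw [Matrix.one_apply, Matrix.one_apply]
        split_ifs <;> simp
      rw [map_sub, e3, map_mul, map_pow, map_natCast] at e2
      rw [e1]
      simp only [map_mul, map_pow, map_natCast]
      push_cast at e2
      rw [← hτ]
      linear_combination (-t) * e2
  refine ⟨EV u (Pi.single 0 1) hu, ?_, ?_⟩
  · refine col_mem_EN 0 1 Finset.univ u hu hu0 (fun l => ?_)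
      (fun l hl => absurd (Finset.mem_univ l) hl)
    simp only [u]
    split_ifs
    · exact dvd_zero _
    · exact dvd_mul_right _ _
  · have h1 : mi F (m + 3) b * tv j 0 hj t =
        tv j 0 hj t * (mi F (m + 3) (EV u (Pi.single 0 1) hu) * mi F (m + 3) b) := by
      apply Units.ext
      rw [Units.val_mul, Units.val_mul, Units.val_mul]
      have e1 : (mi F (m + 3) (EV u (Pi.single 0 1) hu)).1 =
          1 + Matrix.vecMulVec (fun l => algebraMap (𝓞 F) F (u l)) (Pi.single 0 1) := by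
        ext x y
        rw [mi_apply, EV_val, Matrix.add_apply, Matrix.add_apply, map_add, vecMulVec_apply,
          vecMulVec_apply, map_mul, Matrix.one_apply, Matrix.one_apply, Pi.single_apply,
          Pi.single_apply]
        split_ifs <;> simp
      have hrow : (Pi.single 0 1) ᵥ* (mi F (m + 3) b).1 = Pi.single 0 1 := by
        funext x
        rw [single_one_vecMul]
        change (mi F (m + 3) b).1 0 x = _
        rw [mi_apply, (hb x).2, Matrix.one_apply, Pi.single_apply]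
        by_cases hx : x = 0
        · simp [hx]
        · simp [hx, Ne.symm hx]
      rw [e1, add_mul, one_mul, Matrix.vecMulVec_mul, hrow, tv_val, transvection, mul_add, mul_one,
        add_mul, one_mul]
      ext x y
      simp only [Matrix.add_apply]
      have e2 : ((mi F (m + 3) b).1 * Matrix.single j 0 t : Matrix (Fin (m + 3)) (Fin (m + 3)) F) x y =
          if y = 0 then algebraMap (𝓞 F) F (b.1 x j) * t else 0 := by
        by_cases hy : y = 0
        · subst hy
          rw [Matrix.mul_single_apply_same, mi_apply, if_pos rfl]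
        · rw [Matrix.mul_single_apply_of_ne _ _ _ _ _ hy, if_neg hy]
      have e3 : (Matrix.single j 0 t * ((mi F (m + 3) b).1 +
          Matrix.vecMulVec (fun l => algebraMap (𝓞 F) F (u l)) (Pi.single 0 1)) :
          Matrix (Fin (m + 3)) (Fin (m + 3)) F) x y =
          if x = j ∧ y = 0 then t else 0 := by
        by_cases hx : x = j
        · subst hx
          rw [Matrix.single_mul_apply_same, Matrix.add_apply, vecMulVec_apply, hu0, map_zero,
            zero_mul, add_zero, mi_apply, (hb y).2, Matrix.one_apply]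
          by_cases hy : y = 0
          · simp [hy]
          · simp [hy, Ne.symm hy]
        · rw [Matrix.single_mul_apply_of_ne _ _ _ _ _ hx, if_neg (fun h => hx h.1)]
      rw [e2, e3, vecMulVec_apply, huF, Matrix.one_apply]
      by_cases hy : y = 0
      · subst hy
        rw [Pi.single_eq_same, if_pos rfl]
        by_cases hx : x = j
        · subst hx
          simp
          ring
        · rw [if_neg hx, if_neg (fun h : x = j ∧ (0 : Fin (m + 3)) = 0 => hx h.1)]
          ring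
      · rw [Pi.single_eq_of_ne hy, if_neg hy, if_neg (fun h : x = j ∧ y = 0 => hy h.2)]
        ring
    rw [mul_assoc, h1, ← mul_assoc, inv_mul_cancel, one_mul]

end gen

end Q211.GLC

namespace Q4.GLC

open Q211.GLC

theorem tCen (hVan : SVan) (hDec : SDec) (hDen : SDen) (hInt : SInt) (hSre : SSre) : SCen := by
  intro F _ _ m Γ hΓ A _ N hN φ hφ γ
  -- normality
  have hnorm : ∀ (γ δ : GQ F (m + 3)), δ ∈ Γ → γ⁻¹ * δ * γ ∈ Γ := by
    intro γ δ hδ
    have e1 : γ⁻¹ * δ * γ = (γ⁻¹ * δ * γ * δ⁻¹) * δ := by group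
    rw [e1]
    refine Γ.mul_mem (hΓ _ ?_) hδ
    have h1 : γ⁻¹.1.det * γ.1.det = 1 := by
      rw [← det_mul, ← Units.val_mul, inv_mul_cancel, Units.val_one, det_one]
    have h2 : δ.1.det * δ⁻¹.1.det = 1 := by
      rw [← det_mul, ← Units.val_mul, mul_inv_cancel, Units.val_one, det_one]
    rw [Units.val_mul, Units.val_mul, Units.val_mul, det_mul, det_mul, det_mul]
    linear_combination (δ.1.det * δ⁻¹.1.det) * h1 + h2
  let Good : GQ F (m + 3) → Prop := fun γ =>
    ∀ (N : ℕ), 1 ≤ N → ∀ (φ : GQ F (m + 3) → A),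
    (∀ δ ∈ Γ, ∀ δ' ∈ Γ, dg F (m + 3) δ ∈ UN F (m + 3) N → dg F (m + 3) δ' ∈ UN F (m + 3) N →
      φ (δ * δ') = φ δ + φ δ') →
    ∃ M : ℕ, 1 ≤ M ∧ ∀ δ ∈ Γ, dg F (m + 3) δ ∈ UN F (m + 3) M → φ (γ⁻¹ * δ * γ) = φ δ
  -- generators
  have hgen : ∀ γ, GenC F m γ → Good γ := by
    intro γ hγ N hN φ hφ
    obtain ⟨M0, hM0, h0⟩ := hVan F m Γ hΓ A N hN φ hφ 1
    obtain ⟨M1, hM1, h1⟩ := hVan F m Γ hΓ A N hN φ hφ γ
    obtain ⟨Md, hMd, hNM, hden⟩ := hDen F (m + 3) (dg F (m + 3) γ)⁻¹ N hN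
    obtain ⟨K, hK⟩ : ∃ K, K = 2 * M0 * M1 * Md := ⟨_, rfl⟩
    have hK1 : 1 ≤ K := by
      rw [hK]
      have : 0 < 2 * M0 * M1 * Md := by positivity
      omega
    obtain ⟨T, hT, hx⟩ := hγ K hK1
    obtain ⟨M', hM'⟩ : ∃ M', M' = K * T := ⟨_, rfl⟩
    have hM'2 : 2 ≤ M' := by
      rw [hM', hK]
      have : 0 < M0 * M1 * Md * T := by positivity
      calc 2 ≤ 2 * (M0 * M1 * Md * T) := by omega
        _ = _ := by ring
    have d0 : M0 ∣ M' := ⟨2 * M1 * Md * T, by rw [hM', hK]; ring⟩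
    have d1 : M1 ∣ M' := ⟨2 * M0 * Md * T, by rw [hM', hK]; ring⟩
    have dd : Md ∣ M' ^ 2 := ⟨2 * M0 * M1 * T * M', by rw [pow_two, hM', hK]; ring⟩
    have d0K : M0 ∣ K := ⟨2 * M1 * Md, by rw [hK]; ring⟩
    have dN : N ∣ M' ^ 2 := hNM.trans dd
    refine ⟨M' ^ 2, Nat.one_le_pow _ _ (by omega), fun δ hδ hδM => ?_⟩
    obtain ⟨d, hd, hdc⟩ := exists_int_mat hInt (Nat.one_le_pow 2 M' (by omega)) hδM
    rw [Nat.cast_pow] at hdc
    have ha0 : ((M' : 𝓞 F) ^ 2) ≠ 0 := by
      refine pow_ne_zero 2 ?_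
      have : M' ≠ 0 := by omega
      exact_mod_cast this
    have hau : ¬ IsUnit ((M' : 𝓞 F) ^ 2) := by
      intro h
      rw [isUnit_pow_iff two_ne_zero] at h
      exact not_isUnit_nat hM'2 h
    obtain ⟨x, hxE, hxb⟩ := hDec (𝓞 F) m _ ha0 hau d hdc
    have hbC : x * d ∈ Cg ((M' : 𝓞 F) ^ 2) (m + 3) :=
      Subgroup.mul_mem _ (EN_le_Cg hxE) (mem_Cg.2 hdc)
    obtain ⟨y, hyE, hyb⟩ := hx (x * d) hxb (by rw [← hM']; exact hbC)
    obtain ⟨a1, a2⟩ := h0 M' (by omega) d0 x hxE _ rfl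
    obtain ⟨b1, b2⟩ := h1 M' (by omega) d1 x hxE _ rfl
    obtain ⟨c1, c2⟩ := h0 K hK1 d0K y hyE _ rfl
    rw [inv_one, one_mul, mul_one] at a1 a2 c1 c2
    have gx : mi F (m + 3) x ∈ Γ := hΓ _ (det_mi _ (EN_det hxE))
    have gy : mi F (m + 3) y ∈ Γ := hΓ _ (det_mi _ (EN_det hyE))
    have hb : mi F (m + 3) (x * d) = mi F (m + 3) x * δ := by rw [map_mul, hd]
    have lδ : dg F (m + 3) δ ∈ UN F (m + 3) N := UN_mono (m + 3) dN hδM
    have gb : mi F (m + 3) (x * d) ∈ Γ := by rw [hb]; exact Γ.mul_mem gx hδ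
    have lb : dg F (m + 3) (mi F (m + 3) (x * d)) ∈ UN F (m + 3) N := by
      rw [hb, map_mul]
      exact Subgroup.mul_mem _ a1 lδ
    have f1 : φ (mi F (m + 3) (x * d)) = φ δ := by
      rw [hb, hφ _ gx _ hδ a1 lδ, a2, zero_add]
    have lγ : dg F (m + 3) (γ⁻¹ * δ * γ) ∈ UN F (m + 3) N := by
      have h3 := hden _ (UN_mono (m + 3) dd hδM)
      rw [inv_inv] at h3
      rw [map_mul, map_mul, map_inv]
      exact h3
    have f2 : φ (γ⁻¹ * mi F (m + 3) (x * d) * γ) = φ (γ⁻¹ * δ * γ) := by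
      have e1 : γ⁻¹ * mi F (m + 3) (x * d) * γ =
          (γ⁻¹ * mi F (m + 3) x * γ) * (γ⁻¹ * δ * γ) := by
        rw [hb]
        group
      rw [e1, hφ _ (hnorm γ _ gx) _ (hnorm γ _ hδ) b1 lγ, b2, zero_add]
    rw [← f2, hyb, hφ _ gy _ gb c1 lb, c2, zero_add, f1]
  -- products
  have hmul : ∀ γ1 γ2, Good γ1 → Good γ2 → Good (γ1 * γ2) := by
    intro γ1 γ2 g1 g2 N hN φ hφ
    obtain ⟨N2, hN2, -, hden⟩ := hDen F (m + 3) (dg F (m + 3) γ2)⁻¹ N hN
    obtain ⟨M2, hM2, h2⟩ := g2 N hN φ hφ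
    obtain ⟨M1, hM1, h1⟩ := g1 N2 hN2 (fun δ => φ (γ2⁻¹ * δ * γ2)) (by
      intro δ hδ δ' hδ' lδ lδ'
      have e1 : γ2⁻¹ * (δ * δ') * γ2 = (γ2⁻¹ * δ * γ2) * (γ2⁻¹ * δ' * γ2) := by group
      change φ (γ2⁻¹ * (δ * δ') * γ2) = φ (γ2⁻¹ * δ * γ2) + φ (γ2⁻¹ * δ' * γ2)
      rw [e1]
      refine hφ _ (hnorm γ2 _ hδ) _ (hnorm γ2 _ hδ') ?_ ?_
      · have h3 := hden _ lδ
        rw [inv_inv] at h3
        rw [map_mul, map_mul, map_inv]
        exact h3
      · have h3 := hden _ lδ'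
        rw [inv_inv] at h3
        rw [map_mul, map_mul, map_inv]
        exact h3)
    refine ⟨M1 * M2, Nat.one_le_iff_ne_zero.2 (Nat.mul_ne_zero (by omega) (by omega)),
      fun δ hδ lδ => ?_⟩
    have e1 : (γ1 * γ2)⁻¹ * δ * (γ1 * γ2) = γ2⁻¹ * (γ1⁻¹ * δ * γ1) * γ2 := by group
    rw [e1, h1 δ hδ (UN_mono (m + 3) (dvd_mul_right _ _) lδ),
      h2 δ hδ (UN_mono (m + 3) (dvd_mul_left _ _) lδ)]
  have hone : Good 1 := by
    intro N hN φ hφ
    exact ⟨1, le_rfl, fun δ _ _ => by rw [inv_one, one_mul, mul_one]⟩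
  -- elementary matrices
  have htv : ∀ (i j : Fin (m + 3)) (hij : i ≠ j) (c : F), Good (tv i j hij c) := by
    intro i j hij c
    by_cases hi : i = 0
    · subst hi
      exact hgen _ (gen_row j hij c)
    · by_cases hj : j = 0
      · subst hj
        exact hgen _ (gen_col i hij c)
      · have e1 := tv_comm i 0 j hi (Ne.symm hj) hij c (1 : F)
        rw [mul_one, tv_inv, tv_inv] at e1
        rw [e1]
        exact hmul _ _ (hmul _ _ (hmul _ _ (hgen _ (gen_col i hi c))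
          (hgen _ (gen_row j (Ne.symm hj) 1))) (hgen _ (gen_col i hi (-c))))
          (hgen _ (gen_row j (Ne.symm hj) (-1)))
  have hlist : ∀ L : List (Matrix.TransvectionStruct (Fin (m + 3)) F), ∃ s : GQ F (m + 3),
      s.1 = (L.map Matrix.TransvectionStruct.toMatrix).prod ∧ Good s := by
    intro L
    induction L with
    | nil => exact ⟨1, by simp, hone⟩
    | cons t L ih =>
      obtain ⟨s, hs, hg⟩ := ih
      refine ⟨tv t.i t.j t.hij t.c * s, ?_, hmul _ _ (htv _ _ _ _) hg⟩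
      rw [Units.val_mul, hs, tv_val, List.map_cons, List.prod_cons]
      rfl
  -- all matrices
  have hall : Good γ := by
    obtain ⟨α, hα⟩ : ∃ α : Fˣ, α.1 = γ.1.det := ⟨Matrix.GeneralLinearGroup.det γ, rfl⟩
    obtain ⟨s, hs⟩ : ∃ s, s = (dgn F (m + 2) α)⁻¹ * γ := ⟨_, rfl⟩
    have hsd : s.1.det = 1 := by
      have h3 : (dgn F (m + 2) α).1.det * s.1.det = γ.1.det := by
        rw [← det_mul, ← Units.val_mul, hs, mul_inv_cancel_left]
      rw [dgn_det, ← hα] at h3
      exact mul_left_cancel₀ α.ne_zero (by rw [h3, mul_one])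
    obtain ⟨L, hL⟩ := hSre F (sr1_field F) (m + 3) s.1 hsd
    obtain ⟨s', hs', hg⟩ := hlist L
    have e1 : s = s' := by
      apply Units.ext
      rw [hL, hs']
    have e2 : γ = dgn F (m + 2) α * s' := by
      rw [← e1, hs, mul_inv_cancel_left]
    rw [e2]
    exact hmul _ _ (hgen _ (gen_dgn α)) hg
  exact hall N hN φ hφ

end Q4.GLC
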