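import Pool.Agent.Q4.GLC.Int

/-!
# Denominators of adeles (helper4, project GLC)
-/

open IsDedekindDomain NumberField Matrix

namespace Q4.GLC

variable {F : Type} [Field F] [NumberField F]

theorem natCast_app (N : ℕ) (v : Pl F) : ((N : Af F) v) = (N : v.adicCompletion F) := rfl

theorem val_nat_le_one (N : ℕ) (v : Pl F) : Valued.v ((N : Af F) v) ≤ 1 := val_nat_le N v

/-- natural numbers are small at a place -/
theorem nat_small (v : Pl F) (k : ℕ) :
    ∃ d : ℕ, 1 ≤ d ∧ Valued.v ((d : Af F) v) ≤ WithZero.exp (-(k : ℤ)) := by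
  have hm0 : Ideal.absNorm v.asIdeal ≠ 0 := fun h => v.ne_bot (Ideal.absNorm_eq_zero_iff.1 h)
  have hm := Ideal.absNorm_mem v.asIdeal
  set m := Ideal.absNorm v.asIdeal with hmdef
  refine ⟨m ^ k, Nat.one_le_pow _ _ (Nat.pos_of_ne_zero hm0), ?_⟩
  have h1 : Valued.v ((m : Af F) v) < 1 := by
    rw [val_natc]
    have := (HeightOneSpectrum.valuation_lt_one_iff_mem (K := F) v (m : 𝓞 F)).2 hm
    simpa using this
  have h2 : Valued.v ((m : Af F) v) ≤ WithZero.exp (-1 : ℤ) := by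
    by_cases h0 : Valued.v ((m : Af F) v) = 0
    · rw [h0]; exact zero_le
    · rw [← WithZero.exp_zero] at h1
      obtain ⟨z, hz⟩ : ∃ z : ℤ, Valued.v ((m : Af F) v) = WithZero.exp z := by
        exact ⟨WithZero.log (Valued.v ((m : Af F) v)), (WithZero.exp_log h0).symm⟩
      rw [hz] at h1 ⊢
      rw [WithZero.exp_lt_exp] at h1
      rw [WithZero.exp_le_exp]
      omega
  have h3 : Valued.v (((m ^ k : ℕ) : Af F) v) = Valued.v ((m : Af F) v) ^ k := by
    rw [natCast_app, natCast_app, Nat.cast_pow, map_pow]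
  rw [h3]
  calc Valued.v ((m : Af F) v) ^ k ≤ (WithZero.exp (-1 : ℤ)) ^ k := pow_le_pow_left₀ zero_le h2 k
    _ = WithZero.exp (-(k : ℤ)) := by
      rw [← WithZero.exp_nsmul]
      congr 1
      simp

theorem bound_exp {v : Pl F} (x : v.adicCompletion F) :
    ∃ k : ℕ, Valued.v x ≤ WithZero.exp (k : ℤ) := by
  by_cases h0 : Valued.v x = 0
  · exact ⟨0, by rw [h0]; exact zero_le⟩
  · refine ⟨(WithZero.log (Valued.v x)).toNat, ?_⟩
    rw [← WithZero.exp_log h0, WithZero.exp_le_exp, WithZero.exp_log h0]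
    exact Int.self_le_toNat _

/-- an adele has a natural number as denominator -/
theorem ade_den (a : Af F) : ∃ d : ℕ, 1 ≤ d ∧ ∀ v : Pl F, Valued.v ((d : Af F) v * a v) ≤ 1 := by
  classical
  have hfin : {v : Pl F | ¬ Valued.v (a v) ≤ 1}.Finite := by
    have := a.2
    exact this
  choose k hk using fun v : Pl F => bound_exp (a v)
  choose d hd1 hd2 using fun v : Pl F => nat_small v (k v)
  refine ⟨∏ v ∈ hfin.toFinset, d v, Nat.succ_le_of_lt (Finset.prod_pos fun v _ => hd1 v),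
    fun v => ?_⟩
  rw [map_mul]
  by_cases hv : v ∈ hfin.toFinset
  · obtain ⟨e, he⟩ := Finset.dvd_prod_of_mem d hv
    rw [he]
    have h1 : Valued.v (((d v * e : ℕ) : Af F) v) =
        Valued.v ((d v : Af F) v) * Valued.v ((e : Af F) v) := by
      rw [natCast_app, natCast_app, natCast_app, Nat.cast_mul, map_mul]
    rw [h1]
    calc Valued.v ((d v : Af F) v) * Valued.v ((e : Af F) v) * Valued.v (a v)
        ≤ WithZero.exp (-(k v : ℤ)) * 1 * WithZero.exp (k v : ℤ) :=
          mul_le_mul' (mul_le_mul' (hd2 v) (val_nat_le_one e v)) (hk v)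
      _ = 1 := by
        rw [mul_one, ← WithZero.exp_add, neg_add_cancel, WithZero.exp_zero]
  · have h1 : Valued.v (a v) ≤ 1 := by
      by_contra h
      exact hv (hfin.mem_toFinset.2 h)
    calc _ ≤ (1 : WithZero (Multiplicative ℤ)) * 1 := mul_le_mul' (val_nat_le_one _ v) h1
      _ = 1 := one_mul 1

theorem tDen : SDen := by
  intro F _ _ n g N hN
  classical
  choose d hd1 hd2 using fun a : Af F => ade_den a
  -- the common denominator
  let D : ℕ := (∏ i : Fin n, ∏ j : Fin n, d (g.1 i j)) * (∏ i : Fin n, ∏ j : Fin n, d (g⁻¹.1 i j))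
  have hD : 1 ≤ D := Nat.succ_le_of_lt (Nat.mul_pos
    (Finset.prod_pos fun i _ => Finset.prod_pos fun j _ => hd1 _)
    (Finset.prod_pos fun i _ => Finset.prod_pos fun j _ => hd1 _))
  have hmulle : ∀ (a b : ℕ) (x : Af F) (v : Pl F), Valued.v ((a : Af F) v * x v) ≤ 1 →
      a ∣ b → Valued.v ((b : Af F) v * x v) ≤ 1 := by
    rintro a b x v h ⟨e, rfl⟩
    have h1 : Valued.v (((a * e : ℕ) : Af F) v * x v) =
        Valued.v ((e : Af F) v) * Valued.v ((a : Af F) v * x v) := by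
      rw [natCast_app, natCast_app, natCast_app, Nat.cast_mul, ← map_mul]
      congr 1
      ring
    rw [h1]
    calc _ ≤ (1 : WithZero (Multiplicative ℤ)) * 1 := mul_le_mul' (val_nat_le_one _ v) h
      _ = 1 := one_mul 1
  have hg1 : ∀ i j v, Valued.v ((D : Af F) v * (g.1 i j) v) ≤ 1 := fun i j v =>
    hmulle _ _ _ _ (hd2 _ v) (Dvd.dvd.mul_right
      ((Finset.dvd_prod_of_mem (fun j => d (g.1 i j)) (Finset.mem_univ j)).trans
        (Finset.dvd_prod_of_mem (fun i => ∏ j : Fin n, d (g.1 i j)) (Finset.mem_univ i))) _)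
  have hg2 : ∀ i j v, Valued.v ((D : Af F) v * (g⁻¹.1 i j) v) ≤ 1 := fun i j v =>
    hmulle _ _ _ _ (hd2 _ v) (Dvd.dvd.mul_left
      ((Finset.dvd_prod_of_mem (fun j => d (g⁻¹.1 i j)) (Finset.mem_univ j)).trans
        (Finset.dvd_prod_of_mem (fun i => ∏ j : Fin n, d (g⁻¹.1 i j)) (Finset.mem_univ i))) _)
  have key : ∀ X : Matrix (Fin n) (Fin n) (Af F), DvdM (N * D ^ 2) X →
      DvdM N (g.1 * X * g⁻¹.1) := by
    intro X hX i j
    rw [Matrix.mul_apply]
    refine DvdN.sum _ fun l _ => ?_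
    rw [Matrix.mul_apply, Finset.sum_mul]
    refine DvdN.sum _ fun m _ => ?_
    intro v
    have h1 := hg1 i m v
    have h2 := hg2 l j v
    have h3 := hX m l v
    change Valued.v (g.1 i m v * X m l v * g⁻¹.1 l j v) ≤ _
    rw [map_mul, map_mul] at *
    have hDN : Valued.v (((N * D ^ 2 : ℕ) : Af F) v) =
        Valued.v ((N : Af F) v) * (Valued.v ((D : Af F) v) * Valued.v ((D : Af F) v)) := by
      rw [natCast_app, natCast_app, natCast_app, Nat.cast_mul, Nat.cast_pow, map_mul, map_pow, sq]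
    rw [hDN] at h3
    calc Valued.v (g.1 i m v) * Valued.v (X m l v) * Valued.v (g⁻¹.1 l j v)
        ≤ Valued.v (g.1 i m v) * (Valued.v ((N : Af F) v) * (Valued.v ((D : Af F) v) *
            Valued.v ((D : Af F) v))) * Valued.v (g⁻¹.1 l j v) := by gcongr
      _ = Valued.v ((N : Af F) v) * (Valued.v ((D : Af F) v) * Valued.v (g.1 i m v)) *
            (Valued.v ((D : Af F) v) * Valued.v (g⁻¹.1 l j v)) := by
          ac_rfl
      _ ≤ Valued.v ((N : Af F) v) * 1 * 1 := by gcongr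
      _ = _ := by rw [mul_one, mul_one]
  refine ⟨N * D ^ 2, Nat.mul_pos hN (Nat.pow_pos hD), Dvd.intro _ rfl, fun u hu => ?_⟩
  obtain ⟨h1, h2⟩ := mem_UN.1 hu
  have e1 : ∀ a : Gf F n, (g * a * g⁻¹).1 - 1 = g.1 * (a.1 - 1) * g⁻¹.1 := by
    intro a
    have h3 : g.1 * g⁻¹.1 = 1 := by rw [← Units.val_mul, mul_inv_cancel, Units.val_one]
    rw [Units.val_mul, Units.val_mul, mul_sub, sub_mul, mul_one, h3]
  refine mem_UN.2 ⟨?_, ?_⟩
  · rw [e1]
    exact key _ h1
  · have e2 : (g * u * g⁻¹)⁻¹ = g * u⁻¹ * g⁻¹ := by group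
    rw [e2, e1]
    exact key _ h2

end Q4.GLC
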