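import Pool.Agent.Q4.GLC.Loc

/-!
# Additive functions on `GL_n(O_v)` vanish on matrices of determinant one (project GLC, job PER)
-/

set_option autoImplicit false

open IsDedekindDomain NumberField Matrix
open Classical

noncomputable section

namespace Q4.GLC.Per

variable {R : Type} [CommRing R] {n : ℕ}

/-- a transvection as a unit -/
def tv (i j : Fin n) (h : i ≠ j) (c : R) : GL (Fin n) R where
  val := Matrix.transvection i j c
  inv := Matrix.transvection i j (-c)
  val_inv := by
    rw [Matrix.transvection_mul_transvection_same _ _ h, add_neg_cancel, Matrix.transvection_zero]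
  inv_val := by
    rw [Matrix.transvection_mul_transvection_same _ _ h, neg_add_cancel, Matrix.transvection_zero]

theorem tv_det (i j : Fin n) (h : i ≠ j) (c : R) : (tv i j h c).1.det = 1 :=
  Matrix.det_transvection_of_ne i j h c

theorem tv_inv_det (i j : Fin n) (h : i ≠ j) (c : R) : ((tv i j h c)⁻¹).1.det = 1 :=
  Matrix.det_transvection_of_ne i j h (-c)

/-- the commutator formula -/
theorem comm (i l j : Fin n) (hil : i ≠ l) (hlj : l ≠ j) (hij : i ≠ j) (a b : R) :
    tv i j hij (a * b) = tv i l hil a * tv l j hlj b * (tv i l hil a)⁻¹ * (tv l j hlj b)⁻¹ := by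
  apply Units.ext
  change 1 + Matrix.single i j (a * b) = (1 + Matrix.single i l a) * (1 + Matrix.single l j b) *
    (1 + Matrix.single i l (-a)) * (1 + Matrix.single l j (-b))
  have e1 : Matrix.single i l (-a) = -Matrix.single i l a := (Matrix.single_neg i l a).symm
  have e2 : Matrix.single l j (-b) = -Matrix.single l j b := (Matrix.single_neg l j b).symm
  rw [e1, e2]
  set P := Matrix.single i l a with hP
  set Q := Matrix.single l j b with hQ
  have h1 : P * P = 0 := Matrix.single_mul_single_of_ne _ _ _ _ (Ne.symm hil) _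
  have h2 : Q * Q = 0 := Matrix.single_mul_single_of_ne _ _ _ _ (Ne.symm hlj) _
  have h3 : Q * P = 0 := Matrix.single_mul_single_of_ne _ _ _ _ (Ne.symm hij) _
  have h4 : P * Q = Matrix.single i j (a * b) := Matrix.single_mul_single_same _ _ _ _ _
  rw [← h4]
  have h5 : (1 + P) * (1 + Q) * (1 + -P) * (1 + -Q) = 1 + P * Q - P * P - Q * P - Q * Q
      + (P * P) * Q - P * (Q * P) + (Q * P) * Q - P * (Q * Q) + P * (Q * P) * Q := by
    noncomm_ring
  rw [h5, h1, h2, h3]
  simp

variable {A : Type} [AddCommGroup A]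

/-- an additive function on the matrices of determinant one -/
structure Addf (φ : GL (Fin n) R → A) : Prop where
  add : ∀ g h : GL (Fin n) R, g.1.det = 1 → h.1.det = 1 → φ (g * h) = φ g + φ h

theorem one (φ : GL (Fin n) R → A) (hφ : Addf φ) : φ 1 = 0 := by
  have h := hφ.add 1 1 Matrix.det_one Matrix.det_one
  rw [one_mul] at h
  exact left_eq_add.1 h

theorem inv (φ : GL (Fin n) R → A) (hφ : Addf φ) (g : GL (Fin n) R) (hg : g.1.det = 1)
    (hg' : g⁻¹.1.det = 1) : φ g⁻¹ = - φ g := by
  have h := hφ.add g g⁻¹ hg hg'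
  rw [mul_inv_cancel, one φ hφ] at h
  exact eq_neg_of_add_eq_zero_right h.symm

theorem det_mul_one (g h : GL (Fin n) R) (hg : g.1.det = 1) (hh : h.1.det = 1) :
    (g * h).1.det = 1 := by
  rw [Units.val_mul, Matrix.det_mul, hg, hh, one_mul]

theorem tv_zero {m : ℕ} (φ : GL (Fin (m + 3)) R → A) (hφ : Addf φ) (i j : Fin (m + 3))
    (hij : i ≠ j) (c : R) : φ (tv i j hij c) = 0 := by
  obtain ⟨l, hl⟩ : ∃ l : Fin (m + 3), l ∉ ({i, j} : Finset (Fin (m + 3))) := by
    by_contra hcon
    push Not at hcon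
    have h1 : (Finset.univ : Finset (Fin (m + 3))) ⊆ {i, j} := fun x _ => hcon x
    have h2 := (Finset.card_le_card h1).trans Finset.card_le_two
    rw [Finset.card_univ, Fintype.card_fin] at h2
    omega
  rw [Finset.mem_insert, Finset.mem_singleton, not_or] at hl
  have hil : i ≠ l := Ne.symm hl.1
  have hlj : l ≠ j := hl.2
  have e : tv i j hij c = tv i j hij (c * 1) := by rw [mul_one]
  rw [e, comm i l j hil hlj hij c 1]
  have d1 := tv_det i l hil c
  have d2 := tv_det l j hlj (1 : R)
  have d3 := tv_inv_det i l hil c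
  have d4 := tv_inv_det l j hlj (1 : R)
  rw [hφ.add _ _ (det_mul_one _ _ (det_mul_one _ _ d1 d2) d3) d4,
    hφ.add _ _ (det_mul_one _ _ d1 d2) d3, hφ.add _ _ d1 d2, inv φ hφ _ d1 d3, inv φ hφ _ d2 d4]
  abel

theorem list_zero {m : ℕ} (φ : GL (Fin (m + 3)) R → A) (hφ : Addf φ)
    (L : List (Matrix.TransvectionStruct (Fin (m + 3)) R)) :
    ∀ g : GL (Fin (m + 3)) R, g.1 = (L.map Matrix.TransvectionStruct.toMatrix).prod →
      g.1.det = 1 ∧ φ g = 0 := by
  induction L with
  | nil =>
    intro g hg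
    have : g = 1 := Units.ext hg
    rw [this]
    exact ⟨Matrix.det_one, one φ hφ⟩
  | cons t L ih =>
    intro g hg
    rw [List.map_cons, List.prod_cons] at hg
    let T := tv t.i t.j t.hij t.c
    have hT : T.1 = t.toMatrix := rfl
    have h1 : (T⁻¹ * g).1 = (L.map Matrix.TransvectionStruct.toMatrix).prod := by
      rw [Units.val_mul, hg, ← hT, ← mul_assoc, ← Units.val_mul, inv_mul_cancel, Units.val_one,
        one_mul]
    obtain ⟨h2, h3⟩ := ih _ h1
    have h4 : g = T * (T⁻¹ * g) := by group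
    have h5 : T.1.det = 1 := tv_det _ _ _ _
    constructor
    · rw [h4]; exact det_mul_one _ _ h5 h2
    · rw [h4, hφ.add _ _ h5 h2, h3, add_zero]
      exact tv_zero φ hφ _ _ _ _

/-- local rings have stable range one -/
theorem sr1_local [IsLocalRing R] : SR1 R := by
  intro a b x y h
  by_cases ha : IsUnit a
  · exact ⟨0, by rw [zero_mul, add_zero]; exact ha⟩
  · refine ⟨1, ?_⟩
    rw [one_mul]
    have hb : IsUnit b := by
      by_contra hb
      have h1 : x * a ∈ IsLocalRing.maximalIdeal R :=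
        Ideal.mul_mem_left _ _ ((IsLocalRing.mem_maximalIdeal a).2 ha)
      have h2 : y * b ∈ IsLocalRing.maximalIdeal R :=
        Ideal.mul_mem_left _ _ ((IsLocalRing.mem_maximalIdeal b).2 hb)
      have h3 := Ideal.add_mem _ h1 h2
      rw [h] at h3
      exact (IsLocalRing.mem_maximalIdeal _).1 h3 isUnit_one
    by_contra hab
    have h1 : a + b ∈ IsLocalRing.maximalIdeal R := (IsLocalRing.mem_maximalIdeal _).2 hab
    have h2 : a ∈ IsLocalRing.maximalIdeal R := (IsLocalRing.mem_maximalIdeal _).2 ha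
    have h3 := Ideal.sub_mem _ h1 h2
    rw [add_sub_cancel_left] at h3
    exact (IsLocalRing.mem_maximalIdeal _).1 h3 hb

end Q4.GLC.Per

namespace Q4.GLC

/-- additive functions on `GL_n(O_v)` -/
theorem tPer : SSre → SPer := by
  intro hS F _ _ m v A _ φ hφ g hg hdet
  have hadd : Per.Addf (R := Cnt.Ov v) (fun B : GL (Fin (m + 3)) (Cnt.Ov v) =>
      φ (Cnt.Lam (m + 3) v B)) := by
    refine ⟨fun B C hB hC => ?_⟩
    rw [map_mul]
    exact hφ _ (Cnt.Lam_mem v B) _ (Cnt.Lam_mem v C) (Cnt.det_lift_one v _ hB)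
      (Cnt.det_lift_one v _ hC)
  have h1 := Cnt.Lam_psi v (⟨g, hg⟩ : Kv (F := F) (m + 3) v)
  change Cnt.Lam (m + 3) v _ = g at h1
  have h2 : (Cnt.psi (m + 3) v ⟨g, hg⟩).1.det = 1 := by
    apply Subtype.ext
    have h3 := Cnt.det_loc v g.1 fun i j => ((Cnt.mem_Kv v g).1 hg).1 i j v
    change ((Cnt.loc v g.1 _).det : v.adicCompletion F) = 1
    rw [h3, hdet]
    rfl
  obtain ⟨L, hL⟩ := hS (Cnt.Ov v) Per.sr1_local (m + 3) _ h2
  have h4 := (Per.list_zero _ hadd L _ hL).2
  rw [← h1]
  exact h4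

end Q4.GLC

end
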