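import Pool.Agent.Q211.GLC.Base

/-!
# Project GLC, job SLF
-/

open IsDedekindDomain NumberField Matrix

namespace Q211.GLC

open Q4.GLC

theorem tv_pow {R : Type} [CommRing R] {n : ℕ} (i j : Fin n) (h : i ≠ j) (c : R) (k : ℕ) :
    (tv i j h c) ^ k = tv i j h ((k : R) * c) := by
  induction k with
  | zero => rw [pow_zero, Nat.cast_zero, zero_mul, tv_zero]
  | succ k ih =>
    rw [pow_succ, ih, tv_mul]
    congr 1
    push_cast
    ring

/-- products of transvections as elements of the group -/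
theorem list_prod {R : Type} [CommRing R] {n : ℕ} {P : GL (Fin n) R → Prop} (h1 : P 1)
    (hm : ∀ a b, P a → P b → P (a * b)) (ht : ∀ (i j : Fin n) (h : i ≠ j) (c : R), P (tv i j h c))
    (L : List (Matrix.TransvectionStruct (Fin n) R)) {s : GL (Fin n) R}
    (hs : s.1 = (L.map Matrix.TransvectionStruct.toMatrix).prod) : P s := by
  have key : ∀ L : List (Matrix.TransvectionStruct (Fin n) R), ∃ s : GL (Fin n) R,
      s.1 = (L.map Matrix.TransvectionStruct.toMatrix).prod ∧ P s := by
    intro L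
    induction L with
    | nil => exact ⟨1, by simp, h1⟩
    | cons t L ih =>
      obtain ⟨s, hs, hg⟩ := ih
      refine ⟨tv t.i t.j t.hij t.c * s, ?_, hm _ _ (ht _ _ _ _) hg⟩
      rw [Units.val_mul, hs, tv_val, List.map_cons, List.prod_cons]
      rfl
  obtain ⟨s', hs', hP⟩ := key L
  have e1 : s = s' := by
    apply Units.ext
    rw [hs, hs']
  rw [e1]
  exact hP

theorem sr1_of_field (K : Type) [Field K] : SR1 K := by
  intro a b x y h
  by_cases ha : a = 0
  · refine ⟨1, ?_⟩
    rw [ha, zero_add, one_mul, isUnit_iff_ne_zero]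
    intro hb
    rw [ha, hb, mul_zero, mul_zero, add_zero] at h
    exact zero_ne_one h
  · exact ⟨0, by rw [zero_mul, add_zero, isUnit_iff_ne_zero]; exact ha⟩

end Q211.GLC

namespace Q4.GLC

open Q211.GLC

theorem tSlf (hSre : SSre) : SSlf := by
  intro F _ _ n Γ hΓ γ hγ
  obtain ⟨L, hL⟩ := hSre F (sr1_of_field F) n γ.1 hγ
  refine list_prod (P := fun s => s ∈ Γ) Γ.one_mem (fun a b ha hb => Γ.mul_mem ha hb) ?_ L hL
  intro i j h c
  have hr : Γ.normalCore.index ≠ 0 := Subgroup.FiniteIndex.index_ne_zero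
  have h1 := Subgroup.pow_index_mem Γ.normalCore (tv i j h (c / (Γ.normalCore.index : F)))
  rw [tv_pow] at h1
  have h2 : (Γ.normalCore.index : F) * (c / (Γ.normalCore.index : F)) = c :=
    mul_div_cancel₀ c (by exact_mod_cast hr)
  rw [h2] at h1
  exact Γ.normalCore_le h1

end Q4.GLC
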