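import Pool.Agent.Q4.GLC.Cnt

/-!
# The block decomposition at a place, representatives of determinant one (project GLC, jobs LOC,
REP and PER)
-/

set_option autoImplicit false

open IsDedekindDomain NumberField Matrix
open Classical

noncomputable section

namespace Q4.GLC.Cnt

variable {F : Type} [Field F] [NumberField F] {n : ℕ}

theorem lift_mul' (v : Pl F) (M N : Matrix (Fin n) (Fin n) (Ov v)) :
    lift v (M * N) = lift v M * lift v N := by
  apply mat_ext
  intro w
  rw [Matrix.map_mul]
  by_cases hw : w = v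
  · subst hw
    rw [lift_self, lift_self, lift_self, ← Matrix.map_mul]
  · rw [lift_ne v w hw, lift_ne v w hw, lift_ne v w hw, one_mul]

theorem lift_one (v : Pl F) : lift v (1 : Matrix (Fin n) (Fin n) (Ov v)) = 1 := by
  apply mat_ext
  intro w
  rw [map_one']
  by_cases hw : w = v
  · subst hw
    rw [lift_self, Matrix.map_one _ (map_zero _) (map_one _)]
  · rw [lift_ne v w hw]

/-- the homomorphism `GL_n(O_v) → GL_n(A)` -/
def Lam (n : ℕ) (v : Pl F) : GL (Fin n) (Ov v) →* Gf F n where
  toFun A :=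
    { val := lift v A.1
      inv := lift v A⁻¹.1
      val_inv := lift_mul v _ _ A.mul_inv
      inv_val := lift_mul v _ _ A.inv_mul }
  map_one' := Units.ext (lift_one v)
  map_mul' _ _ := Units.ext (lift_mul' v _ _)

theorem Lam_mem (v : Pl F) (A : GL (Fin n) (Ov v)) : Lam n v A ∈ Kv n v := by
  rw [mem_Kv]
  exact ⟨fun i j w => lift_int v _ i j w, fun i j w => lift_int v _ i j w,
    fun w hw => lift_ne v w hw _, fun w hw => lift_ne v w hw _⟩

theorem Lam_val (v : Pl F) (A : GL (Fin n) (Ov v)) : (Lam n v A).1 = lift v A.1 := rfl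

theorem Lam_inv_val (v : Pl F) (A : GL (Fin n) (Ov v)) : (Lam n v A)⁻¹.1 = lift v A⁻¹.1 := rfl

/-- elements of `Kv` are lifts -/
theorem Lam_psi (v : Pl F) (g : Kv (F := F) n v) : Lam n v (psi n v g) = g.1 := by
  apply Units.ext
  apply mat_ext
  intro w
  by_cases hw : w = v
  · subst hw
    rw [Lam_val, lift_self]
    exact loc_map w g.1.1 _
  · rw [Lam_val, lift_ne v w hw, ((mem_Kv v g.1).1 g.2).2.2.1 w hw]

theorem det_ev (w : Pl F) (X : Matrix (Fin n) (Fin n) (Af F)) :
    (X.map (ev w)).det = X.det w := by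
  have := (ev w).map_det X
  exact this.symm

theorem det_lift_ext (a b : Af F) (h : ∀ w : Pl F, a w = b w) : a = b :=
  FiniteAdeleRing.ext F h

/-- the determinant of a lift of determinant one -/
theorem det_lift_one (v : Pl F) (M : Matrix (Fin n) (Fin n) (Ov v)) (hM : M.det = 1) :
    (lift v M).det = 1 := by
  apply det_lift_ext
  intro w
  rw [← det_ev]
  by_cases hw : w = v
  · subst hw
    rw [lift_self]
    have := (Ov w).subtype.map_det M
    change _ = (M.map (Ov w).subtype).det at this
    rw [← this, hM]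
    exact map_one _
  · rw [lift_ne v w hw, Matrix.det_one]
    rfl

theorem det_loc (v : Pl F) (X : Matrix (Fin n) (Fin n) (Af F))
    (h : ∀ i j, Valued.v ((X i j) v) ≤ 1) : ((loc v X h).det : v.adicCompletion F) = X.det v := by
  rw [← det_ev, ← loc_map v X h]
  exact (Ov v).subtype.map_det _

theorem tm_ev (v w : Pl F) (hw : w ≠ v) (ϖ : (Af F)ˣ) (hϖ : IsUnif v ϖ) (j : ℕ) :
    (tm n ϖ j).1.map (ev w) = 1 := by
  change (Matrix.diagonal fun i : Fin n => if i.1 < j then ϖ.1 else 1).map (ev w) = 1
  rw [diag_ev, ← Matrix.diagonal_one]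
  congr 1
  funext i
  split_ifs
  · exact hϖ.2 w hw
  · rfl

end Q4.GLC.Cnt

namespace Q4.GLC

/-- the block decomposition at a place -/
theorem tLoc : SLoc := by
  intro F _ _ n v g hg
  let A : GL (Fin n) (Cnt.Ov v) :=
    { val := Cnt.loc v g.1 fun i j => (hg i j).1
      inv := Cnt.loc v g⁻¹.1 fun i j => (hg i j).2
      val_inv := by
        rw [← Cnt.loc_mul v _ _ _ _ (fun i j => by
          rw [← Units.val_mul, mul_inv_cancel, Units.val_one, Cnt.entry_one]
          exact Cnt.entry_one_int v i j)]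
        rw [Cnt.loc_congr v _ 1 (by rw [← Units.val_mul, mul_inv_cancel, Units.val_one]) _
          (fun i j => by rw [Cnt.entry_one]; exact Cnt.entry_one_int v i j)]
        exact Cnt.loc_one v _
      inv_val := by
        rw [← Cnt.loc_mul v _ _ _ _ (fun i j => by
          rw [← Units.val_mul, inv_mul_cancel, Units.val_one, Cnt.entry_one]
          exact Cnt.entry_one_int v i j)]
        rw [Cnt.loc_congr v _ 1 (by rw [← Units.val_mul, inv_mul_cancel, Units.val_one]) _
          (fun i j => by rw [Cnt.entry_one]; exact Cnt.entry_one_int v i j)]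
        exact Cnt.loc_one v _ }
  have hv : (g * (Cnt.Lam n v A)⁻¹).1.map (Cnt.ev v) = 1 := by
    rw [Units.val_mul, Cnt.Lam_inv_val, Matrix.map_mul, Cnt.lift_self]
    change g.1.map (Cnt.ev v) * (Cnt.loc v g⁻¹.1 _).map (Cnt.Ov v).subtype = 1
    rw [Cnt.loc_map, ← Matrix.map_mul, ← Units.val_mul, mul_inv_cancel, Units.val_one,
      Cnt.map_one']
  have key : ∀ (x y : Gf F n), x.1.map (Cnt.ev v) = 1 →
      (∀ w, w ≠ v → y.1.map (Cnt.ev w) = 1) → x * y = y * x := by
    intro x y hx hy
    apply Units.ext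
    apply Cnt.mat_ext
    intro w
    rw [Units.val_mul, Units.val_mul, Matrix.map_mul, Matrix.map_mul]
    by_cases hw : w = v
    · subst hw
      rw [hx, one_mul, mul_one]
    · rw [hy w hw, one_mul, mul_one]
  refine ⟨g * (Cnt.Lam n v A)⁻¹, Cnt.Lam n v A, Cnt.Lam_mem v A, by group, ?_, ?_⟩
  · intro h hh
    exact key _ _ hv ((Cnt.mem_Kv v h).1 hh).2.2.1
  · intro ϖ hϖ j
    exact key _ _ hv fun w hw => Cnt.tm_ev v w hw ϖ hϖ j

/-- representatives of determinant one -/
theorem tRep : SRep := by
  intro F _ _ n v ϖ hϖ j l hl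
  rcases Nat.eq_zero_or_pos n with rfl | hn
  · exact ⟨l, hl, Matrix.det_fin_zero, rfl⟩
  have hl' := (Cnt.mem_Kv v l).1 hl
  have hdd : l⁻¹.1.det * l.1.det = 1 := by
    rw [← Matrix.det_mul, ← Units.val_mul, inv_mul_cancel, Units.val_one, Matrix.det_one]
  have hdd' : l.1.det * l⁻¹.1.det = 1 := by rw [mul_comm]; exact hdd
  let d : Gf F n :=
    { val := Matrix.diagonal fun i => if i.1 = 0 then l⁻¹.1.det else 1
      inv := Matrix.diagonal fun i => if i.1 = 0 then l.1.det else 1
      val_inv := by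
        rw [Matrix.diagonal_mul_diagonal, ← Matrix.diagonal_one]
        congr 1
        funext i
        split_ifs
        · exact hdd
        · exact one_mul 1
      inv_val := by
        rw [Matrix.diagonal_mul_diagonal, ← Matrix.diagonal_one]
        congr 1
        funext i
        split_ifs
        · exact hdd'
        · exact one_mul 1 }
  have hdint : ∀ (X : Matrix (Fin n) (Fin n) (Af F)),
      (∀ i j (w : Pl F), Valued.v ((X i j) w) ≤ 1) → ∀ w : Pl F, Valued.v (X.det w) ≤ 1 := by
    intro X hX w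
    rw [← Cnt.det_loc w X fun i j => hX i j w]
    exact (Cnt.loc w X fun i j => hX i j w).det.2
  have hdw : ∀ (X : Matrix (Fin n) (Fin n) (Af F)) (w : Pl F), X.map (Cnt.ev w) = 1 →
      X.det w = 1 := by
    intro X w hX
    rw [← Cnt.det_ev, hX, Matrix.det_one]
  have hdiag : ∀ (a : Af F) (i k : Fin n) (w : Pl F), Valued.v (a w) ≤ 1 →
      Valued.v (((Matrix.diagonal fun i : Fin n => if i.1 = 0 then a else 1) i k) w) ≤ 1 := by
    intro a i k w ha
    rw [Matrix.diagonal_apply]
    split_ifs
    · exact ha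
    · exact (map_one (Valued.v : Valuation (w.adicCompletion F) _)).le
    · change Valued.v (0 : w.adicCompletion F) ≤ 1
      rw [map_zero]; exact zero_le_one
  have hdiagw : ∀ (a : Af F) (w : Pl F), a w = 1 →
      (Matrix.diagonal fun i : Fin n => if i.1 = 0 then a else 1).map (Cnt.ev w) = 1 := by
    intro a w ha
    rw [Cnt.diag_ev, ← Matrix.diagonal_one]
    congr 1
    funext i
    split_ifs
    · exact ha
    · rfl
  have hd : d ∈ Kv (F := F) n v := by
    rw [Cnt.mem_Kv]
    exact ⟨fun i k w => hdiag _ i k w (hdint _ hl'.2.1 w), fun i k w => hdiag _ i k w (hdint _ hl'.1 w),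
      fun w hw => hdiagw _ w (hdw _ w (hl'.2.2.2 w hw)),
      fun w hw => hdiagw _ w (hdw _ w (hl'.2.2.1 w hw))⟩
  have hdet : d.1.det = l⁻¹.1.det := by
    change (Matrix.diagonal fun i : Fin n => if i.1 = 0 then l⁻¹.1.det else 1).det = _
    rw [Matrix.det_diagonal, Finset.prod_eq_single ⟨0, hn⟩]
    · rfl
    · intro b _ hb
      rw [if_neg]
      intro h
      exact hb (Fin.ext h)
    · intro h
      exact absurd (Finset.mem_univ _) h
  have hcomm : d * tm n ϖ j = tm n ϖ j * d := by
    apply Units.ext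
    change (Matrix.diagonal fun i : Fin n => if i.1 = 0 then l⁻¹.1.det else 1) *
      (Matrix.diagonal fun i : Fin n => if i.1 < j then ϖ.1 else 1) =
      (Matrix.diagonal fun i : Fin n => if i.1 < j then ϖ.1 else 1) *
      (Matrix.diagonal fun i : Fin n => if i.1 = 0 then l⁻¹.1.det else 1)
    rw [Matrix.diagonal_mul_diagonal, Matrix.diagonal_mul_diagonal]
    congr 1
    funext i
    exact mul_comm _ _
  refine ⟨l * d, Subgroup.mul_mem _ hl hd, ?_, ?_⟩
  · rw [Units.val_mul, Matrix.det_mul, hdet, hdd']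
  · rw [QuotientGroup.eq]
    have : (l * d * tm n ϖ j)⁻¹ * (l * tm n ϖ j) = d⁻¹ := by
      rw [mul_assoc, hcomm]
      group
    rw [this]
    exact Subgroup.inv_mem _ hd

end Q4.GLC

end
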