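import Pool.Agent.Q4.GLC.Stm

/-!
# The group theoretic part of the proof (helper4, project GLC)
-/

namespace Q4.GLC

variable {G H D k W I : Type} [Group G] [Group H] [CommGroup D] [Field k] [AddCommGroup W]
  [Module k W]

/-- the properties of the adelic groups which are used -/
structure Sys (ι : H →* G) (Γ : Subgroup H) (det : G →* D) (U : ℕ → Subgroup G) : Prop where
  mono : ∀ M N : ℕ, M ∣ N → U N ≤ U M
  nrm : ∀ M : ℕ, ∀ v ∈ U 1, ∀ u ∈ U M, v * u * v⁻¹ ∈ U M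
  den : ∀ (g : G) (N : ℕ), 1 ≤ N → ∃ M : ℕ, 1 ≤ M ∧ N ∣ M ∧ ∀ u ∈ U M, g * u * g⁻¹ ∈ U N
  dns : ∀ s : G, det s = 1 → ∀ M : ℕ, 1 ≤ M → ∃ γ ∈ Γ, (ι γ)⁻¹ * s ∈ U M
  cen : ∀ (A : Type) [AddCommGroup A] (N : ℕ), 1 ≤ N → ∀ φ : H → A,
    (∀ δ ∈ Γ, ∀ δ' ∈ Γ, ι δ ∈ U N → ι δ' ∈ U N → φ (δ * δ') = φ δ + φ δ') →
    ∀ γ ∈ Γ, ∃ M : ℕ, 1 ≤ M ∧ ∀ δ ∈ Γ, ι δ ∈ U M → φ (γ⁻¹ * δ * γ) = φ δ
  fin : ∀ M : ℕ, 1 ≤ M → ∃ X : Finset G, ∀ g : G, ∃ γ ∈ Γ, ∃ x ∈ X, ∃ u ∈ U M, g = ι γ * x * u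

/-- elements with the determinant of an element of `Γ` -/
def DG (ι : H →* G) (Γ : Subgroup H) (det : G →* D) : Subgroup G := (Γ.map (det.comp ι)).comap det

theorem mem_DG {ι : H →* G} {Γ : Subgroup H} {det : G →* D} {g : G} :
    g ∈ DG ι Γ det ↔ ∃ β ∈ Γ, det (ι β) = det g := Iff.rfl

/-- the right translations on families of functions -/
def Rr (k I G W : Type) [Group G] [Field k] [AddCommGroup W] [Module k W] :
    Representation k G (I → G → W) where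
  toFun g :=
    { toFun := fun c i x => c i (x * g)
      map_add' := fun _ _ => rfl
      map_smul' := fun _ _ => rfl }
  map_one' := by
    ext c i x
    simp
  map_mul' g h := by
    ext c i x
    change c i (x * (g * h)) = c i (x * g * h)
    rw [mul_assoc]

theorem Rr_apply (g : G) (c : I → G → W) (i : I) (x : G) :
    Rr k I G W g c i x = c i (x * g) := rfl

/-- right invariance under a subgroup -/
def RI (V : Subgroup G) (f : G → W) : Prop := ∀ u ∈ V, ∀ x, f (x * u) = f x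

/-- the smooth functions -/
def Sm (k W : Type) [Field k] [AddCommGroup W] [Module k W] (ι : H →* G) (Γ : Subgroup H)
    (det : G →* D) (U : ℕ → Subgroup G) (S : Sys ι Γ det U) : Submodule k (G → W) where
  carrier := {f | ∃ M : ℕ, 1 ≤ M ∧ RI (U M) f}
  zero_mem' := ⟨1, le_refl _, fun _ _ _ => rfl⟩
  add_mem' := by
    rintro f g ⟨M, hM, hf⟩ ⟨N, hN, hg⟩
    refine ⟨M * N, Nat.mul_pos hM hN, fun u hu x => ?_⟩
    rw [Pi.add_apply, Pi.add_apply, hf u (S.mono _ _ (Dvd.intro _ rfl) hu),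
      hg u (S.mono _ _ (Dvd.intro_left _ rfl) hu)]
  smul_mem' := by
    rintro a f ⟨M, hM, hf⟩
    exact ⟨M, hM, fun u hu x => by rw [Pi.smul_apply, Pi.smul_apply, hf u hu]⟩

/-- left invariance under `Γ` -/
def LI (ι : H →* G) (Γ : Subgroup H) (f : G → W) : Prop := ∀ γ ∈ Γ, ∀ x, f (ι γ * x) = f x

section sys

variable {ι : H →* G} {Γ : Subgroup H} {det : G →* D} {U : ℕ → Subgroup G}

theorem Sys.sm_trans (S : Sys ι Γ det U) {f : G → W} (hf : f ∈ Sm k W ι Γ det U S) (g : G) :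
    (fun x => f (x * g)) ∈ Sm k W ι Γ det U S := by
  obtain ⟨M, hM, h⟩ := hf
  obtain ⟨M', hM', -, h2⟩ := S.den g⁻¹ M hM
  refine ⟨M', hM', fun u hu x => ?_⟩
  have h3 := h2 u hu
  rw [inv_inv] at h3
  change f (x * u * g) = f (x * g)
  rw [← h _ h3 (x * g)]
  congr 1
  group

/-- translations of the points by elements with determinant in `det Γ` -/
theorem Sys.dg' (S : Sys ι Γ det U) {g : G} (hg : g ∈ DG ι Γ det) (x : G) (M : ℕ) (hM : 1 ≤ M) :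
    ∃ γ ∈ Γ, ∃ w ∈ U M, x * g = ι γ * x * w := by
  obtain ⟨β, hβ, hb⟩ := mem_DG.1 hg
  obtain ⟨M', hM', -, h2⟩ := S.den x⁻¹ M hM
  -- s = β⁻¹ x g x⁻¹
  have hs : det ((ι β)⁻¹ * x * g * x⁻¹) = 1 := by
    rw [map_mul, map_mul, map_mul, map_inv, map_inv, hb]
    rw [mul_assoc, mul_assoc, mul_comm (det x), mul_assoc, inv_mul_cancel, mul_one,
      inv_mul_cancel]
  obtain ⟨γ, hγ, h3⟩ := S.dns _ hs M' hM'
  refine ⟨β * γ, Γ.mul_mem hβ hγ, _, h2 _ h3, ?_⟩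
  rw [map_mul]
  group

theorem Sys.fix (S : Sys ι Γ det U) {f : G → W} (h1 : f ∈ Sm k W ι Γ det U S)
    (h2 : LI ι Γ f) {g : G} (hg : g ∈ DG ι Γ det) (x : G) : f (x * g) = f x := by
  obtain ⟨M, hM, h⟩ := h1
  obtain ⟨γ, hγ, w, hw, e⟩ := S.dg' hg x M hM
  rw [e, h w hw, h2 γ hγ]

theorem Sys.fix_comm (S : Sys ι Γ det U) {f : G → W} (h1 : f ∈ Sm k W ι Γ det U S)
    (h2 : LI ι Γ f) {g h : G} (hd : det g = det h) (x : G) : f (x * g) = f (x * h) := by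
  have : g = h * (h⁻¹ * g) := by group
  rw [this, ← mul_assoc]
  refine S.fix h1 h2 ?_ _
  rw [mem_DG]
  refine ⟨1, Γ.one_mem, ?_⟩
  rw [map_one, map_one, map_mul, map_inv, hd, inv_mul_cancel]

theorem Sys.finIdx (S : Sys ι Γ det U) (C : Subgroup G) (h1 : DG ι Γ det ≤ C) {N : ℕ}
    (hN : 1 ≤ N) (h2 : U N ≤ C) : commutator G ≤ C ∧ C.FiniteIndex := by
  have hk : ∀ g, det g = 1 → g ∈ C := fun g hg => h1 (mem_DG.2 ⟨1, Γ.one_mem, by
    rw [map_one, map_one, hg]⟩)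
  refine ⟨?_, ?_⟩
  · rw [commutator_eq_closure, Subgroup.closure_le]
    rintro g ⟨a, b, rfl⟩
    refine hk _ ?_
    rw [commutatorElement_def, map_mul, map_mul, map_mul, map_inv, map_inv,
      mul_comm (det a) (det b), mul_inv_cancel_right, mul_inv_cancel]
  · obtain ⟨X, hX⟩ := S.fin N hN
    have hs : Function.Surjective (fun x : X => (x.1 : G ⧸ C)) := by
      intro q
      obtain ⟨g, rfl⟩ := QuotientGroup.mk_surjective q
      obtain ⟨γ, hγ, x, hx, u, hu, e⟩ := hX g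
      refine ⟨⟨x, hx⟩, ?_⟩
      change (x : G ⧸ C) = (g : G ⧸ C)
      rw [QuotientGroup.eq, e]
      have e2 : x⁻¹ * (ι γ * x * u) = (x⁻¹ * ι γ * x) * u := by group
      rw [e2]
      refine C.mul_mem (h1 ?_) (h2 hu)
      refine mem_DG.2 ⟨γ, hγ, ?_⟩
      rw [map_mul, map_mul, map_inv, mul_comm, mul_inv_cancel_left]
    have : Finite (G ⧸ C) := Finite.of_surjective _ hs
    exact Subgroup.finiteIndex_of_finite_quotient

end sys

end Q4.GLC
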