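import Pool.Agent.Q4.GLC.Den

/-!
# Project GLC, job APP: strong approximation for the additive group (helper211)
-/

open IsDedekindDomain NumberField Matrix Topology

namespace Q211.GLC

open Q4.GLC

variable {F : Type} [Field F] [NumberField F]

theorem val_alg (v : Pl F) (α : F) :
    Valued.v (algebraMap F (v.adicCompletion F) α) = v.valuation F α :=
  HeightOneSpectrum.valuedAdicCompletion_eq_valuation' v α

/-- elements of the completion are close to elements of the field -/
theorem dense_F (v : Pl F) (x : v.adicCompletion F) {g : F} (hg : g ≠ 0) :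
    ∃ f : F, Valued.v (x - algebraMap F (v.adicCompletion F) f) < v.valuation F g := by
  let g' : v.adicCompletion F := algebraMap F (v.adicCompletion F) g
  have hg' : g' ≠ 0 := (map_ne_zero _).2 hg
  have h1 : {y : v.adicCompletion F | (Valued.v (R := v.adicCompletion F)).restrict (y - x) <
      (Units.mk0 ((Valued.v (R := v.adicCompletion F)).restrict g') (by simpa using hg')).1} ∈
      𝓝 x := by
    rw [Valued.mem_nhds]
    exact ⟨_, subset_rfl⟩
  obtain ⟨f, hf⟩ := (HeightOneSpectrum.denseRange_algebraMap F v).mem_nhds h1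
  refine ⟨f, ?_⟩
  have h2 : (Valued.v (R := v.adicCompletion F)).restrict (algebraMap F _ f - x) <
    (Valued.v (R := v.adicCompletion F)).restrict g' := hf
  rw [Valuation.restrict_lt_iff] at h2
  have h3 : Valued.v (R := v.adicCompletion F) g' = v.valuation F g := val_alg v g
  rw [h3, Valuation.map_sub_swap] at h2
  exact h2

/-- approximation at one place by an integer -/
theorem local_approx (v : Pl F) (x : v.adicCompletion F) (hx : Valued.v x ≤ 1) {g : F}
    (hg : g ≠ 0) (hg1 : v.valuation F g ≤ 1) :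
    ∃ r : 𝓞 F, Valued.v (x - algebraMap F (v.adicCompletion F) (algebraMap (𝓞 F) F r)) ≤
      v.valuation F g := by
  obtain ⟨f, hf⟩ := dense_F v x hg
  have hf1 : v.valuation F f ≤ 1 := by
    rw [← val_alg]
    have h1 : algebraMap F (v.adicCompletion F) f =
        x - (x - algebraMap F (v.adicCompletion F) f) := by ring
    rw [h1]
    exact (Valuation.map_sub _ _ _).trans (max_le hx (hf.le.trans hg1))
  have hgu : v.valuation F g ≠ 0 := by simpa using hg
  obtain ⟨r, hr⟩ := HeightOneSpectrum.exists_valuation_sub_lt_of_integer v hf1 (Units.mk0 _ hgu)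
  refine ⟨r, ?_⟩
  have h1 : x - algebraMap F (v.adicCompletion F) (algebraMap (𝓞 F) F r) =
      (x - algebraMap F (v.adicCompletion F) f) -
        algebraMap F (v.adicCompletion F) (algebraMap (𝓞 F) F r - f) := by
    rw [map_sub]; ring
  rw [h1]
  refine (Valuation.map_sub _ _ _).trans (max_le hf.le ?_)
  rw [val_alg]
  exact hr.le

theorem exp_small {γ : WithZero (Multiplicative ℤ)} (h : γ ≠ 0) :
    ∃ n : ℕ, WithZero.exp (-(n : ℤ)) ≤ γ := by
  refine ⟨(-WithZero.log γ).toNat, ?_⟩
  rw [← WithZero.exp_log h, WithZero.exp_le_exp, WithZero.exp_log h]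
  have := Int.self_le_toNat (-WithZero.log γ)
  omega

/-- strong approximation for integral adeles -/
theorem app_int (x : Af F) (hx : ∀ v : Pl F, Valued.v (x v) ≤ 1) (D : ℕ) (hD : 1 ≤ D) :
    ∃ b : 𝓞 F, ∀ v : Pl F, Valued.v (x v - algebraMap F (v.adicCompletion F)
      (algebraMap (𝓞 F) F b)) ≤ v.valuation F (D : F) := by
  classical
  have hD0 : (D : F) ≠ 0 := by exact_mod_cast (by omega : D ≠ 0)
  have hD1 : ∀ v : Pl F, v.valuation F (D : F) ≤ 1 := fun v => by
    rw [← val_natc]
    exact val_nat_le_one D v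
  have hfin : {v : Pl F | v.asIdeal ∣ Ideal.span {(D : 𝓞 F)}}.Finite := by
    refine Ideal.finite_factors ?_
    rw [Ne, Ideal.zero_eq_bot, Ideal.span_singleton_eq_bot]
    exact_mod_cast (by omega : D ≠ 0)
  choose r hr using fun v : Pl F => local_approx v (x v) (hx v) hD0 (hD1 v)
  choose e he using fun v : Pl F => exp_small (γ := v.valuation F (D : F)) (by simpa using hD0)
  obtain ⟨b, hb⟩ := IsDedekindDomain.exists_forall_sub_mem_ideal (s := hfin.toFinset)
    (fun v : Pl F => v.asIdeal) e (fun v _ => v.prime)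
    (fun v _ w _ hvw h => hvw (HeightOneSpectrum.ext h)) (fun v => r v.1)
  refine ⟨b, fun v => ?_⟩
  have h1 : x v - algebraMap F (v.adicCompletion F) (algebraMap (𝓞 F) F b) =
      (x v - algebraMap F (v.adicCompletion F) (algebraMap (𝓞 F) F (r v))) -
        algebraMap F (v.adicCompletion F) (algebraMap (𝓞 F) F (b - r v)) := by
    rw [map_sub, map_sub]; ring
  by_cases hv : v ∈ hfin.toFinset
  · rw [h1]
    refine (Valuation.map_sub _ _ _).trans (max_le (hr v) ?_)
    rw [val_alg, HeightOneSpectrum.valuation_of_algebraMap]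
    exact ((HeightOneSpectrum.intValuation_le_pow_iff_mem v _ _).2 (hb v hv)).trans (he v)
  · have h2 : v.valuation F (D : F) = 1 := by
      refine le_antisymm (hD1 v) ?_
      by_contra h
      apply hv
      rw [Set.Finite.mem_toFinset, Set.mem_setOf_eq, Ideal.dvd_span_singleton]
      have h3 : v.valuation F (algebraMap (𝓞 F) F (D : 𝓞 F)) < 1 := by
        rw [map_natCast]; exact not_le.1 h
      exact (HeightOneSpectrum.valuation_lt_one_iff_mem v _).1 h3
    rw [h2]
    refine (Valuation.map_sub _ _ _).trans (max_le (hx v) ?_)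
    rw [val_alg]
    exact HeightOneSpectrum.valuation_le_one v b

end Q211.GLC

namespace Q4.GLC

open Q211.GLC

theorem tApp : SApp := by
  intro F _ _ a N hN
  obtain ⟨d, hd, hda⟩ := ade_den a
  obtain ⟨b, hb⟩ := app_int ((d : Af F) * a) (fun v => hda v) (d * N) (Nat.mul_pos hd hN)
  have hd0 : (d : F) ≠ 0 := by exact_mod_cast (by omega : d ≠ 0)
  refine ⟨algebraMap (𝓞 F) F b / d, fun v => ?_⟩
  have h1 : Valued.v ((d : Af F) v * a v - algebraMap F (v.adicCompletion F)
      (algebraMap (𝓞 F) F b)) ≤ v.valuation F ((d * N : ℕ) : F) := hb v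
  have h2 : (d : Af F) v * a v - algebraMap F (v.adicCompletion F) (algebraMap (𝓞 F) F b) =
      (d : Af F) v * (a - algebraMap F (Af F) (algebraMap (𝓞 F) F b / d)) v := by
    have h3 : (a - algebraMap F (Af F) (algebraMap (𝓞 F) F b / d)) v =
        a v - algebraMap F (v.adicCompletion F) (algebraMap (𝓞 F) F b / d) := rfl
    have h4 : (d : Af F) v = algebraMap F (v.adicCompletion F) (d : F) := by
      rw [map_natCast]; rfl
    rw [h3, h4, mul_sub, ← map_mul, mul_div_cancel₀ _ hd0]
  rw [h2, map_mul, Nat.cast_mul, map_mul, ← val_natc, ← val_natc] at h1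
  have h5 : 0 < Valued.v ((d : Af F) v) := by
    rw [val_natc]
    exact zero_lt_iff.2 (by simpa using hd0)
  exact (mul_le_mul_iff_right₀ h5).1 h1

end Q4.GLC
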