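import Pool.Agent.Q4.GLC.CaseB2

/-!
# Degree one, the cocycle is a coboundary of a function which is invariant under the kernel of `ρ`
(helper4, project GLC)
-/

namespace Q4.GLC

variable {G H D k W I : Type} [Group G] [Group H] [CommGroup D] [Field k] [AddCommGroup W]
  [Module k W]
variable {ι : H →* G} {Γ : Subgroup H} {det : G →* D} {U : ℕ → Subgroup G}

/-- the kernel of `ρ` as a subgroup of `G` -/
def KR (K : Subgroup G) (ρ : Representation k K W) : Subgroup G := (MonoidHom.ker ρ).map K.subtype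

theorem mem_KR {K : Subgroup G} {ρ : Representation k K W} {x : G} :
    x ∈ KR K ρ ↔ ∃ h : x ∈ K, ρ ⟨x, h⟩ = 1 := by
  constructor
  · rintro ⟨y, hy, rfl⟩
    exact ⟨y.2, hy⟩
  · rintro ⟨h, e⟩
    exact ⟨⟨x, h⟩, e, rfl⟩

theorem KR_conj {K : Subgroup G} {ρ : Representation k K W} {x : G} (hx : x ∈ KR K ρ) (κ : K) :
    κ.1⁻¹ * x * κ.1 ∈ KR K ρ := by
  obtain ⟨y, hy, rfl⟩ := hx
  refine ⟨κ⁻¹ * y * κ, ?_, rfl⟩
  have hy' : ρ y = 1 := hy
  change ρ (κ⁻¹ * y * κ) = 1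
  rw [map_mul, map_mul, hy', mul_one, ← map_mul, inv_mul_cancel, map_one]

theorem mw_ri {K : Subgroup G} {ρ : Representation k K W} {f : G → W} (hf : f ∈ MW K ρ) :
    RI (KR K ρ) f := by
  intro u hu x
  obtain ⟨h, e⟩ := mem_KR.1 hu
  exact mw_inv hf ⟨u, h⟩ e x

/-- the defect of a function -/
def eA (K : Subgroup G) (ρ : Representation k K W) : (G → W) →ₗ[k] (K → G → W) where
  toFun f := fun κ x => ρ κ (f (x * κ.1)) - f x
  map_add' f g := by
    funext κ x
    simp only [Pi.add_apply, map_add]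
    abel
  map_smul' a f := by
    funext κ x
    simp only [Pi.smul_apply, map_smul, RingHom.id_apply, smul_sub]

theorem eA_app {K : Subgroup G} {ρ : Representation k K W} (f : G → W) (κ : K) (x : G) :
    eA K ρ f κ x = ρ κ (f (x * κ.1)) - f x := rfl

theorem rho_inv {K : Subgroup G} {ρ : Representation k K W} (κ : K) (w : W) :
    ρ κ⁻¹ (ρ κ w) = w := by
  change (ρ κ⁻¹ * ρ κ) w = w
  rw [← map_mul, inv_mul_cancel, map_one]
  rfl

theorem rho_inv' {K : Subgroup G} {ρ : Representation k K W} (κ : K) (w : W) :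
    ρ κ (ρ κ⁻¹ w) = w := by
  change (ρ κ * ρ κ⁻¹) w = w
  rw [← map_mul, mul_inv_cancel, map_one]
  rfl

theorem eA_zero {K : Subgroup G} {ρ : Representation k K W} {f : G → W} :
    eA K ρ f = 0 ↔ f ∈ MW K ρ := by
  constructor
  · intro h κ x
    have h1 := congrFun (congrFun h κ) x
    rw [eA_app] at h1
    have h2 : ρ κ (f (x * κ.1)) = f x := sub_eq_zero.1 h1
    rw [← h2, rho_inv]
  · intro h
    funext κ x
    rw [eA_app, h κ x, rho_inv', sub_self]
    rfl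

/-- the left `Γ`-invariant functions, right invariant under the kernel of `ρ` -/
def LA (ι : H →* G) (Γ : Subgroup H) (K : Subgroup G) (ρ : Representation k K W) :
    Submodule k (G → W) where
  carrier := {f | RI (KR K ρ) f ∧ LI ι Γ f}
  zero_mem' := ⟨fun _ _ _ => rfl, fun _ _ _ => rfl⟩
  add_mem' := by
    rintro f g ⟨h1, h2⟩ ⟨h3, h4⟩
    refine ⟨fun u hu x => ?_, fun γ hγ x => ?_⟩
    · rw [Pi.add_apply, Pi.add_apply, h1 u hu, h3 u hu]
    · rw [Pi.add_apply, Pi.add_apply, h2 γ hγ, h4 γ hγ]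
  smul_mem' := by
    rintro a f ⟨h1, h2⟩
    refine ⟨fun u hu x => ?_, fun γ hγ x => ?_⟩
    · rw [Pi.smul_apply, Pi.smul_apply, h1 u hu]
    · rw [Pi.smul_apply, Pi.smul_apply, h2 γ hγ]

theorem hecke_smul_sub {L : Subgroup G} {t : G} {T : Finset (G ⧸ L)} {s : G ⧸ L → G}
    (hs : HS det L t T s) {f : G → W} (hf : RI L f) (γ : H) :
    hecke L t (lt ι γ f - f) = lt ι γ (hecke L t f) - hecke L t f := by
  have h1 : RI L (lt ι γ f - f) := by
    intro u hu x
    change f ((ι γ)⁻¹ * (x * u)) - f (x * u) = f ((ι γ)⁻¹ * x) - f x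
    rw [← mul_assoc, hf u hu, hf u hu]
  funext x
  rw [hs.heck _ h1, Pi.sub_apply]
  change _ = hecke L t f ((ι γ)⁻¹ * x) - hecke L t f x
  rw [hs.heck f hf, hs.heck f hf, ← Finset.sum_sub_distrib]
  refine Finset.sum_congr rfl fun c _ => ?_
  change f ((ι γ)⁻¹ * (x * (s c * t))) - _ = _
  rw [← mul_assoc]

theorem caseA (hE : SEig) [IsAlgClosed k] (S : Sys ι Γ det U) {K : Subgroup G}
    {ρ : Representation k K W} (hK : ∃ N : ℕ, 1 ≤ N ∧ ∀ u ∈ U N, ∃ h : u ∈ K, ρ ⟨u, h⟩ = 1)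
    (L : I → Subgroup G) (t : I → G) (θ : I → k) (hD : ∀ i, HD K ρ det (L i) (t i))
    (c : Γ → G → W) (hc : c ∈ Z1 ι Γ (MW K ρ)) (hc0 : c ∉ B1 ι Γ (MW K ρ))
    (f : G → W) (hf : RI (KR K ρ) f) (hcf : ∀ γ : Γ, c γ = lt ι γ.1 f - f)
    (hθ : ∀ i, (fun γ => hecke (L i) (t i) (c γ)) - θ i • c ∈ B1 ι Γ (MW K ρ)) :
    Ccl k ι Γ det U L t θ := by
  obtain ⟨N, hN, hKN⟩ := id hK
  have hUN : U N ≤ KR K ρ := fun u hu => mem_KR.2 (hKN u hu)
  have hLK : ∀ i, L i ≤ KR K ρ := fun i l hl =>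
    mem_KR.2 ⟨(hD i).le hl, (hD i).triv ⟨l, (hD i).le hl⟩ hl⟩
  have hsm : ∀ ℓ : G → W, RI (KR K ρ) ℓ → ℓ ∈ Sm k W ι Γ det U S := fun ℓ hℓ =>
    ⟨N, hN, fun u hu x => hℓ u (hUN hu) x⟩
  -- the defect of `f`
  have he1 : ∀ κ : K, RI (KR K ρ) (eA K ρ f κ) := by
    intro κ u hu x
    rw [eA_app, eA_app, hf u hu]
    have e1 : x * u * κ.1 = x * κ.1 * (κ.1⁻¹ * u * κ.1) := by group
    rw [e1, hf _ (KR_conj hu κ)]
  have he2 : ∀ κ : K, LI ι Γ (eA K ρ f κ) := by
    intro κ γ hγ x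
    have h1 := (hc.1 ⟨γ⁻¹, Γ.inv_mem hγ⟩) κ x
    rw [hcf] at h1
    have h2 := congrArg (ρ κ) h1
    rw [rho_inv'] at h2
    simp only [Pi.sub_apply, lt, map_inv, inv_inv, map_sub] at h2
    rw [eA_app, eA_app, mul_assoc]
    -- ρ f(γxκ) - ρ f(xκ) = f(γx) - f x
    have h3 : ρ κ (f (ι γ * (x * κ.1))) - f (ι γ * x) = ρ κ (f (x * κ.1)) - f x := by
      rw [sub_eq_sub_iff_add_eq_add] at h2 ⊢
      rw [h2]
      abel
    exact h3
  let B : Submodule k (K → G → W) := (LA ι Γ K ρ).map (eA K ρ)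
  have hBs : ∀ g, ∀ b ∈ B, Rr k K G W g b ∈ B := by
    rintro g b ⟨ℓ, ⟨h1, h2⟩, rfl⟩
    have hm : ∀ (a b : G), det a = det b → ∀ x, ℓ (x * a) = ℓ (x * b) := fun a b h x =>
      S.fix_comm (hsm ℓ h1) h2 h x
    refine ⟨fun x => ℓ (x * g), ⟨?_, ?_⟩, ?_⟩
    · intro u hu x
      change ℓ (x * u * g) = ℓ (x * g)
      rw [mul_assoc, hm (u * g) (g * u) (by rw [map_mul, map_mul, mul_comm]), ← mul_assoc, h1 u hu]
    · intro γ hγ x
      change ℓ (ι γ * x * g) = ℓ (x * g)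
      rw [mul_assoc, h2 γ hγ]
    · funext κ x
      rw [eA_app, Rr_apply, eA_app]
      rw [mul_assoc, hm (κ.1 * g) (g * κ.1) (by rw [map_mul, map_mul, mul_comm]), ← mul_assoc]
  refine wrap hE S (Rr k K G W) B hBs (eA K ρ f) ?_ L t θ ?_ ?_ ?_ ?_
  · rintro ⟨ℓ, ⟨h1, h2⟩, h3⟩
    refine hc0 ⟨f - ℓ, ?_, fun γ => ?_⟩
    · rw [← eA_zero, map_sub, h3, sub_self]
    · rw [hcf]
      funext x
      simp only [Pi.sub_apply, lt]
      have h4 := h2 γ⁻¹.1 γ⁻¹.2 x
      have h5 : ι (γ⁻¹ : Γ).1 = (ι γ.1)⁻¹ := by simp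
      rw [h5] at h4
      rw [h4]
      abel
  · intro g hg
    have : Rr k K G W g (eA K ρ f) - eA K ρ f = 0 := by
      rw [sub_eq_zero]
      funext κ x
      exact S.fix (hsm _ (he1 κ)) (he2 κ) hg x
    rw [this]
    exact B.zero_mem
  · refine ⟨N, hN, fun u hu => ?_⟩
    have : Rr k K G W u (eA K ρ f) - eA K ρ f = 0 := by
      rw [sub_eq_zero]
      funext κ x
      exact he1 κ u (hUN hu) x
    rw [this]
    exact B.zero_mem
  · intro i l hl
    have : Rr k K G W l (eA K ρ f) - eA K ρ f = 0 := by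
      rw [sub_eq_zero]
      funext κ x
      exact he1 κ l (hLK i hl) x
    rw [this]
    exact B.zero_mem
  · intro i
    obtain ⟨T, s, hs⟩ := (hD i).hs
    have hfL : RI (L i) f := fun l hl x => hf l (hLK i hl) x
    set Tf : G → W := hecke (L i) (t i) f with hTf
    -- the translate of the sum
    have hsum : ∀ (κ : G) (κ' : G) (l : L i), κ = κ' * l.1 → (∀ h ∈ L i, κ' * h = h * κ') →
        κ' * t i = t i * κ' → ∀ x, Tf (x * κ) = ∑ a ∈ T, f (x * (s a * t i) * κ') := by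
      intro κ κ' l e1 e2 e3 x
      rw [hTf, hs.heck f hfL, ← hs.sum_perm l (fun a => f (x * (s a * t i) * κ'))]
      refine Finset.sum_congr rfl fun a ha => ?_
      obtain ⟨r, hr, -, e4⟩ := hs.perm l ha
      have e5 : x * κ * (s a * t i) = x * (s (l • a) * t i) * κ' * r := by
        rw [e1]
        calc x * (κ' * l.1) * (s a * t i) = x * κ' * (l.1 * (s a * t i)) := by group
          _ = x * κ' * (s (l • a) * t i * r) := by rw [e4]
          _ = x * (κ' * s (l • a)) * t i * r := by group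
          _ = x * (s (l • a) * κ') * t i * r := by rw [e2 _ (hs.memL _ (hs.smul l a ha))]
          _ = x * s (l • a) * (κ' * t i) * r := by group
          _ = x * s (l • a) * (t i * κ') * r := by rw [e3]
          _ = _ := by group
      rw [e5, hfL r hr]
    -- the defect of the Hecke translate
    have hdef : eA K ρ Tf = (dgr (L i) (t i) : k) • Rr k K G W (t i) (eA K ρ f) := by
      funext κ x
      obtain ⟨κ', l, hl, e1, e2, e3⟩ := (hD i).dec κ.1 κ.2
      have hκ' : κ' ∈ K := by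
        have : κ' = κ.1 * l⁻¹ := by rw [e1]; group
        rw [this]
        exact K.mul_mem κ.2 (K.inv_mem ((hD i).le hl))
      have hρ : ρ κ = ρ ⟨κ', hκ'⟩ := by
        have : κ = ⟨κ', hκ'⟩ * ⟨l, (hD i).le hl⟩ := Subtype.ext e1
        rw [this, map_mul, (hD i).triv ⟨l, (hD i).le hl⟩ hl, mul_one]
      have hx : Tf x = ∑ a ∈ T, f (x * (s a * t i)) := by rw [hTf, hs.heck f hfL]
      have h1 : eA K ρ Tf κ x = ∑ a ∈ T, eA K ρ f κ (x * (s a * t i)) := by
        rw [eA_app, hsum κ.1 κ' ⟨l, hl⟩ e1 e2 e3 x, hx, map_sum, ← Finset.sum_sub_distrib]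
        refine Finset.sum_congr rfl fun a _ => ?_
        rw [eA_app]
        have e6 : x * (s a * t i) * κ.1 = x * (s a * t i) * κ' * l := by rw [e1]; group
        rw [e6, hfL l hl]
      have h2 : ∀ a ∈ T, eA K ρ f κ (x * (s a * t i)) = eA K ρ f κ (x * t i) := by
        intro a ha
        refine S.fix_comm (hsm _ (he1 κ)) (he2 κ) ?_ x
        rw [map_mul, hs.det1 a ha, one_mul]
      rw [h1, Finset.sum_congr rfl h2, Finset.sum_const, hs.card, ← Nat.cast_smul_eq_nsmul k]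
      rfl
    -- the eigenvalue equation
    obtain ⟨g, hg, e⟩ := hθ i
    have hTR : RI (KR K ρ) Tf := by
      intro u hu x
      obtain ⟨h, e0⟩ := mem_KR.1 hu
      obtain ⟨κ', l, hl, e1, e2, e3⟩ := (hD i).dec u h
      have hκ' : κ' ∈ KR K ρ := by
        have : κ' = u * l⁻¹ := by rw [e1]; group
        rw [this]
        exact (KR K ρ).mul_mem hu ((KR K ρ).inv_mem (hLK i hl))
      rw [hsum u κ' ⟨l, hl⟩ e1 e2 e3 x, hTf, hs.heck f hfL]
      exact Finset.sum_congr rfl fun a _ => hf κ' hκ' _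
    have hℓ : Tf - θ i • f - g ∈ LA ι Γ K ρ := by
      refine ⟨?_, ?_⟩
      · intro u hu x
        simp only [Pi.sub_apply, Pi.smul_apply]
        rw [hTR u hu, hf u hu, mw_ri hg u hu]
      · intro γ hγ x
        have h1 := congrFun (e ⟨γ⁻¹, Γ.inv_mem hγ⟩) x
        simp only [Pi.sub_apply, Pi.smul_apply] at h1
        rw [hcf, hecke_smul_sub hs hfL] at h1
        simp only [Pi.sub_apply, lt, map_inv, inv_inv] at h1
        simp only [Pi.sub_apply, Pi.smul_apply]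
        rw [← hTf] at h1
        rw [smul_sub] at h1
        have h2 : Tf (ι γ * x) - θ i • f (ι γ * x) - g (ι γ * x) -
            (Tf x - θ i • f x - g x) =
            (Tf (ι γ * x) - Tf x - (θ i • f (ι γ * x) - θ i • f x)) -
              (g (ι γ * x) - g x) := by abel
        rw [← sub_eq_zero, h2, h1, sub_self]
    refine (Submodule.neg_mem_iff _).1 ⟨Tf - θ i • f - g, hℓ, ?_⟩
    rw [map_sub, map_sub, map_smul, hdef, eA_zero.2 hg, sub_zero, neg_sub]

end Q4.GLC
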