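import Pool.Agent.Q4.GLC.CaseA

/-!
# Degree one, the cocycle is a coboundary of a smooth function (helper4, project GLC)
-/

namespace Q4.GLC

variable {G H D k W I : Type} [Group G] [Group H] [CommGroup D] [Field k] [AddCommGroup W]
  [Module k W]
variable {ι : H →* G} {Γ : Subgroup H} {det : G →* D} {U : ℕ → Subgroup G}

/-- the differences of the translates by a subgroup -/
def eB (k : Type) [Field k] [Module k W] (V : Subgroup G) : (G → W) →ₗ[k] (V → G → W) where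
  toFun f := fun κ x => f (x * κ.1) - f x
  map_add' f g := by
    funext κ x
    simp only [Pi.add_apply]
    abel
  map_smul' a f := by
    funext κ x
    simp only [Pi.smul_apply, RingHom.id_apply, smul_sub]

theorem eB_app {V : Subgroup G} (f : G → W) (κ : V) (x : G) :
    eB k V f κ x = f (x * κ.1) - f x := rfl

/-- the left `Γ`-invariant smooth functions -/
def LB (k W : Type) [Field k] [AddCommGroup W] [Module k W] (ι : H →* G) (Γ : Subgroup H)
    (det : G →* D) (U : ℕ → Subgroup G) (S : Sys ι Γ det U) : Submodule k (G → W) where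
  carrier := {f | f ∈ Sm k W ι Γ det U S ∧ LI ι Γ f}
  zero_mem' := ⟨Submodule.zero_mem _, fun _ _ _ => rfl⟩
  add_mem' := by
    rintro f g ⟨h1, h2⟩ ⟨h3, h4⟩
    refine ⟨Submodule.add_mem _ h1 h3, fun γ hγ x => ?_⟩
    rw [Pi.add_apply, Pi.add_apply, h2 γ hγ, h4 γ hγ]
  smul_mem' := by
    rintro a f ⟨h1, h2⟩
    refine ⟨Submodule.smul_mem _ a h1, fun γ hγ x => ?_⟩
    rw [Pi.smul_apply, Pi.smul_apply, h2 γ hγ]

/-- uniform conjugation -/
theorem Sys.unif (S : Sys ι Γ det U) {K : Subgroup G}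
    (hF : ∃ N : ℕ, 1 ≤ N ∧ ((U N).subgroupOf K).FiniteIndex) (N : ℕ) (hN : 1 ≤ N) :
    ∃ M : ℕ, 1 ≤ M ∧ ∀ κ ∈ K, ∀ u ∈ U M, κ⁻¹ * u * κ ∈ U N := by
  classical
  obtain ⟨N0, hN0, hF⟩ := hF
  choose Mg h1 _ h2 using fun g : G => S.den g⁻¹ N hN
  have : Finite (K ⧸ (U N0).subgroupOf K) := inferInstance
  have : Fintype (K ⧸ (U N0).subgroupOf K) := Fintype.ofFinite _
  refine ⟨∏ q : K ⧸ (U N0).subgroupOf K, Mg q.out.1,
    Nat.succ_le_of_lt (Finset.prod_pos fun q _ => h1 _), fun κ hκ u hu => ?_⟩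
  set q : K ⧸ (U N0).subgroupOf K := ((⟨κ, hκ⟩ : K) : K ⧸ (U N0).subgroupOf K) with hq
  have h3 : q.out⁻¹ * ⟨κ, hκ⟩ ∈ (U N0).subgroupOf K := by
    rw [← QuotientGroup.eq, QuotientGroup.out_eq']
  have h4 : q.out.1⁻¹ * κ ∈ U N0 := h3
  have h5 := h2 q.out.1 u (S.mono _ _ (Finset.dvd_prod_of_mem (fun q : K ⧸ (U N0).subgroupOf K =>
    Mg q.out.1) (Finset.mem_univ q)) hu)
  rw [inv_inv] at h5
  have h6 : (q.out.1⁻¹ * κ)⁻¹ ∈ U 1 := (U 1).inv_mem (S.mono _ _ (one_dvd _) h4)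
  have h7 := S.nrm N _ h6 _ h5
  have e : (q.out.1⁻¹ * κ)⁻¹ * (q.out.1⁻¹ * u * q.out.1) * (q.out.1⁻¹ * κ)⁻¹⁻¹ =
      κ⁻¹ * u * κ := by group
  rwa [e] at h7

theorem caseB1 (hE : SEig) [IsAlgClosed k] (S : Sys ι Γ det U) {K : Subgroup G}
    {ρ : Representation k K W} (hK : ∃ N : ℕ, 1 ≤ N ∧ ∀ u ∈ U N, ∃ h : u ∈ K, ρ ⟨u, h⟩ = 1)
    (hKF : ∃ N : ℕ, 1 ≤ N ∧ ((U N).subgroupOf K).FiniteIndex)
    (L : I → Subgroup G) (t : I → G) (θ : I → k) (hD : ∀ i, HD K ρ det (L i) (t i))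
    (c : Γ → G → W) (hc : c ∈ Z1 ι Γ (MW K ρ))
    (hc0 : ∀ f : G → W, RI (KR K ρ) f → ¬ ∀ γ : Γ, c γ = lt ι γ.1 f - f)
    (hcB : c ∈ Bsm k W ι Γ det U S)
    (hθ : ∀ i, (fun γ => hecke (L i) (t i) (c γ)) - θ i • c ∈ B1 ι Γ (MW K ρ)) :
    Ccl k ι Γ det U L t θ := by
  obtain ⟨N, hN, hKN⟩ := id hK
  obtain ⟨f, hfS, hcf⟩ := hcB
  obtain ⟨N1, hN1, hf1⟩ := id hfS
  have hKK : KR K ρ ≤ K := fun x hx => (mem_KR.1 hx).1
  have hUN : U N ≤ KR K ρ := fun u hu => mem_KR.2 (hKN u hu)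
  have hLK : ∀ i, L i ≤ KR K ρ := fun i l hl =>
    mem_KR.2 ⟨(hD i).le hl, (hD i).triv ⟨l, (hD i).le hl⟩ hl⟩
  set V : Subgroup G := KR K ρ with hV
  have hcR : ∀ γ, RI V (c γ) := fun γ => mw_ri (hc.1 γ)
  -- the differences of `f`
  have hc2 : ∀ (γ : Γ) (x : G), c γ x = f ((ι γ.1)⁻¹ * x) - f x := fun γ x => by
    rw [hcf γ]; rfl
  have he2 : ∀ κ : V, LI ι Γ (eB k V f κ) := by
    intro κ γ hγ x
    have h1 := hcR ⟨γ⁻¹, Γ.inv_mem hγ⟩ κ.1 κ.2 x
    rw [hc2, hc2] at h1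
    simp only [map_inv, inv_inv] at h1
    rw [eB_app, eB_app, mul_assoc]
    rw [sub_eq_sub_iff_add_eq_add] at h1 ⊢
    rw [h1]
    abel
  have he1 : ∀ κ : V, eB k V f κ ∈ Sm k W ι Γ det U S := fun κ =>
    Submodule.sub_mem _ (S.sm_trans hfS κ.1) hfS
  -- the functions `e κ` only depend on the determinant of the argument
  have hed : ∀ (κ : V) (a b x : G), det a = det b → eB k V f κ (x * a) = eB k V f κ (x * b) :=
    fun κ a b x h => S.fix_comm (he1 κ) (he2 κ) h x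
  have hfa : ∀ (κ : V) (x : G), f (x * κ.1) = eB k V f κ x + f x := fun κ x => by
    rw [eB_app]; abel
  -- vanishing on the elements of determinant one of the local groups
  have hper : ∀ i, ∀ g ∈ L i, det g = 1 → ∀ x, f (x * g) = f x := by
    intro i g hg hd x
    classical
    let φ : G → (G → W) := fun g => fun x => f (x * g) - f x
    have h1 : ∀ g ∈ L i, ∀ h ∈ L i, det g = 1 → det h = 1 → φ (g * h) = φ g + φ h := by
      intro g hg h hh hg1 _
      funext x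
      change f (x * (g * h)) - f x = (f (x * g) - f x) + (f (x * h) - f x)
      have h2 := hed ⟨h, hLK i hh⟩ g 1 x (by rw [hg1, map_one])
      rw [eB_app, eB_app, mul_one] at h2
      change f (x * g * h) - f (x * g) = f (x * h) - f x at h2
      rw [← h2, ← mul_assoc]
      abel
    have h3 := (hD i).per (G → W) φ h1 g hg hd
    have h4 := congrFun h3 x
    exact sub_eq_zero.1 h4
  let B : Submodule k (V → G → W) := (LB k W ι Γ det U S).map (eB k V)
  have hcomm : ∀ {ℓ : G → W}, ℓ ∈ Sm k W ι Γ det U S → LI ι Γ ℓ → ∀ (a b x : G),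
      ℓ (x * a * b) = ℓ (x * b * a) := fun {ℓ} h1 h2 a b x => by
    rw [mul_assoc, mul_assoc]
    exact S.fix_comm h1 h2 (by rw [map_mul, map_mul, mul_comm]) x
  have hBs : ∀ g, ∀ b ∈ B, Rr k V G W g b ∈ B := by
    rintro g b ⟨ℓ, ⟨h1, h2⟩, rfl⟩
    refine ⟨fun x => ℓ (x * g), ⟨S.sm_trans h1 g, ?_⟩, ?_⟩
    · intro γ hγ x
      change ℓ (ι γ * x * g) = ℓ (x * g)
      rw [mul_assoc, h2 γ hγ]
    · funext κ x
      rw [Rr_apply, eB_app, eB_app, hcomm h1 h2]
  refine wrap hE S (Rr k V G W) B hBs (eB k V f) ?_ L t θ ?_ ?_ ?_ ?_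
  · rintro ⟨ℓ, ⟨h1, h2⟩, h3⟩
    refine hc0 (f - ℓ) ?_ fun γ => ?_
    · intro u hu x
      have h4 := congrFun (congrFun h3 ⟨u, hu⟩) x
      rw [eB_app, eB_app] at h4
      change ℓ (x * u) - ℓ x = f (x * u) - f x at h4
      rw [Pi.sub_apply, Pi.sub_apply, sub_eq_sub_iff_add_eq_add]
      rw [sub_eq_sub_iff_add_eq_add] at h4
      rw [add_comm (f x), h4]
    · rw [hcf]
      funext x
      simp only [Pi.sub_apply, lt]
      have h4 := h2 γ⁻¹.1 γ⁻¹.2 x
      have h5 : ι (γ⁻¹ : Γ).1 = (ι γ.1)⁻¹ := by simp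
      rw [h5] at h4
      rw [h4]
      abel
  · intro g hg
    have : Rr k V G W g (eB k V f) - eB k V f = 0 := by
      rw [sub_eq_zero]
      funext κ x
      exact S.fix (he1 κ) (he2 κ) hg x
    rw [this]
    exact B.zero_mem
  · obtain ⟨M, hM, hMc⟩ := S.unif hKF N1 hN1
    refine ⟨M * N1, Nat.mul_pos hM hN1, fun u hu => ?_⟩
    have : Rr k V G W u (eB k V f) - eB k V f = 0 := by
      rw [sub_eq_zero]
      funext κ x
      rw [Rr_apply, eB_app, eB_app]
      have e1 : x * u * κ.1 = x * κ.1 * (κ.1⁻¹ * u * κ.1) := by group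
      rw [e1, hf1 _ (hMc κ.1 (hKK κ.2) u (S.mono _ _ (Dvd.intro _ rfl) hu)),
        hf1 u (S.mono _ _ (Dvd.intro_left _ rfl) hu)]
    rw [this]
    exact B.zero_mem
  · intro i l hl
    refine ⟨eB k V f ⟨l, hLK i hl⟩, ⟨he1 _, he2 _⟩, ?_⟩
    funext κ x
    obtain ⟨κ', h, hh, e1, e2, -⟩ := (hD i).dec κ.1 (hKK κ.2)
    rw [eB_app, eB_app, eB_app]
    change f (x * κ.1 * l) - f (x * κ.1) - (f (x * l) - f x) =
      Rr k V G W l (eB k V f) κ x - eB k V f κ x
    rw [Rr_apply, eB_app, eB_app]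
    -- f (x l κ) = f (x κ l)
    have h5 : x * l * κ.1 = x * κ.1 * l * (l⁻¹ * κ.1⁻¹ * l * κ.1) := by group
    have h6 : l⁻¹ * κ.1⁻¹ * l * κ.1 ∈ L i := by
      have : l⁻¹ * κ.1⁻¹ * l * κ.1 = l⁻¹ * (h⁻¹ * l * h) := by
        rw [e1]
        calc l⁻¹ * (κ' * h)⁻¹ * l * (κ' * h) = l⁻¹ * h⁻¹ * κ'⁻¹ * (l * κ') * h := by group
          _ = l⁻¹ * h⁻¹ * κ'⁻¹ * (κ' * l) * h := by rw [e2 l hl]
          _ = _ := by group
      rw [this]
      exact (L i).mul_mem ((L i).inv_mem hl)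
        ((L i).mul_mem ((L i).mul_mem ((L i).inv_mem hh) hl) hh)
    have h7 : det (l⁻¹ * κ.1⁻¹ * l * κ.1) = 1 := by
      rw [map_mul, map_mul, map_mul, map_inv, map_inv, mul_assoc, mul_comm (det l),
        ← mul_assoc, mul_assoc (det l)⁻¹, inv_mul_cancel, mul_one, inv_mul_cancel]
    have h8 : f (x * l * κ.1) = f (x * κ.1 * l) := by
      rw [h5]
      exact hper i _ h6 h7 _
    rw [h8]
    abel
  · intro i
    obtain ⟨T, s, hs⟩ := (hD i).hs
    set Tf : G → W := fun x => ∑ a ∈ T, f (x * (s a * t i)) with hTf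
    have hTc : ∀ γ x, hecke (L i) (t i) (c γ) x = Tf ((ι γ.1)⁻¹ * x) - Tf x := by
      intro γ x
      rw [hs.heck _ (fun l hl x => hcR γ l (hLK i hl) x), hTf]
      simp only
      rw [← Finset.sum_sub_distrib]
      refine Finset.sum_congr rfl fun a _ => ?_
      rw [hc2, mul_assoc]
    have hTS : Tf ∈ Sm k W ι Γ det U S := by
      have : Tf = ∑ a ∈ T, fun x => f (x * (s a * t i)) := by
        funext x
        rw [Finset.sum_apply]
      rw [this]
      exact Submodule.sum_mem _ fun a _ => S.sm_trans hfS _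
    -- the defect of the Hecke translate
    have hdef : eB k V Tf = (dgr (L i) (t i) : k) • Rr k V G W (t i) (eB k V f) := by
      funext κ x
      obtain ⟨κ', l, hl, e1, e2, e3⟩ := (hD i).dec κ.1 (hKK κ.2)
      have hκ' : κ' ∈ V := by
        have : κ' = κ.1 * l⁻¹ := by rw [e1]; group
        rw [this]
        exact V.mul_mem κ.2 (V.inv_mem (hLK i hl))
      have hlV : l ∈ V := hLK i hl
      have h1 : ∀ a ∈ T, f (x * κ.1 * (s a * t i)) =
          eB k V f ⟨l, hlV⟩ (x * t i * κ') +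
            f (x * (s ((⟨l, hl⟩ : L i) • a) * t i) * κ') := by
        intro a ha
        obtain ⟨r, hr, hrd, e4⟩ := hs.perm ⟨l, hl⟩ ha
        set b := (⟨l, hl⟩ : L i) • a with hb
        have hbT : b ∈ T := hs.smul _ a ha
        have e5 : x * κ.1 * (s a * t i) = x * (s b * t i) * κ' * r := by
          rw [e1]
          calc x * (κ' * l) * (s a * t i) = x * κ' * (l * (s a * t i)) := by group
            _ = x * κ' * (s b * t i * r) := by rw [← e4]
            _ = x * (κ' * s b) * t i * r := by group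
            _ = x * (s b * κ') * t i * r := by rw [e2 _ (hs.memL _ hbT)]
            _ = x * s b * (κ' * t i) * r := by group
            _ = x * s b * (t i * κ') * r := by rw [e3]
            _ = _ := by group
        have e6 : x * (s b * t i) * κ' * r =
            x * (s b * t i) * κ' * l * (l⁻¹ * r) := by group
        have h2 : f (x * (s b * t i) * κ' * l * (l⁻¹ * r)) = f (x * (s b * t i) * κ' * l) := by
          refine hper i _ ((L i).mul_mem ((L i).inv_mem hl) hr) ?_ _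
          rw [map_mul, map_inv, hrd, inv_mul_cancel]
        rw [e5, e6, h2, hfa ⟨l, hlV⟩]
        congr 1
        have e7 : x * (s b * t i) * κ' = x * (s b * t i * κ') := by group
        have e8 : x * t i * κ' = x * (t i * κ') := by group
        rw [e7, e8]
        refine hed _ _ _ _ ?_
        rw [map_mul, map_mul, map_mul, hs.det1 b hbT, one_mul]
      have h2 : ∀ a ∈ T, f (x * (s a * t i) * κ') =
          eB k V f ⟨κ', hκ'⟩ (x * t i) + f (x * (s a * t i)) := by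
        intro a ha
        rw [hfa ⟨κ', hκ'⟩]
        congr 1
        refine hed _ _ _ _ ?_
        rw [map_mul, hs.det1 a ha, one_mul]
      have h3 : eB k V f κ (x * t i) =
          eB k V f ⟨l, hlV⟩ (x * t i * κ') + eB k V f ⟨κ', hκ'⟩ (x * t i) := by
        rw [eB_app, eB_app, eB_app]
        change f (x * t i * κ.1) - f (x * t i) = f (x * t i * κ' * l) - f (x * t i * κ') +
          (f (x * t i * κ') - f (x * t i))
        rw [e1, ← mul_assoc (x * t i)]
        abel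
      change Tf (x * κ.1) - Tf x = (dgr (L i) (t i) : k) • eB k V f κ (x * t i)
      have h4 : Tf (x * κ.1) = (dgr (L i) (t i) : k) • eB k V f κ (x * t i) + Tf x := by
        calc Tf (x * κ.1) = ∑ a ∈ T, f (x * κ.1 * (s a * t i)) := rfl
          _ = ∑ a ∈ T, (eB k V f ⟨l, hlV⟩ (x * t i * κ') +
                f (x * (s ((⟨l, hl⟩ : L i) • a) * t i) * κ')) := Finset.sum_congr rfl h1
          _ = ∑ a ∈ T, eB k V f ⟨l, hlV⟩ (x * t i * κ') +
                ∑ a ∈ T, f (x * (s ((⟨l, hl⟩ : L i) • a) * t i) * κ') :=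
              Finset.sum_add_distrib
          _ = ∑ a ∈ T, eB k V f ⟨l, hlV⟩ (x * t i * κ') +
                ∑ a ∈ T, f (x * (s a * t i) * κ') := by
              rw [hs.sum_perm ⟨l, hl⟩ (fun a => f (x * (s a * t i) * κ'))]
          _ = ∑ a ∈ T, eB k V f ⟨l, hlV⟩ (x * t i * κ') +
                (∑ a ∈ T, eB k V f ⟨κ', hκ'⟩ (x * t i) + Tf x) := by
              rw [Finset.sum_congr rfl h2, Finset.sum_add_distrib]
          _ = _ := by
              rw [Finset.sum_const, Finset.sum_const, hs.card, h3, smul_add,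
                Nat.cast_smul_eq_nsmul, Nat.cast_smul_eq_nsmul, add_assoc]
      rw [h4, add_sub_cancel_right]
    -- the eigenvalue equation
    obtain ⟨g, hg, e⟩ := hθ i
    have hgS : g ∈ Sm k W ι Γ det U S := mw_le_sm S hK hg
    have hℓ : Tf - θ i • f - g ∈ LB k W ι Γ det U S := by
      refine ⟨Submodule.sub_mem _ (Submodule.sub_mem _ hTS (Submodule.smul_mem _ _ hfS)) hgS, ?_⟩
      intro γ hγ x
      have h1 := congrFun (e ⟨γ⁻¹, Γ.inv_mem hγ⟩) x
      simp only [Pi.sub_apply, Pi.smul_apply] at h1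
      rw [hTc, hc2] at h1
      simp only [lt, map_inv, inv_inv] at h1
      simp only [Pi.sub_apply, Pi.smul_apply]
      rw [smul_sub] at h1
      have h2 : Tf (ι γ * x) - θ i • f (ι γ * x) - g (ι γ * x) -
          (Tf x - θ i • f x - g x) =
          (Tf (ι γ * x) - Tf x - (θ i • f (ι γ * x) - θ i • f x)) -
            (g (ι γ * x) - g x) := by abel
      rw [← sub_eq_zero, h2, h1, sub_self]
    have hg0 : eB k V g = 0 := by
      funext κ x
      rw [eB_app, mw_ri hg κ.1 κ.2, sub_self]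
      rfl
    refine (Submodule.neg_mem_iff _).1 ⟨Tf - θ i • f - g, hℓ, ?_⟩
    rw [map_sub, map_sub, map_smul, hdef, hg0, sub_zero, neg_sub]

/-- degree one -/
theorem case1 (hE : SEig) [IsAlgClosed k] (S : Sys ι Γ det U) {K : Subgroup G}
    {ρ : Representation k K W} (hK : ∃ N : ℕ, 1 ≤ N ∧ ∀ u ∈ U N, ∃ h : u ∈ K, ρ ⟨u, h⟩ = 1)
    (hKF : ∃ N : ℕ, 1 ≤ N ∧ ((U N).subgroupOf K).FiniteIndex)
    (L : I → Subgroup G) (t : I → G) (θ : I → k) (hD : ∀ i, HD K ρ det (L i) (t i))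
    (c : Γ → G → W) (hc : c ∈ Z1 ι Γ (MW K ρ)) (hc0 : c ∉ B1 ι Γ (MW K ρ))
    (hθ : ∀ i, (fun γ => hecke (L i) (t i) (c γ)) - θ i • c ∈ B1 ι Γ (MW K ρ)) :
    Ccl k ι Γ det U L t θ := by
  by_cases h1 : c ∈ Bsm k W ι Γ det U S
  · by_cases h2 : ∃ f : G → W, RI (KR K ρ) f ∧ ∀ γ : Γ, c γ = lt ι γ.1 f - f
    · obtain ⟨f, hf, hcf⟩ := h2
      exact caseA hE S hK L t θ hD c hc hc0 f hf hcf hθ
    · exact caseB1 hE S hK hKF L t θ hD c hc (fun f hf h => h2 ⟨f, hf, h⟩) h1 hθ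
  · exact caseB2 hE S hK L t θ hD c hc h1 hθ

end Q4.GLC
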