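import Pool.Agent.Q4.GLC.Cases

/-!
# Degree one, the cocycle is not a coboundary of a smooth function (helper4, project GLC)
-/

namespace Q4.GLC

variable {G H D k W I : Type} [Group G] [Group H] [CommGroup D] [Field k] [AddCommGroup W]
  [Module k W]
variable {ι : H →* G} {Γ : Subgroup H} {det : G →* D} {U : ℕ → Subgroup G}

/-- values of cocycles in `M_W` are invariant under the kernel of `ρ` -/
theorem mw_inv {K : Subgroup G} {ρ : Representation k K W} {f : G → W} (hf : f ∈ MW K ρ) (κ : K)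
    (hκ : ρ κ = 1) (x : G) : f (x * κ.1) = f x := by
  rw [hf κ x]
  have : ρ κ⁻¹ = 1 := by
    have h1 : ρ κ⁻¹ * ρ κ = 1 := by rw [← map_mul, inv_mul_cancel, map_one]
    rwa [hκ, mul_one] at h1
  rw [this]
  rfl

theorem lt_app (γ : H) (f : G → W) (x : G) : lt ι γ f x = f ((ι γ)⁻¹ * x) := rfl

/-- coboundaries of smooth functions -/
def Bsm (k W : Type) [Field k] [AddCommGroup W] [Module k W] (ι : H →* G) (Γ : Subgroup H)
    (det : G →* D) (U : ℕ → Subgroup G) (S : Sys ι Γ det U) : Submodule k (Γ → G → W) :=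
  B1 ι Γ (Sm k W ι Γ det U S)

theorem mw_le_sm (S : Sys ι Γ det U) {K : Subgroup G} {ρ : Representation k K W}
    (hK : ∃ N : ℕ, 1 ≤ N ∧ ∀ u ∈ U N, ∃ h : u ∈ K, ρ ⟨u, h⟩ = 1) {f : G → W}
    (hf : f ∈ MW K ρ) : f ∈ Sm k W ι Γ det U S := by
  obtain ⟨N, hN, h⟩ := hK
  exact ⟨N, hN, fun u hu x => by
    obtain ⟨h, e⟩ := h u hu
    exact mw_inv hf ⟨u, h⟩ e x⟩

theorem caseB2 (hE : SEig) [IsAlgClosed k] (S : Sys ι Γ det U) {K : Subgroup G}
    {ρ : Representation k K W} (hK : ∃ N : ℕ, 1 ≤ N ∧ ∀ u ∈ U N, ∃ h : u ∈ K, ρ ⟨u, h⟩ = 1)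
    (L : I → Subgroup G) (t : I → G) (θ : I → k) (hD : ∀ i, HD K ρ det (L i) (t i))
    (c : Γ → G → W) (hc : c ∈ Z1 ι Γ (MW K ρ)) (hc0 : c ∉ Bsm k W ι Γ det U S)
    (hθ : ∀ i, (fun γ => hecke (L i) (t i) (c γ)) - θ i • c ∈ B1 ι Γ (MW K ρ)) :
    Ccl k ι Γ det U L t θ := by
  have hco : IsCo ι Γ c := hc.2
  have hV : ∀ γ, ∀ κ : K, ρ κ = 1 → ∀ x, c γ (x * κ.1) = c γ x := fun γ κ h x =>
    mw_inv (hc.1 γ) κ h x
  obtain ⟨N, hN, hKN⟩ := id hK
  have hVN : ∀ γ, RI (U N) (c γ) := fun γ u hu x => by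
    obtain ⟨h, e⟩ := hKN u hu
    exact hV γ ⟨u, h⟩ e x
  have hVL : ∀ i γ, RI (L i) (c γ) := fun i γ l hl x =>
    hV γ ⟨l, (hD i).le hl⟩ ((hD i).triv ⟨l, (hD i).le hl⟩ hl) x
  have hBs : ∀ g, ∀ b ∈ Bsm k W ι Γ det U S, Rr k Γ G W g b ∈ Bsm k W ι Γ det U S := by
    rintro g b ⟨f, hf, hb⟩
    refine ⟨_, S.sm_trans hf g, fun γ => ?_⟩
    funext x
    rw [Rr_apply, hb]
    change f ((ι γ.1)⁻¹ * (x * g)) - f (x * g) = f ((ι γ.1)⁻¹ * x * g) - f (x * g)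
    rw [mul_assoc]
  have hfix : ∀ g ∈ DG ι Γ det, Rr k Γ G W g c - c ∈ Bsm k W ι Γ det U S := by
    intro g hg
    obtain ⟨M, hM, f, hf, e⟩ := S.key3 hN hco hVN hg
    refine ⟨f, ⟨M, hM, hf⟩, fun γ => ?_⟩
    rw [← e γ]
    rfl
  refine wrap hE S (Rr k Γ G W) (Bsm k W ι Γ det U S) hBs c hc0 L t θ hfix ?_ ?_ ?_
  · refine ⟨N, hN, fun u hu => ?_⟩
    have : Rr k Γ G W u c - c = 0 := by
      rw [sub_eq_zero]
      funext γ x
      exact hVN γ u hu x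
    rw [this]
    exact Submodule.zero_mem _
  · intro i l hl
    have : Rr k Γ G W l c - c = 0 := by
      rw [sub_eq_zero]
      funext γ x
      exact hVL i γ l hl x
    rw [this]
    exact Submodule.zero_mem _
  · intro i
    obtain ⟨T, s, hs⟩ := (hD i).hs
    -- the Hecke operator
    have h1 : (fun γ => hecke (L i) (t i) (c γ)) = ∑ a ∈ T, Rr k Γ G W (s a * t i) c := by
      funext γ x
      rw [hs.heck _ (hVL i γ) x, Finset.sum_apply, Finset.sum_apply]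
      rfl
    have h2 : ∀ a ∈ T, Rr k Γ G W (s a * t i) c - Rr k Γ G W (t i) c ∈ Bsm k W ι Γ det U S := by
      intro a ha
      have h3 : s a * t i = t i * ((t i)⁻¹ * s a * t i) := by group
      have h4 : (t i)⁻¹ * s a * t i ∈ DG ι Γ det := by
        refine mem_DG.2 ⟨1, Γ.one_mem, ?_⟩
        rw [map_one, map_one, map_mul, map_mul, map_inv, hs.det1 a ha, mul_one, inv_mul_cancel]
      have h5 : Rr k Γ G W (s a * t i) c - Rr k Γ G W (t i) c =
          Rr k Γ G W (t i) (Rr k Γ G W ((t i)⁻¹ * s a * t i) c - c) := by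
        rw [map_sub]
        congr 1
        rw [h3, map_mul]
        rfl
      rw [h5]
      exact hBs _ _ (hfix _ h4)
    have h6 : θ i • c - (dgr (L i) (t i) : k) • Rr k Γ G W (t i) c =
        ∑ a ∈ T, (Rr k Γ G W (s a * t i) c - Rr k Γ G W (t i) c) -
          ((fun γ => hecke (L i) (t i) (c γ)) - θ i • c) := by
      rw [Finset.sum_sub_distrib, ← h1, Finset.sum_const, hs.card, Nat.cast_smul_eq_nsmul]
      abel
    rw [h6]
    refine Submodule.sub_mem _ (Submodule.sum_mem _ h2) ?_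
    obtain ⟨f, hf, e⟩ := hθ i
    exact ⟨f, mw_le_sm S hK hf, e⟩

end Q4.GLC
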