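import Pool.Agent.Q4.GLC.Key

/-!
# Eigenclasses in degrees zero and one (helper4, project GLC)
-/

namespace Q4.GLC

variable {G H D k W I : Type} [Group G] [Group H] [CommGroup D] [Field k] [AddCommGroup W]
  [Module k W]
variable {ι : H →* G} {Γ : Subgroup H} {det : G →* D} {U : ℕ → Subgroup G}

/-- the properties of the local groups and of the double cosets -/
structure HD (K : Subgroup G) (ρ : Representation k K W) (det : G →* D) (L : Subgroup G) (t : G) :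
    Prop where
  le : L ≤ K
  triv : ∀ κ : K, κ.1 ∈ L → ρ κ = 1
  dec : ∀ κ ∈ K, ∃ κ' : G, ∃ l ∈ L, κ = κ' * l ∧ (∀ h ∈ L, κ' * h = h * κ') ∧ κ' * t = t * κ'
  fin : (MulAction.orbit L (t : G ⧸ L)).Finite
  rep : ∀ l ∈ L, ∃ l' ∈ L, det l' = 1 ∧ ((l' * t : G) : G ⧸ L) = ((l * t : G) : G ⧸ L)
  per : ∀ (A : Type) [AddCommGroup A] (φ : G → A),
    (∀ g ∈ L, ∀ h ∈ L, det g = 1 → det h = 1 → φ (g * h) = φ g + φ h) →
    ∀ g ∈ L, det g = 1 → φ g = 0

/-- the number of cosets -/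
noncomputable def dgr (L : Subgroup G) (t : G) : ℕ := Nat.card (MulAction.orbit L (t : G ⧸ L))

/-- the conclusion -/
def Ccl (k : Type) [Field k] (ι : H →* G) (Γ : Subgroup H) (det : G →* D) (U : ℕ → Subgroup G)
    (L : I → Subgroup G) (t : I → G) (θ : I → k) : Prop :=
  ∃ χ : G →* kˣ, (∀ g ∈ DG ι Γ det, χ g = 1) ∧ (∃ N : ℕ, 1 ≤ N ∧ ∀ u ∈ U N, χ u = 1) ∧
    (∀ i, ∀ l ∈ L i, χ l = 1) ∧ ∀ i, θ i = (dgr (L i) (t i) : k) * (χ (t i) : k)

theorem wrap (hE : SEig) [IsAlgClosed k] (S : Sys ι Γ det U) {V : Type} [AddCommGroup V]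
    [Module k V] (R : Representation k G V) (B : Submodule k V)
    (hB : ∀ g, ∀ b ∈ B, R g b ∈ B) (q : V) (hq : q ∉ B)
    (L : I → Subgroup G) (t : I → G) (θ : I → k)
    (h1 : ∀ g ∈ DG ι Γ det, R g q - q ∈ B) (h2 : ∃ N : ℕ, 1 ≤ N ∧ ∀ u ∈ U N, R u q - q ∈ B)
    (h3 : ∀ i, ∀ l ∈ L i, R l q - q ∈ B)
    (h4 : ∀ i, θ i • q - (dgr (L i) (t i) : k) • R (t i) q ∈ B) :
    Ccl k ι Γ det U L t θ := by
  obtain ⟨N, hN, h2'⟩ := h2
  obtain ⟨hC, hF⟩ := S.finIdx (stabC R B hB q) h1 hN h2'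
  obtain ⟨χ, hχ, h5⟩ := eig_rel hE R B hB q hq hC hF
  exact ⟨χ, fun g hg => hχ g (h1 g hg), ⟨N, hN, fun u hu => hχ u (h2' u hu)⟩,
    fun i l hl => hχ l (h3 i l hl), fun i => h5 _ _ _ (h4 i)⟩

section hecke

/-- the structure of the Hecke sum -/
structure HS (det : G →* D) (L : Subgroup G) (t : G) (T : Finset (G ⧸ L)) (s : G ⧸ L → G) :
    Prop where
  card : T.card = dgr L t
  memL : ∀ c ∈ T, s c ∈ L
  det1 : ∀ c ∈ T, det (s c) = 1
  mkc : ∀ c ∈ T, ((s c * t : G) : G ⧸ L) = c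
  smul : ∀ l : L, ∀ c ∈ T, l • c ∈ T
  heck : ∀ {A : Type} [AddCommGroup A] (f : G → A), RI L f → ∀ x,
    hecke L t f x = ∑ c ∈ T, f (x * (s c * t))

theorem HD.hs {K : Subgroup G} {ρ : Representation k K W} {L : Subgroup G} {t : G}
    (h : HD K ρ det L t) : ∃ (T : Finset (G ⧸ L)) (s : G ⧸ L → G), HS det L t T s := by
  classical
  have hex : ∀ c : G ⧸ L, ∃ l : G, c ∈ MulAction.orbit L (t : G ⧸ L) →
      l ∈ L ∧ det l = 1 ∧ ((l * t : G) : G ⧸ L) = c := by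
    intro c
    by_cases hc : c ∈ MulAction.orbit L (t : G ⧸ L)
    · obtain ⟨l, hl⟩ := hc
      obtain ⟨l', hl', hd, e⟩ := h.rep l.1 l.2
      refine ⟨l', fun _ => ⟨hl', hd, ?_⟩⟩
      rw [e]
      exact hl
    · exact ⟨1, fun h' => absurd h' hc⟩
  choose s hs using hex
  refine ⟨h.fin.toFinset, s, ?_, ?_, ?_, ?_, ?_, ?_⟩
  · rw [dgr, Nat.card_coe_set_eq, Set.ncard_eq_toFinset_card _ h.fin]
  · intro c hc; exact (hs c (h.fin.mem_toFinset.1 hc)).1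
  · intro c hc; exact (hs c (h.fin.mem_toFinset.1 hc)).2.1
  · intro c hc; exact (hs c (h.fin.mem_toFinset.1 hc)).2.2
  · intro l c hc
    rw [h.fin.mem_toFinset] at hc ⊢
    obtain ⟨l', hl'⟩ := hc
    exact ⟨l * l', by rw [← hl']; exact mul_smul l l' _⟩
  · intro A _ f hf x
    have h1 : ∀ c ∈ MulAction.orbit L (t : G ⧸ L), f (x * c.out) = f (x * (s c * t)) := by
      intro c hc
      have h2 := (hs c hc).2.2
      have h3 : (c.out)⁻¹ * (s c * t) ∈ L := by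
        rw [← QuotientGroup.eq, h2, QuotientGroup.out_eq']
      have h4 : x * (s c * t) = x * c.out * ((c.out)⁻¹ * (s c * t)) := by group
      rw [h4, hf _ h3]
    rw [hecke, finsum_mem_congr rfl h1, finsum_mem_eq_finite_toFinset_sum _ h.fin]

/-- the permutation of the representatives -/
theorem HS.perm {L : Subgroup G} {t : G} {T : Finset (G ⧸ L)} {s : G ⧸ L → G}
    (h : HS det L t T s) (l : L) {c : G ⧸ L} (hc : c ∈ T) :
    ∃ k ∈ L, det k = det l.1 ∧ l.1 * (s c * t) = s (l • c) * t * k := by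
  refine ⟨(s (l • c) * t)⁻¹ * (l.1 * (s c * t)), ?_, ?_, ?_⟩
  · rw [← QuotientGroup.eq, h.mkc _ (h.smul l c hc)]
    have : ((l.1 * (s c * t) : G) : G ⧸ L) = l • ((s c * t : G) : G ⧸ L) := rfl
    rw [this, h.mkc c hc]
  · rw [map_mul, map_inv, map_mul, map_mul, map_mul, h.det1 _ (h.smul l c hc), h.det1 c hc,
      one_mul, mul_comm (det l.1), inv_mul_cancel_left]
  · group

theorem HS.sum_perm {L : Subgroup G} {t : G} {T : Finset (G ⧸ L)} {s : G ⧸ L → G}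
    (h : HS det L t T s) (l : L) {A : Type} [AddCommGroup A] (F : G ⧸ L → A) :
    ∑ c ∈ T, F (l • c) = ∑ c ∈ T, F c := by
  classical
  refine Finset.sum_bij (fun c _ => l • c) (fun c hc => h.smul l c hc) ?_ ?_ (fun c _ => rfl)
  · intro a _ b _ e
    exact MulAction.injective l e
  · intro b hb
    exact ⟨l⁻¹ • b, h.smul _ b hb, by rw [smul_inv_smul]⟩

end hecke

section deg0

/-- degree zero -/
theorem case0 (hE : SEig) [IsAlgClosed k] (S : Sys ι Γ det U) {K : Subgroup G}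
    {ρ : Representation k K W} (hK : ∃ N : ℕ, 1 ≤ N ∧ ∀ u ∈ U N, ∃ h : u ∈ K, ρ ⟨u, h⟩ = 1)
    (L : I → Subgroup G) (t : I → G) (θ : I → k) (hD : ∀ i, HD K ρ det (L i) (t i))
    (f : G → W) (hf : f ∈ MW K ρ) (hf0 : f ≠ 0) (hΓ : ∀ γ ∈ Γ, lt ι γ f = f)
    (hθ : ∀ i, hecke (L i) (t i) f = θ i • f) : Ccl k ι Γ det U L t θ := by
  obtain ⟨N, hN, hKN⟩ := hK
  have hri : ∀ κ : K, ρ κ = 1 → ∀ x, f (x * κ.1) = f x := by
    intro κ hκ x
    rw [hf κ x]
    have : ρ κ⁻¹ = 1 := by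
      have h1 : ρ κ⁻¹ * ρ κ = 1 := by rw [← map_mul, inv_mul_cancel, map_one]
      rwa [hκ, mul_one] at h1
    rw [this]
    rfl
  have hli : LI ι Γ f := by
    intro γ hγ x
    have h1 := congrFun (hΓ γ⁻¹ (Γ.inv_mem hγ)) x
    simpa [lt] using h1
  have hsm : f ∈ Sm k W ι Γ det U S := ⟨N, hN, fun u hu x => by
    obtain ⟨h, e⟩ := hKN u hu
    exact hri ⟨u, h⟩ e x⟩
  have hL : ∀ i, RI (L i) f := fun i l hl x =>
    hri ⟨l, (hD i).le hl⟩ ((hD i).triv ⟨l, (hD i).le hl⟩ hl) x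
  refine wrap hE S (Rr k Unit G W) ⊥ (fun g b hb => ?_) (fun _ => f) ?_ L t θ ?_ ?_ ?_ ?_
  · rw [Submodule.mem_bot] at hb ⊢
    rw [hb, map_zero]
  · rw [Submodule.mem_bot]
    intro h
    exact hf0 (congrFun h ())
  · intro g hg
    rw [Submodule.mem_bot, sub_eq_zero]
    funext _ x
    exact S.fix hsm hli hg x
  · refine ⟨N, hN, fun u hu => ?_⟩
    rw [Submodule.mem_bot, sub_eq_zero]
    funext _ x
    obtain ⟨h, e⟩ := hKN u hu
    exact hri ⟨u, h⟩ e x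
  · intro i l hl
    rw [Submodule.mem_bot, sub_eq_zero]
    funext _ x
    exact hL i l hl x
  · intro i
    rw [Submodule.mem_bot, sub_eq_zero]
    funext _ x
    obtain ⟨T, s, hs⟩ := (hD i).hs
    have h1 := congrFun (hθ i) x
    rw [hs.heck f (hL i) x] at h1
    change θ i • f x = (dgr (L i) (t i) : k) • f (x * t i)
    have h2 : θ i • f x = (θ i • f) x := rfl
    rw [h2, ← h1, ← hs.card]
    have h3 : ∀ c ∈ T, f (x * (s c * t i)) = f (x * t i) := by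
      intro c hc
      refine S.fix_comm hsm hli ?_ x
      rw [map_mul, hs.det1 c hc, one_mul]
    rw [Finset.sum_congr rfl h3, Finset.sum_const, Nat.cast_smul_eq_nsmul]

end deg0

end Q4.GLC
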