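import Pool.Agent.Q4.GLC.Stm

/-!
# Finiteness of the class number for ideles (project GLC, jobs CLS and IDF)
-/

set_option autoImplicit false

open IsDedekindDomain NumberField Matrix
open Classical
open scoped nonZeroDivisors

noncomputable section

namespace Q4.GLC.Cls

variable {F : Type} [Field F] [NumberField F]

/-- fractional ideals -/
abbrev FI (F : Type) [Field F] [NumberField F] := FractionalIdeal (𝓞 F)⁰ F

/-- the order at a place -/
def nu (a : (Af F)ˣ) (w : Pl F) : ℤ := -WithZero.log (Valued.v (a.1 w))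

theorem comp_ne (a : (Af F)ˣ) (w : Pl F) : a.1 w ≠ 0 :=
  (FiniteAdeleRing.isUnit_iff.1 a.isUnit).1 w

theorem val_ne (a : (Af F)ˣ) (w : Pl F) : Valued.v (a.1 w) ≠ 0 :=
  (Valuation.ne_zero_iff _).2 (comp_ne a w)

theorem val_eq (a : (Af F)ˣ) (w : Pl F) : Valued.v (a.1 w) = WithZero.exp (-nu a w) := by
  unfold nu
  rw [neg_neg, WithZero.exp_log (val_ne a w)]

theorem nu_fin (a : (Af F)ˣ) : ∀ᶠ w in Filter.cofinite, nu a w = 0 := by
  filter_upwards [(FiniteAdeleRing.isUnit_iff.1 a.isUnit).2] with w hw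
  unfold nu
  rw [hw, WithZero.log_one, neg_zero]

/-- the fractional ideal of an idele -/
def J (a : (Af F)ˣ) : FI F := ∏ᶠ w : Pl F, (w.asIdeal : FI F) ^ nu a w

theorem J_ne (a : (Af F)ˣ) : J a ≠ 0 := by
  unfold J
  apply finprod_induction (fun x : FI F => x ≠ 0) one_ne_zero
  · intro x y hx hy; exact mul_ne_zero hx hy
  · intro w
    exact zpow_ne_zero _ (FractionalIdeal.coeIdeal_ne_zero.2 w.ne_bot)

theorem count_J (a : (Af F)ˣ) (w : Pl F) : FractionalIdeal.count F w (J a) = nu a w :=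
  FractionalIdeal.count_finprod F w (nu a) (nu_fin a)

/-- the order of a principal ideal, integral case -/
theorem count_int (w : Pl F) (r : 𝓞 F) (hr : r ≠ 0) :
    FractionalIdeal.count F w (FractionalIdeal.spanSingleton (𝓞 F)⁰ (algebraMap (𝓞 F) F r)) =
      -WithZero.log (w.valuation F (algebraMap (𝓞 F) F r)) := by
  rw [← FractionalIdeal.coeIdeal_span_singleton, FractionalIdeal.count_coe F w
    (by rwa [Ne, Ideal.zero_eq_bot, Ideal.span_singleton_eq_bot]),
    HeightOneSpectrum.valuation_of_algebraMap, HeightOneSpectrum.intValuation_if_neg _ hr,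
    WithZero.log_exp, neg_neg]

/-- the order of a principal ideal -/
theorem count_span (w : Pl F) (x : F) (hx : x ≠ 0) :
    FractionalIdeal.count F w (FractionalIdeal.spanSingleton (𝓞 F)⁰ x) =
      -WithZero.log (w.valuation F x) := by
  obtain ⟨r, s, hs, rfl⟩ := IsFractionRing.div_surjective (A := 𝓞 F) x
  have hs0 : s ≠ 0 := nonZeroDivisors.ne_zero hs
  have hs1 : algebraMap (𝓞 F) F s ≠ 0 := by
    rw [Ne, FaithfulSMul.algebraMap_eq_zero_iff]; exact hs0
  have hr0 : r ≠ 0 := by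
    rintro rfl
    apply hx
    rw [map_zero, zero_div]
  have hr1 : algebraMap (𝓞 F) F r ≠ 0 := by
    rw [Ne, FaithfulSMul.algebraMap_eq_zero_iff]; exact hr0
  have h1 : FractionalIdeal.spanSingleton (𝓞 F)⁰ (algebraMap (𝓞 F) F r / algebraMap (𝓞 F) F s) *
      FractionalIdeal.spanSingleton (𝓞 F)⁰ (algebraMap (𝓞 F) F s) =
      FractionalIdeal.spanSingleton (𝓞 F)⁰ (algebraMap (𝓞 F) F r) := by
    rw [FractionalIdeal.spanSingleton_mul_spanSingleton, div_mul_cancel₀ _ hs1]
  have h2 := congrArg (FractionalIdeal.count F w) h1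
  rw [FractionalIdeal.count_mul F w (by rwa [Ne, FractionalIdeal.spanSingleton_eq_zero_iff])
    (by rwa [Ne, FractionalIdeal.spanSingleton_eq_zero_iff]), count_int w s hs0,
    count_int w r hr0] at h2
  rw [map_div₀, WithZero.log_div (by rwa [Valuation.ne_zero_iff]) (by rwa [Valuation.ne_zero_iff])]
  linarith

/-- the class group -/
abbrev Cl (F : Type) [Field F] [NumberField F] :=
  (FI F)ˣ ⧸ (toPrincipalIdeal (𝓞 F) F).range

instance : Finite (Cl F) := Finite.of_equiv _ (ClassGroup.equiv F).toEquiv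

/-- the class of an idele -/
def cl (a : (Af F)ˣ) : Cl F := QuotientGroup.mk (Units.mk0 (J a) (J_ne a))

/-- ideles of the same class -/
theorem same (a b : (Af F)ˣ) (h : cl a = cl b) : ∃ α : Fˣ, ∀ w : Pl F,
    Valued.v (a.1 w) = w.valuation F α * Valued.v (b.1 w) := by
  have h1 := QuotientGroup.eq.1 h.symm
  obtain ⟨α, hα⟩ := h1
  refine ⟨α, fun w => ?_⟩
  have h2 : FractionalIdeal.spanSingleton (𝓞 F)⁰ (α : F) * J b = J a := by
    have h3 := congrArg (fun x : (FI F)ˣ => (x : FI F)) hα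
    simp only [coe_toPrincipalIdeal, Units.val_mul, Units.val_mk0, Units.val_inv_eq_inv_val] at h3
    rw [h3, mul_comm (J b)⁻¹, mul_assoc, inv_mul_cancel₀ (J_ne b), mul_one]
  have h3 := congrArg (FractionalIdeal.count F w) h2
  have hne : FractionalIdeal.spanSingleton (𝓞 F)⁰ (α : F) ≠ 0 := by
    rw [Ne, FractionalIdeal.spanSingleton_eq_zero_iff]
    exact α.ne_zero
  rw [FractionalIdeal.count_mul F w hne (J_ne b), count_span w _ α.ne_zero, count_J,
    count_J] at h3
  have h4 : w.valuation F (α : F) ≠ 0 := by rw [Valuation.ne_zero_iff]; exact α.ne_zero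
  rw [val_eq a, val_eq b, ← WithZero.exp_log h4, ← WithZero.exp_add]
  congr 1
  linarith

theorem dvdN_one_iff (a : Af F) : DvdN 1 a ↔ ∀ w : Pl F, Valued.v (a w) ≤ 1 := by
  have h : ∀ w : Pl F, Valued.v (((1 : ℕ) : Af F) w) = 1 := by
    intro w
    rw [Nat.cast_one]
    exact map_one _
  constructor
  · intro h1 w
    have := h1 w
    rwa [h] at this
  · intro h1 w
    rw [h]
    exact h1 w

theorem val_coe (w : Pl F) (x : F) : Valued.v ((algebraMap F (Af F) x) w) = w.valuation F x :=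
  HeightOneSpectrum.valuedAdicCompletion_eq_valuation' w x

end Q4.GLC.Cls

namespace Q4.GLC

/-- finiteness of the class number for ideles -/
theorem tCls : SCls := by
  intro F _ _
  have := Fintype.ofFinite (Cls.Cl F)
  let rep : Cls.Cl F → (Af F)ˣ := fun C => if h : ∃ a : (Af F)ˣ, Cls.cl a = C then h.choose else 1
  refine ⟨Finset.univ.image rep, fun a => ?_⟩
  have hex : ∃ b : (Af F)ˣ, Cls.cl b = Cls.cl a := ⟨a, rfl⟩
  have hrep : Cls.cl (rep (Cls.cl a)) = Cls.cl a := by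
    simp only [rep]
    rw [dif_pos hex]
    exact hex.choose_spec
  set x := rep (Cls.cl a) with hx
  obtain ⟨α, hα⟩ := Cls.same a x hrep.symm
  let A : (Af F)ˣ := Units.map (algebraMap F (Af F)).toMonoidHom α
  have hA : ∀ w : Pl F, Valued.v (A.1 w) = w.valuation F α := fun w => Cls.val_coe w α
  have hmul : ∀ (p q : (Af F)ˣ) (w : Pl F), Valued.v ((p * q).1 w) =
      Valued.v (p.1 w) * Valued.v (q.1 w) := fun p q w => map_mul _ _ _
  refine ⟨α, x, (A * x)⁻¹ * a, Finset.mem_image_of_mem _ (Finset.mem_univ _), ?_, ?_, ?_⟩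
  · rw [Cls.dvdN_one_iff]
    intro w
    have h1 : (A * x) * ((A * x)⁻¹ * a) = a := mul_inv_cancel_left _ _
    have h2 : Valued.v (((A * x) * ((A * x)⁻¹ * a)).1 w) = Valued.v (a.1 w) := by rw [h1]
    have h3 : Valued.v ((A * x).1 w) = Valued.v (a.1 w) := by rw [hmul, hA, hα w]
    rw [hmul, h3] at h2
    have h4 : Valued.v (((A * x)⁻¹ * a).1 w) = 1 :=
      mul_left_cancel₀ (Cls.val_ne a w) (by rw [h2, mul_one])
    exact h4.le
  · rw [Cls.dvdN_one_iff]
    intro w
    have h1 : ((A * x)⁻¹ * a)⁻¹ * a = A * x := by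
      rw [_root_.mul_inv_rev, inv_inv, mul_comm a⁻¹, mul_assoc, inv_mul_cancel, mul_one]
    have h2 : Valued.v ((((A * x)⁻¹ * a)⁻¹ * a).1 w) = Valued.v ((A * x).1 w) := by rw [h1]
    have h3 : Valued.v ((A * x).1 w) = Valued.v (a.1 w) := by rw [hmul, hA, hα w]
    rw [hmul, h3] at h2
    have h4 : Valued.v ((((A * x)⁻¹ * a)⁻¹).1 w) = 1 :=
      mul_right_cancel₀ (Cls.val_ne a w) (by rw [h2, one_mul])
    exact h4.le
  · exact (mul_inv_cancel_left _ _).symm

/-- finiteness of the ray class groups for ideles -/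
theorem tIdf : SCls → SApp → SInt → SIdf := by
  intro hC hA hI F _ _ H hH M hM
  obtain ⟨X0, hX0⟩ := hC F
  -- classes of units modulo `M`
  let I : Ideal (𝓞 F) := Ideal.span {(M : 𝓞 F)}
  have hI0 : I ≠ ⊥ := by
    rw [Ne, Ideal.span_singleton_eq_bot]
    exact_mod_cast (by omega : M ≠ 0)
  have hfin : Finite (𝓞 F ⧸ I) := Ideal.finiteQuotientOfFreeOfNeBot I hI0
  have := Fintype.ofFinite (𝓞 F ⧸ I)
  have hfin2 : Finite (Fˣ ⧸ H) := Subgroup.finite_quotient_of_finiteIndex
  have := Fintype.ofFinite (Fˣ ⧸ H)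
  have hbeta : ∀ u : (Af F)ˣ, DvdN 1 u.1 → ∃ β : 𝓞 F,
      DvdN M (u.1 - algebraMap F (Af F) (algebraMap (𝓞 F) F β)) := by
    intro u hu
    obtain ⟨α, hα⟩ := hA F u.1 M hM
    have h1 : DvdN 1 (algebraMap F (Af F) α) := by
      have e : algebraMap F (Af F) α = u.1 - (u.1 - algebraMap F (Af F) α) := by ring
      rw [e]
      exact hu.sub hα.int
    obtain ⟨b, hb⟩ := hI F α 1 le_rfl h1
    refine ⟨b, ?_⟩
    rw [Nat.cast_one, one_mul] at hb
    rw [← hb]
    exact hα
  let OU : Type := {u : (Af F)ˣ // DvdN 1 u.1 ∧ DvdN 1 u⁻¹.1}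
  let kp : OU → 𝓞 F ⧸ I := fun u => Ideal.Quotient.mk I (hbeta u.1 u.2.1).choose
  have hkp : ∀ u u' : OU, kp u = kp u' → DvdN M (u.1.1 - u'.1.1) := by
    intro u u' h
    have h1 := (hbeta u.1 u.2.1).choose_spec
    have h2 := (hbeta u'.1 u'.2.1).choose_spec
    have h3 := Ideal.Quotient.eq.1 h
    obtain ⟨c, hc⟩ := Ideal.mem_span_singleton'.1 h3
    have h4 : DvdN M (algebraMap F (Af F) (algebraMap (𝓞 F) F (hbeta u.1 u.2.1).choose) -
        algebraMap F (Af F) (algebraMap (𝓞 F) F (hbeta u'.1 u'.2.1).choose)) := by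
      rw [← map_sub, ← map_sub, ← hc]
      intro w
      rw [Cls.val_coe, map_mul, map_mul]
      have e1 : Valued.v ((M : Af F) w) = w.valuation F (M : F) := by
        rw [← Cls.val_coe, map_natCast]
      rw [e1, map_natCast]
      exact mul_le_of_le_one_left' (w.valuation_le_one c)
    have e : u.1.1 - u'.1.1 = (u.1.1 - algebraMap F (Af F) (algebraMap (𝓞 F) F
        (hbeta u.1 u.2.1).choose)) + (algebraMap F (Af F) (algebraMap (𝓞 F) F
        (hbeta u.1 u.2.1).choose) - algebraMap F (Af F) (algebraMap (𝓞 F) F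
        (hbeta u'.1 u'.2.1).choose)) - (u'.1.1 - algebraMap F (Af F) (algebraMap (𝓞 F) F
        (hbeta u'.1 u'.2.1).choose)) := by ring
    rw [e]
    exact (h1.add h4).sub h2
  let rp : 𝓞 F ⧸ I → (Af F)ˣ := fun c => if h : ∃ u : OU, kp u = c then h.choose.1 else 1
  let em : Fˣ → (Af F)ˣ := Units.map (algebraMap F (Af F)).toMonoidHom
  let T : Finset (Af F)ˣ := (Finset.univ : Finset (Fˣ ⧸ H)).image fun q => em q.out
  let Y : Finset (Af F)ˣ := (Finset.univ : Finset (𝓞 F ⧸ I)).image rp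
  refine ⟨((T ×ˢ X0) ×ˢ Y).image fun p => p.1.1 * p.1.2 * p.2, fun a => ?_⟩
  obtain ⟨α, x, u, hx, hu1, hu2, ha⟩ := hX0 a
  let U : OU := ⟨u, hu1, hu2⟩
  have hex : ∃ v : OU, kp v = kp U := ⟨U, rfl⟩
  have hrp : rp (kp U) = hex.choose.1 := by
    simp only [rp]
    rw [dif_pos hex]
  let y : OU := hex.choose
  have hy : kp y = kp U := hex.choose_spec
  let f : Fˣ := (QuotientGroup.mk α : Fˣ ⧸ H).out
  have hf : f⁻¹ * α ∈ H := by
    have h1 : (QuotientGroup.mk f : Fˣ ⧸ H) = QuotientGroup.mk α := QuotientGroup.out_eq' _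
    exact QuotientGroup.eq.1 h1
  refine ⟨f⁻¹ * α, em f * x * y.1, y.1⁻¹ * u, hf, ?_, ?_, ?_, ?_⟩
  · apply Finset.mem_image.2
    refine ⟨((em f, x), y.1), ?_, rfl⟩
    rw [Finset.mem_product, Finset.mem_product]
    refine ⟨⟨Finset.mem_image_of_mem _ (Finset.mem_univ _), hx⟩, ?_⟩
    apply Finset.mem_image.2
    exact ⟨kp U, Finset.mem_univ _, hrp⟩
  · have e : (y.1⁻¹ * u).1 - 1 = (u.1 - y.1.1) * y.1⁻¹.1 := by
      rw [Units.val_mul, sub_mul, Units.mul_inv]
      ring
    rw [e]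
    exact (hkp U y hy.symm).mul_int y.2.2
  · have e : ((y.1⁻¹ * u)⁻¹).1 - 1 = (y.1.1 - u.1) * u⁻¹.1 := by
      rw [_root_.mul_inv_rev, inv_inv, Units.val_mul, sub_mul, Units.mul_inv]
      ring
    rw [e]
    exact (hkp y U hy).mul_int hu2
  · rw [ha]
    have e : em α = em (f⁻¹ * α) * em f := by
      rw [← map_mul]
      congr 1
      rw [mul_comm, mul_inv_cancel_left]
    change em α * x * u = em (f⁻¹ * α) * (em f * x * y.1) * (y.1⁻¹ * u)
    rw [e]
    group

end Q4.GLC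

end
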