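import Pool.Agent.Q4.GLC.Par

/-!
# The number of cosets in the double coset of a diagonal matrix (project GLC, job CNT)
-/

set_option autoImplicit false

open IsDedekindDomain NumberField Matrix
open Classical

noncomputable section

namespace Q4.GLC.Cnt

variable {F : Type} [Field F] [NumberField F]

/-- the local integers -/
abbrev Ov (v : Pl F) := v.adicCompletionIntegers F

/-- the residue field of the completion -/
abbrev kap (v : Pl F) := IsLocalRing.ResidueField (Ov v)

theorem residue_eq_zero (v : Pl F) (x : Ov v) :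
    IsLocalRing.residue (Ov v) x = 0 ↔ Valued.v (x : v.adicCompletion F) < 1 := by
  rw [IsLocalRing.residue_eq_zero_iff, IsLocalRing.mem_maximalIdeal, mem_nonunits_iff,
    HeightOneSpectrum.adicCompletionIntegers.isUnit_iff_valued_eq_one]
  have h : Valued.v (x : v.adicCompletion F) ≤ 1 := x.2
  constructor
  · intro h1; exact lt_of_le_of_ne h h1
  · intro h1; exact h1.ne

/-- the reduction of global integers -/
def phi (v : Pl F) : 𝓞 F →+* kap v :=
  (IsLocalRing.residue (Ov v)).comp (algebraMap (𝓞 F) (Ov v))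

theorem phi_ker (v : Pl F) : RingHom.ker (phi v) = v.asIdeal := by
  ext r
  rw [RingHom.mem_ker]
  change IsLocalRing.residue (Ov v) (algebraMap (𝓞 F) (Ov v) r) = 0 ↔ _
  rw [residue_eq_zero, HeightOneSpectrum.algebraMap_adicCompletionIntegers_apply,
    HeightOneSpectrum.valuedAdicCompletion_eq_valuation', HeightOneSpectrum.valuation_lt_one_iff_mem]

theorem phi_surj (v : Pl F) : Function.Surjective (phi v) := by
  intro y
  obtain ⟨x, rfl⟩ := IsLocalRing.residue_surjective y
  have hopen : IsOpen {y : v.adicCompletion F | Valued.v (y - x.1) < 1} := by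
    have h1 := Valued.isOpen_ball (v.adicCompletion F) (1 : MonoidWithZeroHom.ValueGroup₀
      (.ofClass (Valued.v : Valuation (v.adicCompletion F) _)))
    have h2 : Continuous (fun y : v.adicCompletion F => y - x.1) := by fun_prop
    have h3 := h1.preimage h2
    convert h3 using 1
    ext y
    change Valued.v (y - x.1) < 1 ↔ Valued.v.restrict (y - x.1) < 1
    rw [Valuation.restrict_lt_one_iff]
  obtain ⟨k, hk⟩ := (HeightOneSpectrum.denseRange_algebraMap F v).exists_mem_open hopen
    ⟨x.1, by simp⟩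
  change Valued.v ((k : v.adicCompletion F) - x.1) < 1 at hk
  have hk1 : v.valuation F k ≤ 1 := by
    rw [← HeightOneSpectrum.valuedAdicCompletion_eq_valuation']
    have h1 : (k : v.adicCompletion F) = ((k : v.adicCompletion F) - x.1) + x.1 := by ring
    rw [h1]
    exact (Valued.v.map_add _ _).trans (max_le hk.le x.2)
  obtain ⟨a, ha⟩ := v.exists_valuation_sub_lt_of_integer hk1 1
  refine ⟨a, ?_⟩
  change IsLocalRing.residue (Ov v) (algebraMap (𝓞 F) (Ov v) a) = _
  rw [← sub_eq_zero, ← map_sub, residue_eq_zero]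
  change Valued.v (((algebraMap (𝓞 F) F a : F) : v.adicCompletion F) - x.1) < 1
  have h2 : ((algebraMap (𝓞 F) F a : F) : v.adicCompletion F) - x.1 =
      ((algebraMap (𝓞 F) F a - k : F) : v.adicCompletion F) + ((k : v.adicCompletion F) - x.1) := by
    have h3 : ((algebraMap (𝓞 F) F a - k : F) : v.adicCompletion F) =
        ((algebraMap (𝓞 F) F a : F) : v.adicCompletion F) - (k : v.adicCompletion F) :=
      map_sub (algebraMap F (v.adicCompletion F)) _ _
    rw [h3]; ring
  rw [h2]
  refine lt_of_le_of_lt (Valued.v.map_add _ _) (max_lt ?_ hk)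
  rw [HeightOneSpectrum.valuedAdicCompletion_eq_valuation']
  simpa using ha

/-- the residue fields agree -/
def resEquiv (v : Pl F) : (𝓞 F ⧸ v.asIdeal) ≃+* kap v :=
  (Ideal.quotEquivOfEq (phi_ker v).symm).trans (RingHom.quotientKerEquivOfSurjective (phi_surj v))

theorem card_kap (v : Pl F) : Nat.card (kap v) = qv v :=
  (Nat.card_congr (resEquiv v).toEquiv).symm

instance fin_kap (v : Pl F) : Finite (kap v) := by
  have : Finite (𝓞 F ⧸ v.asIdeal) := Ideal.finiteQuotientOfFreeOfNeBot v.asIdeal v.ne_bot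
  exact Finite.of_equiv _ (resEquiv v).toEquiv

/-- evaluation at a place -/
def ev (w : Pl F) : Af F →+* w.adicCompletion F := RestrictedProduct.evalRingHom _ w

theorem ev_apply (w : Pl F) (a : Af F) : ev w a = a w := rfl

variable {n : ℕ}

theorem mat_ext (X Y : Matrix (Fin n) (Fin n) (Af F)) (h : ∀ w, X.map (ev w) = Y.map (ev w)) :
    X = Y := by
  refine Matrix.ext fun i j => ?_
  apply FiniteAdeleRing.ext
  intro w
  exact congrFun (congrFun (h w) i) j

theorem map_one' (w : Pl F) : (1 : Matrix (Fin n) (Fin n) (Af F)).map (ev w) = 1 :=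
  Matrix.map_one _ (map_zero _) (map_one _)

theorem entry_one (w : Pl F) (i j : Fin n) :
    ((1 : Matrix (Fin n) (Fin n) (Af F)) i j) w =
      (1 : Matrix (Fin n) (Fin n) (w.adicCompletion F)) i j :=
  congrFun (congrFun (map_one' w) i) j

theorem entry_one_int (w : Pl F) (i j : Fin n) :
    Valued.v ((1 : Matrix (Fin n) (Fin n) (w.adicCompletion F)) i j) ≤ 1 := by
  rw [Matrix.one_apply]
  split_ifs
  · rw [map_one]
  · rw [map_zero]; exact zero_le_one

/-- integrality in terms of the entries -/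
theorem dvdM_iff (X : Matrix (Fin n) (Fin n) (Af F)) :
    DvdM 1 (X - 1) ↔ ∀ i j (w : Pl F), Valued.v ((X i j) w) ≤ 1 := by
  have h1 : ∀ w : Pl F, Valued.v (((1 : ℕ) : Af F) w) = 1 := by
    intro w
    rw [Nat.cast_one]
    exact map_one _
  have h2 : ∀ i j (w : Pl F), ((X - 1) i j) w =
      (X i j) w - (1 : Matrix (Fin n) (Fin n) (w.adicCompletion F)) i j := by
    intro i j w
    rw [← entry_one]
    rfl
  constructor
  · intro h i j w
    have h3 := h i j w
    rw [h1, h2] at h3
    have h4 : (X i j) w = ((X i j) w - (1 : Matrix (Fin n) (Fin n) (w.adicCompletion F)) i j) +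
      (1 : Matrix (Fin n) (Fin n) (w.adicCompletion F)) i j := by ring
    rw [h4]
    exact (Valued.v.map_add _ _).trans (max_le h3 (entry_one_int w i j))
  · intro h i j w
    rw [h1, h2]
    exact (Valuation.map_sub _ _ _).trans (max_le (h i j w) (entry_one_int w i j))

theorem mem_UN1 (g : Gf F n) : g ∈ UN F n 1 ↔ (∀ i j (w : Pl F), Valued.v ((g.1 i j) w) ≤ 1) ∧
    ∀ i j (w : Pl F), Valued.v ((g⁻¹.1 i j) w) ≤ 1 := by
  rw [mem_UN, dvdM_iff, dvdM_iff]

theorem mem_Kv (v : Pl F) (g : Gf F n) : g ∈ Kv n v ↔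
    (∀ i j (w : Pl F), Valued.v ((g.1 i j) w) ≤ 1) ∧
    (∀ i j (w : Pl F), Valued.v ((g⁻¹.1 i j) w) ≤ 1) ∧
    (∀ w, w ≠ v → g.1.map (ev w) = 1) ∧ (∀ w, w ≠ v → g⁻¹.1.map (ev w) = 1) := by
  constructor
  · rintro ⟨h1, h2⟩
    rw [mem_UN1] at h1
    refine ⟨h1.1, h1.2, fun w hw => ?_, fun w hw => ?_⟩
    · ext i j
      rw [Matrix.map_apply, ev_apply, (h2 w hw i j).1, entry_one]
    · ext i j
      rw [Matrix.map_apply, ev_apply, (h2 w hw i j).2, entry_one]
  · rintro ⟨h1, h2, h3, h4⟩
    refine ⟨(mem_UN1 g).2 ⟨h1, h2⟩, fun w hw i j => ⟨?_, ?_⟩⟩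
    · rw [entry_one, ← h3 w hw]; rfl
    · rw [entry_one, ← h4 w hw]; rfl

/-- the matrix of local integers of an integral matrix of adeles -/
def loc (v : Pl F) (X : Matrix (Fin n) (Fin n) (Af F)) (h : ∀ i j, Valued.v ((X i j) v) ≤ 1) :
    Matrix (Fin n) (Fin n) (Ov v) := fun i j => ⟨(X i j) v, h i j⟩

theorem loc_map (v : Pl F) (X : Matrix (Fin n) (Fin n) (Af F))
    (h : ∀ i j, Valued.v ((X i j) v) ≤ 1) :
    (loc v X h).map (Ov v).subtype = X.map (ev v) := rfl

theorem sub_inj (v : Pl F) : Function.Injective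
    (fun M : Matrix (Fin n) (Fin n) (Ov v) => M.map (Ov v).subtype) := by
  intro M N h
  refine Matrix.ext fun i j => Subtype.ext ?_
  exact congrFun (congrFun h i) j

theorem loc_mul (v : Pl F) (X Y : Matrix (Fin n) (Fin n) (Af F))
    (hX : ∀ i j, Valued.v ((X i j) v) ≤ 1) (hY : ∀ i j, Valued.v ((Y i j) v) ≤ 1)
    (hXY : ∀ i j, Valued.v (((X * Y) i j) v) ≤ 1) :
    loc v (X * Y) hXY = loc v X hX * loc v Y hY := by
  apply sub_inj v
  change (loc v (X * Y) hXY).map (Ov v).subtype = (loc v X hX * loc v Y hY).map (Ov v).subtype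
  rw [loc_map, Matrix.map_mul, Matrix.map_mul, loc_map, loc_map]

theorem loc_one (v : Pl F) (h : ∀ i j, Valued.v (((1 : Matrix (Fin n) (Fin n) (Af F)) i j) v) ≤ 1) :
    loc v (1 : Matrix (Fin n) (Fin n) (Af F)) h = 1 := by
  apply sub_inj v
  change (loc v 1 h).map (Ov v).subtype = (1 : Matrix (Fin n) (Fin n) (Ov v)).map (Ov v).subtype
  rw [loc_map, map_one', Matrix.map_one _ (map_zero _) (map_one _)]

theorem loc_congr (v : Pl F) (X Y : Matrix (Fin n) (Fin n) (Af F)) (e : X = Y)
    (hX : ∀ i j, Valued.v ((X i j) v) ≤ 1) (hY : ∀ i j, Valued.v ((Y i j) v) ≤ 1) :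
    loc v X hX = loc v Y hY := by
  subst e; rfl

/-- the local component -/
def psi (n : ℕ) (v : Pl F) : Kv (F := F) n v →* GL (Fin n) (Ov v) where
  toFun g :=
    { val := loc v g.1.1 fun i j => ((mem_Kv v g.1).1 g.2).1 i j v
      inv := loc v g.1⁻¹.1 fun i j => ((mem_Kv v g.1).1 g.2).2.1 i j v
      val_inv := by
        rw [← loc_mul v _ _ _ _ (fun i j => by
          rw [← Units.val_mul, mul_inv_cancel, Units.val_one, entry_one]
          exact entry_one_int v i j)]
        rw [loc_congr v _ 1 (by rw [← Units.val_mul, mul_inv_cancel, Units.val_one]) _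
          (fun i j => by rw [entry_one]; exact entry_one_int v i j)]
        exact loc_one v _
      inv_val := by
        rw [← loc_mul v _ _ _ _ (fun i j => by
          rw [← Units.val_mul, inv_mul_cancel, Units.val_one, entry_one]
          exact entry_one_int v i j)]
        rw [loc_congr v _ 1 (by rw [← Units.val_mul, inv_mul_cancel, Units.val_one]) _
          (fun i j => by rw [entry_one]; exact entry_one_int v i j)]
        exact loc_one v _ }
  map_one' := by
    apply Units.ext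
    exact loc_one v _
  map_mul' g h := by
    apply Units.ext
    exact loc_mul v _ _ _ _ _

/-- the components of an entry -/
def upd (v : Pl F) (M : Matrix (Fin n) (Fin n) (Ov v)) (i j : Fin n) :
    (w : Pl F) → w.adicCompletion F :=
  Function.update (fun w => (1 : Matrix (Fin n) (Fin n) (w.adicCompletion F)) i j) v (M i j).1

theorem upd_self (v : Pl F) (M : Matrix (Fin n) (Fin n) (Ov v)) (i j : Fin n) :
    upd v M i j v = (M i j).1 := Function.update_self _ _ _

theorem upd_ne (v w : Pl F) (hw : w ≠ v) (M : Matrix (Fin n) (Fin n) (Ov v)) (i j : Fin n) :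
    upd v M i j w = (1 : Matrix (Fin n) (Fin n) (w.adicCompletion F)) i j :=
  Function.update_of_ne hw _ _

/-- the matrix of adeles with given component at `v` and components `1` elsewhere -/
def lift (v : Pl F) (M : Matrix (Fin n) (Fin n) (Ov v)) :
    Matrix (Fin n) (Fin n) (Af F) := fun i j =>
  (⟨upd v M i j, Filter.Eventually.of_forall fun w => by
      by_cases hw : w = v
      · subst hw
        rw [upd_self]
        exact (M i j).2
      · rw [upd_ne v w hw]
        exact entry_one_int w i j⟩ : Af F)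

theorem lift_self (v : Pl F) (M : Matrix (Fin n) (Fin n) (Ov v)) :
    (lift v M).map (ev v) = M.map (Ov v).subtype :=
  Matrix.ext fun i j => upd_self v M i j

theorem lift_ne (v w : Pl F) (hw : w ≠ v) (M : Matrix (Fin n) (Fin n) (Ov v)) :
    (lift v M).map (ev w) = 1 :=
  Matrix.ext fun i j => upd_ne v w hw M i j

theorem lift_int (v : Pl F) (M : Matrix (Fin n) (Fin n) (Ov v)) (i j : Fin n) (w : Pl F) :
    Valued.v ((lift v M i j) w) ≤ 1 := by
  by_cases hw : w = v
  · subst hw
    have h := congrFun (congrFun (lift_self w M) i) j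
    change (lift w M i j) w = (M i j).1 at h
    rw [h]
    exact (M i j).2
  · have h := congrFun (congrFun (lift_ne v w hw M) i) j
    change (lift v M i j) w = _ at h
    rw [h]
    exact entry_one_int w i j

theorem lift_mul (v : Pl F) (M N : Matrix (Fin n) (Fin n) (Ov v)) (h : M * N = 1) :
    lift v M * lift v N = 1 := by
  apply mat_ext
  intro w
  rw [Matrix.map_mul, map_one']
  by_cases hw : w = v
  · subst hw
    rw [lift_self, lift_self, ← Matrix.map_mul, h, Matrix.map_one _ (map_zero _) (map_one _)]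
  · rw [lift_ne v w hw, lift_ne v w hw, one_mul]

theorem psi_surj (n : ℕ) (v : Pl F) : Function.Surjective (psi (F := F) n v) := by
  intro A
  let g : Gf F n :=
    { val := lift v A.1
      inv := lift v A⁻¹.1
      val_inv := lift_mul v _ _ A.mul_inv
      inv_val := lift_mul v _ _ A.inv_mul }
  have hg : g ∈ Kv n v := by
    rw [mem_Kv]
    exact ⟨fun i j w => lift_int v _ i j w, fun i j w => lift_int v _ i j w,
      fun w hw => lift_ne v w hw _, fun w hw => lift_ne v w hw _⟩
  refine ⟨⟨g, hg⟩, ?_⟩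
  apply Units.ext
  apply sub_inj v
  exact lift_self v A.1

/-- reduction -/
def red (n : ℕ) (v : Pl F) : Kv (F := F) n v →* GL (Fin n) (kap v) :=
  (Matrix.GeneralLinearGroup.map (IsLocalRing.residue (Ov v))).comp (psi n v)

theorem glmap_surj (n : ℕ) (v : Pl F) : Function.Surjective
    (Matrix.GeneralLinearGroup.map (n := Fin n) (IsLocalRing.residue (Ov v))) := by
  intro B
  choose f hf using fun y : kap v => IsLocalRing.residue_surjective y
  let M : Matrix (Fin n) (Fin n) (Ov v) := B.1.map f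
  have hM : M.map (IsLocalRing.residue (Ov v)) = B.1 := by
    ext i j
    exact hf _
  have hu : IsUnit M.det := by
    apply isUnit_of_map_unit (IsLocalRing.residue (Ov v))
    rw [RingHom.map_det]
    change IsUnit (M.map (IsLocalRing.residue (Ov v))).det
    rw [hM]
    exact (Matrix.isUnit_iff_isUnit_det _).1 B.isUnit
  have hu' : IsUnit M := (Matrix.isUnit_iff_isUnit_det _).2 hu
  refine ⟨hu'.unit, ?_⟩
  apply Units.ext
  exact hM

theorem red_surj (n : ℕ) (v : Pl F) : Function.Surjective (red (F := F) n v) :=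
  (glmap_surj n v).comp (psi_surj n v)

theorem red_apply (v : Pl F) (k : Kv (F := F) n v) (i l : Fin n) :
    (red n v k).1 i l = 0 ↔ Valued.v ((k.1.1 i l) v) < 1 :=
  residue_eq_zero v _

theorem diag_ev (w : Pl F) (d : Fin n → Af F) :
    (Matrix.diagonal d).map (ev w) = Matrix.diagonal fun i => (d i) w :=
  Matrix.diagonal_map (map_zero _)

/-- conjugation by the diagonal matrix -/
theorem conj_mem (v : Pl F) (ϖ : (Af F)ˣ) (hϖ : IsUnif v ϖ) (j : ℕ) (k : Gf F n) (hk : k ∈ Kv n v) :
    (tm n ϖ j)⁻¹ * k * tm n ϖ j ∈ Kv n v ↔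
      (∀ i l : Fin n, i.1 < j → j ≤ l.1 → Valued.v ((k.1 i l) v) < 1) ∧
      (∀ i l : Fin n, i.1 < j → j ≤ l.1 → Valued.v ((k⁻¹.1 i l) v) < 1) := by
  have hinv1 : ϖ⁻¹.1 v * ϖ.1 v = 1 := by
    have : (ϖ⁻¹.1 * ϖ.1) v = (1 : Af F) v := by rw [ϖ.inv_mul]
    exact this
  have hv0 : Valued.v (ϖ⁻¹.1 v) = WithZero.exp (1 : ℤ) := by
    have h := congrArg Valued.v hinv1
    rw [map_mul, map_one, hϖ.1] at h
    have h2 : WithZero.exp (1 : ℤ) * WithZero.exp (-1 : ℤ) = (1 : WithZero (Multiplicative ℤ)) := by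
      rw [← WithZero.exp_add, add_neg_cancel, WithZero.exp_zero]
    exact mul_right_cancel₀ (WithZero.exp_ne_zero) (h.trans h2.symm)
  have hinvw : ∀ w, w ≠ v → ϖ⁻¹.1 w = 1 := by
    intro w hw
    have h : (ϖ⁻¹.1 * ϖ.1) w = (1 : Af F) w := by rw [ϖ.inv_mul]
    change ϖ⁻¹.1 w * ϖ.1 w = 1 at h
    rwa [hϖ.2 w hw, mul_one] at h
  -- the entries of a conjugate
  have hentry : ∀ (x : Gf F n) (i l : Fin n) (w : Pl F),
      (((tm n ϖ j)⁻¹ * x * tm n ϖ j).1 i l) w =
        ((if i.1 < j then ϖ⁻¹.1 else 1 : Af F)) w * (x.1 i l) w *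
          ((if l.1 < j then ϖ.1 else 1 : Af F)) w := by
    intro x i l w
    have h : ((tm n ϖ j)⁻¹ * x * tm n ϖ j).1 = Matrix.diagonal (fun i : Fin n =>
        if i.1 < j then ϖ⁻¹.1 else 1) * x.1 * Matrix.diagonal (fun i : Fin n =>
        if i.1 < j then ϖ.1 else 1) := rfl
    rw [h, Matrix.mul_diagonal, Matrix.diagonal_mul]
    rfl
  have hw1 : ∀ (x : Gf F n), (∀ w, w ≠ v → x.1.map (ev w) = 1) → ∀ w, w ≠ v →
      ((tm n ϖ j)⁻¹ * x * tm n ϖ j).1.map (ev w) = 1 := by
    intro x hx w hw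
    ext i l
    rw [Matrix.map_apply, ev_apply, hentry]
    have h1 := congrFun (congrFun (hx w hw) i) l
    change (x.1 i l) w = _ at h1
    have h2 : ((if i.1 < j then ϖ⁻¹.1 else 1 : Af F)) w = 1 := by
      split_ifs
      · exact hinvw w hw
      · rfl
    have h3 : ((if l.1 < j then ϖ.1 else 1 : Af F)) w = 1 := by
      split_ifs
      · exact hϖ.2 w hw
      · rfl
    rw [h1, h2, h3, one_mul, mul_one]
  have hint : ∀ (x : Gf F n), (∀ w, w ≠ v → x.1.map (ev w) = 1) →
      (∀ i j (w : Pl F), Valued.v ((x.1 i j) w) ≤ 1) →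
      (∀ i l : Fin n, i.1 < j → j ≤ l.1 → Valued.v ((x.1 i l) v) < 1) →
      ∀ i l (w : Pl F), Valued.v ((((tm n ϖ j)⁻¹ * x * tm n ϖ j).1 i l) w) ≤ 1 := by
    intro x hx1 hx2 hx3 i l w
    by_cases hw : w = v
    · subst hw
      rw [hentry, map_mul, map_mul]
      by_cases hi : i.1 < j
      · rw [if_pos hi, hv0]
        by_cases hl : l.1 < j
        · rw [if_pos hl, hϖ.1, mul_right_comm, ← WithZero.exp_add, add_neg_cancel,
            WithZero.exp_zero, one_mul]
          exact hx2 i l w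
        · rw [if_neg hl]
          have h1 : Valued.v ((1 : Af F) w) = 1 := map_one _
          rw [h1, mul_one]
          have h2 := hx3 i l hi (not_lt.1 hl)
          rcases eq_or_ne (Valued.v ((x.1 i l) w)) 0 with h0 | h0
          · rw [h0, mul_zero]; exact zero_le_one
          · rw [← WithZero.exp_log h0, ← WithZero.exp_add, ← WithZero.exp_zero, WithZero.exp_le_exp]
            rw [← WithZero.exp_log h0, ← WithZero.exp_zero, WithZero.exp_lt_exp] at h2
            omega
      · rw [if_neg hi]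
        have h1 : Valued.v ((1 : Af F) w) = 1 := map_one _
        rw [h1, one_mul]
        by_cases hl : l.1 < j
        · rw [if_pos hl, hϖ.1]
          refine mul_le_one' (hx2 i l w) ?_
          rw [← WithZero.exp_zero, WithZero.exp_le_exp]
          norm_num
        · rw [if_neg hl, h1, mul_one]
          exact hx2 i l w
    · have h1 := congrFun (congrFun (hw1 x hx1 w hw) i) l
      change (((tm n ϖ j)⁻¹ * x * tm n ϖ j).1 i l) w = _ at h1
      rw [h1]
      exact entry_one_int w i l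
  have hback : ∀ (x : Gf F n),
      (∀ i l, Valued.v ((((tm n ϖ j)⁻¹ * x * tm n ϖ j).1 i l) v) ≤ 1) →
      (∀ i l : Fin n, i.1 < j → j ≤ l.1 → Valued.v ((x.1 i l) v) < 1) := by
    intro x hx i l hi hl
    have h1 := hx i l
    rw [hentry, map_mul, map_mul, if_pos hi, if_neg (not_lt.2 hl), hv0] at h1
    have h2 : Valued.v ((1 : Af F) v) = 1 := map_one _
    rw [h2, mul_one] at h1
    rcases eq_or_ne (Valued.v ((x.1 i l) v)) 0 with h0 | h0
    · rw [h0]; exact zero_lt_one
    · rw [← WithZero.exp_log h0, ← WithZero.exp_add, ← WithZero.exp_zero, WithZero.exp_le_exp] at h1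
      rw [← WithZero.exp_log h0, ← WithZero.exp_zero, WithZero.exp_lt_exp]
      omega
  have hinv : ((tm n ϖ j)⁻¹ * k * tm n ϖ j)⁻¹ = (tm n ϖ j)⁻¹ * k⁻¹ * tm n ϖ j := by group
  have hk' := (mem_Kv v k).1 hk
  rw [mem_Kv, hinv]
  constructor
  · rintro ⟨h1, h2, -, -⟩
    exact ⟨hback k fun i l => h1 i l v, hback k⁻¹ fun i l => h2 i l v⟩
  · rintro ⟨h1, h2⟩
    exact ⟨hint k hk'.2.2.1 hk'.1 h1, hint k⁻¹ hk'.2.2.2 hk'.2.1 h2, hw1 k hk'.2.2.1,
      hw1 k⁻¹ hk'.2.2.2⟩

end Q4.GLC.Cnt

namespace Q4.GLC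

/-- the number of cosets -/
theorem tCnt : SPar → SCnt := by
  intro hPar F _ _ n v ϖ hϖ j hj
  obtain ⟨H, hH, hidx⟩ := hPar (Cnt.kap v) n j hj
  have hstab : MulAction.stabilizer (Kv (F := F) n v)
      ((tm n ϖ j : Gf F n) : Gf F n ⧸ Kv (F := F) n v) = H.comap (Cnt.red n v) := by
    ext k
    rw [MulAction.mem_stabilizer_iff, Subgroup.mem_comap]
    have h1 : (k • ((tm n ϖ j : Gf F n) : Gf F n ⧸ Kv (F := F) n v) =
        ((tm n ϖ j : Gf F n) : Gf F n ⧸ Kv (F := F) n v)) ↔
        (tm n ϖ j)⁻¹ * k.1⁻¹ * tm n ϖ j ∈ Kv (F := F) n v := by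
      have h2 : k • ((tm n ϖ j : Gf F n) : Gf F n ⧸ Kv (F := F) n v) =
          ((k.1 * tm n ϖ j : Gf F n) : Gf F n ⧸ Kv (F := F) n v) := rfl
      rw [h2, QuotientGroup.eq, _root_.mul_inv_rev]
    rw [h1, Cnt.conj_mem v ϖ hϖ j k.1⁻¹ (Subgroup.inv_mem _ k.2), inv_inv]
    have hmem : ∀ x : Kv (F := F) n v, Cnt.red n v x ∈ H ↔
        ∀ i l : Fin n, i.1 < j → j ≤ l.1 → Valued.v ((x.1.1 i l) v) < 1 := by
      intro x
      rw [← SetLike.mem_coe, hH]
      constructor
      · intro h i l hi hl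
        exact (Cnt.red_apply v x i l).1 (h i l hi hl)
      · intro h i l hi hl
        exact (Cnt.red_apply v x i l).2 (h i l hi hl)
    constructor
    · rintro ⟨_, h3⟩
      exact (hmem k).2 h3
    · intro h3
      refine ⟨?_, (hmem k).1 h3⟩
      have h4 : Cnt.red n v k⁻¹ ∈ H := by
        rw [map_inv]; exact H.inv_mem h3
      exact (hmem k⁻¹).1 h4
  have hcard : (MulAction.orbit (Kv (F := F) n v)
      ((tm n ϖ j : Gf F n) : Gf F n ⧸ Kv (F := F) n v)).ncard = H.index := by
    rw [← MulAction.index_stabilizer, hstab,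
      Subgroup.index_comap_of_surjective _ (Cnt.red_surj n v)]
  have hne : H.index ≠ 0 := Subgroup.index_ne_zero_of_finite
  refine ⟨Set.finite_of_ncard_ne_zero (by rw [hcard]; exact hne), ?_⟩
  rw [Nat.card_coe_set_eq, hcard, ← Cnt.card_kap v]
  exact hidx

end Q4.GLC

end
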