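import Mathlib

/-!
# Adelic group cohomology of `GL_n` over a number field in degrees zero and one, with Hecke operators

* `Pl F`: the finite places of the number field `F`; `Af F`: the ring of finite adeles.
* `Gf F n = GL_n(Af F)`, `GQ F n = GL_n(F)`, `dg : GQ F n →* Gf F n` the diagonal embedding.
* `DvdN N a`: `a` is in `N Ô`; `UN n N`: the principal congruence subgroup of level `N` of `GL_n(Ô)`.
* `Kv n v`: the subgroup `GL_n(O_v)` of `Gf F n` (components `1` at the other places).
* `IsUnif v ϖ`: `ϖ` is an idele with a uniformizer at `v` and components `1` elsewhere.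
* `tm ϖ j`: the diagonal matrix with `j` entries `ϖ` followed by entries `1`.
-/

open IsDedekindDomain NumberField Matrix

namespace Q4.GLC

/-- the finite places -/
abbrev Pl (F : Type) [Field F] [NumberField F] := HeightOneSpectrum (𝓞 F)

/-- the finite adeles -/
abbrev Af (F : Type) [Field F] [NumberField F] := FiniteAdeleRing (𝓞 F) F

/-- the finite adelic points of `GL_n` -/
abbrev Gf (F : Type) [Field F] [NumberField F] (n : ℕ) := GL (Fin n) (Af F)

/-- the rational points of `GL_n` -/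
abbrev GQ (F : Type) [Field F] (n : ℕ) := GL (Fin n) F

variable {F : Type} [Field F] [NumberField F]

/-- the diagonal embedding -/
noncomputable def dg (F : Type) [Field F] [NumberField F] (n : ℕ) : GQ F n →* Gf F n :=
  Matrix.GeneralLinearGroup.map (algebraMap F (Af F))

/-- `a` is in `N Ô` -/
def DvdN (N : ℕ) (a : Af F) : Prop :=
  ∀ v : Pl F, Valued.v (a v) ≤ Valued.v ((N : Af F) v)

theorem dvdN_zero (N : ℕ) : DvdN N (0 : Af F) := fun v => by
  change Valued.v (0 : v.adicCompletion F) ≤ _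
  simp

theorem DvdN.add {N : ℕ} {a b : Af F} (ha : DvdN N a) (hb : DvdN N b) : DvdN N (a + b) :=
  fun v => (Valued.v.map_add (a v) (b v)).trans (max_le (ha v) (hb v))

theorem DvdN.neg {N : ℕ} {a : Af F} (ha : DvdN N a) : DvdN N (-a) := fun v => by
  change Valued.v (-(a v)) ≤ _
  rw [Valuation.map_neg]
  exact ha v

theorem natCast_apply (N : ℕ) (v : Pl F) : ((N : Af F) v) = (N : v.adicCompletion F) := rfl

theorem val_nat_le (N : ℕ) (v : Pl F) : Valued.v (N : v.adicCompletion F) ≤ 1 := by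
  have h : (N : v.adicCompletion F) ∈ v.adicCompletionIntegers F := natCast_mem _ N
  exact h

theorem DvdN.mul_int {N : ℕ} {a b : Af F} (ha : DvdN N a) (hb : DvdN 1 b) : DvdN N (a * b) :=
  fun v => by
    change Valued.v (a v * b v) ≤ _
    rw [map_mul]
    have h1 : Valued.v (b v) ≤ 1 := by
      have := hb v
      rw [Nat.cast_one] at this
      change Valued.v (b v) ≤ Valued.v (1 : v.adicCompletion F) at this
      rwa [map_one] at this
    calc Valued.v (a v) * Valued.v (b v) ≤ Valued.v ((N : Af F) v) * 1 := mul_le_mul' (ha v) h1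
      _ = _ := mul_one _

theorem DvdN.int {N : ℕ} {a : Af F} (ha : DvdN N a) : DvdN 1 a := fun v => by
  refine (ha v).trans ?_
  rw [Nat.cast_one]
  change Valued.v (N : v.adicCompletion F) ≤ Valued.v (1 : v.adicCompletion F)
  rw [map_one]
  exact val_nat_le N v

theorem dvdN_one_one : DvdN 1 (1 : Af F) := fun v => by
  rw [Nat.cast_one]

theorem DvdN.sub {N : ℕ} {a b : Af F} (ha : DvdN N a) (hb : DvdN N b) : DvdN N (a - b) := by
  rw [sub_eq_add_neg]
  exact ha.add hb.neg

theorem DvdN.sum {ι : Type} {N : ℕ} (s : Finset ι) {a : ι → Af F} (ha : ∀ i ∈ s, DvdN N (a i)) :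
    DvdN N (∑ i ∈ s, a i) := by
  classical
  induction s using Finset.induction_on with
  | empty => rw [Finset.sum_empty]; exact dvdN_zero N
  | insert i s hi ih =>
    rw [Finset.sum_insert hi]
    exact (ha i (Finset.mem_insert_self i s)).add
      (ih fun j hj => ha j (Finset.mem_insert_of_mem hj))

/-- entrywise membership in `N Ô` -/
def DvdM {n : ℕ} (N : ℕ) (M : Matrix (Fin n) (Fin n) (Af F)) : Prop := ∀ i j, DvdN N (M i j)

theorem DvdM.mul_int {n N : ℕ} {A B : Matrix (Fin n) (Fin n) (Af F)} (hA : DvdM N A)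
    (hB : DvdM 1 B) : DvdM N (A * B) := fun i j => by
  rw [Matrix.mul_apply]
  exact DvdN.sum _ fun l _ => (hA i l).mul_int (hB l j)

theorem DvdM.int_mul {n N : ℕ} {A B : Matrix (Fin n) (Fin n) (Af F)} (hA : DvdM 1 A)
    (hB : DvdM N B) : DvdM N (A * B) := fun i j => by
  rw [Matrix.mul_apply]
  exact DvdN.sum _ fun l _ => by
    rw [mul_comm]
    exact (hB l j).mul_int (hA i l)

theorem DvdM.add {n N : ℕ} {A B : Matrix (Fin n) (Fin n) (Af F)} (hA : DvdM N A)
    (hB : DvdM N B) : DvdM N (A + B) := fun i j => (hA i j).add (hB i j)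

theorem DvdM.int {n N : ℕ} {A : Matrix (Fin n) (Fin n) (Af F)} (hA : DvdM N A) : DvdM 1 A :=
  fun i j => (hA i j).int

theorem dvdM_one_one {n : ℕ} : DvdM 1 (1 : Matrix (Fin n) (Fin n) (Af F)) := fun i j => by
  rw [Matrix.one_apply]
  split_ifs
  · exact dvdN_one_one
  · exact dvdN_zero 1

theorem dvdM_zero {n N : ℕ} : DvdM N (0 : Matrix (Fin n) (Fin n) (Af F)) := fun _ _ => dvdN_zero N

/-- the principal congruence subgroup of level `N` of `GL_n(Ô)` -/
def UN (F : Type) [Field F] [NumberField F] (n N : ℕ) : Subgroup (Gf F n) where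
  carrier := {g | DvdM N (g.1 - 1) ∧ DvdM N (g⁻¹.1 - 1)}
  one_mem' := by
    constructor
    · rw [Units.val_one, sub_self]; exact dvdM_zero
    · rw [inv_one, Units.val_one, sub_self]; exact dvdM_zero
  inv_mem' := by
    rintro g ⟨h1, h2⟩
    refine ⟨h2, ?_⟩
    rwa [inv_inv]
  mul_mem' := by
    have key : ∀ A B : Matrix (Fin n) (Fin n) (Af F), DvdM N (A - 1) → DvdM N (B - 1) →
        DvdM N (A * B - 1) := by
      intro A B hA hB
      have e : A * B - 1 = (A - 1) * B + (B - 1) := by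
        rw [sub_mul, one_mul]; abel
      rw [e]
      refine (hA.mul_int ?_).add hB
      have e2 : B = (B - 1) + 1 := by abel
      rw [e2]
      exact hB.int.add dvdM_one_one
    rintro g h ⟨h1, h2⟩ ⟨h3, h4⟩
    refine ⟨?_, ?_⟩
    · rw [Units.val_mul]; exact key _ _ h1 h3
    · rw [_root_.mul_inv_rev, Units.val_mul]; exact key _ _ h4 h2

theorem mem_UN {n N : ℕ} {g : Gf F n} :
    g ∈ UN F n N ↔ DvdM N (g.1 - 1) ∧ DvdM N (g⁻¹.1 - 1) := Iff.rfl

/-- the subgroup `GL_n(O_v)` -/
def Kv (n : ℕ) (v : Pl F) : Subgroup (Gf F n) where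
  carrier := {g | g ∈ UN F n 1 ∧ ∀ w, w ≠ v → ∀ i j,
    (g.1 i j) w = ((1 : Matrix (Fin n) (Fin n) (Af F)) i j) w ∧
    (g⁻¹.1 i j) w = ((1 : Matrix (Fin n) (Fin n) (Af F)) i j) w}
  one_mem' := ⟨Subgroup.one_mem _, fun w _ i j => by
    rw [inv_one]; exact ⟨rfl, rfl⟩⟩
  inv_mem' := by
    rintro g ⟨h1, h2⟩
    refine ⟨Subgroup.inv_mem _ h1, fun w hw i j => ?_⟩
    rw [inv_inv]
    exact ⟨(h2 w hw i j).2, (h2 w hw i j).1⟩
  mul_mem' := by
    have key : ∀ (w : Pl F) (A B : Matrix (Fin n) (Fin n) (Af F)),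
        (∀ i j, (A i j) w = ((1 : Matrix (Fin n) (Fin n) (Af F)) i j) w) →
        (∀ i j, (B i j) w = ((1 : Matrix (Fin n) (Fin n) (Af F)) i j) w) →
        ∀ i j, ((A * B) i j) w = ((1 : Matrix (Fin n) (Fin n) (Af F)) i j) w := by
      intro w A B hA hB i j
      let φ : Af F →+* w.adicCompletion F := RestrictedProduct.evalRingHom _ w
      have hφ : ∀ a : Af F, φ a = a w := fun a => rfl
      have hA' : A.map φ = 1 := by
        ext i j
        rw [Matrix.map_apply, hφ, hA, Matrix.one_apply, Matrix.one_apply]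
        split_ifs <;> rfl
      have hB' : B.map φ = 1 := by
        ext i j
        rw [Matrix.map_apply, hφ, hB, Matrix.one_apply, Matrix.one_apply]
        split_ifs <;> rfl
      have h : (A * B).map φ = 1 := by
        rw [Matrix.map_mul, hA', hB', one_mul]
      have h2 := congrFun (congrFun h i) j
      rw [Matrix.map_apply, hφ] at h2
      rw [h2, Matrix.one_apply, Matrix.one_apply]
      split_ifs <;> rfl
    rintro g h ⟨h1, h2⟩ ⟨h3, h4⟩
    refine ⟨Subgroup.mul_mem _ h1 h3, fun w hw i j => ⟨?_, ?_⟩⟩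
    · rw [Units.val_mul]
      exact key w _ _ (fun i j => (h2 w hw i j).1) (fun i j => (h4 w hw i j).1) i j
    · rw [_root_.mul_inv_rev, Units.val_mul]
      exact key w _ _ (fun i j => (h4 w hw i j).2) (fun i j => (h2 w hw i j).2) i j

/-- `ϖ` is an idele with a uniformizer at `v` and components `1` at the other places -/
def IsUnif (v : Pl F) (ϖ : (Af F)ˣ) : Prop :=
  Valued.v (ϖ.1 v) = WithZero.exp (-1 : ℤ) ∧ ∀ w, w ≠ v → ϖ.1 w = 1

/-- the diagonal matrix with `j` entries `ϖ` followed by entries `1` -/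
noncomputable def tm (n : ℕ) (ϖ : (Af F)ˣ) (j : ℕ) : Gf F n where
  val := Matrix.diagonal fun i => if i.1 < j then ϖ.1 else 1
  inv := Matrix.diagonal fun i => if i.1 < j then ϖ⁻¹.1 else 1
  val_inv := by
    rw [Matrix.diagonal_mul_diagonal, ← Matrix.diagonal_one]
    congr 1
    funext i
    split_ifs <;> simp
  inv_val := by
    rw [Matrix.diagonal_mul_diagonal, ← Matrix.diagonal_one]
    congr 1
    funext i
    split_ifs <;> simp

/-- the norm of a place -/
noncomputable def qv (v : Pl F) : ℕ := Nat.card (𝓞 F ⧸ v.asIdeal)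

section coh

variable {G H k W : Type} [Group G] [Group H] [Field k] [AddCommGroup W] [Module k W]

/-- the functions `f` on `G` with `f (x κ) = κ⁻¹ f x` for `κ ∈ K` -/
def MW (K : Subgroup G) (ρ : Representation k K W) : Submodule k (G → W) where
  carrier := {f | ∀ (κ : K) (x : G), f (x * κ) = ρ κ⁻¹ (f x)}
  zero_mem' := fun κ x => (map_zero (ρ κ⁻¹)).symm
  add_mem' := fun {f g} hf hg κ x => by
    rw [Pi.add_apply, Pi.add_apply, hf, hg, map_add]
  smul_mem' := fun a f hf κ x => by
    rw [Pi.smul_apply, Pi.smul_apply, hf, map_smul]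

/-- the action of `H` on functions by left translation through `ι` -/
def lt (ι : H →* G) (γ : H) (f : G → W) : G → W := fun x => f ((ι γ)⁻¹ * x)

/-- one-cocycles of `Γ` with values in `M` -/
def Z1 (ι : H →* G) (Γ : Subgroup H) (M : Submodule k (G → W)) : Submodule k (Γ → G → W) where
  carrier := {c | (∀ γ, c γ ∈ M) ∧ ∀ γ δ : Γ, c (γ * δ) = c γ + lt ι γ.1 (c δ)}
  zero_mem' := ⟨fun _ => M.zero_mem, fun γ δ => by ext x; simp [lt]⟩
  add_mem' := fun {c d} hc hd => ⟨fun γ => M.add_mem (hc.1 γ) (hd.1 γ), fun γ δ => by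
    ext x
    have h1 := congrFun (hc.2 γ δ) x
    have h2 := congrFun (hd.2 γ δ) x
    simp only [Pi.add_apply, lt] at h1 h2 ⊢
    rw [h1, h2]
    abel⟩
  smul_mem' := fun a c hc => ⟨fun γ => M.smul_mem a (hc.1 γ), fun γ δ => by
    ext x
    have h1 := congrFun (hc.2 γ δ) x
    simp only [Pi.add_apply, Pi.smul_apply, lt] at h1 ⊢
    rw [h1, smul_add]⟩

/-- one-coboundaries of `Γ` with values in `M` -/
def B1 (ι : H →* G) (Γ : Subgroup H) (M : Submodule k (G → W)) : Submodule k (Γ → G → W) where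
  carrier := {c | ∃ f ∈ M, ∀ γ : Γ, c γ = lt ι γ.1 f - f}
  zero_mem' := ⟨0, M.zero_mem, fun γ => by ext x; simp [lt]⟩
  add_mem' := by
    rintro c d ⟨f, hf, hc⟩ ⟨g, hg, hd⟩
    refine ⟨f + g, M.add_mem hf hg, fun γ => ?_⟩
    ext x
    rw [Pi.add_apply, Pi.add_apply, hc, hd]
    simp only [Pi.sub_apply, Pi.add_apply, lt]
    abel
  smul_mem' := by
    rintro a c ⟨f, hf, hc⟩
    refine ⟨a • f, M.smul_mem a hf, fun γ => ?_⟩
    ext x
    rw [Pi.smul_apply, Pi.smul_apply, hc]
    simp only [Pi.sub_apply, Pi.smul_apply, lt]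
    rw [smul_sub]

/-- the Hecke operator of the double coset `U t U`: the sum over the cosets `c U` in `U t U` of the
right translates by `c` -/
noncomputable def hecke (U : Subgroup G) (t : G) (f : G → W) : G → W :=
  fun x => ∑ᶠ c ∈ MulAction.orbit U (t : G ⧸ U), f (x * c.out)

end coh

end Q4.GLC
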