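import Pool.Agent.Q4.GLC.Slf

/-!
# Project GLC, job DNS
-/

open IsDedekindDomain NumberField Matrix

namespace Q4.GLC

open Q211.GLC

theorem tDns (hSre : SSre) (hSra : SSra) (hApp : SApp) (hDen : SDen) : SDns := by
  intro F _ _ n s hs
  obtain ⟨L, hL⟩ := hSre (Af F) (hSra F) n s.1 hs
  refine list_prod (P := fun s => ∀ M : ℕ, 1 ≤ M →
    ∃ γ : GQ F n, γ.1.det = 1 ∧ (dg F n γ)⁻¹ * s ∈ UN F n M) ?_ ?_ ?_ L hL
  · intro M _
    refine ⟨1, by rw [Units.val_one, det_one], ?_⟩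
    rw [map_one, inv_one, mul_one]
    exact Subgroup.one_mem _
  · intro a b ha hb M hM
    obtain ⟨g2, hd2, h2⟩ := hb M hM
    obtain ⟨M', hM', -, hc⟩ := hDen F n (dg F n g2)⁻¹ M hM
    obtain ⟨g1, hd1, h1⟩ := ha M' hM'
    refine ⟨g1 * g2, by rw [Units.val_mul, det_mul, hd1, hd2, mul_one], ?_⟩
    have h3 := hc _ h1
    rw [inv_inv] at h3
    have e1 : (dg F n (g1 * g2))⁻¹ * (a * b) =
        ((dg F n g2)⁻¹ * ((dg F n g1)⁻¹ * a) * dg F n g2) * ((dg F n g2)⁻¹ * b) := by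
      rw [map_mul]
      group
    rw [e1]
    exact Subgroup.mul_mem _ h3 h2
  · intro i j h c M hM
    obtain ⟨α, hα⟩ := hApp F c M hM
    refine ⟨tv i j h α, tv_det _ _ _ _, ?_⟩
    have e1 : (dg F n (tv i j h α))⁻¹ * tv i j h c = tv i j h (c - algebraMap F (Af F) α) := by
      have e2 : dg F n (tv i j h α) = tv i j h (algebraMap F (Af F) α) :=
        map_tv (algebraMap F (Af F)) i j h α
      rw [e2, tv_inv, tv_mul, neg_add_eq_sub]
    rw [e1]
    have key : ∀ a : Af F, DvdN M a → DvdM M ((tv i j h a).1 - 1) := by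
      intro a ha x y
      rw [tv_val, transvection, add_sub_cancel_left, Matrix.single_apply]
      split_ifs
      · exact ha
      · exact dvdN_zero M
    refine ⟨key _ hα, ?_⟩
    rw [tv_inv]
    exact key _ hα.neg

end Q4.GLC
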