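import Pool.Agent.Q4.GLC.Stm

/-!
# Eigenvectors for finite abelian quotients (helper4, project GLC)
-/

namespace Q4.GLC

theorem tEig : SEig := by
  intro G k Q _ _ _ _ _ R q hq C hC hF hc
  have hN : C.Normal := by
    refine ⟨fun c hc g => ?_⟩
    have h1 : g * c * g⁻¹ * c⁻¹ ∈ commutator G := by
      rw [commutator_eq_closure]
      exact Subgroup.subset_closure ⟨g, c, rfl⟩
    have h2 : g * c * g⁻¹ = (g * c * g⁻¹ * c⁻¹) * c := by group
    rw [h2]
    exact C.mul_mem (hC h1) hc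
  have hcomm : ∀ a b : G ⧸ C, a * b = b * a := by
    intro a b
    obtain ⟨x, rfl⟩ := QuotientGroup.mk_surjective a
    obtain ⟨y, rfl⟩ := QuotientGroup.mk_surjective b
    rw [← QuotientGroup.mk_mul, ← QuotientGroup.mk_mul, QuotientGroup.eq]
    refine hC ?_
    rw [commutator_eq_closure]
    refine Subgroup.subset_closure ⟨y⁻¹, x⁻¹, ?_⟩
    rw [commutatorElement_def]
    group
  let _ : CommGroup (G ⧸ C) := { (inferInstance : Group (G ⧸ C)) with mul_comm := hcomm }
  have : Finite (G ⧸ C) := inferInstance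
  let R0 := R.quotientToInvariants C
  let q0 : Representation.invariants (R.comp C.subtype) := ⟨q, fun c => hc c.1 c.2⟩
  let Φ := R0.asAlgebraHom
  have hΦ : ∀ g : G, (Φ (MonoidAlgebra.of k (G ⧸ C) (g : G ⧸ C)) q0).1 = R g q := by
    intro g
    simp only [Φ, Representation.asAlgebraHom_of]
    rfl
  let J : Ideal (MonoidAlgebra k (G ⧸ C)) :=
    { carrier := {x | Φ x q0 = 0}
      zero_mem' := by simp
      add_mem' := by
        intro a b ha hb
        simp only [Set.mem_ofPred_eq] at ha hb ⊢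
        rw [map_add, LinearMap.add_apply, ha, hb, add_zero]
      smul_mem' := by
        intro a b hb
        simp only [Set.mem_ofPred_eq] at hb ⊢
        rw [smul_eq_mul, map_mul]
        change Φ a (Φ b q0) = 0
        rw [hb, map_zero] }
  have hJ : J ≠ ⊤ := by
    intro h
    have h1 : (1 : MonoidAlgebra k (G ⧸ C)) ∈ J := by rw [h]; trivial
    have h2 : Φ 1 q0 = 0 := h1
    rw [map_one] at h2
    exact hq (congrArg Subtype.val h2)
  obtain ⟨P, hP, hJP⟩ := Ideal.exists_le_maximal J hJ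
  let _ : Field (MonoidAlgebra k (G ⧸ C) ⧸ P) := Ideal.Quotient.field P
  have : Module.Finite k (MonoidAlgebra k (G ⧸ C)) := inferInstance
  have : Module.Finite k (MonoidAlgebra k (G ⧸ C) ⧸ P) := inferInstance
  have hbij : Function.Bijective (algebraMap k (MonoidAlgebra k (G ⧸ C) ⧸ P)) :=
    IsAlgClosed.algebraMap_bijective_of_isIntegral
  let e : k ≃+* (MonoidAlgebra k (G ⧸ C) ⧸ P) := RingEquiv.ofBijective (algebraMap k _) hbij
  let ψ : MonoidAlgebra k (G ⧸ C) →+* k := e.symm.toRingHom.comp (Ideal.Quotient.mk P)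
  have hψk : ∀ r : k, ψ (algebraMap k _ r) = r := fun r => by
    change e.symm (Ideal.Quotient.mk P (algebraMap k _ r)) = r
    rw [RingEquiv.symm_apply_eq]
    rfl
  have hψP : ∀ x ∈ P, ψ x = 0 := fun x hx => by
    change e.symm (Ideal.Quotient.mk P x) = 0
    rw [Ideal.Quotient.eq_zero_iff_mem.2 hx, map_zero]
  let ψ0 : G →* k := (ψ.toMonoidHom.comp (MonoidAlgebra.of k (G ⧸ C))).comp (QuotientGroup.mk' C)
  refine ⟨ψ0.toHomUnits, fun c hc' => ?_, fun t μ d h => ?_⟩
  · refine Units.ext ?_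
    rw [MonoidHom.coe_toHomUnits]
    change ψ (MonoidAlgebra.of k (G ⧸ C) (c : G ⧸ C)) = 1
    rw [(QuotientGroup.eq_one_iff c).2 hc', map_one, map_one]
  · rw [MonoidHom.coe_toHomUnits]
    change μ = d * ψ (MonoidAlgebra.of k (G ⧸ C) (t : G ⧸ C))
    have h1 : algebraMap k _ μ - algebraMap k _ d * MonoidAlgebra.of k (G ⧸ C) (t : G ⧸ C) ∈ J := by
      change Φ _ q0 = 0
      rw [map_sub, map_mul, AlgHom.commutes, AlgHom.commutes, LinearMap.sub_apply]
      refine Subtype.ext ?_
      change μ • q - d • (Φ (MonoidAlgebra.of k (G ⧸ C) (t : G ⧸ C)) q0).1 = 0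
      rw [hΦ, h, sub_self]
    have h2 := hψP _ (hJP h1)
    rw [map_sub, map_mul, hψk, hψk, sub_eq_zero] at h2
    exact h2

end Q4.GLC
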