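import Pool.Agent.Q4.GLC.Slf

/-!
# Project GLC, job FIN
-/

open IsDedekindDomain NumberField Matrix

namespace Q211.GLC

open Q4.GLC

/-- the diagonal matrix with one entry `α` -/
def dgr {R : Type} [CommRing R] (n : ℕ) (α : Rˣ) : GL (Fin (n + 1)) R where
  val := Matrix.diagonal fun i => if i = 0 then α.1 else 1
  inv := Matrix.diagonal fun i => if i = 0 then α⁻¹.1 else 1
  val_inv := by
    rw [Matrix.diagonal_mul_diagonal, ← Matrix.diagonal_one]
    congr 1
    funext i
    split_ifs <;> simp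
  inv_val := by
    rw [Matrix.diagonal_mul_diagonal, ← Matrix.diagonal_one]
    congr 1
    funext i
    split_ifs <;> simp

theorem dgr_det {R : Type} [CommRing R] (n : ℕ) (α : Rˣ) : (dgr n α).1.det = α.1 := by
  change (Matrix.diagonal fun i : Fin (n + 1) => if i = 0 then α.1 else 1).det = α.1
  rw [det_diagonal, Fin.prod_univ_succ]
  simp [Fin.succ_ne_zero]

variable {F : Type} [Field F] [NumberField F]

theorem dgr_mem {n M : ℕ} {u : (Af F)ˣ} (h1 : DvdN M (u.1 - 1)) (h2 : DvdN M (u⁻¹.1 - 1)) :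
    dgr n u ∈ UN F (n + 1) M := by
  have key : ∀ a : Af F, DvdN M (a - 1) →
      DvdM M ((Matrix.diagonal fun i : Fin (n + 1) => if i = 0 then a else 1) - 1) := by
    intro a ha i j
    rw [Matrix.sub_apply, Matrix.diagonal_apply, Matrix.one_apply]
    split_ifs
    · exact ha
    · rw [sub_self]
      exact dvdN_zero M
    · rw [sub_self]
      exact dvdN_zero M
  exact ⟨key _ h1, key _ h2⟩

end Q211.GLC

namespace Q4.GLC

open Q211.GLC

theorem tFin (hIdf : SIdf) (hDns : SDns) (hDen : SDen) (hSlf : SSlf) : SFin := by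
  intro F _ _ n hn Γ hΓ M hM
  obtain ⟨k, rfl⟩ : ∃ k, n = k + 1 := ⟨n - 1, by omega⟩
  classical
  have hsurj : Function.Surjective (Matrix.GeneralLinearGroup.det : GQ F (k + 1) →* Fˣ) := by
    intro α
    refine ⟨dgr k α, ?_⟩
    apply Units.ext
    exact dgr_det k α
  have hH : (Γ.map (Matrix.GeneralLinearGroup.det : GQ F (k + 1) →* Fˣ)).FiniteIndex := by
    constructor
    intro h0
    have h1 := Subgroup.index_map_dvd Γ hsurj
    rw [h0, zero_dvd_iff] at h1
    exact hΓ.index_ne_zero h1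
  obtain ⟨X, hX⟩ := hIdf F _ hH M hM
  refine ⟨X.image (dgr k), fun g => ?_⟩
  obtain ⟨α, x, u, ⟨β, hβ, hβα⟩, hx, hu1, hu2, ha⟩ := hX (Matrix.GeneralLinearGroup.det g)
  obtain ⟨M1, hM1, -, hc⟩ := hDen F (k + 1) (dgr k x)⁻¹ M hM
  obtain ⟨s, hs⟩ : ∃ s : Gf F (k + 1), s = (dg F (k + 1) β)⁻¹ * g * (dgr k u)⁻¹ * (dgr k x)⁻¹ :=
    ⟨_, rfl⟩
  have hdet : s.1.det = 1 := by
    have h1 : (Matrix.GeneralLinearGroup.det s) = 1 := by
      have e1 : Matrix.GeneralLinearGroup.det (dg F (k + 1) β) =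
          Units.map (algebraMap F (Af F)).toMonoidHom α := by
        apply Units.ext
        change ((β.1).map (algebraMap F (Af F))).det = algebraMap F (Af F) α.1
        rw [← hβα, ← RingHom.mapMatrix_apply, ← RingHom.map_det]
        rfl
      have e2 : ∀ y : (Af F)ˣ, Matrix.GeneralLinearGroup.det (dgr k y) = y := by
        intro y
        apply Units.ext
        exact dgr_det k y
      rw [hs, map_mul, map_mul, map_mul, map_inv, map_inv, map_inv, e1, e2, e2, ha]
      group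
    exact congrArg Units.val h1
  obtain ⟨γ0, hγ0, hmem⟩ := hDns F (k + 1) s hdet M1 hM1
  have h3 := hc _ hmem
  rw [inv_inv] at h3
  refine ⟨β * γ0, Γ.mul_mem hβ (hSlf F (k + 1) Γ hΓ γ0 hγ0), dgr k x,
    Finset.mem_image_of_mem _ hx, _, Subgroup.mul_mem _ h3 (dgr_mem hu1 hu2), ?_⟩
  rw [hs, map_mul]
  group

end Q4.GLC
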