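import Pool.Agent.Q4.GLC.Stm

/-!
# Rational elements which are integral adeles (helper4, project GLC)
-/

open IsDedekindDomain NumberField

namespace Q4.GLC

theorem val_rat {F : Type} [Field F] [NumberField F] (v : Pl F) (α : F) :
    Valued.v ((algebraMap F (Af F) α) v) = v.valuation F α := by
  rw [FiniteAdeleRing.algebraMap_apply]
  exact HeightOneSpectrum.valuedAdicCompletion_eq_valuation' v α

theorem val_natc {F : Type} [Field F] [NumberField F] (v : Pl F) (N : ℕ) :
    Valued.v ((N : Af F) v) = v.valuation F (N : F) := by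
  rw [← val_rat]
  congr 2
  rw [map_natCast]

theorem tInt : SInt := by
  intro F _ _ α N hN h
  have hN0 : (N : F) ≠ 0 := by exact_mod_cast (by omega : N ≠ 0)
  obtain ⟨b, hb⟩ := HeightOneSpectrum.mem_integers_of_valuation_le_one (R := 𝓞 F) F (α / N) (by
    intro v
    have h1 := h v
    rw [val_rat, val_natc] at h1
    rw [map_div₀]
    exact div_le_one_of_le₀ h1 zero_le)
  exact ⟨b, by rw [hb]; field_simp⟩

end Q4.GLC
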