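import Pool.Agent.Q4.GLC.Stm2
import Pool.Agent.Q4.GLC.Int
import Pool.Agent.W401.Cheb.Main

/-!
# Frobenius elements of relative extensions (helper4, project GLC)
-/

open IsDedekindDomain NumberField

namespace Q4.GLC

open Pool.Agent.W401.Cheb

section frb

variable {F L M : Type} [Field F] [NumberField F] [Field L] [NumberField L] [Field M]
  [NumberField M] [Algebra F L] [Algebra F M] [Algebra L M] [IsScalarTower F L M]

/-- a place contains at most one prime number -/
theorem place_prime {v : Pl F} {p q : ℕ} (hp : p.Prime) (hq : q.Prime)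
    (h1 : (p : 𝓞 F) ∈ v.asIdeal) (h2 : (q : 𝓞 F) ∈ v.asIdeal) : p = q := by
  by_contra hne
  have hc : Nat.Coprime p q := (Nat.coprime_primes hp hq).2 hne
  obtain ⟨a, b, hab⟩ := (Nat.isCoprime_iff_coprime.2 hc : IsCoprime (p : ℤ) (q : ℤ))
  have h3 : (1 : 𝓞 F) ∈ v.asIdeal := by
    have h4 : (1 : 𝓞 F) = (a : 𝓞 F) * (p : 𝓞 F) + (b : 𝓞 F) * (q : 𝓞 F) := by
      have := congrArg (fun z : ℤ => (z : 𝓞 F)) hab
      push_cast at this
      exact this.symm
    rw [h4]
    exact v.asIdeal.add_mem (v.asIdeal.mul_mem_left _ h1) (v.asIdeal.mul_mem_left _ h2)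
  exact v.isPrime.ne_top ((Ideal.eq_top_iff_one _).2 h3)

omit [NumberField F] in
/-- the number of elements of a residue field on which the `p`-th power is the identity -/
theorem card_res {p : ℕ} [Fact p.Prime] {k : Type} [Field k] [CharP k p] (ψ : 𝓞 F →+* k)
    (h : ∀ x, ψ x ^ p = ψ x) : Nat.card (𝓞 F ⧸ RingHom.ker ψ) = p := by
  classical
  have hp : p.Prime := Fact.out
  -- the roots
  let R : Finset k := (Polynomial.X ^ p - Polynomial.X : Polynomial k).roots.toFinset
  have hRc : R.card ≤ p := by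
    refine (Multiset.toFinset_card_le _).trans ((Polynomial.card_roots' _).trans ?_)
    rw [FiniteField.X_pow_card_sub_X_natDegree_eq k hp.one_lt]
  let f : 𝓞 F ⧸ RingHom.ker ψ → R := fun q => ⟨RingHom.kerLift ψ q, by
    obtain ⟨x, rfl⟩ := Ideal.Quotient.mk_surjective q
    have h1 : (Polynomial.X ^ p - Polynomial.X : Polynomial k) ≠ 0 :=
      FiniteField.X_pow_card_sub_X_ne_zero k hp.one_lt
    rw [Multiset.mem_toFinset, Polynomial.mem_roots h1, Polynomial.IsRoot]
    have h2 : RingHom.kerLift ψ (Ideal.Quotient.mk _ x) = ψ x := RingHom.kerLift_mk ψ x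
    rw [h2]
    simp [h x]⟩
  have hf : Function.Injective f := by
    intro a b hab
    exact RingHom.kerLift_injective ψ (congrArg Subtype.val hab)
  have hle : Nat.card (𝓞 F ⧸ RingHom.ker ψ) ≤ p := by
    refine (Nat.card_le_card_of_injective f hf).trans ?_
    rw [Nat.card_eq_fintype_card, Fintype.card_coe]
    exact hRc
  have hfin : Finite (𝓞 F ⧸ RingHom.ker ψ) := Finite.of_injective f hf
  -- the other inequality
  let g : ZMod p → 𝓞 F ⧸ RingHom.ker ψ := fun a => Ideal.Quotient.mk _ (a.val : 𝓞 F)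
  have hg : Function.Injective g := by
    intro a b hab
    have h1 := congrArg (RingHom.kerLift ψ) hab
    have h2 : ∀ x, RingHom.kerLift ψ (Ideal.Quotient.mk _ x) = ψ x := fun x =>
      RingHom.kerLift_mk ψ x
    change RingHom.kerLift ψ (Ideal.Quotient.mk _ (a.val : 𝓞 F)) =
      RingHom.kerLift ψ (Ideal.Quotient.mk _ (b.val : 𝓞 F)) at h1
    rw [h2, h2, map_natCast, map_natCast] at h1
    have h3 := (CharP.natCast_eq_natCast k p).1 h1
    have h4 : a.val = b.val := by
      have := Nat.mod_eq_of_lt (ZMod.val_lt a)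
      have h5 := Nat.mod_eq_of_lt (ZMod.val_lt b)
      unfold Nat.ModEq at h3
      rw [this, h5] at h3
      exact h3
    exact ZMod.val_injective p h4
  have hge : p ≤ Nat.card (𝓞 F ⧸ RingHom.ker ψ) := by
    have := Nat.card_le_card_of_injective g hg
    rwa [Nat.card_zmod] at this
  exact le_antisymm hle hge

omit [NumberField L] in
theorem frb_main [IsGalois F L] [IsGalois ℚ M] {ℓ : ℕ} (hℓ : ℓ.Prime) {ζ : M}
    (hζ : IsPrimitiveRoot ζ ℓ) (S : Set (Pl F)) (hS : S.Finite) :
    ∃ N : Subgroup (L ≃ₐ[F] L), ∃ _ : N.Normal, IsCyclic ((L ≃ₐ[F] L) ⧸ N) ∧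
      ∀ g ∈ N, ∃ v ∉ S, ∃ P : Ideal (𝓞 L), P.IsPrime ∧
        P.comap (algebraMap (𝓞 F) (𝓞 L)) = v.asIdeal ∧ IsFrobAt g P (qv v) ∧ qv v % ℓ = 1 := by
  classical
  have hℓf : Fact ℓ.Prime := ⟨hℓ⟩
  have : NeZero ℓ := ⟨hℓ.ne_zero⟩
  have : IsScalarTower ℚ F M := IsScalarTower.of_algebraMap_eq' (Subsingleton.elim _ _)
  have hFM : IsGalois F M := IsGalois.tower_top_of_isGalois ℚ F M
  have hLM : IsGalois L M := IsGalois.tower_top_of_isGalois F L M
  let res : (M ≃ₐ[F] M) →* (L ≃ₐ[F] L) := AlgEquiv.restrictNormalHom L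
  have hres : Function.Surjective res := AlgEquiv.restrictNormalHom_surjective M
  let cy : (M ≃ₐ[F] M) →* (ZMod ℓ)ˣ := hζ.autToPow F
  have hN : (cy.ker.map res).Normal := (inferInstance : cy.ker.Normal).map res hres
  refine ⟨cy.ker.map res, hN, ?_, ?_⟩
  · have h1 : IsCyclic ((M ≃ₐ[F] M) ⧸ cy.ker) :=
      isCyclic_of_injective (QuotientGroup.kerLift cy) (QuotientGroup.kerLift_injective cy)
    refine isCyclic_of_surjective (QuotientGroup.map cy.ker (cy.ker.map res) res
      (Subgroup.le_comap_map res cy.ker)) ?_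
    intro q
    obtain ⟨g, rfl⟩ := QuotientGroup.mk_surjective q
    obtain ⟨τ, rfl⟩ := hres g
    exact ⟨(τ : (M ≃ₐ[F] M) ⧸ cy.ker), rfl⟩
  · rintro _ ⟨τ, hτ, rfl⟩
    let τQ : Gal(M/ℚ) := τ.restrictScalars ℚ
    have hτζ : τ ζ = ζ := by
      have h1 := hζ.autToPow_spec F τ
      have h2 : hζ.autToPow F τ = 1 := hτ
      rw [h2] at h1
      rcases hℓ.eq_one_or_self_of_dvd 1 (one_dvd _) with _ | _
      · have h3 : (((1 : (ZMod ℓ)ˣ) : ZMod ℓ)).val = 1 := by
          rw [Units.val_one]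
          have : Fact (1 < ℓ) := ⟨hℓ.one_lt⟩
          exact ZMod.val_one ℓ
        rw [h3, pow_one] at h1
        exact h1.symm
      · exact absurd ‹1 = ℓ›.symm hℓ.one_lt.ne'
    -- the primes to avoid
    let B : Set ℕ := {ℓ} ∪ ⋃ v ∈ S, {p : ℕ | p.Prime ∧ (p : 𝓞 F) ∈ v.asIdeal}
    have hB : B.Finite := by
      refine (Set.finite_singleton ℓ).union (hS.biUnion fun v _ => ?_)
      refine Set.Subsingleton.finite ?_
      rintro p ⟨hp, hpv⟩ q ⟨hq, hqv⟩
      exact place_prime hp hq hpv hqv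
    obtain ⟨p, ⟨hp, hxp⟩, hpB⟩ := (infinite_frob M τQ).exists_notMem_finite hB
    have hpf : Fact p.Prime := ⟨hp⟩
    have hex : Nonempty {φ : 𝓞 M →+* AlgebraicClosure (ZMod p) // HasFrob p φ τQ} := by
      by_contra hem
      rw [not_nonempty_iff] at hem
      refine hxp ?_
      rw [xp, dif_pos hp]
      exact Nat.card_of_isEmpty
    obtain ⟨φ, hφ⟩ := hex
    have hpℓ : p ≠ ℓ := fun h => hpB (Or.inl h)
    let P : Ideal (𝓞 L) := (RingHom.ker φ).comap (algebraMap (𝓞 L) (𝓞 M))
    have hker : (RingHom.ker φ).IsPrime := RingHom.ker_isPrime φ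
    have hP : P.IsPrime := Ideal.IsPrime.comap _
    let ψ : 𝓞 F →+* AlgebraicClosure (ZMod p) := φ.comp (algebraMap (𝓞 F) (𝓞 M))
    have hcomap : P.comap (algebraMap (𝓞 F) (𝓞 L)) = RingHom.ker ψ := by
      ext x
      change φ (algebraMap (𝓞 L) (𝓞 M) (algebraMap (𝓞 F) (𝓞 L) x)) = 0 ↔
        φ (algebraMap (𝓞 F) (𝓞 M) x) = 0
      have : algebraMap (𝓞 L) (𝓞 M) (algebraMap (𝓞 F) (𝓞 L) x) = algebraMap (𝓞 F) (𝓞 M) x := by
        apply RingOfIntegers.ext
        change algebraMap L M (algebraMap F L (x : F)) = algebraMap F M (x : F)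
        rw [← IsScalarTower.algebraMap_apply]
      rw [this]
    have hpψ : (p : 𝓞 F) ∈ RingHom.ker ψ := by
      rw [RingHom.mem_ker, map_natCast]
      exact CharP.cast_eq_zero _ p
    let v : Pl F :=
      { asIdeal := RingHom.ker ψ
        isPrime := RingHom.ker_isPrime ψ
        ne_bot := fun h => by
          rw [h] at hpψ
          have h0 : (p : 𝓞 F) = 0 := hpψ
          exact hp.ne_zero (by exact_mod_cast h0) }
    have hψ : ∀ x, ψ x ^ p = ψ x := by
      intro x
      have h1 := hφ (algebraMap (𝓞 F) (𝓞 M) x)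
      have h2 : τQ • (algebraMap (𝓞 F) (𝓞 M) x) = algebraMap (𝓞 F) (𝓞 M) x := by
        apply RingOfIntegers.ext
        change τ (algebraMap F M (x : F)) = algebraMap F M (x : F)
        exact τ.commutes _
      rw [h2] at h1
      exact h1.symm
    have hqv : qv v = p := card_res ψ hψ
    refine ⟨v, ?_, P, hP, hcomap, ?_, ?_⟩
    · intro hv
      exact hpB (Or.inr (Set.mem_biUnion hv ⟨hp, hpψ⟩))
    · rw [hqv]
      intro x y hxy
      change φ (algebraMap (𝓞 L) (𝓞 M) (y - x ^ p)) = 0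
      have h1 := hφ (algebraMap (𝓞 L) (𝓞 M) x)
      have h2 : τQ • (algebraMap (𝓞 L) (𝓞 M) x) = algebraMap (𝓞 L) (𝓞 M) y := by
        apply RingOfIntegers.ext
        change τ (algebraMap L M (x : L)) = algebraMap L M (y : L)
        rw [hxy]
        exact (AlgEquiv.restrictNormal_commutes τ L (x : L)).symm
      rw [h2] at h1
      rw [map_sub, map_pow, map_sub, map_pow, h1, sub_self]
    · rw [hqv]
      -- the image of the root of unity
      have hζ' : IsPrimitiveRoot hζ.toInteger ℓ := hζ.toInteger_isPrimitiveRoot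
      have h1 : φ hζ.toInteger = φ hζ.toInteger ^ p := by
        have h2 := hφ hζ.toInteger
        have h3 : τQ • hζ.toInteger = hζ.toInteger := by
          apply RingOfIntegers.ext
          exact hτζ
        rwa [h3] at h2
      have hz : orderOf (φ hζ.toInteger) = ℓ := by
        apply orderOf_eq_prime
        · rw [← map_pow, hζ'.pow_eq_one, map_one]
        · intro h3
          have h4 := hζ'.geom_sum_eq_zero hℓ.one_lt
          have h5 := congrArg φ h4
          rw [map_sum, map_zero] at h5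
          simp only [map_pow, h3, one_pow, Finset.sum_const, Finset.card_range, nsmul_eq_mul,
            mul_one] at h5
          have h6 := (CharP.cast_eq_zero_iff (AlgebraicClosure (ZMod p)) p ℓ).1 h5
          exact hpℓ ((Nat.prime_dvd_prime_iff_eq hp hℓ).1 h6)
      have hfo : IsOfFinOrder (φ hζ.toInteger) := orderOf_pos_iff.1 (by rw [hz]; exact hℓ.pos)
      have h3 : φ hζ.toInteger ^ p = φ hζ.toInteger ^ 1 := by rw [pow_one]; exact h1.symm
      have h4 := hfo.pow_eq_pow_iff_modEq.1 h3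
      rw [hz] at h4
      rw [h4, Nat.mod_eq_of_lt hℓ.one_lt]

end frb

/-- a Galois number field containing a given field and the roots of unity -/
theorem exists_big (L : Type) [Field L] [NumberField L] (ℓ : ℕ) (hℓ : ℓ.Prime) :
    ∃ (M : Type) (_ : Field M) (_ : NumberField M) (_ : Algebra L M) (_ : IsGalois ℚ M) (ζ : M),
      IsPrimitiveRoot ζ ℓ := by
  have : NeZero ℓ := ⟨hℓ.ne_zero⟩
  let K1 := CyclotomicField ℓ L
  have hNF : NumberField K1 := IsCyclotomicExtension.numberField {ℓ} L K1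
  have hζ : IsPrimitiveRoot (IsCyclotomicExtension.zeta ℓ L K1) ℓ :=
    IsCyclotomicExtension.zeta_spec ℓ L K1
  let M := IntermediateField.normalClosure ℚ K1 (AlgebraicClosure K1)
  have hfd : FiniteDimensional ℚ M := inferInstance
  have hM : NumberField M := { to_charZero := inferInstance, to_finiteDimensional := hfd }
  have halg : Algebra.IsAlgebraic ℚ (AlgebraicClosure K1) :=
    Algebra.IsAlgebraic.trans ℚ K1 (AlgebraicClosure K1)
  have hcl : IsAlgClosure ℚ (AlgebraicClosure K1) := ⟨inferInstance, halg⟩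
  have hnc : Normal ℚ (AlgebraicClosure K1) := IsAlgClosure.normal ℚ (AlgebraicClosure K1)
  have hN : Normal ℚ M := normalClosure.normal ℚ K1 (AlgebraicClosure K1)
  have hG : IsGalois ℚ M := { to_isSeparable := inferInstance, to_normal := hN }
  let i : K1 →+* M := algebraMap K1 M
  refine ⟨M, inferInstance, hM, (i.comp (algebraMap L K1)).toAlgebra, hG,
    i (IsCyclotomicExtension.zeta ℓ L K1), hζ.map_of_injective i.injective⟩

theorem tFrb : SFrb := by
  intro F _ _ L _ _ _ _ ℓ hℓ S hS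
  obtain ⟨M, _, _, _, _, ζ, hζ⟩ := exists_big L ℓ hℓ
  let _ : Algebra F M := ((algebraMap L M).comp (algebraMap F L)).toAlgebra
  have : IsScalarTower F L M := IsScalarTower.of_algebraMap_eq' rfl
  exact frb_main (M := M) hℓ hζ S hS

end Q4.GLC
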