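import Pool.Agent.Q4.GLC.Stm2

/-!
# Reducibility of modular representations with one eigenvalue (helper4, project GLC)
-/

open Matrix Polynomial

namespace Q4.GLC

section red

variable {k : Type} [Field k] {n : ℕ}

/-- powers of matrices with one eigenvalue -/
theorem pow_scalar (ℓ : ℕ) [Fact ℓ.Prime] [CharP k ℓ] {h : Matrix (Fin n) (Fin n) k} {a : k}
    (hc : h.charpoly = (X - C a) ^ n) : h ^ (ℓ ^ n) = Matrix.scalar (Fin n) (a ^ (ℓ ^ n)) := by
  have h1 : (h - Matrix.scalar (Fin n) a) ^ n = 0 := by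
    have := Matrix.aeval_self_charpoly h
    rw [hc, map_pow, map_sub, aeval_X, aeval_C] at this
    exact this
  have h2 : n ≤ ℓ ^ n := (Nat.lt_pow_self (Fact.out : ℓ.Prime).one_lt).le
  have h3 : (h - Matrix.scalar (Fin n) a) ^ (ℓ ^ n) = 0 := by
    obtain ⟨m, hm⟩ := Nat.exists_eq_add_of_le h2
    rw [hm, pow_add, h1, zero_mul]
  have hcomm : Commute h (Matrix.scalar (Fin n) a) := (Matrix.scalar_commute a (fun r => by
    exact Commute.all _ _) h).symm
  have : CharP (Matrix (Fin n) (Fin n) k) ℓ ∨ n = 0 := by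
    by_cases hn : n = 0
    · exact Or.inr hn
    · left
      have : Nonempty (Fin n) := ⟨⟨0, Nat.pos_of_ne_zero hn⟩⟩
      infer_instance
  rcases this with h4 | h4
  · rw [sub_pow_char_pow_of_commute _ _ hcomm, sub_eq_zero] at h3
    rw [h3, ← map_pow]
  · subst h4
    exact Subsingleton.elim _ _

/-- a finite group which is an `ℓ`-group modulo a central subgroup of order prime to `ℓ` -/
theorem sylow_central (ℓ : ℕ) [Fact ℓ.Prime] {H : Type} [Group H] [Finite H] (Z : Subgroup H)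
    (hZ : ∀ z ∈ Z, ∀ h : H, z * h = h * z) (hZℓ : ∀ z ∈ Z, z ^ ℓ = 1 → z = 1)
    (hp : ∀ h : H, ∃ r, h ^ (ℓ ^ r) ∈ Z) :
    ∃ P : Subgroup H, IsPGroup ℓ P ∧ (∀ h : H, (∃ r, h ^ (ℓ ^ r) = 1) → h ∈ P) ∧
      ∀ h : H, ∃ p ∈ P, ∃ z ∈ Z, h = p * z := by
  classical
  have hZn : Z.Normal := ⟨fun z hz g => by
    have : g * z * g⁻¹ = z := by rw [← hZ z hz g]; group
    rwa [this]⟩
  obtain ⟨P⟩ : Nonempty (Sylow ℓ H) := inferInstance
  -- the product is everything
  have hPZ : P.1 ⊔ Z = ⊤ := by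
    have h1 : (P.1 ⊔ Z).index ∣ P.1.index := Subgroup.index_dvd_of_le le_sup_left
    have h2 : (P.1 ⊔ Z).index ∣ Z.index := Subgroup.index_dvd_of_le le_sup_right
    have h3 : ¬ ℓ ∣ P.1.index := P.not_dvd_index
    have h4 : IsPGroup ℓ (H ⧸ Z) := by
      intro q
      obtain ⟨h, rfl⟩ := QuotientGroup.mk_surjective q
      obtain ⟨r, hr⟩ := hp h
      exact ⟨r, by rw [← QuotientGroup.mk_pow]; exact (QuotientGroup.eq_one_iff _).2 hr⟩
    obtain ⟨m, hm⟩ := IsPGroup.iff_card.1 h4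
    have h5 : (P.1 ⊔ Z).index ∣ ℓ ^ m := by
      rw [← hm]
      exact h2
    obtain ⟨j, -, hj⟩ := (Nat.dvd_prime_pow Fact.out).1 h5
    have h6 : j = 0 := by
      by_contra h7
      refine h3 (dvd_trans ?_ h1)
      rw [hj]
      exact dvd_pow_self _ h7
    rw [h6, pow_zero] at hj
    exact Subgroup.index_eq_one.1 hj
  have hdec : ∀ h : H, ∃ p ∈ P.1, ∃ z ∈ Z, h = p * z := by
    intro h
    have h1 : h ∈ P.1 ⊔ Z := by rw [hPZ]; trivial
    obtain ⟨p, hp, z, hz, e⟩ := Subgroup.mem_sup_of_normal_right.1 h1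
    exact ⟨p, hp, z, hz, e.symm⟩
  refine ⟨P.1, P.2, ?_, hdec⟩
  rintro h ⟨r, hr⟩
  obtain ⟨p, hp', z, hz, e⟩ := hdec h
  -- z has order a power of ℓ
  obtain ⟨r2, hr2⟩ := P.2 ⟨p, hp'⟩
  have hr2' : p ^ (ℓ ^ r2) = 1 := congrArg Subtype.val hr2
  have h1 : z ^ (ℓ ^ (r + r2)) = 1 := by
    have h2 : h ^ (ℓ ^ (r + r2)) = 1 := by rw [pow_add, pow_mul, hr, one_pow]
    have h3 : p ^ (ℓ ^ (r + r2)) = 1 := by rw [add_comm, pow_add, pow_mul, hr2', one_pow]
    have hc : Commute p z := (hZ z hz p).symm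
    rw [e, hc.mul_pow, h3, one_mul] at h2
    exact h2
  have h2 : z = 1 := by
    have : ∀ m : ℕ, ∀ z ∈ Z, z ^ (ℓ ^ m) = 1 → z = 1 := by
      intro m
      induction m with
      | zero => intro z _ h; simpa using h
      | succ m ih =>
        intro z hz h
        rw [pow_succ, pow_mul] at h
        exact ih z hz (hZℓ _ (Z.pow_mem hz _) h)
    exact this _ z hz h1
  rw [e, h2, mul_one]
  exact hp'

/-- fixed vectors of `ℓ`-groups in characteristic `ℓ` -/
theorem fixed_vec (ℓ : ℕ) [Fact ℓ.Prime] [CharP k ℓ] (hn : 1 ≤ n) {P : Type} [Group P] [Finite P]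
    (hP : IsPGroup ℓ P) (τ : P →* GL (Fin n) k) :
    ∃ w : Fin n → k, w ≠ 0 ∧ ∀ p, (τ p).1.mulVec w = w := by
  classical
  let _ : Algebra (ZMod ℓ) k := ZMod.algebra k ℓ
  let _ : MulAction P (Fin n → k) :=
    { smul := fun p w => (τ p).1.mulVec w
      one_smul := fun w => by
        change (τ 1).1.mulVec w = w
        rw [map_one]
        simp
      mul_smul := fun p q w => by
        change (τ (p * q)).1.mulVec w = (τ p).1.mulVec ((τ q).1.mulVec w)
        rw [map_mul, Units.val_mul, Matrix.mulVec_mulVec] }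
  have hsm : ∀ (p : P) (w : Fin n → k), p • w = (τ p).1.mulVec w := fun _ _ => rfl
  let w0 : Fin n → k := fun _ => 1
  have hw0 : w0 ≠ 0 := by
    intro h
    exact one_ne_zero (congrFun h ⟨0, hn⟩)
  let M : Submodule (ZMod ℓ) (Fin n → k) := Submodule.span (ZMod ℓ) (Set.range fun p : P => p • w0)
  have hMst : ∀ p : P, ∀ w ∈ M, p • w ∈ M := by
    intro p w hw
    induction hw using Submodule.span_induction with
    | mem x hx =>
      obtain ⟨q, rfl⟩ := hx
      refine Submodule.subset_span ⟨p * q, ?_⟩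
      exact mul_smul p q w0
    | zero => rw [hsm, Matrix.mulVec_zero]; exact M.zero_mem
    | add x y _ _ hx hy =>
      rw [hsm, Matrix.mulVec_add]
      exact M.add_mem hx hy
    | smul a x _ hx =>
      rw [hsm] at hx ⊢
      rw [Matrix.mulVec_smul]
      exact M.smul_mem a hx
  let _ : MulAction P M :=
    { smul := fun p w => ⟨p • w.1, hMst p w.1 w.2⟩
      one_smul := fun w => Subtype.ext (one_smul P w.1)
      mul_smul := fun p q w => Subtype.ext (mul_smul p q w.1) }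
  have : Module.Finite (ZMod ℓ) M := by
    refine Module.Finite.iff_fg.2 ?_
    exact Submodule.fg_span (Set.finite_range _)
  have hfin : Finite M := Module.finite_of_finite (ZMod ℓ)
  have hdvd : ℓ ∣ Nat.card M := by
    rw [Module.natCard_eq_pow_finrank (K := ZMod ℓ), Nat.card_zmod]
    refine dvd_pow_self _ ?_
    have : Nontrivial M := ⟨⟨⟨1 • w0, by
      refine Submodule.subset_span ⟨1, ?_⟩
      simp⟩, 0, fun h => hw0 (by simpa using congrArg Subtype.val h)⟩⟩
    exact (Module.finrank_pos).ne'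
  obtain ⟨b, hb, hb0⟩ := hP.exists_fixed_point_of_prime_dvd_card_of_fixed_point M hdvd
    (a := 0) (by
      intro p
      refine Subtype.ext ?_
      change (τ p).1.mulVec 0 = 0
      exact Matrix.mulVec_zero _)
  exact ⟨b.1, fun h => hb0 (Subtype.ext h.symm), fun p => congrArg Subtype.val (hb p)⟩

end red

/-- a representation `ρ` in characteristic `ℓ` such that the elements of a normal subgroup with
cyclic quotient have, up to inversion, a scalar power of exponent a power of `ℓ` is reducible -/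
theorem red_core (k : Type) [Field k] [IsAlgClosed k] (ℓ : ℕ) [Fact ℓ.Prime] [CharP k ℓ] (n : ℕ)
    (hn : 2 ≤ n) (Q : Type) [Group Q] [Finite Q] (N : Subgroup Q) [N.Normal]
    (hcyc : IsCyclic (Q ⧸ N)) (ρ : Q →* GL (Fin n) k)
    (hN : ∀ g ∈ N, (∃ a : k, (ρ g).1.charpoly = (X - C a) ^ n) ∨
      ∃ a : k, (ρ g⁻¹).1.charpoly = (X - C a) ^ n) :
    ∃ V : Submodule k (Fin n → k), V ≠ ⊥ ∧ V ≠ ⊤ ∧ ∀ g, ∀ w ∈ V, (ρ g).1.mulVec w ∈ V := by
  classical
  -- the image of `N`
  let H : Subgroup (GL (Fin n) k) := N.map ρ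
  have hHfin : Finite H := by
    have : Finite N := inferInstance
    exact Finite.of_surjective (fun g : N => (⟨ρ g.1, ⟨g.1, g.2, rfl⟩⟩ : H)) (by
      rintro ⟨_, g, hg, rfl⟩
      exact ⟨⟨g, hg⟩, rfl⟩)
  -- scalars
  let Z : Subgroup H :=
    { carrier := {h | ∃ a : k, h.1.1 = Matrix.scalar (Fin n) a}
      one_mem' := ⟨1, by rw [map_one]; rfl⟩
      mul_mem' := by
        rintro x y ⟨a, ha⟩ ⟨b, hb⟩
        refine ⟨a * b, ?_⟩
        rw [map_mul, ← ha, ← hb]
        rfl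
      inv_mem' := by
        rintro x ⟨a, ha⟩
        have ha0 : a ≠ 0 := by
          intro h0
          have h1 : x.1.1 * x.1⁻¹.1 = 1 := by
            rw [← Units.val_mul, mul_inv_cancel, Units.val_one]
          rw [ha, h0, map_zero, zero_mul] at h1
          have : (0 : Matrix (Fin n) (Fin n) k) ⟨0, by omega⟩ ⟨0, by omega⟩ = 1 := by
            rw [h1, Matrix.one_apply_eq]
          exact zero_ne_one this
        refine ⟨a⁻¹, ?_⟩
        have h1 : x.1⁻¹.1 * x.1.1 = 1 := by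
          rw [← Units.val_mul, inv_mul_cancel, Units.val_one]
        have h2 : x.1.1 * Matrix.scalar (Fin n) a⁻¹ = 1 := by
          rw [ha, ← map_mul, mul_inv_cancel₀ ha0, map_one]
        change x.1⁻¹.1 = Matrix.scalar (Fin n) a⁻¹
        calc x.1⁻¹.1 = x.1⁻¹.1 * (x.1.1 * Matrix.scalar (Fin n) a⁻¹) := by rw [h2, mul_one]
          _ = _ := by rw [← mul_assoc, h1, one_mul] }
  have hZc : ∀ z ∈ Z, ∀ h : H, z * h = h * z := by
    rintro z ⟨a, ha⟩ h
    refine Subtype.ext (Units.ext ?_)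
    change z.1.1 * h.1.1 = h.1.1 * z.1.1
    rw [ha]
    exact (Matrix.scalar_commute a (fun r => Commute.all _ _) h.1.1)
  have hZℓ : ∀ z ∈ Z, z ^ ℓ = 1 → z = 1 := by
    rintro z ⟨a, ha⟩ hz
    have h1 : z.1.1 ^ ℓ = 1 := by
      have := congrArg (fun x : H => x.1.1) hz
      exact this
    rw [ha, ← map_pow] at h1
    have h2 : a ^ ℓ = 1 := by
      have := congrFun (congrFun h1 ⟨0, by omega⟩) ⟨0, by omega⟩
      simpa using this
    have h3 : a = 1 := by
      have h4 : (a - 1) ^ ℓ = 0 := by rw [sub_pow_char, h2, one_pow, sub_self]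
      exact sub_eq_zero.1 (pow_eq_zero_iff (Fact.out : ℓ.Prime).ne_zero |>.1 h4)
    refine Subtype.ext (Units.ext ?_)
    change z.1.1 = 1
    rw [ha, h3, map_one]
  have hp : ∀ h : H, ∃ r, h ^ (ℓ ^ r) ∈ Z := by
    rintro ⟨_, g, hg, rfl⟩
    rcases hN g hg with ⟨a, ha⟩ | ⟨a, ha⟩
    · exact ⟨n, a ^ (ℓ ^ n), pow_scalar ℓ ha⟩
    · refine ⟨n, ?_⟩
      rw [← Z.inv_mem_iff, ← inv_pow]
      refine ⟨a ^ (ℓ ^ n), ?_⟩
      rw [map_inv] at ha
      exact pow_scalar ℓ ha
  obtain ⟨P, hPp, hPall, hPZ⟩ := sylow_central ℓ Z hZc hZℓ hp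
  -- the fixed vectors
  let V : Submodule k (Fin n → k) :=
    { carrier := {w | ∀ h ∈ P, h.1.1.mulVec w = w}
      zero_mem' := fun h _ => Matrix.mulVec_zero _
      add_mem' := by
        intro x y hx hy h hh
        rw [Matrix.mulVec_add, hx h hh, hy h hh]
      smul_mem' := by
        intro a x hx h hh
        rw [Matrix.mulVec_smul, hx h hh] }
  have hVst : ∀ g, ∀ w ∈ V, (ρ g).1.mulVec w ∈ V := by
    intro g w hw h hh
    -- conjugate of h
    have h1 : (ρ g)⁻¹ * h.1 * ρ g ∈ H := by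
      obtain ⟨m, hm, e⟩ := h.2
      refine ⟨g⁻¹ * m * g, ?_, ?_⟩
      · have := (inferInstance : N.Normal).conj_mem m hm g⁻¹
        rwa [inv_inv] at this
      · rw [map_mul, map_mul, map_inv, e]
    have h2 : (⟨_, h1⟩ : H) ∈ P := by
      refine hPall _ ?_
      obtain ⟨r, hr⟩ := hPp ⟨h, hh⟩
      refine ⟨r, Subtype.ext ?_⟩
      have hr' : h.1 ^ (ℓ ^ r) = 1 := congrArg (fun x : P => x.1.1) hr
      change ((ρ g)⁻¹ * h.1 * ρ g) ^ (ℓ ^ r) = 1
      have e : (ρ g)⁻¹ * h.1 * ρ g = (ρ g)⁻¹ * h.1 * (ρ g)⁻¹⁻¹ := by rw [inv_inv]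
      rw [e, conj_pow, hr', mul_one, mul_inv_cancel]
    have h3 := hw _ h2
    change ((ρ g)⁻¹ * h.1 * ρ g).1.mulVec w = w at h3
    calc h.1.1.mulVec ((ρ g).1.mulVec w)
        = (ρ g * ((ρ g)⁻¹ * h.1 * ρ g)).1.mulVec w := by
          rw [Matrix.mulVec_mulVec, ← Units.val_mul]
          congr 2
          group
      _ = (ρ g).1.mulVec (((ρ g)⁻¹ * h.1 * ρ g).1.mulVec w) := by
          rw [Units.val_mul, Matrix.mulVec_mulVec]
      _ = _ := by rw [h3]
  have hVbot : V ≠ ⊥ := by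
    obtain ⟨w, hw0, hw⟩ := fixed_vec ℓ (by omega : 1 ≤ n) hPp
      ((H.subtype).comp P.subtype)
    intro h
    refine hw0 ?_
    have : w ∈ V := fun h hh => hw ⟨h, hh⟩
    rw [h] at this
    exact this
  by_cases hVtop : V = ⊤
  · -- `P` acts trivially
    have hscal : ∀ g ∈ N, ∃ a : k, (ρ g).1 = Matrix.scalar (Fin n) a := by
      intro g hg
      obtain ⟨p, hpP, z, ⟨a, ha⟩, e⟩ := hPZ ⟨ρ g, g, hg, rfl⟩
      refine ⟨a, ?_⟩
      have h1 : p.1.1 = 1 := by
        have h2 : ∀ w, p.1.1.mulVec w = w := by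
          intro w
          have : w ∈ V := by rw [hVtop]; trivial
          exact this p hpP
        refine Matrix.ext_of_mulVec_single fun i => ?_
        rw [h2, Matrix.one_mulVec]
      have h3 : ρ g = p.1 * z.1 := congrArg Subtype.val e
      rw [h3, Units.val_mul, h1, one_mul, ha]
    obtain ⟨c, hc⟩ := hcyc
    obtain ⟨c, rfl⟩ := QuotientGroup.mk_surjective c
    -- an eigenvector
    have hn0 : Nonempty (Fin n) := ⟨⟨0, by omega⟩⟩
    obtain ⟨μ, hμ⟩ := Module.End.exists_eigenvalue (Matrix.toLin' (ρ c).1)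
    obtain ⟨w, hw⟩ := hμ.exists_hasEigenvector
    have hw0 : w ≠ 0 := hw.2
    have hwc : (ρ c).1.mulVec w = μ • w := by
      have := hw.apply_eq_smul
      rwa [Matrix.toLin'_apply] at this
    have hμ0 : μ ≠ 0 := by
      rintro rfl
      rw [zero_smul] at hwc
      have h1 : (ρ c)⁻¹.1 * (ρ c).1 = 1 := by
        rw [← Units.val_mul, inv_mul_cancel, Units.val_one]
      apply hw0
      calc w = ((ρ c)⁻¹.1 * (ρ c).1).mulVec w := by rw [h1, Matrix.one_mulVec]
        _ = 0 := by rw [← Matrix.mulVec_mulVec, hwc, Matrix.mulVec_zero]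
    have hinv : (ρ c)⁻¹.1.mulVec w = μ⁻¹ • w := by
      have h1 : (ρ c)⁻¹.1 * (ρ c).1 = 1 := by
        rw [← Units.val_mul, inv_mul_cancel, Units.val_one]
      calc (ρ c)⁻¹.1.mulVec w = μ⁻¹ • (ρ c)⁻¹.1.mulVec (μ • w) := by
            rw [Matrix.mulVec_smul, smul_smul, inv_mul_cancel₀ hμ0, one_smul]
        _ = μ⁻¹ • w := by
            rw [← hwc, Matrix.mulVec_mulVec, h1, Matrix.one_mulVec]
    have hnat : ∀ (i : ℕ), ∃ a : k, ((ρ c) ^ i).1.mulVec w = a • w ∧
        ((ρ c)⁻¹ ^ i).1.mulVec w = a⁻¹ • w := by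
      intro i
      induction i with
      | zero => exact ⟨1, by simp, by simp⟩
      | succ i ih =>
        obtain ⟨a, h1, h2⟩ := ih
        refine ⟨a * μ, ?_, ?_⟩
        · rw [pow_succ, Units.val_mul, ← Matrix.mulVec_mulVec, hwc, Matrix.mulVec_smul, h1,
            smul_smul, mul_comm]
        · rw [pow_succ, Units.val_mul, ← Matrix.mulVec_mulVec, hinv, Matrix.mulVec_smul, h2,
            smul_smul, _root_.mul_inv_rev]
    have hzpow : ∀ i : ℤ, ∃ a : k, ((ρ c) ^ i).1.mulVec w = a • w := by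
      intro i
      rcases i with i | i
      · obtain ⟨a, h1, -⟩ := hnat i
        exact ⟨a, by simpa using h1⟩
      · obtain ⟨a, -, h2⟩ := hnat (i + 1)
        refine ⟨a⁻¹, ?_⟩
        rw [zpow_negSucc, ← inv_pow]
        exact h2
    refine ⟨k ∙ w, ?_, ?_, ?_⟩
    · rw [Ne, Submodule.span_singleton_eq_bot]
      exact hw0
    · intro h
      have h1 : Module.finrank k (k ∙ w) = 1 := finrank_span_singleton hw0
      rw [h, finrank_top, Module.finrank_fin_fun] at h1
      omega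
    · intro g v hv
      obtain ⟨b, rfl⟩ := Submodule.mem_span_singleton.1 hv
      obtain ⟨i, hi⟩ := hc (g : Q ⧸ N)
      have h1 : (c ^ i)⁻¹ * g ∈ N := by
        rw [← QuotientGroup.eq]
        exact hi
      obtain ⟨s, hs⟩ := hscal _ h1
      obtain ⟨a, ha⟩ := hzpow i
      have h2 : ρ g = (ρ c) ^ i * ρ ((c ^ i)⁻¹ * g) := by
        rw [← map_zpow, ← map_mul]
        congr 1
        group
      rw [Submodule.mem_span_singleton]
      refine ⟨b * (s * a), ?_⟩
      rw [h2, Units.val_mul, ← Matrix.mulVec_mulVec, hs, Matrix.mulVec_smul, Matrix.mulVec_smul]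
      have h3 : (Matrix.scalar (Fin n) s).mulVec w = s • w := by
        rw [Matrix.scalar_apply, ← Matrix.smul_one_eq_diagonal, Matrix.smul_mulVec,
          Matrix.one_mulVec]
      rw [h3, Matrix.mulVec_smul, ha, smul_smul, smul_smul, mul_assoc]
  · exact ⟨V, hVbot, hVtop, hVst⟩

theorem tRed : SRed := by
  intro k _ _ ℓ _ _ n hn Q _ _ N _ hcyc ρ hN
  exact red_core k ℓ n hn Q N hcyc ρ fun g hg => Or.inl (hN g hg)

end Q4.GLC
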