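import Pool.Agent.Q4.GLC.Unif
import Pool.Agent.Q4.GLC.Frb
import Pool.Agent.Q4.GLC.Red

/-!
# Galois representations attached to Eisenstein systems are reducible (helper4, project GLC)
-/

open IsDedekindDomain NumberField Matrix Polynomial

namespace Q4.GLC

/-- The representation `ρ` of `Gal(L/F)` is attached to the system `θ` outside `S`: for every place
`v ∉ S`, every prime `P` of `L` over `v` and every Frobenius element `g` at `P`, the
characteristic polynomial of `ρ g` or of `ρ g⁻¹` is the polynomial of the Hecke eigenvalues at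
`v`. -/
def Attached {F L k : Type} [Field F] [NumberField F] [Field L] [NumberField L] [Algebra F L]
    [Field k] {n : ℕ} (ρ : (L ≃ₐ[F] L) →* GL (Fin n) k) (S : Set (Pl F)) (θ : Pl F → ℕ → k) :
    Prop :=
  ∀ v ∉ S, ∀ P : Ideal (𝓞 L), P.IsPrime → P.comap (algebraMap (𝓞 F) (𝓞 L)) = v.asIdeal →
    ∀ g : L ≃ₐ[F] L, IsFrobAt g P (qv v) →
      (ρ g).1.charpoly = heckePoly n θ v ∨ (ρ g⁻¹).1.charpoly = heckePoly n θ v

/-- The representation `ρ` on `k^n` has an invariant subspace other than `0` and `k^n`. -/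
def Reducible {Q k : Type} [Group Q] [Field k] {n : ℕ} (ρ : Q →* GL (Fin n) k) : Prop :=
  ∃ V : Submodule k (Fin n → k), V ≠ ⊥ ∧ V ≠ ⊤ ∧ ∀ g, ∀ w ∈ V, (ρ g).1.mulVec w ∈ V

theorem geo_one {k : Type} [Field k] (n q : ℕ) (a : k) (hq : (q : k) = 1) :
    geoPoly n q a = (X - C a) ^ n := by
  unfold geoPoly
  simp only [hq, one_pow, one_mul, Finset.prod_const, Finset.card_range]

theorem eis_red {F : Type} [Field F] [NumberField F] {n : ℕ} (hn : 2 ≤ n) {k : Type} [Field k]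
    [IsAlgClosed k] (ℓ : ℕ) [Fact ℓ.Prime] [CharP k ℓ] {Γ : Subgroup (GQ F n)}
    {S : Set (Pl F)} (hS : S.Finite) {θ : Pl F → ℕ → k} (h : IsEis Γ S θ)
    {L : Type} [Field L] [NumberField L] [Algebra F L] [IsGalois F L]
    (ρ : (L ≃ₐ[F] L) →* GL (Fin n) k) (hρ : Attached ρ S θ) : Reducible ρ := by
  obtain ⟨ψ, -, hψ⟩ := h
  obtain ⟨N, hN, hcyc, hfr⟩ := tFrb F L ℓ Fact.out S hS
  have : FiniteDimensional F L := Module.Finite.of_restrictScalars_finite ℚ F L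
  refine red_core k ℓ n hn (L ≃ₐ[F] L) N hcyc ρ ?_
  intro g hg
  obtain ⟨v, hv, P, hP, hPv, hgP, hq⟩ := hfr g hg
  obtain ⟨ϖ, hϖ⟩ := ex_unif v
  have hq1 : ((qv v : ℕ) : k) = 1 := by
    have h1 : qv v ≡ 1 [MOD ℓ] := by
      rw [Nat.ModEq, hq, Nat.mod_eq_of_lt (Fact.out : ℓ.Prime).one_lt]
    have := (CharP.natCast_eq_natCast k ℓ).2 h1
    rw [this, Nat.cast_one]
  have e : heckePoly n θ v = (X - C (ψ ϖ : k)) ^ n := by
    rw [hψ v hv ϖ hϖ, geo_one n _ _ hq1]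
  rcases hρ v hv P hP hPv g hgP with h1 | h1
  · exact Or.inl ⟨_, h1.trans e⟩
  · exact Or.inr ⟨_, h1.trans e⟩

end Q4.GLC
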