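import Pool.Agent.Q4.GLC.Rel

/-!
# The right translates of a cocycle (helper4, project GLC)
-/

namespace Q4.GLC

section key

variable {G H D W : Type} [Group G] [Group H] [CommGroup D] [AddCommGroup W]
variable {ι : H →* G} {Γ : Subgroup H} {det : G →* D} {U : ℕ → Subgroup G}

theorem Sys.den2 (S : Sys ι Γ det U) (g : G) (N : ℕ) (hN : 1 ≤ N) (N' : ℕ) (hN' : 1 ≤ N') :
    ∃ M : ℕ, 1 ≤ M ∧ N ∣ M ∧ N' ∣ M ∧ ∀ u ∈ U M, g * u * g⁻¹ ∈ U N := by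
  obtain ⟨M, h1, h2, h3⟩ := S.den g N hN
  exact ⟨M * N', Nat.mul_pos h1 hN', h2.mul_right _, Dvd.intro_left _ rfl,
    fun u hu => h3 u (S.mono _ _ (Dvd.intro _ rfl) hu)⟩

/-- the local statement at one point -/
theorem Sys.key1 (S : Sys ι Γ det U) {N : ℕ} (hN : 1 ≤ N) {c : Γ → G → W} (h : IsCo ι Γ c)
    (hV : ∀ γ, RI (U N) (c γ)) {g : G} (hg : g ∈ DG ι Γ det) (x : G) :
    ∃ M : ℕ, 1 ≤ M ∧ ∀ δ : Γ, x⁻¹ * ι δ.1 * x ∈ U M → c δ (x * g) = c δ x := by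
  classical
  obtain ⟨γ, hγ, w, hw, e⟩ := S.dg' hg x N hN
  -- the additive function
  let φ : H → W := fun δ => if hδ : δ ∈ Γ then c ⟨δ, hδ⟩ x else 0
  have hφ : ∀ δ : Γ, φ δ.1 = c δ x := fun δ => by
    simp only [φ, dif_pos δ.2]
  obtain ⟨N1, hN1, hNN1, hx1⟩ := S.den x⁻¹ N hN
  have hadd : ∀ δ ∈ Γ, ∀ δ' ∈ Γ, ι δ ∈ U N1 → ι δ' ∈ U N1 → φ (δ * δ') = φ δ + φ δ' := by
    intro δ hδ δ' hδ' h1 h2
    have e1 : φ (δ * δ') = c (⟨δ, hδ⟩ * ⟨δ', hδ'⟩) x := hφ (⟨δ, hδ⟩ * ⟨δ', hδ'⟩)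
    rw [e1, h.app, hφ ⟨δ, hδ⟩, hφ ⟨δ', hδ'⟩]
    congr 1
    have h3 := (U N).inv_mem (hx1 _ h1)
    have e2 : (ι δ)⁻¹ * x = x * (x⁻¹ * ι δ * x⁻¹⁻¹)⁻¹ := by group
    change c ⟨δ', hδ'⟩ ((ι δ)⁻¹ * x) = _
    rw [e2]
    exact hV _ _ h3 _
  obtain ⟨M1, hM1, hM1c⟩ := S.cen W N1 hN1 φ hadd γ hγ
  obtain ⟨M2, hM2, -, hM12, hM2c⟩ := S.den2 (ι γ * x)⁻¹ N hN M1 hM1
  obtain ⟨M, hM, hMM, hMc⟩ := S.den x M2 hM2
  refine ⟨M, hM, fun δ hδ => ?_⟩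
  have h4 : ι δ.1 ∈ U M2 := by
    have := hMc _ hδ
    have e3 : x * (x⁻¹ * ι δ.1 * x) * x⁻¹ = ι δ.1 := by group
    rwa [e3] at this
  rw [e, hV _ _ hw]
  have h5 := hM2c _ h4
  rw [inv_inv] at h5
  rw [← h.conj (U N) hV ⟨γ, hγ⟩ δ x h5]
  have h6 := hM1c δ.1 δ.2 (S.mono _ _ hM12 h4)
  have e4 : φ (γ⁻¹ * δ.1 * γ) = c (⟨γ, hγ⟩⁻¹ * δ * ⟨γ, hγ⟩) x := hφ (⟨γ, hγ⟩⁻¹ * δ * ⟨γ, hγ⟩)
  rw [← e4, h6, hφ]

/-- the uniform statement -/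
theorem Sys.key2 (S : Sys ι Γ det U) {N : ℕ} (hN : 1 ≤ N) {c : Γ → G → W} (h : IsCo ι Γ c)
    (hV : ∀ γ, RI (U N) (c γ)) {g : G} (hg : g ∈ DG ι Γ det) :
    ∃ M : ℕ, 1 ≤ M ∧ N ∣ M ∧ (∀ u ∈ U M, g⁻¹ * u * g ∈ U N) ∧
      ∀ (δ : Γ) (y : G), y⁻¹ * ι δ.1 * y ∈ U M → c δ (y * g) = c δ y := by
  classical
  obtain ⟨M1, hM1, hNM1, hM1c⟩ := S.den g⁻¹ N hN
  rw [inv_inv] at hM1c
  obtain ⟨X, hX⟩ := S.fin M1 hM1
  choose Mx hMx1 hMx2 using fun x => S.key1 hN h hV hg x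
  have hpos : 0 < ∏ x ∈ X, Mx x := Finset.prod_pos fun x _ => hMx1 x
  refine ⟨M1 * ∏ x ∈ X, Mx x, Nat.mul_pos hM1 hpos, hNM1.mul_right _,
    fun u hu => hM1c u (S.mono _ _ (Dvd.intro _ rfl) hu), fun δ y hy => ?_⟩
  have hy1 : y⁻¹ * ι δ.1 * y ∈ U M1 := S.mono _ _ (Dvd.intro _ rfl) hy
  obtain ⟨β, hβ, x, hx, v, hv, e⟩ := hX y
  have hvN : v ∈ U N := S.mono _ _ hNM1 hv
  have hv1 : v ∈ U 1 := S.mono _ _ (one_dvd _) hv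
  set β' : Γ := ⟨β, hβ⟩ with hβ'
  have e1 : x⁻¹ * ι (β'⁻¹ * δ * β').1 * x = v * (y⁻¹ * ι δ.1 * y) * v⁻¹ := by
    rw [e]
    simp only [hβ', Subgroup.coe_mul, Subgroup.coe_inv, map_mul, map_inv]
    group
  have h2 : x⁻¹ * ι (β'⁻¹ * δ * β').1 * x ∈ U (Mx x) := by
    rw [e1]
    refine S.nrm _ v hv1 _ (S.mono _ _ ?_ hy)
    exact (Finset.dvd_prod_of_mem Mx hx).mul_left _
  have h2' : x⁻¹ * ι (β'⁻¹ * δ * β').1 * x ∈ U M1 := by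
    rw [e1]
    exact S.nrm _ v hv1 _ hy1
  have h3 := hMx2 x (β'⁻¹ * δ * β') h2
  -- the value at y
  have hc1 : c δ y = c (β'⁻¹ * δ * β') x := by
    rw [e, hV _ _ hvN]
    refine (h.conj (U N) hV β' δ x ?_).symm
    have e2 : (ι β'.1 * x)⁻¹ * ι δ.1 * (ι β'.1 * x) = x⁻¹ * ι (β'⁻¹ * δ * β').1 * x := by
      simp only [Subgroup.coe_mul, Subgroup.coe_inv, map_mul, map_inv]
      group
    rw [e2]
    exact S.mono _ _ hNM1 h2'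
  have hc2 : c δ (y * g) = c (β'⁻¹ * δ * β') (x * g) := by
    have e3 : y * g = ι β'.1 * (x * g) * (g⁻¹ * v * g) := by
      rw [e]
      simp only [hβ']
      group
    rw [e3, hV _ _ (hM1c v hv)]
    refine (h.conj (U N) hV β' δ (x * g) ?_).symm
    have e2 : (ι β'.1 * (x * g))⁻¹ * ι δ.1 * (ι β'.1 * (x * g)) =
        g⁻¹ * (x⁻¹ * ι (β'⁻¹ * δ * β').1 * x) * g := by
      simp only [Subgroup.coe_mul, Subgroup.coe_inv, map_mul, map_inv]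
      group
    rw [e2]
    exact hM1c _ h2'
  rw [hc1, hc2, h3]

/-- right translation by `g` changes a cocycle by a coboundary of a smooth function -/
theorem Sys.key3 (S : Sys ι Γ det U) {N : ℕ} (hN : 1 ≤ N) {c : Γ → G → W} (h : IsCo ι Γ c)
    (hV : ∀ γ, RI (U N) (c γ)) {g : G} (hg : g ∈ DG ι Γ det) :
    ∃ M : ℕ, 1 ≤ M ∧ ∃ f : G → W, RI (U M) f ∧
      ∀ γ : Γ, (fun x => c γ (x * g) - c γ x) = lt ι γ.1 f - f := by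
  obtain ⟨M, hM, hNM, h1, h2⟩ := S.key2 hN h hV hg
  refine ⟨M, hM, ?_⟩
  refine cb (d := fun γ x => c γ (x * g) - c γ x) ?_ (U M) ?_ ?_
  · intro γ δ
    ext x
    have e1 := h.app γ δ (x * g)
    have e2 := h.app γ δ x
    change c (γ * δ) (x * g) - c (γ * δ) x = (c γ (x * g) - c γ x) +
      (c δ ((ι γ.1)⁻¹ * x * g) - c δ ((ι γ.1)⁻¹ * x))
    rw [e1, e2, mul_assoc]
    abel
  · intro γ u hu x
    change c γ (x * u * g) - c γ (x * u) = c γ (x * g) - c γ x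
    have e3 : x * u * g = x * g * (g⁻¹ * u * g) := by group
    rw [e3, hV _ _ (h1 u hu), hV _ _ (S.mono _ _ hNM hu)]
  · intro δ x hx
    rw [h2 δ x hx, sub_self]

end key

end Q4.GLC
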