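import Pool.Agent.Q4.GLC.CaseB1

/-!
# The theorem, from the arithmetic inputs (helper4, project GLC)
-/

open IsDedekindDomain NumberField Matrix

namespace Q4.GLC

/-- the characteristic polynomial `∑ (-1)^j q^{j(j-1)/2} T_{v,j} X^{n-j}` of the eigenvalues -/
noncomputable def heckePoly {F : Type} [Field F] [NumberField F] {k : Type} [Field k] (n : ℕ)
    (θ : Pl F → ℕ → k) (v : Pl F) : Polynomial k :=
  ∑ j ∈ Finset.range (n + 1), Polynomial.C ((-1) ^ j * (qv v : k) ^ (j * (j - 1) / 2) * θ v j) *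
    Polynomial.X ^ (n - j)

/-- the polynomial `∏ (X - q^i a)`, `i < n` -/
noncomputable def geoPoly {k : Type} [Field k] (n q : ℕ) (a : k) : Polynomial k :=
  ∏ i ∈ Finset.range n, (Polynomial.X - Polynomial.C ((q : k) ^ i * a))

section gen

variable {G H k W J : Type} [Group G] [Group H] [Field k] [AddCommGroup W] [Module k W]

/-- `K` contains some `U N` with finite index, and `ρ` is trivial on some `U N` -/
def LevelG (U : ℕ → Subgroup G) (K : Subgroup G) (ρ : Representation k K W) : Prop :=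
  (∃ N : ℕ, 1 ≤ N ∧ U N ≤ K ∧ ((U N).subgroupOf K).FiniteIndex) ∧
    ∃ N : ℕ, 1 ≤ N ∧ ∀ κ : K, κ.1 ∈ U N → ρ κ = 1

/-- `L` is a subgroup of `K` on which `ρ` is trivial -/
def TrivOn (L K : Subgroup G) (ρ : Representation k K W) : Prop :=
  L ≤ K ∧ ∀ κ : K, κ.1 ∈ L → ρ κ = 1

/-- `θ` is a system of eigenvalues of the operators `hecke (L j) (t j)` in `H^0(Γ, M_W)` -/
def EigG0 (ι : H →* G) (Γ : Subgroup H) (K : Subgroup G) (ρ : Representation k K W)
    (L : J → Subgroup G) (t : J → G) (θ : J → k) : Prop :=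
  ∃ f ∈ MW K ρ, f ≠ 0 ∧ (∀ γ ∈ Γ, lt ι γ f = f) ∧ ∀ j, hecke (L j) (t j) f = θ j • f

/-- `θ` is a system of eigenvalues of the operators `hecke (L j) (t j)` in `H^1(Γ, M_W)` -/
def EigG1 (ι : H →* G) (Γ : Subgroup H) (K : Subgroup G) (ρ : Representation k K W)
    (L : J → Subgroup G) (t : J → G) (θ : J → k) : Prop :=
  ∃ c ∈ Z1 ι Γ (MW K ρ), c ∉ B1 ι Γ (MW K ρ) ∧
    ∀ j, (fun γ => hecke (L j) (t j) (c γ)) - θ j • c ∈ B1 ι Γ (MW K ρ)

end gen

/-- a place outside `S`, a uniformizer and a number `j ≤ n`: the index of a Hecke operator -/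
abbrev HIdx (F : Type) [Field F] [NumberField F] (n : ℕ) (S : Set (Pl F)) : Type :=
  {p : Pl F × (Af F)ˣ × ℕ // p.1 ∉ S ∧ IsUnif p.1 p.2.1 ∧ p.2.2 ≤ n}

section data

variable {F : Type} [Field F] [NumberField F] {n : ℕ} {k W : Type} [Field k] [AddCommGroup W]
  [Module k W]

/-- the idele `u` is a unit at `v` and `1` at the other places -/
def UnitAt (v : Pl F) (u : (Af F)ˣ) : Prop := Valued.v (u.1 v) = 1 ∧ ∀ w, w ≠ v → u.1 w = 1

/-- the idele `u` is congruent to one modulo `N` -/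
def OneMod (N : ℕ) (u : (Af F)ˣ) : Prop := DvdN N (u.1 - 1) ∧ DvdN N (u⁻¹.1 - 1)

/-- the determinant -/
noncomputable abbrev dt (F : Type) [Field F] [NumberField F] (n : ℕ) : Gf F n →* (Af F)ˣ :=
  Matrix.GeneralLinearGroup.det

/-- a character of the finite ideles which is trivial on `det Γ`, on the ideles congruent to
one modulo some `N`, and on the units at the places outside `S` -/
def IsHeckeChar (Γ : Subgroup (GQ F n)) (S : Set (Pl F)) (ψ : (Af F)ˣ →* kˣ) : Prop :=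
  (∀ γ ∈ Γ, ψ (dt F n (dg F n γ)) = 1) ∧ (∃ N : ℕ, 1 ≤ N ∧ ∀ u, OneMod N u → ψ u = 1) ∧
    ∀ v ∉ S, ∀ u, UnitAt v u → ψ u = 1

/-- The eigenvalues `θ v j`, `v ∉ S`, `j ≤ n`, are those of the sum of the characters
`ψ, q ψ, …, q ^ (n - 1) ψ`, for a Hecke character `ψ` which is unramified outside `S`. -/
def IsEis (Γ : Subgroup (GQ F n)) (S : Set (Pl F)) (θ : Pl F → ℕ → k) : Prop :=
  ∃ ψ : (Af F)ˣ →* kˣ, IsHeckeChar Γ S ψ ∧
    ∀ v ∉ S, ∀ ϖ, IsUnif v ϖ → heckePoly n θ v = geoPoly n (qv v) (ψ ϖ : k)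

/-- the component of `g` at `v` has integral entries -/
def IntAt (v : Pl F) (g : Gf F n) : Prop := ∀ i j, Valued.v ((g.1 i j) v) ≤ 1

/-- the component of `K` at `v ∉ S` is `GL_n(O_v)`, and it acts trivially -/
def UnramOut (K : Subgroup (Gf F n)) (ρ : Representation k K W) (S : Set (Pl F)) : Prop :=
  ∀ v ∉ S, (∀ κ ∈ K, IntAt v κ) ∧ TrivOn (Kv n v) K ρ

/-- the local group `GL_n(O_v)` of a Hecke operator -/
abbrev HIdx.L {S : Set (Pl F)} (p : HIdx F n S) : Subgroup (Gf F n) := Kv n p.1.1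

/-- the matrix of a Hecke operator -/
noncomputable abbrev HIdx.t {S : Set (Pl F)} (p : HIdx F n S) : Gf F n := tm n p.1.2.1 p.1.2.2

/-- `θ` is a system of eigenvalues of the Hecke operators `T_{v,j}`, `v ∉ S`, `j ≤ n`, in
`H^0(Γ, M_W)` or in `H^1(Γ, M_W)` -/
def Eig (Γ : Subgroup (GQ F n)) (K : Subgroup (Gf F n)) (ρ : Representation k K W)
    (S : Set (Pl F)) (θ : Pl F → ℕ → k) : Prop :=
  EigG0 (dg F n) Γ K ρ (HIdx.L (S := S)) HIdx.t (fun p => θ p.1.1 p.1.2.2) ∨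
    EigG1 (dg F n) Γ K ρ (HIdx.L (S := S)) HIdx.t (fun p => θ p.1.1 p.1.2.2)

end data

section inputs

variable {F : Type} [Field F] [NumberField F] {n : ℕ}

theorem DvdN.mono {M N : ℕ} (h : M ∣ N) {a : Af F} (ha : DvdN N a) : DvdN M a := by
  obtain ⟨e, rfl⟩ := h
  intro v
  refine (ha v).trans ?_
  have h1 : ((M * e : ℕ) : Af F) v = (M : Af F) v * (e : Af F) v := by
    rw [Nat.cast_mul]; rfl
  rw [h1, map_mul]
  exact mul_le_of_le_one_right' (val_nat_le e v)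

theorem UN_mono {M N : ℕ} (h : M ∣ N) : UN F n N ≤ UN F n M := fun _ hu =>
  ⟨fun i j => (hu.1 i j).mono h, fun i j => (hu.2 i j).mono h⟩

theorem UN_int {u : Gf F n} (hu : u ∈ UN F n 1) : DvdM 1 u.1 := by
  have : u.1 = (u.1 - 1) + 1 := by abel
  rw [this]
  exact hu.1.add dvdM_one_one

theorem UN_conj {M : ℕ} {v u : Gf F n} (hv : v ∈ UN F n 1) (hu : u ∈ UN F n M) :
    v * u * v⁻¹ ∈ UN F n M := by
  have h1 := UN_int hv
  have h2 := UN_int ((UN F n 1).inv_mem hv)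
  have e1 : ∀ a : Gf F n, (v * a * v⁻¹).1 - 1 = v.1 * (a.1 - 1) * v⁻¹.1 := by
    intro a
    have h3 : v.1 * v⁻¹.1 = 1 := by rw [← Units.val_mul, mul_inv_cancel, Units.val_one]
    rw [Units.val_mul, Units.val_mul, mul_sub, sub_mul, mul_one, h3]
  refine mem_UN.2 ⟨?_, ?_⟩
  · rw [e1]
    exact (h1.int_mul hu.1).mul_int h2
  · have e2 : (v * u * v⁻¹)⁻¹ = v * u⁻¹ * v⁻¹ := by group
    rw [e2, e1]
    exact (h1.int_mul hu.2).mul_int h2

theorem mkSys (hDen : SDen) (hDns : SDns) (hSlf : SSlf) (hCen : SCen) (hFin : SFin) (hn : 3 ≤ n)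
    (Γ : Subgroup (GQ F n)) (hΓ : Γ.FiniteIndex) :
    Sys (dg F n) Γ (Matrix.GeneralLinearGroup.det : Gf F n →* (Af F)ˣ) (UN F n) where
  mono _ _ h := UN_mono h
  nrm _ _ hv _ hu := UN_conj hv hu
  den g N hN := hDen F n g N hN
  dns s hs M hM := by
    obtain ⟨γ, h1, h2⟩ := hDns F n s (by
      have := congrArg Units.val hs
      simpa using this) M hM
    exact ⟨γ, hSlf F n Γ hΓ γ h1, h2⟩
  cen A _ N hN φ hφ γ _ := by
    obtain ⟨m, rfl⟩ : ∃ m, n = m + 3 := ⟨n - 3, by omega⟩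
    exact hCen F m Γ (hSlf F _ Γ hΓ) A N hN φ hφ γ
  fin M hM := hFin F n (by omega) Γ hΓ M hM

/-- the diagonal matrix with the entries `a, 1, …, 1` -/
noncomputable def dia (F : Type) [Field F] [NumberField F] (n : ℕ) : (Af F)ˣ →* Gf F n where
  toFun a := tm n a 1
  map_one' := by
    refine Units.ext ?_
    change Matrix.diagonal (fun i : Fin n => if i.1 < 1 then (1 : (Af F)ˣ).1 else 1) = 1
    rw [← Matrix.diagonal_one]
    congr 1
    funext i
    split_ifs <;> rfl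
  map_mul' a b := by
    refine Units.ext ?_
    rw [Units.val_mul]
    change Matrix.diagonal (fun i : Fin n => if i.1 < 1 then (a * b).1 else 1) =
      Matrix.diagonal (fun i : Fin n => if i.1 < 1 then a.1 else 1) *
        Matrix.diagonal (fun i : Fin n => if i.1 < 1 then b.1 else 1)
    rw [Matrix.diagonal_mul_diagonal]
    congr 1
    funext i
    split_ifs <;> simp

theorem dia_val (a : (Af F)ˣ) :
    (dia F n a).1 = Matrix.diagonal fun i : Fin n => if i.1 < 1 then a.1 else 1 := rfl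

theorem dia_inv_val (a : (Af F)ˣ) :
    (dia F n a)⁻¹.1 = Matrix.diagonal fun i : Fin n => if i.1 < 1 then a⁻¹.1 else 1 := rfl

theorem det_tm (ϖ : (Af F)ˣ) {j : ℕ} (hj : j ≤ n) :
    Matrix.GeneralLinearGroup.det (tm n ϖ j) = ϖ ^ j := by
  refine Units.ext ?_
  change (Matrix.diagonal fun i : Fin n => if i.1 < j then ϖ.1 else 1).det = (ϖ ^ j).1
  rw [Matrix.det_diagonal, Fin.prod_univ_eq_prod_range (fun i => if i < j then ϖ.1 else 1) n,
    Finset.prod_ite, Finset.prod_const_one, mul_one, Finset.prod_const, Units.val_pow_eq_pow_val]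
  congr 1
  have : (Finset.range n).filter (fun i => i < j) = Finset.range j := by
    ext i
    simp only [Finset.mem_filter, Finset.mem_range]
    omega
  rw [this, Finset.card_range]

theorem det_dia (hn : 1 ≤ n) (a : (Af F)ˣ) : Matrix.GeneralLinearGroup.det (dia F n a) = a := by
  change Matrix.GeneralLinearGroup.det (tm n a 1) = a
  rw [det_tm a hn, pow_one]

theorem dia_UN {N : ℕ} {u : (Af F)ˣ} (h1 : DvdN N (u.1 - 1)) (h2 : DvdN N (u⁻¹.1 - 1)) :
    dia F n u ∈ UN F n N := by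
  refine mem_UN.2 ⟨fun i j => ?_, fun i j => ?_⟩
  · rw [dia_val, Matrix.sub_apply, Matrix.one_apply, Matrix.diagonal_apply]
    split_ifs with h3 h4
    · exact h1
    · rw [sub_self]; exact dvdN_zero N
    · rw [sub_self]; exact dvdN_zero N
  · rw [dia_inv_val, Matrix.sub_apply, Matrix.one_apply, Matrix.diagonal_apply]
    split_ifs with h3 h4
    · exact h2
    · rw [sub_self]; exact dvdN_zero N
    · rw [sub_self]; exact dvdN_zero N

theorem unit_inv_val {u : (Af F)ˣ} (w : Pl F) : u⁻¹.1 w * u.1 w = 1 := by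
  have h : u⁻¹.1 * u.1 = 1 := by rw [← Units.val_mul, inv_mul_cancel, Units.val_one]
  exact congrArg (fun z : Af F => z w) h

theorem dia_Kv {v : Pl F} {u : (Af F)ˣ} (h1 : Valued.v (u.1 v) = 1)
    (h2 : ∀ w, w ≠ v → u.1 w = 1) : dia F n u ∈ Kv (F := F) n v := by
  have h3 : ∀ w, w ≠ v → u⁻¹.1 w = 1 := fun w hw => by
    have := unit_inv_val (u := u) w
    rwa [h2 w hw, mul_one] at this
  have h4 : Valued.v (u⁻¹.1 v) = 1 := by
    have := congrArg Valued.v (unit_inv_val (u := u) v)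
    rwa [map_mul, h1, mul_one, map_one] at this
  have key : ∀ a : Af F, Valued.v (a v) = 1 → (∀ w, w ≠ v → a w = 1) → DvdN 1 (a - 1) := by
    intro a ha hw w
    have h5 : DvdN 1 a := by
      intro w
      rw [Nat.cast_one]
      change Valued.v (a w) ≤ Valued.v (1 : w.adicCompletion F)
      rw [map_one]
      by_cases h : w = v
      · subst h; exact ha.le
      · rw [hw w h, map_one]
    exact h5.sub dvdN_one_one w
  refine ⟨dia_UN (key _ h1 h2) (key _ h4 h3), fun w hw i j => ⟨?_, ?_⟩⟩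
  · rw [dia_val, Matrix.one_apply, Matrix.diagonal_apply]
    split_ifs
    · exact h2 w hw
    · rfl
    · rfl
  · rw [dia_inv_val, Matrix.one_apply, Matrix.diagonal_apply]
    split_ifs
    · exact h3 w hw
    · rfl
    · rfl

theorem qv_two (v : Pl F) : 2 ≤ qv v := by
  have h1 : v.asIdeal ≠ ⊥ := v.ne_bot
  have : Finite (𝓞 F ⧸ v.asIdeal) := Ring.HasFiniteQuotients.finiteQuotient h1
  have : Nontrivial (𝓞 F ⧸ v.asIdeal) := Ideal.Quotient.nontrivial_iff.2 v.isPrime.ne_top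
  exact Finite.one_lt_card

/-- from the abstract conclusion to the eigenvalues -/
theorem toEis (hCnt : SCnt) (hQbt : SQbt) (hn : 1 ≤ n) {k : Type} [Field k]
    (Γ : Subgroup (GQ F n)) (S : Set (Pl F)) (θ : Pl F → ℕ → k)
    (h : Ccl (I := HIdx F n S) k
      (dg F n) Γ (Matrix.GeneralLinearGroup.det : Gf F n →* (Af F)ˣ) (UN F n)
      (fun p => Kv n p.1.1) (fun p => tm n p.1.2.1 p.1.2.2) (fun p => θ p.1.1 p.1.2.2))
    (hne : ∀ v : Pl F, ∃ ϖ : (Af F)ˣ, IsUnif v ϖ) :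
    IsEis Γ S θ := by
  obtain ⟨χ, h1, ⟨N, hN, h2⟩, h3, h4⟩ := h
  have hdet : ∀ g g' : Gf F n, Matrix.GeneralLinearGroup.det g = Matrix.GeneralLinearGroup.det g' →
      χ g = χ g' := by
    intro g g' e
    have : χ (g'⁻¹ * g) = 1 := h1 _ (mem_DG.2 ⟨1, Γ.one_mem, by
      rw [map_one, map_one, map_mul, map_inv, e, inv_mul_cancel]⟩)
    rw [map_mul, map_inv, inv_mul_eq_one] at this
    exact this.symm
  refine ⟨χ.comp (dia F n), ⟨fun γ hγ => ?_, ⟨N, hN, fun u hu =>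
    h2 _ (dia_UN hu.1 hu.2)⟩, fun v hv u hu => ?_⟩, fun v hv ϖ hϖ => ?_⟩
  · exact h1 _ (mem_DG.2 ⟨γ, hγ, (det_dia hn _).symm⟩)
  · obtain ⟨ϖ, hϖ⟩ := hne v
    exact h3 ⟨(v, ϖ, 0), hv, hϖ, Nat.zero_le n⟩ _ (dia_Kv hu.1 hu.2)
  · have h5 : ∀ j ≤ n, θ v j = (dgr (Kv n v) (tm n ϖ j) : k) *
        ((χ.comp (dia F n) ϖ : kˣ) : k) ^ j := by
      intro j hj
      have h6 := h4 ⟨(v, ϖ, j), hv, hϖ, hj⟩
      have h7 : χ (tm n ϖ j) = (χ.comp (dia F n) ϖ) ^ j := by
        rw [← map_pow]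
        change χ (tm n ϖ j) = χ (dia F n (ϖ ^ j))
        refine hdet _ _ ?_
        rw [det_tm ϖ hj, det_dia hn]
      change θ v j = _ at h6
      rw [h6]
      change (dgr (Kv n v) (tm n ϖ j) : k) * (χ (tm n ϖ j) : k) = _
      rw [h7, Units.val_pow_eq_pow_val]
    have h8 := hQbt k ((χ.comp (dia F n) ϖ : kˣ) : k) (qv v) n (qv_two v)
      (fun j => dgr (Kv n v) (tm n ϖ j)) (fun j hj => (hCnt F n v ϖ hϖ j hj).2)
    rw [geoPoly, ← h8, heckePoly]
    refine Finset.sum_congr rfl fun j hj => ?_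
    rw [h5 j (by rw [Finset.mem_range] at hj; omega)]

/-- the Hecke data at the places outside `S` -/
theorem mkHD (hLoc : SLoc) (hRep : SRep) (hPer : SPer) (hCnt : SCnt) (hn : 3 ≤ n) {k W : Type}
    [Field k] [AddCommGroup W] [Module k W] {K : Subgroup (Gf F n)} {ρ : Representation k K W}
    {v : Pl F} (h1 : ∀ κ ∈ K, ∀ i j, Valued.v ((κ.1 i j) v) ≤ 1) (h2 : Kv n v ≤ K)
    (h3 : ∀ κ : K, κ.1 ∈ Kv (F := F) n v → ρ κ = 1) {ϖ : (Af F)ˣ} (hϖ : IsUnif v ϖ) {j : ℕ}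
    (hj : j ≤ n) :
    HD K ρ (Matrix.GeneralLinearGroup.det : Gf F n →* (Af F)ˣ) (Kv n v) (tm n ϖ j) where
  le := h2
  triv := h3
  dec κ hκ := by
    obtain ⟨g', l, hl, e, h4, h5⟩ := hLoc F n v κ fun i j =>
      ⟨h1 κ hκ i j, h1 κ⁻¹ (K.inv_mem hκ) i j⟩
    exact ⟨g', l, hl, e, h4, h5 ϖ hϖ j⟩
  fin := (hCnt F n v ϖ hϖ j hj).1
  rep l hl := by
    obtain ⟨l', hl', hd, e⟩ := hRep F n v ϖ hϖ j l hl
    exact ⟨l', hl', Units.ext hd, e⟩
  per A _ φ hφ g hg hd := by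
    obtain ⟨m, rfl⟩ : ∃ m, n = m + 3 := ⟨n - 3, by omega⟩
    refine hPer F m v A φ (fun g hg h hh h4 h5 => hφ g hg h hh (Units.ext h4) (Units.ext h5)) g hg ?_
    have := congrArg Units.val hd
    simpa using this

end inputs

end Q4.GLC
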