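import Pool.Agent.Q4.GLC.Stm

/-!
# The index of the maximal parabolic subgroup over a finite field (project GLC, job PAR)
-/

set_option autoImplicit false

open IsDedekindDomain NumberField Matrix

namespace Q4.GLC.Par

variable (k0 : Type) [Field k0]

/-- the parabolic subgroup for a finite field -/
def PH [Finite k0] (n j : ℕ) : Subgroup (GL (Fin n) k0) :=
  let S : Submonoid (GL (Fin n) k0) :=
    { carrier := Pj k0 n j
      one_mem' := by
        intro i l hi hl
        rw [Units.val_one, Matrix.one_apply, if_neg]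
        rintro rfl
        omega
      mul_mem' := by
        intro g h hg hh i l hi hl
        rw [Units.val_mul, Matrix.mul_apply]
        apply Finset.sum_eq_zero
        intro m _
        by_cases hm : m.1 < j
        · rw [hh m l hm hl, mul_zero]
        · rw [hg i m hi (not_lt.1 hm), zero_mul] }
  { S with
    inv_mem' := by
      intro g hg
      have h1 : g⁻¹ ∈ Submonoid.powers g := by
        rw [mem_powers_iff_mem_zpowers]
        exact Subgroup.inv_mem _ (Subgroup.mem_zpowers g)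
      obtain ⟨m, hm⟩ := h1
      have h2 : g ^ m ∈ S := S.pow_mem hg m
      change g ^ m = g⁻¹ at hm
      rw [hm] at h2
      exact h2 }

theorem coe_PH [Finite k0] (n j : ℕ) : (PH k0 n j : Set (GL (Fin n) k0)) = Pj k0 n j := rfl

/-- block matrices -/
theorem card_PH [Finite k0] (j m : ℕ) :
    Nat.card (PH k0 (j + m) j) = Nat.card (GL (Fin j) k0) * Nat.card (GL (Fin m) k0) *
      Nat.card k0 ^ (m * j) := by
  classical
  have e0 : Nat.card (Matrix (Fin m) (Fin j) k0) = Nat.card k0 ^ (m * j) := by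
    have : Nat.card (Matrix (Fin m) (Fin j) k0) = Nat.card (Fin m → Fin j → k0) := rfl
    rw [this, Nat.card_fun, Nat.card_fun, Nat.card_eq_fintype_card (α := Fin m),
      Nat.card_eq_fintype_card (α := Fin j), Fintype.card_fin, Fintype.card_fin, ← pow_mul,
      mul_comm]
  rw [← e0, ← Nat.card_prod, ← Nat.card_prod]
  symm
  let e : Fin j ⊕ Fin m ≃ Fin (j + m) := finSumFinEquiv
  let B : (GL (Fin j) k0 × GL (Fin m) k0) × Matrix (Fin m) (Fin j) k0 →
      Matrix (Fin (j + m)) (Fin (j + m)) k0 := fun p =>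
    Matrix.reindex e e (Matrix.fromBlocks p.1.1.1 0 p.2 p.1.2.1)
  have hB : ∀ p, IsUnit (B p) := by
    intro p
    have h1 : IsUnit (Matrix.fromBlocks p.1.1.1 0 p.2 p.1.2.1) :=
      Matrix.isUnit_fromBlocks_zero₁₂.2 ⟨p.1.1.isUnit, p.1.2.isUnit⟩
    exact h1.map (Matrix.reindexAlgEquiv k0 k0 e)
  have hB0 : ∀ p i l, i.1 < j → j ≤ l.1 → (B p) i l = 0 := by
    intro p i l hi hl
    have h1 : e.symm i = Sum.inl ⟨i.1, hi⟩ := by
      rw [Equiv.symm_apply_eq]; rfl
    have h2 : e.symm l = Sum.inr ⟨l.1 - j, by have := l.2; omega⟩ := by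
      rw [Equiv.symm_apply_eq]
      apply Fin.ext
      change l.1 = j + (l.1 - j)
      omega
    change Matrix.fromBlocks p.1.1.1 0 p.2 p.1.2.1 (e.symm i) (e.symm l) = 0
    rw [h1, h2, Matrix.fromBlocks_apply₁₂, Matrix.zero_apply]
  let f : (GL (Fin j) k0 × GL (Fin m) k0) × Matrix (Fin m) (Fin j) k0 → PH k0 (j + m) j := fun p =>
    ⟨(hB p).unit, fun i l hi hl => hB0 p i l hi hl⟩
  apply Nat.card_eq_of_bijective f
  constructor
  · rintro ⟨⟨A, D⟩, C⟩ ⟨⟨A', D'⟩, C'⟩ h
    have h1 : B ((A, D), C) = B ((A', D'), C') := by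
      have := congrArg (fun x : PH k0 (j + m) j => (x.1 : GL (Fin (j + m)) k0).1) h
      exact this
    have h2 := (Matrix.reindex e e).injective h1
    rw [Matrix.fromBlocks_inj] at h2
    obtain ⟨h3, -, h4, h5⟩ := h2
    have h3' : A = A' := Units.ext h3
    have h5' : D = D' := Units.ext h5
    have h4' : C = C' := h4
    rw [h3', h5', h4']
  · rintro ⟨g, hg⟩
    let M := Matrix.reindex e.symm e.symm g.1
    have hM12 : M.toBlocks₁₂ = 0 := by
      ext a b
      change g.1 (e (Sum.inl a)) (e (Sum.inr b)) = 0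
      apply hg
      · change a.1 < j
        exact a.2
      · change j ≤ j + b.1
        omega
    have hM : M = Matrix.fromBlocks M.toBlocks₁₁ 0 M.toBlocks₂₁ M.toBlocks₂₂ := by
      rw [← hM12]
      exact (Matrix.fromBlocks_toBlocks M).symm
    have hMu : IsUnit M := g.isUnit.map (Matrix.reindexAlgEquiv k0 k0 e.symm)
    rw [hM, Matrix.isUnit_fromBlocks_zero₁₂] at hMu
    refine ⟨((hMu.1.unit, hMu.2.unit), M.toBlocks₂₁), ?_⟩
    apply Subtype.ext
    apply Units.ext
    change Matrix.reindex e e (Matrix.fromBlocks M.toBlocks₁₁ 0 M.toBlocks₂₁ M.toBlocks₂₂) = g.1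
    rw [← hM]
    ext a b
    simp [M]

theorem card_GLn [Finite k0] (n : ℕ) : Nat.card (GL (Fin n) k0) =
    ∏ i ∈ Finset.range n, (Nat.card k0 ^ n - Nat.card k0 ^ i) := by
  have := Fintype.ofFinite k0
  rw [Matrix.card_GL_field, Nat.card_eq_fintype_card, Finset.prod_range]

end Q4.GLC.Par

namespace Q4.GLC

/-- the index of the maximal parabolic subgroup -/
theorem tPar : SPar := by
  intro k0 _ _ n j hj
  obtain ⟨m, rfl⟩ := Nat.exists_eq_add_of_le hj
  refine ⟨Par.PH k0 (j + m) j, Par.coe_PH k0 _ _, ?_⟩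
  have h1 := (Par.PH k0 (j + m) j).index_mul_card
  rw [Par.card_PH, Par.card_GLn k0 (j + m)] at h1
  have hq : 0 < Nat.card k0 := Nat.card_pos
  have h2 : ∏ i ∈ Finset.range (j + m), (Nat.card k0 ^ (j + m) - Nat.card k0 ^ i) =
      (∏ i ∈ Finset.range j, (Nat.card k0 ^ (j + m) - Nat.card k0 ^ i)) *
        (Nat.card (GL (Fin m) k0) * Nat.card k0 ^ (m * j)) := by
    rw [Finset.prod_range_add, Par.card_GLn k0 m]
    congr 1
    have h3 : Nat.card k0 ^ (m * j) = ∏ _i ∈ Finset.range m, Nat.card k0 ^ j := by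
      rw [Finset.prod_const, Finset.card_range, ← pow_mul, mul_comm]
    rw [h3, ← Finset.prod_mul_distrib]
    apply Finset.prod_congr rfl
    intro i _
    rw [pow_add, pow_add, Nat.sub_mul]
    congr 1 <;> ring
  rw [h2, Par.card_GLn k0 j] at h1
  have hpos : 0 < Nat.card (GL (Fin m) k0) * Nat.card k0 ^ (m * j) := by
    have : 0 < Nat.card (GL (Fin m) k0) := Nat.card_pos
    positivity
  apply Nat.eq_of_mul_eq_mul_right hpos
  rw [← h1]
  ring

end Q4.GLC
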