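import Pool.Agent.Q4.GLC.Abs

/-!
# Eigenclasses modulo an invariant subspace (helper4, project GLC)
-/

namespace Q4.GLC

section rel

variable {G k V : Type} [Group G] [Field k] [AddCommGroup V] [Module k V]

/-- the representation on the quotient by an invariant subspace -/
def quoRep (R : Representation k G V) (B : Submodule k V) (hB : ∀ g, ∀ b ∈ B, R g b ∈ B) :
    Representation k G (V ⧸ B) where
  toFun g := B.mapQ B (R g) (fun b hb => hB g b hb)
  map_one' := by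
    ext x
    simp
  map_mul' g h := by
    ext x
    simp

/-- the stabiliser of a class -/
def stabC (R : Representation k G V) (B : Submodule k V) (hB : ∀ g, ∀ b ∈ B, R g b ∈ B) (q : V) :
    Subgroup G where
  carrier := {g | R g q - q ∈ B}
  one_mem' := by
    change R 1 q - q ∈ B
    rw [map_one]
    simp
  mul_mem' := by
    intro g h hg hh
    change R (g * h) q - q ∈ B
    have e : R (g * h) q - q = R g (R h q - q) + (R g q - q) := by
      rw [map_mul, map_sub]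
      change R g (R h q) - q = _
      abel
    rw [e]
    exact B.add_mem (hB g _ hh) hg
  inv_mem' := by
    intro g hg
    change R g⁻¹ q - q ∈ B
    have e : R g⁻¹ q - q = - R g⁻¹ (R g q - q) := by
      rw [map_sub]
      have : R g⁻¹ (R g q) = q := by
        change (R g⁻¹ * R g) q = q
        rw [← map_mul, inv_mul_cancel, map_one]
        rfl
      rw [this]
      abel
    rw [e]
    exact B.neg_mem (hB _ _ hg)

theorem mem_stabC {R : Representation k G V} {B : Submodule k V}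
    {hB : ∀ g, ∀ b ∈ B, R g b ∈ B} {q : V} {g : G} :
    g ∈ stabC R B hB q ↔ R g q - q ∈ B := Iff.rfl

theorem eig_rel (h : SEig) [IsAlgClosed k] (R : Representation k G V) (B : Submodule k V)
    (hB : ∀ g, ∀ b ∈ B, R g b ∈ B) (q : V) (hq : q ∉ B)
    (hC : commutator G ≤ stabC R B hB q) (hF : (stabC R B hB q).FiniteIndex) :
    ∃ χ : G →* kˣ, (∀ c ∈ stabC R B hB q, χ c = 1) ∧
      ∀ (t : G) (μ d : k), μ • q - d • R t q ∈ B → μ = d * (χ t : k) := by
  obtain ⟨χ, h1, h2⟩ := h G k (V ⧸ B) (quoRep R B hB) (B.mkQ q)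
    (by simpa using hq) (stabC R B hB q) hC hF (by
      intro c hc
      change B.mkQ (R c q) = B.mkQ q
      rw [← sub_eq_zero, ← map_sub]
      exact (Submodule.Quotient.mk_eq_zero B).2 hc)
  refine ⟨χ, h1, fun t μ d e => h2 t μ d ?_⟩
  change μ • B.mkQ q = d • B.mkQ (R t q)
  rw [← sub_eq_zero, ← map_smul, ← map_smul, ← map_sub]
  exact (Submodule.Quotient.mk_eq_zero B).2 e

end rel

section cb

variable {G H W : Type} [Group G] [Group H] [AddCommGroup W]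

/-- the cocycle condition -/
def IsCo (ι : H →* G) (Γ : Subgroup H) (d : Γ → G → W) : Prop :=
  ∀ γ δ : Γ, d (γ * δ) = d γ + lt ι γ.1 (d δ)

theorem IsCo.app {ι : H →* G} {Γ : Subgroup H} {d : Γ → G → W} (h : IsCo ι Γ d) (γ δ : Γ) (x : G) :
    d (γ * δ) x = d γ x + d δ ((ι γ.1)⁻¹ * x) := congrFun (h γ δ) x

theorem IsCo.one {ι : H →* G} {Γ : Subgroup H} {d : Γ → G → W} (h : IsCo ι Γ d) (x : G) :
    d 1 x = 0 := by
  have h1 := h.app 1 1 x
  rw [mul_one] at h1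
  simp only [Subgroup.coe_one, map_one, inv_one, one_mul] at h1
  have := left_eq_add.1 h1
  exact this

/-- the criterion for coboundaries -/
theorem cb {ι : H →* G} {Γ : Subgroup H} {d : Γ → G → W} (h : IsCo ι Γ d) (V : Subgroup G)
    (hV : ∀ γ, RI V (d γ)) (h0 : ∀ (δ : Γ) (x : G), x⁻¹ * ι δ.1 * x ∈ V → d δ x = 0) :
    ∃ f : G → W, RI V f ∧ ∀ γ : Γ, d γ = lt ι γ.1 f - f := by
  classical
  -- representatives
  let rel : Setoid G :=
    { r := fun x y => ∃ γ : Γ, ∃ u ∈ V, y = (ι γ.1)⁻¹ * x * u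
      iseqv := by
        refine ⟨fun x => ⟨1, 1, V.one_mem, by simp⟩, ?_, ?_⟩
        · rintro x y ⟨γ, u, hu, rfl⟩
          refine ⟨γ⁻¹, u⁻¹, V.inv_mem hu, ?_⟩
          simp only [Subgroup.coe_inv, map_inv]
          group
        · rintro x y z ⟨γ, u, hu, rfl⟩ ⟨γ', u', hu', rfl⟩
          refine ⟨γ * γ', u * u', V.mul_mem hu hu', ?_⟩
          simp only [Subgroup.coe_mul, map_mul, _root_.mul_inv_rev]
          group }
  let r : G → G := fun x => (Quotient.mk rel x).out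
  have hr : ∀ x, ∃ γ : Γ, ∃ u ∈ V, x = (ι γ.1)⁻¹ * r x * u := fun x => by
    have : rel.r (r x) x := by
      have := Quotient.mk_out (s := rel) x
      exact this
    exact this
  have hr2 : ∀ x (γ : Γ), ∀ u ∈ V, r ((ι γ.1)⁻¹ * x * u) = r x := by
    intro x γ u hu
    change (Quotient.mk rel _).out = (Quotient.mk rel _).out
    congr 1
    refine Quotient.sound ?_
    exact rel.symm' ⟨γ, u, hu, rfl⟩
  choose g0 u0 hu0 hg0 using hr
  let f : G → W := fun x => d (g0 x) (r x)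
  have key : ∀ (x : G) (γ : Γ), ∀ u ∈ V, x = (ι γ.1)⁻¹ * r x * u → f x = d γ (r x) := by
    intro x γ u hu e
    -- δ = γ g0⁻¹
    have e1 : (ι γ.1)⁻¹ * r x * u = (ι (g0 x).1)⁻¹ * r x * u0 x := by
      rw [← e, ← hg0 x]
    set δ : Γ := γ * (g0 x)⁻¹ with hδ
    have e2 : γ = δ * g0 x := by rw [hδ]; group
    have e3 : (ι δ.1)⁻¹ * r x = r x * (u0 x * u⁻¹)⁻¹ ∨ True := Or.inr trivial
    have hx0 : ι (g0 x).1 * (ι γ.1)⁻¹ * r x = r x * (u0 x * u⁻¹) := by
      calc ι (g0 x).1 * (ι γ.1)⁻¹ * r x = ι (g0 x).1 * ((ι γ.1)⁻¹ * r x * u) * u⁻¹ := by group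
        _ = ι (g0 x).1 * ((ι (g0 x).1)⁻¹ * r x * u0 x) * u⁻¹ := by rw [e1]
        _ = _ := by group
    have hδi : (ι δ.1)⁻¹ = ι (g0 x).1 * (ι γ.1)⁻¹ := by
      rw [hδ]
      simp only [Subgroup.coe_mul, Subgroup.coe_inv, map_mul, map_inv, _root_.mul_inv_rev, inv_inv]
    have hmem : (r x)⁻¹ * ι δ.1 * r x ∈ V := by
      have h4 : (r x)⁻¹ * (ι δ.1)⁻¹ * r x ∈ V := by
        rw [hδi, mul_assoc, hx0]
        have : (r x)⁻¹ * (r x * (u0 x * u⁻¹)) = u0 x * u⁻¹ := by group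
        rw [this]
        exact V.mul_mem (hu0 x) (V.inv_mem hu)
      have h5 := V.inv_mem h4
      have e6 : ((r x)⁻¹ * (ι δ.1)⁻¹ * r x)⁻¹ = (r x)⁻¹ * ι δ.1 * r x := by group
      rwa [e6] at h5
    rw [e2, h.app, h0 δ _ hmem, zero_add, hδi, hx0, hV _ _ (V.mul_mem (hu0 x) (V.inv_mem hu))]
  refine ⟨f, ?_, ?_⟩
  · intro u hu x
    have h1 : r (x * u) = r x := by
      have := hr2 x 1 u hu
      simpa using this
    have h2 := key (x * u) (g0 x) (u0 x * u) (V.mul_mem (hu0 x) hu) (by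
      rw [h1, ← mul_assoc, ← hg0 x])
    rw [h2, h1]
  · intro γ
    ext x
    have h1 : r ((ι γ.1)⁻¹ * x) = r x := by
      have := hr2 x γ 1 V.one_mem
      simpa using this
    have h2 := key ((ι γ.1)⁻¹ * x) (g0 x * γ) (u0 x) (hu0 x) (by
      rw [h1]
      simp only [Subgroup.coe_mul, map_mul, _root_.mul_inv_rev]
      have e7 : (ι γ.1)⁻¹ * (ι (g0 x).1)⁻¹ * r x * u0 x
          = (ι γ.1)⁻¹ * ((ι (g0 x).1)⁻¹ * r x * u0 x) := by group
      rw [e7, ← hg0 x])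
    have h3 : (ι (g0 x).1)⁻¹ * r x = x * (u0 x)⁻¹ := by
      have := hg0 x
      calc (ι (g0 x).1)⁻¹ * r x = (ι (g0 x).1)⁻¹ * r x * u0 x * (u0 x)⁻¹ := by group
        _ = x * (u0 x)⁻¹ := by rw [← this]
    rw [Pi.sub_apply]
    change d γ x = f ((ι γ.1)⁻¹ * x) - f x
    rw [h2, h1, h.app, h3, hV _ _ (V.inv_mem (hu0 x))]
    change _ = d (g0 x) (r x) + d γ x - d (g0 x) (r x)
    abel

/-- conjugation formula -/
theorem IsCo.conj {ι : H →* G} {Γ : Subgroup H} {c : Γ → G → W} (h : IsCo ι Γ c) (V : Subgroup G)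
    (hV : ∀ γ, RI V (c γ)) (β δ : Γ) (z : G)
    (hm : (ι β.1 * z)⁻¹ * ι δ.1 * (ι β.1 * z) ∈ V) :
    c (β⁻¹ * δ * β) z = c δ (ι β.1 * z) := by
  have e1 : β⁻¹ * δ * β = β⁻¹ * (δ * β) := by group
  rw [e1, h.app]
  have e2 : (ι (β⁻¹ : Γ).1)⁻¹ = ι β.1 := by simp
  rw [e2, h.app]
  have e3 : (ι δ.1)⁻¹ * (ι β.1 * z) = (ι β.1 * z) * ((ι β.1 * z)⁻¹ * ι δ.1 * (ι β.1 * z))⁻¹ := by
    group
  rw [e3, hV _ _ (V.inv_mem hm)]
  have h2 := h.app β⁻¹ β z
  rw [inv_mul_cancel, h.one, e2] at h2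
  have h3 : c β⁻¹ z + c β (ι β.1 * z) = 0 := h2.symm
  calc c β⁻¹ z + (c δ (ι β.1 * z) + c β (ι β.1 * z))
      = (c β⁻¹ z + c β (ι β.1 * z)) + c δ (ι β.1 * z) := by abel
    _ = _ := by rw [h3, zero_add]

end cb

end Q4.GLC
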