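import Pool.Agent.Q4.GLC.Stm

/-!
# Stable range one of the finite adeles, the `q`-binomial theorem (project GLC, jobs SRA, QBT)
-/

set_option autoImplicit false

open IsDedekindDomain NumberField Matrix
open Classical

noncomputable section

namespace Q4.GLC

/-- the finite adele ring has stable range one -/
theorem tSra : SSra := by
  intro F _ _ a b x y h
  have hcomp : ∀ w : Pl F, x w * a w + y w * b w = 1 := by
    intro w
    have : (x * a + y * b) w = (1 : Af F) w := by rw [h]
    exact this
  let good : Pl F → Prop := fun w => Valued.v (a w) ≤ 1 ∧ Valued.v (b w) ≤ 1 ∧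
    Valued.v (x w) ≤ 1 ∧ Valued.v (y w) ≤ 1
  have hgood : ∀ᶠ w in Filter.cofinite, good w := by
    filter_upwards [a.2, b.2, x.2, y.2] with w h1 h2 h3 h4
    exact ⟨h1, h2, h3, h4⟩
  let z : Pl F → Prop := fun w => if good w then Valued.v (a w) = 1 else a w ≠ 0
  let tf : (w : Pl F) → w.adicCompletion F := fun w => if z w then 0 else 1
  have htf : ∀ w, tf w ∈ w.adicCompletionIntegers F := by
    intro w
    simp only [tf]
    split_ifs
    · exact zero_mem _
    · exact one_mem _
  let t : Af F := ⟨tf, Filter.Eventually.of_forall htf⟩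
  have ht : ∀ w, t w = if z w then 0 else 1 := fun w => rfl
  refine ⟨t, ?_⟩
  have hval : ∀ w, (a + t * b) w = if z w then a w else a w + b w := by
    intro w
    have : (a + t * b) w = a w + t w * b w := rfl
    rw [this, ht]
    split_ifs
    · rw [zero_mul, add_zero]
    · rw [one_mul]
  have hg1 : ∀ w, good w → Valued.v ((a + t * b) w) = 1 := by
    intro w hw
    rw [hval]
    by_cases hz : z w
    · rw [if_pos hz]
      simp only [z, if_pos hw] at hz
      exact hz
    · rw [if_neg hz]
      simp only [z, if_pos hw] at hz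
      have h1 : Valued.v (a w) < 1 := lt_of_le_of_ne hw.1 hz
      have h2 : Valued.v (x w * a w) < 1 := by
        rw [map_mul]
        exact lt_of_le_of_lt (mul_le_of_le_one_left' hw.2.2.1) h1
      have h3 : Valued.v (y w * b w) = 1 := by
        have h4 : y w * b w = 1 - x w * a w := by rw [← hcomp w]; ring
        rw [h4]
        have h5 : Valued.v (x w * a w) < Valued.v (1 : w.adicCompletion F) := by
          rw [map_one]; exact h2
        rw [Valuation.map_sub_eq_of_lt_left _ h5, map_one]
      have h6 : Valued.v (b w) = 1 := by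
        apply le_antisymm hw.2.1
        rw [map_mul] at h3
        rw [← h3]
        exact mul_le_of_le_one_left' hw.2.2.2
      have h7 : Valued.v (a w) < Valued.v (b w) := by rw [h6]; exact h1
      rw [Valuation.map_add_eq_of_lt_right _ h7, h6]
  rw [FiniteAdeleRing.isUnit_iff]
  constructor
  · intro w
    by_cases hw : good w
    · intro h0
      have h1 := hg1 w hw
      rw [h0, map_zero] at h1
      exact zero_ne_one h1
    · rw [hval]
      by_cases hz : z w
      · rw [if_pos hz]
        simp only [z, if_neg hw] at hz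
        exact hz
      · rw [if_neg hz]
        simp only [z, if_neg hw, not_not] at hz
        rw [hz, zero_add]
        intro hb
        have h1 := hcomp w
        rw [hz, hb, mul_zero, mul_zero, add_zero] at h1
        exact zero_ne_one h1
  · filter_upwards [hgood] with w hw
    exact hg1 w hw

namespace Qbt

/-- Gaussian binomials -/
def g (q : ℕ) : ℕ → ℕ → ℕ
  | 0, 0 => 1
  | 0, _ + 1 => 0
  | _ + 1, 0 => 1
  | n + 1, j + 1 => g q n (j + 1) + q ^ (n - j) * g q n j

theorem g_zero (q n : ℕ) : g q n 0 = 1 := by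
  cases n <;> rfl

theorem g_succ (q n j : ℕ) : g q (n + 1) (j + 1) = g q n (j + 1) + q ^ (n - j) * g q n j := rfl

theorem g_big (q : ℕ) : ∀ n j, n < j → g q n j = 0 := by
  intro n
  induction n with
  | zero =>
    intro j hj
    obtain ⟨k, rfl⟩ : ∃ k, j = k + 1 := ⟨j - 1, by omega⟩
    rfl
  | succ n ih =>
    intro j hj
    obtain ⟨k, rfl⟩ : ∃ k, j = k + 1 := ⟨j - 1, by omega⟩
    rw [g_succ, ih (k + 1) (by omega), ih k (by omega), mul_zero, add_zero]

/-- the products -/
def Q (q : ℤ) (n j : ℕ) : ℤ := ∏ i ∈ Finset.range j, (q ^ n - q ^ i)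

theorem Q_zero (q : ℤ) (n : ℕ) : Q q n 0 = 1 := Finset.prod_range_zero _

theorem Q_succ (q : ℤ) (n j : ℕ) : Q q n (j + 1) = Q q n j * (q ^ n - q ^ j) :=
  Finset.prod_range_succ _ _

theorem Q_succ' (q : ℤ) (n j : ℕ) : Q q (n + 1) (j + 1) = (q ^ (n + 1) - 1) * (q ^ j * Q q n j) := by
  unfold Q
  rw [Finset.prod_range_succ', pow_zero, mul_comm]
  congr 1
  have h : q ^ j = ∏ _i ∈ Finset.range j, q := by rw [Finset.prod_const, Finset.card_range]
  rw [h, ← Finset.prod_mul_distrib]
  apply Finset.prod_congr rfl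
  intro i _
  rw [pow_succ, pow_succ]
  ring

theorem Q_big (q : ℤ) (n j : ℕ) (h : n < j) : Q q n j = 0 :=
  Finset.prod_eq_zero (Finset.mem_range.2 h) (sub_self _)

theorem g_Q (q : ℕ) : ∀ n j, (g q n j : ℤ) * Q q j j = Q q n j := by
  intro n
  induction n with
  | zero =>
    intro j
    rcases Nat.eq_zero_or_pos j with rfl | hj
    · rw [g_zero, Q_zero, Nat.cast_one, one_mul]
    · rw [g_big q 0 j hj, Q_big _ 0 j hj, Nat.cast_zero, zero_mul]
  | succ n ih =>
    intro j
    rcases j with _ | j
    · rw [g_zero, Q_zero, Q_zero, Nat.cast_one, one_mul]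
    · rw [g_succ]
      push_cast
      rw [add_mul, ih (j + 1), Q_succ', Q_succ' (q : ℤ) n j, Q_succ]
      have e1 : (q : ℤ) ^ (n - j) * (g q n j : ℤ) * (((q : ℤ) ^ (j + 1) - 1) *
          ((q : ℤ) ^ j * Q (q : ℤ) j j)) = (q : ℤ) ^ (n - j) * (q : ℤ) ^ j *
          ((q : ℤ) ^ (j + 1) - 1) * ((g q n j : ℤ) * Q (q : ℤ) j j) := by ring
      rw [e1, ih j]
      rcases Nat.lt_or_ge n j with h | h
      · rw [Q_big _ n j h]; ring
      · rw [← pow_add, Nat.sub_add_cancel h]
        ring

theorem tri (j : ℕ) : (j + 1) * j / 2 = j * (j - 1) / 2 + j := by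
  have h1 : (j + 1) * j = j * (j - 1) + 2 * j := by
    rcases j with _ | j
    · rfl
    · rw [Nat.add_sub_cancel]; ring
  rw [h1, Nat.add_mul_div_left _ _ (by norm_num)]

theorem sum_formula {R : Type} [CommRing R] (y : R) (q : ℕ) : ∀ n : ℕ,
    ∑ j ∈ Finset.range (n + 1), Polynomial.C ((-1) ^ j * (q : R) ^ (j * (j - 1) / 2) *
        ((g q n j : R) * y ^ j)) * Polynomial.X ^ (n - j) =
      ∏ i ∈ Finset.range n, (Polynomial.X - Polynomial.C ((q : R) ^ i * y)) := by
  intro n
  induction n with
  | zero =>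
    rw [Finset.sum_range_one, Finset.prod_range_zero, g_zero]
    simp
  | succ n ih =>
    rw [Finset.prod_range_succ, ← ih]
    let a : ℕ → R := fun j => (-1) ^ j * (q : R) ^ (j * (j - 1) / 2) * ((g q n j : R) * y ^ j)
    let a' : ℕ → R := fun j => (-1) ^ j * (q : R) ^ (j * (j - 1) / 2) *
      ((g q (n + 1) j : R) * y ^ j)
    change ∑ j ∈ Finset.range (n + 1 + 1), Polynomial.C (a' j) * Polynomial.X ^ (n + 1 - j) =
      (∑ j ∈ Finset.range (n + 1), Polynomial.C (a j) * Polynomial.X ^ (n - j)) *
        (Polynomial.X - Polynomial.C ((q : R) ^ n * y))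
    have h0 : a' 0 = a 0 := by simp only [a, a', g_zero]
    have h1 : ∀ j, j ≤ n → a' (j + 1) = a (j + 1) - (q : R) ^ n * y * a j := by
      intro j hj
      simp only [a, a']
      rw [g_succ, Nat.add_sub_cancel, tri j]
      have h2 : (q : R) ^ n = (q : R) ^ (n - j) * (q : R) ^ j := by
        rw [← pow_add, Nat.sub_add_cancel hj]
      rw [h2]
      push_cast
      ring
    have hlast : a (n + 1) = 0 := by
      simp only [a]
      rw [g_big q n (n + 1) (Nat.lt_succ_self n)]
      simp
    clear_value a a'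
    have hS1 : (∑ j ∈ Finset.range (n + 1), Polynomial.C (a j) * Polynomial.X ^ (n - j)) *
        Polynomial.X = ∑ j ∈ Finset.range (n + 1 + 1), Polynomial.C (a j) *
          Polynomial.X ^ (n + 1 - j) := by
      rw [Finset.sum_range_succ _ (n + 1), hlast, Polynomial.C_0, zero_mul, add_zero,
        Finset.sum_mul]
      apply Finset.sum_congr rfl
      intro j hj
      have hj' : j ≤ n := Nat.lt_succ_iff.1 (Finset.mem_range.1 hj)
      rw [Nat.succ_sub hj', pow_succ]
      ring
    rw [mul_sub, hS1, Finset.sum_range_succ' _ (n + 1), Finset.sum_range_succ' _ (n + 1), h0,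
      Finset.sum_mul]
    have hS2 : ∑ j ∈ Finset.range (n + 1), Polynomial.C (a' (j + 1)) *
        Polynomial.X ^ (n + 1 - (j + 1)) =
        ∑ j ∈ Finset.range (n + 1), Polynomial.C (a (j + 1)) * Polynomial.X ^ (n + 1 - (j + 1)) -
        ∑ j ∈ Finset.range (n + 1), Polynomial.C (a j) * Polynomial.X ^ (n - j) *
          Polynomial.C ((q : R) ^ n * y) := by
      rw [← Finset.sum_sub_distrib]
      apply Finset.sum_congr rfl
      intro j hj
      have hj' : j ≤ n := Nat.lt_succ_iff.1 (Finset.mem_range.1 hj)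
      rw [h1 j hj', Nat.add_sub_add_right]
      rw [Polynomial.C_sub, Polynomial.C_mul]
      ring
    rw [hS2]
    ring

end Qbt

/-- the `q`-binomial theorem -/
theorem tQbt : SQbt := by
  intro R _ y q n hq d hd
  have hdg : ∀ j ≤ n, d j = Qbt.g q n j := by
    intro j hj
    have hcast : ∀ m, j ≤ m → ((∏ i ∈ Finset.range j, (q ^ m - q ^ i) : ℕ) : ℤ) =
        Qbt.Q (q : ℤ) m j := by
      intro m hm
      unfold Qbt.Q
      rw [Nat.cast_prod]
      apply Finset.prod_congr rfl
      intro i hi
      have hi' : i ≤ m := ((Finset.mem_range.1 hi).le).trans hm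
      rw [Nat.cast_sub (Nat.pow_le_pow_right (by omega) hi')]
      push_cast
      rfl
    have h1 : (d j : ℤ) * Qbt.Q (q : ℤ) j j = Qbt.Q (q : ℤ) n j := by
      rw [← hcast j le_rfl, ← hcast n hj]
      exact_mod_cast hd j hj
    rw [← Qbt.g_Q q n j] at h1
    have hne : Qbt.Q (q : ℤ) j j ≠ 0 := by
      rw [← hcast j le_rfl]
      have : 0 < ∏ i ∈ Finset.range j, (q ^ j - q ^ i) := by
        apply Finset.prod_pos
        intro i hi
        have := Nat.pow_lt_pow_right (by omega : 1 < q) (Finset.mem_range.1 hi)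
        omega
      exact_mod_cast this.ne'
    exact_mod_cast mul_right_cancel₀ hne h1
  rw [← Qbt.sum_formula y q n]
  apply Finset.sum_congr rfl
  intro j hj
  rw [hdg j (Nat.lt_succ_iff.1 (Finset.mem_range.1 hj))]

end Q4.GLC

end
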