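import Pool.Agent.Q4.GLC.Stm

/-!
# Matrices of determinant one over a ring of stable range one (project GLC, job SRE)
-/

set_option autoImplicit false

open Matrix
open Classical

noncomputable section

namespace Q4.GLC.Sre

variable {R : Type} [CommRing R]

/-- products of transvections -/
def P (R : Type) [CommRing R] (n : ℕ) : Submonoid (Matrix (Fin n) (Fin n) R) :=
  Submonoid.closure {x | ∃ (i j : Fin n) (c : R), i ≠ j ∧ x = Matrix.transvection i j c}

theorem tv_mem {n : ℕ} (i j : Fin n) (c : R) (h : i ≠ j) : Matrix.transvection i j c ∈ P R n :=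
  Submonoid.subset_closure ⟨i, j, c, h, rfl⟩

/-- lists -/
theorem to_list {n : ℕ} (M : Matrix (Fin n) (Fin n) R) (hM : M ∈ P R n) :
    ∃ L : List (Matrix.TransvectionStruct (Fin n) R),
      M = (L.map Matrix.TransvectionStruct.toMatrix).prod := by
  induction hM using Submonoid.closure_induction with
  | mem x hx =>
    obtain ⟨i, j, c, h, rfl⟩ := hx
    exact ⟨[⟨i, j, h, c⟩], by simp [Matrix.TransvectionStruct.toMatrix]⟩
  | one => exact ⟨[], rfl⟩
  | mul x y _ _ hx hy =>
    obtain ⟨L, hL⟩ := hx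
    obtain ⟨L', hL'⟩ := hy
    exact ⟨L ++ L', by rw [List.map_append, List.prod_append, ← hL, ← hL']⟩

/-- elements of `P` have inverses in `P` -/
theorem inv_mem {n : ℕ} (M : Matrix (Fin n) (Fin n) R) (hM : M ∈ P R n) :
    ∃ N ∈ P R n, M * N = 1 ∧ N * M = 1 := by
  induction hM using Submonoid.closure_induction with
  | mem x hx =>
    obtain ⟨i, j, c, h, rfl⟩ := hx
    refine ⟨Matrix.transvection i j (-c), tv_mem i j _ h, ?_, ?_⟩
    · rw [Matrix.transvection_mul_transvection_same _ _ h, add_neg_cancel,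
        Matrix.transvection_zero]
    · rw [Matrix.transvection_mul_transvection_same _ _ h, neg_add_cancel,
        Matrix.transvection_zero]
  | one => exact ⟨1, Submonoid.one_mem _, one_mul 1, one_mul 1⟩
  | mul x y _ _ hx hy =>
    obtain ⟨x', hx', h1, h2⟩ := hx
    obtain ⟨y', hy', h3, h4⟩ := hy
    refine ⟨y' * x', Submonoid.mul_mem _ hy' hx', ?_, ?_⟩
    · calc x * y * (y' * x') = x * (y * y') * x' := by noncomm_ring
        _ = 1 := by rw [h3, mul_one, h1]
    · calc y' * x' * (x * y) = y' * (x' * x) * y := by noncomm_ring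
        _ = 1 := by rw [h2, mul_one, h4]

theorem of_mul_left {n : ℕ} (A M : Matrix (Fin n) (Fin n) R) (hA : A ∈ P R n)
    (h : A * M ∈ P R n) : M ∈ P R n := by
  obtain ⟨A', hA', _, h2⟩ := inv_mem A hA
  have : M = A' * (A * M) := by rw [← mul_assoc, h2, one_mul]
  rw [this]
  exact Submonoid.mul_mem _ hA' h

theorem of_mul_right {n : ℕ} (A M : Matrix (Fin n) (Fin n) R) (hA : A ∈ P R n)
    (h : M * A ∈ P R n) : M ∈ P R n := by
  obtain ⟨A', hA', h1, _⟩ := inv_mem A hA
  have : M = (M * A) * A' := by rw [mul_assoc, h1, mul_one]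
  rw [this]
  exact Submonoid.mul_mem _ h hA'

/-- adding multiples of row `0` to the other rows -/
theorem col_mem {n : ℕ} (c : Fin (n + 1) → R) (s : Finset (Fin (n + 1))) (hs : (0 : Fin (n + 1)) ∉ s) :
    1 + ∑ i ∈ s, Matrix.single i 0 (c i) ∈ P R (n + 1) := by
  induction s using Finset.induction_on with
  | empty => rw [Finset.sum_empty, add_zero]; exact Submonoid.one_mem _
  | insert i s hi ih =>
    have h0 : (0 : Fin (n + 1)) ≠ i := fun h => hs (h ▸ Finset.mem_insert_self i s)
    have h1 := ih fun h => hs (Finset.mem_insert_of_mem h)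
    have h2 := tv_mem (R := R) i 0 (c i) (Ne.symm h0)
    have h3 : 1 + ∑ k ∈ insert i s, Matrix.single k 0 (c k) =
        (1 + ∑ k ∈ s, Matrix.single k 0 (c k)) * Matrix.transvection i 0 (c i) := by
      rw [Finset.sum_insert hi, Matrix.transvection, mul_add, mul_one, add_mul, one_mul,
        Finset.sum_mul, Finset.sum_eq_zero (f := fun k => Matrix.single k 0 (c k) *
          Matrix.single i 0 (c i))]
      · abel
      · intro k _
        exact Matrix.single_mul_single_of_ne _ _ _ _ h0 _
    rw [h3]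
    exact Submonoid.mul_mem _ h1 h2

/-- adding multiples of the other rows to row `0` -/
theorem row_mem {n : ℕ} (c : Fin (n + 1) → R) (s : Finset (Fin (n + 1))) (hs : (0 : Fin (n + 1)) ∉ s) :
    1 + ∑ i ∈ s, Matrix.single (0 : Fin (n + 1)) i (c i) ∈ P R (n + 1) := by
  induction s using Finset.induction_on with
  | empty => rw [Finset.sum_empty, add_zero]; exact Submonoid.one_mem _
  | insert i s hi ih =>
    have h0 : (0 : Fin (n + 1)) ≠ i := fun h => hs (h ▸ Finset.mem_insert_self i s)
    have h1 := ih fun h => hs (Finset.mem_insert_of_mem h)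
    have h2 := tv_mem (R := R) 0 i (c i) h0
    have h3 : 1 + ∑ k ∈ insert i s, Matrix.single (0 : Fin (n + 1)) k (c k) =
        (1 + ∑ k ∈ s, Matrix.single (0 : Fin (n + 1)) k (c k)) *
          Matrix.transvection 0 i (c i) := by
      rw [Finset.sum_insert hi, Matrix.transvection, mul_add, mul_one, add_mul, one_mul,
        Finset.sum_mul, Finset.sum_eq_zero (f := fun k => Matrix.single (0 : Fin (n + 1)) k (c k) *
          Matrix.single (0 : Fin (n + 1)) i (c i))]
      · abel
      · intro k hk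
        have hk0 : k ≠ 0 := fun h => hs (h ▸ Finset.mem_insert_of_mem hk)
        exact Matrix.single_mul_single_of_ne _ _ _ _ hk0 _
    rw [h3]
    exact Submonoid.mul_mem _ h1 h2

/-- the column matrix -/
def Ec {n : ℕ} (c : Fin n → R) : Matrix (Fin (n + 1)) (Fin (n + 1)) R :=
  Matrix.of fun i j => Fin.cases (if j = 0 then 1 else 0)
    (fun i' => if j = 0 then c i' else if j = i'.succ then 1 else 0) i

theorem Ec_mem {n : ℕ} (c : Fin n → R) : Ec c ∈ P R (n + 1) := by
  have h := col_mem (Fin.cons (α := fun _ => R) 0 c)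
    (Finset.univ.erase 0) (Finset.notMem_erase _ _)
  convert h using 1
  ext i j
  rw [Matrix.add_apply, Matrix.sum_apply]
  refine Fin.cases ?_ (fun i' => ?_) i
  · rw [Finset.sum_eq_zero]
    · simp [Ec, Matrix.one_apply, eq_comm]
    · intro k hk
      rw [Matrix.single_apply_of_row_ne (Finset.ne_of_mem_erase hk)]
  · rw [Finset.sum_eq_single i'.succ]
    · by_cases hj : j = 0
      · subst hj
        simp [Ec, Matrix.one_apply, Fin.succ_ne_zero]
      · rw [Matrix.single_apply_of_col_ne _ _ (Ne.symm hj)]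
        simp [Ec, Matrix.one_apply, hj, eq_comm]
    · intro k _ hk
      rw [Matrix.single_apply_of_row_ne hk]
    · intro hk
      exact absurd (Finset.mem_erase.2 ⟨Fin.succ_ne_zero i', Finset.mem_univ _⟩) hk

theorem Ec_mul_zero {n : ℕ} (c : Fin n → R) (M : Matrix (Fin (n + 1)) (Fin (n + 1)) R)
    (j : Fin (n + 1)) : (Ec c * M) 0 j = M 0 j := by
  rw [Matrix.mul_apply, Fin.sum_univ_succ]
  simp [Ec, Fin.succ_ne_zero]

theorem Ec_mul_succ {n : ℕ} (c : Fin n → R) (M : Matrix (Fin (n + 1)) (Fin (n + 1)) R)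
    (i : Fin n) (j : Fin (n + 1)) : (Ec c * M) i.succ j = M i.succ j + c i * M 0 j := by
  rw [Matrix.mul_apply, Fin.sum_univ_succ]
  simp [Ec, Fin.succ_ne_zero, Fin.succ_inj, add_comm]

/-- the row matrix -/
def Er {n : ℕ} (c : Fin n → R) : Matrix (Fin (n + 1)) (Fin (n + 1)) R := (Ec c)ᵀ

theorem Er_mem {n : ℕ} (c : Fin n → R) : Er c ∈ P R (n + 1) := by
  have h := row_mem (Fin.cons (α := fun _ => R) 0 c)
    (Finset.univ.erase 0) (Finset.notMem_erase _ _)
  convert h using 1
  ext j i
  rw [Matrix.add_apply, Matrix.sum_apply]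
  change Ec c i j = _
  refine Fin.cases ?_ (fun i' => ?_) i
  · rw [Finset.sum_eq_zero]
    · simp [Ec, Matrix.one_apply, eq_comm]
    · intro k hk
      rw [Matrix.single_apply_of_col_ne _ _ (Finset.ne_of_mem_erase hk)]
  · rw [Finset.sum_eq_single i'.succ]
    · by_cases hj : j = 0
      · subst hj
        simp [Ec, Matrix.one_apply, Fin.succ_ne_zero, eq_comm]
      · rw [Matrix.single_apply_of_row_ne (Ne.symm hj)]
        simp [Ec, Matrix.one_apply, hj, eq_comm]
    · intro k _ hk
      rw [Matrix.single_apply_of_col_ne _ _ hk]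
    · intro hk
      exact absurd (Finset.mem_erase.2 ⟨Fin.succ_ne_zero i', Finset.mem_univ _⟩) hk

theorem Er_mul_zero {n : ℕ} (c : Fin n → R) (M : Matrix (Fin (n + 1)) (Fin (n + 1)) R)
    (j : Fin (n + 1)) : (Er c * M) 0 j = M 0 j + ∑ i, c i * M i.succ j := by
  rw [Matrix.mul_apply, Fin.sum_univ_succ]
  simp [Er, Ec, Fin.succ_ne_zero]

theorem Er_mul_succ {n : ℕ} (c : Fin n → R) (M : Matrix (Fin (n + 1)) (Fin (n + 1)) R)
    (i : Fin n) (j : Fin (n + 1)) : (Er c * M) i.succ j = M i.succ j := by
  rw [Matrix.mul_apply, Fin.sum_univ_succ]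
  simp [Er, Ec, Fin.succ_ne_zero, Fin.succ_inj]

/-- block embedding -/
def emb {n : ℕ} (M : Matrix (Fin n) (Fin n) R) : Matrix (Fin (n + 1)) (Fin (n + 1)) R :=
  Matrix.of fun i j => Fin.cases (if j = 0 then 1 else 0)
    (fun i' => Fin.cases 0 (fun j' => M i' j') j) i

theorem emb_zz {n : ℕ} (M : Matrix (Fin n) (Fin n) R) : emb M 0 0 = 1 := by simp [emb]
theorem emb_zs {n : ℕ} (M : Matrix (Fin n) (Fin n) R) (j : Fin n) : emb M 0 j.succ = 0 := by
  simp [emb, Fin.succ_ne_zero]
theorem emb_sz {n : ℕ} (M : Matrix (Fin n) (Fin n) R) (i : Fin n) : emb M i.succ 0 = 0 := by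
  simp [emb]
theorem emb_ss {n : ℕ} (M : Matrix (Fin n) (Fin n) R) (i j : Fin n) :
    emb M i.succ j.succ = M i j := by simp [emb]

theorem emb_mul {n : ℕ} (M N : Matrix (Fin n) (Fin n) R) : emb (M * N) = emb M * emb N := by
  ext i j
  rw [Matrix.mul_apply, Fin.sum_univ_succ]
  refine Fin.cases ?_ (fun i' => ?_) i
  · refine Fin.cases ?_ (fun j' => ?_) j
    · simp [emb_zz, emb_zs]
    · simp [emb_zz, emb_zs]
  · refine Fin.cases ?_ (fun j' => ?_) j
    · simp [emb_sz]
    · simp [emb_sz, emb_ss, Matrix.mul_apply]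

theorem emb_one {n : ℕ} : emb (1 : Matrix (Fin n) (Fin n) R) = 1 := by
  ext i j
  refine Fin.cases ?_ (fun i' => ?_) i
  · refine Fin.cases ?_ (fun j' => ?_) j
    · simp [emb_zz]
    · rw [emb_zs, Matrix.one_apply_ne (Ne.symm (Fin.succ_ne_zero j'))]
  · refine Fin.cases ?_ (fun j' => ?_) j
    · rw [emb_sz, Matrix.one_apply_ne (Fin.succ_ne_zero i')]
    · simp [emb_ss, Matrix.one_apply, Fin.succ_inj]

theorem emb_tv {n : ℕ} (i j : Fin n) (c : R) :
    emb (Matrix.transvection i j c) = Matrix.transvection i.succ j.succ c := by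
  ext a b
  refine Fin.cases ?_ (fun a' => ?_) a
  · refine Fin.cases ?_ (fun b' => ?_) b
    · simp [emb_zz, Matrix.transvection, Matrix.single_apply, Fin.succ_ne_zero]
    · rw [emb_zs]
      simp [Matrix.transvection, Matrix.single_apply, Fin.succ_ne_zero,
        Matrix.one_apply_ne (Ne.symm (Fin.succ_ne_zero b'))]
  · refine Fin.cases ?_ (fun b' => ?_) b
    · rw [emb_sz]
      simp [Matrix.transvection, Matrix.single_apply, Fin.succ_ne_zero,
        Matrix.one_apply_ne (Fin.succ_ne_zero a')]
    · rw [emb_ss]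
      simp [Matrix.transvection, Matrix.single_apply, Fin.succ_inj, Matrix.one_apply]

theorem emb_mem {n : ℕ} (M : Matrix (Fin n) (Fin n) R) (hM : M ∈ P R n) :
    emb M ∈ P R (n + 1) := by
  induction hM using Submonoid.closure_induction with
  | mem x hx =>
    obtain ⟨i, j, c, h, rfl⟩ := hx
    rw [emb_tv]
    exact tv_mem _ _ _ fun h' => h (Fin.succ_injective _ h')
  | one => rw [emb_one]; exact Submonoid.one_mem _
  | mul x y _ _ hx hy => rw [emb_mul]; exact Submonoid.mul_mem _ hx hy

theorem det_emb {n : ℕ} (M : Matrix (Fin n) (Fin n) R) : (emb M).det = M.det := by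
  rw [Matrix.det_succ_row_zero, Fin.sum_univ_succ]
  simp only [emb_zz, emb_zs, mul_zero, zero_mul, Finset.sum_const_zero, add_zero]
  simp only [Fin.val_zero, pow_zero, one_mul]
  congr 1

theorem det_P {n : ℕ} (M : Matrix (Fin n) (Fin n) R) (hM : M ∈ P R n) : M.det = 1 := by
  induction hM using Submonoid.closure_induction with
  | mem x hx =>
    obtain ⟨i, j, c, h, rfl⟩ := hx
    exact Matrix.det_transvection_of_ne i j h c
  | one => exact Matrix.det_one
  | mul x y _ _ hx hy => rw [Matrix.det_mul, hx, hy, one_mul]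

/-- a matrix with entry one in the corner -/
theorem corner {n : ℕ} (ih : ∀ N : Matrix (Fin n) (Fin n) R, N.det = 1 → N ∈ P R n)
    (M : Matrix (Fin (n + 1)) (Fin (n + 1)) R) (hM : M.det = 1) (h0 : M 0 0 = 1) :
    M ∈ P R (n + 1) := by
  -- clear the column
  apply of_mul_left (Ec fun i => -M i.succ 0) M (Ec_mem _)
  set M1 := Ec (fun i => -M i.succ 0) * M with hM1
  have a0 : ∀ j, M1 0 j = M 0 j := fun j => Ec_mul_zero _ _ _
  have a1 : ∀ i : Fin n, M1 i.succ 0 = 0 := fun i => by
    rw [hM1, Ec_mul_succ, h0]; ring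
  have d1 : M1.det = 1 := by
    rw [hM1, Matrix.det_mul, det_P _ (Ec_mem _), one_mul, hM]
  clear_value M1
  -- clear the row
  apply of_mul_right (Er fun j => -M1 0 j.succ) M1 (Er_mem _)
  have key : M1 * (Er fun j => -M1 0 j.succ) = emb (M1.submatrix Fin.succ Fin.succ) := by
    have e : M1 * (Er fun j => -M1 0 j.succ) = ((Ec fun j => -M1 0 j.succ) * M1ᵀ)ᵀ := by
      rw [Matrix.transpose_mul, Matrix.transpose_transpose]
      rfl
    rw [e]
    ext i j
    rw [Matrix.transpose_apply]
    refine Fin.cases ?_ (fun j' => ?_) j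
    · rw [Ec_mul_zero, Matrix.transpose_apply]
      refine Fin.cases ?_ (fun i' => ?_) i
      · rw [emb_zz, a0, h0]
      · rw [emb_sz, a1]
    · rw [Ec_mul_succ, Matrix.transpose_apply, Matrix.transpose_apply]
      refine Fin.cases ?_ (fun i' => ?_) i
      · rw [emb_zs, a0, a0, h0]; ring
      · rw [emb_ss, a1, mul_zero, add_zero]
        rfl
  rw [key]
  apply emb_mem
  apply ih
  rw [← det_emb, ← key, Matrix.det_mul, det_P _ (Er_mem _), mul_one, d1]

theorem main (hR : SR1 R) : ∀ (n : ℕ) (M : Matrix (Fin n) (Fin n) R), M.det = 1 → M ∈ P R n := by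
  intro n
  induction n with
  | zero =>
    intro M _
    have : M = 1 := by ext i; exact i.elim0
    rw [this]; exact Submonoid.one_mem _
  | succ n ih =>
    intro M hM
    rcases Nat.eq_zero_or_pos n with rfl | hn
    · apply corner ih M hM
      rwa [Matrix.det_fin_one] at hM
    · -- the first column is unimodular
      have hadj : ∑ i, (M.adjugate 0 i) * M i 0 = 1 := by
        have h1 : (M.adjugate * M) 0 0 = 1 := by
          rw [Matrix.adjugate_mul, hM, one_smul, Matrix.one_apply_eq]
        rw [Matrix.mul_apply] at h1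
        exact h1
      rw [Fin.sum_univ_succ] at hadj
      obtain ⟨t, ht⟩ := hR (M 0 0) (∑ i : Fin n, M.adjugate 0 i.succ * M i.succ 0)
        (M.adjugate 0 0) 1 (by rw [one_mul]; exact hadj)
      obtain ⟨u, hu⟩ := ht
      -- first step
      apply of_mul_left (Er fun i => t * M.adjugate 0 i.succ) M (Er_mem _)
      set M1 := Er (fun i => t * M.adjugate 0 i.succ) * M with hM1
      have a0 : M1 0 0 = u := by
        rw [hM1, Er_mul_zero, hu, Finset.mul_sum]
        congr 1
        apply Finset.sum_congr rfl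
        intro i _
        ring
      have d1 : M1.det = 1 := by
        rw [hM1, Matrix.det_mul, det_P _ (Er_mem _), one_mul, hM]
      clear_value M1
      -- second step
      let i1 : Fin n := ⟨0, hn⟩
      let c : Fin n → R := fun i => if i = i1 then (1 - M1 i1.succ 0) * (u⁻¹ : Rˣ) else 0
      apply of_mul_left (Ec c) M1 (Ec_mem _)
      set M2 := Ec c * M1 with hM2
      have b0 : M2 0 0 = u := by rw [hM2, Ec_mul_zero, a0]
      have b1 : M2 i1.succ 0 = 1 := by
        rw [hM2, Ec_mul_succ, a0]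
        simp only [c, if_true]
        rw [mul_assoc, Units.inv_mul]
        ring
      have d2 : M2.det = 1 := by
        rw [hM2, Matrix.det_mul, det_P _ (Ec_mem _), one_mul, d1]
      clear_value M2
      -- third step
      let e : Fin n → R := fun i => if i = i1 then 1 - (u : R) else 0
      apply of_mul_left (Er e) M2 (Er_mem _)
      apply corner ih
      · rw [Matrix.det_mul, det_P _ (Er_mem _), one_mul, d2]
      · rw [Er_mul_zero, b0, Finset.sum_eq_single i1]
        · simp only [e, if_true]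
          rw [b1]; ring
        · intro k _ hk
          simp only [e, if_neg hk, zero_mul]
        · intro h
          exact absurd (Finset.mem_univ _) h

end Q4.GLC.Sre

namespace Q4.GLC

/-- matrices of determinant one over a ring with stable range one -/
theorem tSre : SSre := fun _ _ hR n M hM => Sre.to_list M (Sre.main hR n M hM)

end Q4.GLC

end
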