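import Pool.Agent.Q4.GLC.Defs

/-!
# Statements of the lemma jobs of the project GLC (helper4, MP_34be05_nt)
-/

open IsDedekindDomain NumberField Matrix

namespace Q4.GLC

/-- stable range one -/
def SR1 (R : Type) [CommRing R] : Prop :=
  ∀ a b x y : R, x * a + y * b = 1 → ∃ t : R, IsUnit (a + t * b)

/-- JOB 1: over a ring with stable range one, matrices of determinant one are products of
transvections. -/
def SSre : Prop :=
  ∀ (R : Type) [CommRing R], SR1 R → ∀ (n : ℕ) (M : Matrix (Fin n) (Fin n) R), M.det = 1 →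
    ∃ L : List (Matrix.TransvectionStruct (Fin n) R),
      M = (L.map Matrix.TransvectionStruct.toMatrix).prod

/-- JOB 2: the finite adele ring has stable range one. -/
def SSra : Prop := ∀ (F : Type) [Field F] [NumberField F], SR1 (Af F)

/-- JOB 3: denominators: conjugates of deep congruence subgroups are in a given one. -/
def SDen : Prop :=
  ∀ (F : Type) [Field F] [NumberField F] (n : ℕ) (g : Gf F n) (N : ℕ), 1 ≤ N →
    ∃ M : ℕ, 1 ≤ M ∧ N ∣ M ∧ ∀ u ∈ UN F n M, g * u * g⁻¹ ∈ UN F n N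

/-- JOB 4: strong approximation for the additive group. -/
def SApp : Prop :=
  ∀ (F : Type) [Field F] [NumberField F] (a : Af F) (N : ℕ), 1 ≤ N →
    ∃ α : F, DvdN N (a - algebraMap F (Af F) α)

/-- JOB 5: rational elements which are integral adeles are integers. -/
def SInt : Prop :=
  ∀ (F : Type) [Field F] [NumberField F] (α : F) (N : ℕ), 1 ≤ N →
    DvdN N (algebraMap F (Af F) α) → ∃ b : 𝓞 F, α = (N : F) * algebraMap (𝓞 F) F b

/-- the subgroup generated by the conjugates of the elementary matrices with entries in `(a)` -/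
def EN (R : Type) [CommRing R] (n : ℕ) (a : R) : Subgroup (GL (Fin n) R) :=
  Subgroup.closure {x | ∃ (h : GL (Fin n) R) (i j : Fin n) (b : R), i ≠ j ∧
    x.1 = h.1 * Matrix.transvection i j (a * b) * h⁻¹.1}

/-- JOB 6: reduction of the size of congruence matrices over a Dedekind domain. -/
def SDec : Prop :=
  ∀ (R : Type) [CommRing R] [IsDomain R] [IsDedekindDomain R] (m : ℕ) (a : R), a ≠ 0 →
    ¬ IsUnit a → ∀ g : GL (Fin (m + 3)) R,
      (∀ i j, a ∣ g.1 i j - (1 : Matrix (Fin (m + 3)) (Fin (m + 3)) R) i j) →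
      ∃ x ∈ EN R (m + 3) a, ∀ i,
        (x * g).1 i 0 = (1 : Matrix (Fin (m + 3)) (Fin (m + 3)) R) i 0 ∧
        (x * g).1 0 i = (1 : Matrix (Fin (m + 3)) (Fin (m + 3)) R) 0 i

/-- JOB 7: finiteness of the class number, for ideles. -/
def SCls : Prop :=
  ∀ (F : Type) [Field F] [NumberField F], ∃ X : Finset (Af F)ˣ, ∀ a : (Af F)ˣ,
    ∃ (α : Fˣ) (x : (Af F)ˣ) (u : (Af F)ˣ), x ∈ X ∧ DvdN 1 u.1 ∧ DvdN 1 u⁻¹.1 ∧
      a = Units.map (algebraMap F (Af F)).toMonoidHom α * x * u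

/-- JOB 8: finiteness of the ray class groups, for ideles. -/
def SIdf : Prop :=
  ∀ (F : Type) [Field F] [NumberField F] (H : Subgroup Fˣ), H.FiniteIndex → ∀ M : ℕ, 1 ≤ M →
    ∃ X : Finset (Af F)ˣ, ∀ a : (Af F)ˣ,
    ∃ (α : Fˣ) (x : (Af F)ˣ) (u : (Af F)ˣ), α ∈ H ∧ x ∈ X ∧ DvdN M (u.1 - 1) ∧
      DvdN M (u⁻¹.1 - 1) ∧ a = Units.map (algebraMap F (Af F)).toMonoidHom α * x * u

/-- JOB 9: additive functions on `GL_n(O_v)` vanish on the matrices of determinant one. -/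
def SPer : Prop :=
  ∀ (F : Type) [Field F] [NumberField F] (m : ℕ) (v : Pl F) (A : Type) [AddCommGroup A]
    (φ : Gf F (m + 3) → A),
    (∀ g ∈ Kv (F := F) (m + 3) v, ∀ h ∈ Kv (F := F) (m + 3) v, g.1.det = 1 → h.1.det = 1 →
      φ (g * h) = φ g + φ h) →
    ∀ g ∈ Kv (F := F) (m + 3) v, g.1.det = 1 → φ g = 0

/-- the maximal parabolic subgroup over a field: rows `i < j` have entries `0` in the columns
`l ≥ j` -/
def Pj (k0 : Type) [Field k0] (n j : ℕ) : Set (GL (Fin n) k0) :=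
  {g | ∀ i l : Fin n, i.1 < j → j ≤ l.1 → g.1 i l = 0}

/-- JOB 10: the index of the maximal parabolic subgroup over a finite field. -/
def SPar : Prop :=
  ∀ (k0 : Type) [Field k0] [Finite k0] (n j : ℕ), j ≤ n →
    ∃ H : Subgroup (GL (Fin n) k0), (H : Set (GL (Fin n) k0)) = Pj k0 n j ∧
      H.index * ∏ i ∈ Finset.range j, (Nat.card k0 ^ j - Nat.card k0 ^ i) =
        ∏ i ∈ Finset.range j, (Nat.card k0 ^ n - Nat.card k0 ^ i)

/-- JOB 11: the number of cosets in the double coset of `tm n ϖ j`. -/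
def SCnt : Prop :=
  ∀ (F : Type) [Field F] [NumberField F] (n : ℕ) (v : Pl F) (ϖ : (Af F)ˣ), IsUnif v ϖ →
    ∀ j ≤ n, (MulAction.orbit (Kv (F := F) n v)
        ((tm n ϖ j : Gf F n) : Gf F n ⧸ Kv (F := F) n v)).Finite ∧
      Nat.card (MulAction.orbit (Kv (F := F) n v)
        ((tm n ϖ j : Gf F n) : Gf F n ⧸ Kv (F := F) n v)) *
          ∏ i ∈ Finset.range j, (qv v ^ j - qv v ^ i) =
        ∏ i ∈ Finset.range j, (qv v ^ n - qv v ^ i)

/-- JOB 12: the `q`-binomial theorem. -/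
def SQbt : Prop :=
  ∀ (R : Type) [CommRing R] (y : R) (q n : ℕ), 2 ≤ q → ∀ d : ℕ → ℕ,
    (∀ j ≤ n, d j * ∏ i ∈ Finset.range j, (q ^ j - q ^ i) =
      ∏ i ∈ Finset.range j, (q ^ n - q ^ i)) →
    ∑ j ∈ Finset.range (n + 1), Polynomial.C ((-1) ^ j * (q : R) ^ (j * (j - 1) / 2) *
        ((d j : R) * y ^ j)) * Polynomial.X ^ (n - j) =
      ∏ i ∈ Finset.range n, (Polynomial.X - Polynomial.C ((q : R) ^ i * y))

/-- JOB 13: density (strong approximation for `SL_n`). -/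
def SDns : Prop :=
  ∀ (F : Type) [Field F] [NumberField F] (n : ℕ) (s : Gf F n), s.1.det = 1 → ∀ M : ℕ, 1 ≤ M →
    ∃ γ : GQ F n, γ.1.det = 1 ∧ (dg F n γ)⁻¹ * s ∈ UN F n M

/-- JOB 14: subgroups of finite index of `GL_n(F)` contain `SL_n(F)`. -/
def SSlf : Prop :=
  ∀ (F : Type) [Field F] [NumberField F] (n : ℕ) (Γ : Subgroup (GQ F n)), Γ.FiniteIndex →
    ∀ γ : GQ F n, γ.1.det = 1 → γ ∈ Γ

/-- JOB 15: additive functions on the congruence subgroups of `Γ` vanish on `EN(M²)` and its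
conjugates. -/
def SVan : Prop :=
  ∀ (F : Type) [Field F] [NumberField F] (m : ℕ) (Γ : Subgroup (GQ F (m + 3))),
    (∀ γ : GQ F (m + 3), γ.1.det = 1 → γ ∈ Γ) →
    ∀ (A : Type) [AddCommGroup A] (N : ℕ), 1 ≤ N → ∀ (φ : GQ F (m + 3) → A),
    (∀ δ ∈ Γ, ∀ δ' ∈ Γ, dg F (m + 3) δ ∈ UN F (m + 3) N → dg F (m + 3) δ' ∈ UN F (m + 3) N →
      φ (δ * δ') = φ δ + φ δ') →
    ∀ γ : GQ F (m + 3), ∃ M : ℕ, 1 ≤ M ∧ ∀ M' : ℕ, 1 ≤ M' → M ∣ M' →
      ∀ x ∈ EN (𝓞 F) (m + 3) ((M' : 𝓞 F) ^ 2), ∀ y : GQ F (m + 3),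
        y = Matrix.GeneralLinearGroup.map (algebraMap (𝓞 F) F) x →
        dg F (m + 3) (γ⁻¹ * y * γ) ∈ UN F (m + 3) N ∧ φ (γ⁻¹ * y * γ) = 0

/-- JOB 16: additive functions on the congruence subgroups of `Γ` are, on deep congruence
subgroups, invariant under conjugation by rational elements. -/
def SCen : Prop :=
  ∀ (F : Type) [Field F] [NumberField F] (m : ℕ) (Γ : Subgroup (GQ F (m + 3))),
    (∀ γ : GQ F (m + 3), γ.1.det = 1 → γ ∈ Γ) →
    ∀ (A : Type) [AddCommGroup A] (N : ℕ), 1 ≤ N → ∀ (φ : GQ F (m + 3) → A),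
    (∀ δ ∈ Γ, ∀ δ' ∈ Γ, dg F (m + 3) δ ∈ UN F (m + 3) N → dg F (m + 3) δ' ∈ UN F (m + 3) N →
      φ (δ * δ') = φ δ + φ δ') →
    ∀ γ : GQ F (m + 3), ∃ M : ℕ, 1 ≤ M ∧ ∀ δ ∈ Γ, dg F (m + 3) δ ∈ UN F (m + 3) M →
      φ (γ⁻¹ * δ * γ) = φ δ

/-- JOB 17: finitely many double cosets. -/
def SFin : Prop :=
  ∀ (F : Type) [Field F] [NumberField F] (n : ℕ), 1 ≤ n → ∀ (Γ : Subgroup (GQ F n)),
    Γ.FiniteIndex → ∀ M : ℕ, 1 ≤ M → ∃ X : Finset (Gf F n), ∀ g : Gf F n,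
      ∃ γ ∈ Γ, ∃ x ∈ X, ∃ u ∈ UN F n M, g = dg F n γ * x * u

/-- JOB 18: a group of finite order modulo a normal subgroup gives eigenvectors. -/
def SEig : Prop :=
  ∀ (G k Q : Type) [Group G] [Field k] [IsAlgClosed k] [AddCommGroup Q] [Module k Q]
    (R : Representation k G Q) (q : Q), q ≠ 0 → ∀ C : Subgroup G, commutator G ≤ C →
    C.FiniteIndex → (∀ c ∈ C, R c q = q) →
    ∃ χ : G →* kˣ, (∀ c ∈ C, χ c = 1) ∧
      ∀ (t : G) (μ d : k), μ • q = d • R t q → μ = d * (χ t : k)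

/-- JOB 19: the block decomposition at a place. -/
def SLoc : Prop :=
  ∀ (F : Type) [Field F] [NumberField F] (n : ℕ) (v : Pl F) (g : Gf F n),
    (∀ i j, Valued.v ((g.1 i j) v) ≤ 1 ∧ Valued.v ((g⁻¹.1 i j) v) ≤ 1) →
    ∃ g' : Gf F n, ∃ l ∈ Kv (F := F) n v, g = g' * l ∧
      (∀ h ∈ Kv (F := F) n v, g' * h = h * g') ∧
      ∀ (ϖ : (Af F)ˣ), IsUnif v ϖ → ∀ j, g' * tm n ϖ j = tm n ϖ j * g'

/-- JOB 20: the cosets in the double coset have representatives `l t` with `l` of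
determinant one. -/
def SRep : Prop :=
  ∀ (F : Type) [Field F] [NumberField F] (n : ℕ) (v : Pl F) (ϖ : (Af F)ˣ), IsUnif v ϖ →
    ∀ (j : ℕ), ∀ l ∈ Kv (F := F) n v, ∃ l' ∈ Kv (F := F) n v, l'.1.det = 1 ∧
      ((l' * tm n ϖ j : Gf F n) : Gf F n ⧸ Kv (F := F) n v) =
        ((l * tm n ϖ j : Gf F n) : Gf F n ⧸ Kv (F := F) n v)

end Q4.GLC
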