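import Pool.Agent.Q4.GLC.Defs

/-!
# Two statements on Galois representations (helper4, project GLC, second part)
-/

open IsDedekindDomain NumberField Matrix Polynomial

namespace Q4.GLC

/-- `g` acts on `𝓞 L / P` as the power `q` (for `q` the norm of the place below `P` this says that
`g` is a Frobenius element at `P`) -/
def IsFrobAt {F L : Type} [Field F] [Field L] [Algebra F L] (g : L ≃ₐ[F] L)
    (P : Ideal (𝓞 L)) (q : ℕ) : Prop :=
  ∀ x y : 𝓞 L, (y : L) = g x → y - x ^ q ∈ P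

/-- JOB FRB: the elements of a Galois group which fix the roots of unity of order `ℓ` are Frobenius
elements at places of norm `1` modulo `ℓ`. -/
def SFrb : Prop :=
  ∀ (F : Type) [Field F] [NumberField F] (L : Type) [Field L] [NumberField L] [Algebra F L]
    [IsGalois F L] (ℓ : ℕ), ℓ.Prime → ∀ S : Set (Pl F), S.Finite →
    ∃ N : Subgroup (L ≃ₐ[F] L), ∃ _ : N.Normal, IsCyclic ((L ≃ₐ[F] L) ⧸ N) ∧
      ∀ g ∈ N, ∃ v ∉ S, ∃ P : Ideal (𝓞 L), P.IsPrime ∧
        P.comap (algebraMap (𝓞 F) (𝓞 L)) = v.asIdeal ∧ IsFrobAt g P (qv v) ∧ qv v % ℓ = 1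

/-- JOB RED: a representation of a finite group in characteristic `ℓ`, in which the elements of a
normal subgroup with cyclic quotient have only one eigenvalue, is reducible. -/
def SRed : Prop :=
  ∀ (k : Type) [Field k] [IsAlgClosed k] (ℓ : ℕ) [Fact ℓ.Prime] [CharP k ℓ] (n : ℕ), 2 ≤ n →
    ∀ (Q : Type) [Group Q] [Finite Q] (N : Subgroup Q) [N.Normal], IsCyclic (Q ⧸ N) →
    ∀ ρ : Q →* GL (Fin n) k, (∀ g ∈ N, ∃ a : k, (ρ g).1.charpoly = (X - C a) ^ n) →
    ∃ V : Submodule k (Fin n → k), V ≠ ⊥ ∧ V ≠ ⊤ ∧ ∀ g, ∀ w ∈ V, (ρ g).1.mulVec w ∈ V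

end Q4.GLC
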