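import Pool.Agent.Q4.GLC.Main

/-!
# Uniformizers (helper4, project GLC)
-/

open IsDedekindDomain NumberField Matrix

namespace Q4.GLC

theorem ex_unif {F : Type} [Field F] [NumberField F] (v : Pl F) : ∃ ϖ : (Af F)ˣ, IsUnif v ϖ := by
  classical
  obtain ⟨π, hπ⟩ := v.valuation_exists_uniformizer F
  have hπ0 : π ≠ 0 := by
    rintro rfl
    rw [map_zero] at hπ
    exact absurd hπ.symm WithZero.coe_ne_zero
  let a : Af F := ⟨fun w => if w = v then (algebraMap F (Af F) π) w else 1, by
    refine (Set.finite_singleton v).subset fun w hw => ?_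
    by_contra h
    refine hw ?_
    change (if w = v then (algebraMap F (Af F) π) w else 1) ∈ w.adicCompletionIntegers F
    rw [if_neg (fun h' : w = v => h h')]
    exact one_mem _⟩
  have h1 : a v = (algebraMap F (Af F) π) v := if_pos rfl
  have h2 : ∀ w, w ≠ v → a w = 1 := fun w hw => if_neg hw
  have hv : Valued.v (a v) = WithZero.exp (-1 : ℤ) := by
    rw [h1]
    exact (HeightOneSpectrum.valuedAdicCompletion_eq_valuation' v π).trans hπ
  have hu : IsUnit a := by
    rw [FiniteAdeleRing.isUnit_iff]
    refine ⟨fun w => ?_, ?_⟩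
    · by_cases hw : w = v
      · subst hw
        intro h0
        rw [h0, map_zero] at hv
        exact WithZero.coe_ne_zero hv.symm
      · rw [h2 w hw]; exact one_ne_zero
    · refine (Set.finite_singleton v).subset fun w hw => ?_
      by_contra h
      refine hw ?_
      change Valued.v (a w) = 1
      rw [h2 w (fun h' => h h'), map_one]
  obtain ⟨u, hu⟩ := hu
  exact ⟨u, by rw [hu]; exact hv, fun w hw => by rw [hu]; exact h2 w hw⟩

end Q4.GLC
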