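import Pool.Agent.Q211.GLC.Base

/-!
# Project GLC, job VAN
-/

open IsDedekindDomain NumberField Matrix

namespace Q211.GLC

open Q4.GLC

variable {F : Type} [Field F] [NumberField F]

/-- rational matrices of determinant one of level `N` -/
noncomputable def Sg (F : Type) [Field F] [NumberField F] (n N : ℕ) : Subgroup (GQ F n) where
  carrier := {z | z.1.det = 1 ∧ dg F n z ∈ UN F n N}
  one_mem' := ⟨by rw [Units.val_one, det_one], by rw [map_one]; exact Subgroup.one_mem _⟩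
  mul_mem' := by
    rintro a b ⟨h1, h2⟩ ⟨h3, h4⟩
    refine ⟨by rw [Units.val_mul, det_mul, h1, h3, one_mul], ?_⟩
    rw [map_mul]
    exact Subgroup.mul_mem _ h2 h4
  inv_mem' := by
    rintro a ⟨h1, h2⟩
    refine ⟨?_, ?_⟩
    · have h3 : a.1.det * a⁻¹.1.det = 1 := by
        rw [← det_mul, ← Units.val_mul, mul_inv_cancel, Units.val_one, det_one]
      rwa [h1, one_mul] at h3
    · rw [map_inv]
      exact Subgroup.inv_mem _ h2

theorem mem_Sg {n N : ℕ} {z : GQ F n} : z ∈ Sg F n N ↔ z.1.det = 1 ∧ dg F n z ∈ UN F n N :=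
  Iff.rfl

theorem det_cj {n : ℕ} (γ z : GQ F n) : (γ⁻¹ * z * γ).1.det = z.1.det := by
  have h3 : γ⁻¹.1.det * γ.1.det = 1 := by
    rw [← det_mul, ← Units.val_mul, inv_mul_cancel, Units.val_one, det_one]
  rw [Units.val_mul, Units.val_mul, det_mul, det_mul]
  linear_combination z.1.det * h3

theorem det_mi {n : ℕ} (z : GL (Fin n) (𝓞 F)) (h : z.1.det = 1) : (mi F n z).1.det = 1 := by
  have h1 : (mi F n z).1 = z.1.map (algebraMap (𝓞 F) F) := rfl
  rw [h1, ← RingHom.mapMatrix_apply, ← RingHom.map_det, h, map_one]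

/-- a function which is additive on a subgroup -/
theorem add_one {G A : Type} [Group G] [AddCommGroup A] {S : Subgroup G} {φ : G → A}
    (h : ∀ a ∈ S, ∀ b ∈ S, φ (a * b) = φ a + φ b) : φ 1 = 0 := by
  have h1 := h 1 S.one_mem 1 S.one_mem
  rw [mul_one] at h1
  exact left_eq_add.1 h1

theorem add_inv' {G A : Type} [Group G] [AddCommGroup A] {S : Subgroup G} {φ : G → A}
    (h : ∀ a ∈ S, ∀ b ∈ S, φ (a * b) = φ a + φ b) {a : G} (ha : a ∈ S) : φ a⁻¹ = -φ a := by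
  have h1 := h a ha a⁻¹ (S.inv_mem ha)
  rw [mul_inv_cancel, add_one h] at h1
  exact (neg_eq_of_add_eq_zero_right h1.symm).symm

theorem add_commutator {G A : Type} [Group G] [AddCommGroup A] {S : Subgroup G} {φ : G → A}
    (h : ∀ a ∈ S, ∀ b ∈ S, φ (a * b) = φ a + φ b) {a b : G} (ha : a ∈ S) (hb : b ∈ S) :
    φ (a * b * a⁻¹ * b⁻¹) = 0 := by
  rw [h _ (S.mul_mem (S.mul_mem ha hb) (S.inv_mem ha)) _ (S.inv_mem hb),
    h _ (S.mul_mem ha hb) _ (S.inv_mem ha), h a ha b hb, add_inv' h ha, add_inv' h hb]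
  abel

/-- a third index -/
theorem exists_third {m : ℕ} (i j : Fin (m + 3)) : ∃ l : Fin (m + 3), i ≠ l ∧ l ≠ j := by
  by_contra hcon
  push Not at hcon
  have h1 : (Finset.univ : Finset (Fin (m + 3))) ⊆ {i, j} := by
    intro l _
    rw [Finset.mem_insert, Finset.mem_singleton]
    by_cases h : i = l
    · exact Or.inl h.symm
    · exact Or.inr (hcon l h)
  have h2 := Finset.card_le_card h1
  rw [Finset.card_univ, Fintype.card_fin] at h2
  have h3 := Finset.card_le_two (a := i) (b := j)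
  omega

/-- conjugates of elementary matrices of level `M` -/
theorem conj_tv_mem {n M : ℕ} (h : GL (Fin n) (𝓞 F)) (i j : Fin n) (hij : i ≠ j) (c : 𝓞 F) :
    dg F n (mi F n (h * tv i j hij ((M : 𝓞 F) * c) * h⁻¹)) ∈ UN F n M := by
  have e1 : dg F n (mi F n (h * tv i j hij ((M : 𝓞 F) * c) * h⁻¹)) =
      dg F n (mi F n h) * dg F n (mi F n (tv i j hij ((M : 𝓞 F) * c))) * (dg F n (mi F n h))⁻¹ := by
    simp only [map_mul, map_inv]
  rw [e1]
  refine UN_conj (dg_mi_one h) (dg_mi_mem _ fun x y => ?_)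
  rw [tv_val, transvection, Matrix.add_apply, add_sub_cancel_left, Matrix.single_apply]
  split_ifs
  · exact dvd_mul_right _ _
  · exact dvd_zero _

theorem det_conj_tv {n : ℕ} (h : GL (Fin n) (𝓞 F)) (i j : Fin n) (hij : i ≠ j) (c : 𝓞 F) :
    (h * tv i j hij c * h⁻¹).1.det = 1 := by
  have h3 : h.1.det * h⁻¹.1.det = 1 := by
    rw [← det_mul, ← Units.val_mul, mul_inv_cancel, Units.val_one, det_one]
  rw [Units.val_mul, Units.val_mul, det_mul, det_mul, tv_det, mul_one, h3]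

end Q211.GLC

namespace Q4.GLC

open Q211.GLC

theorem tVan (hDen : SDen) : SVan := by
  intro F _ _ m Γ hΓ A _ N hN φ hφ γ
  obtain ⟨M, hM, hNM, hconj⟩ := hDen F (m + 3) (dg F (m + 3) γ)⁻¹ N hN
  refine ⟨M, hM, fun M' hM' hMM' x hx y hy => ?_⟩
  subst hy
  have hadd : ∀ a ∈ Sg F (m + 3) N, ∀ b ∈ Sg F (m + 3) N, φ (a * b) = φ a + φ b := by
    intro a ha b hb
    exact hφ a (hΓ a ha.1) b (hΓ b hb.1) ha.2 hb.2
  have hlev : ∀ a : GL (Fin (m + 3)) (𝓞 F), a.1.det = 1 →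
      dg F (m + 3) (mi F (m + 3) a) ∈ UN F (m + 3) M' →
      γ⁻¹ * mi F (m + 3) a * γ ∈ Sg F (m + 3) N := by
    intro a h1 h2
    refine ⟨?_, ?_⟩
    · rw [det_cj, det_mi a h1]
    · rw [map_mul, map_mul, map_inv]
      have h3 := hconj _ (UN_mono (m + 3) hMM' h2)
      rwa [inv_inv] at h3
  have key : γ⁻¹ * mi F (m + 3) x * γ ∈ Sg F (m + 3) N ∧ φ (γ⁻¹ * mi F (m + 3) x * γ) = 0 := by
    refine Subgroup.closure_induction (p := fun x _ => γ⁻¹ * mi F (m + 3) x * γ ∈ Sg F (m + 3) N ∧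
      φ (γ⁻¹ * mi F (m + 3) x * γ) = 0) ?_ ?_ ?_ ?_ hx
    · rintro x ⟨h, i, j, b, hij, hxe⟩
      obtain ⟨l, hil, hlj⟩ := exists_third i j
      have e1 : x = (h * tv i l hil ((M' : 𝓞 F) * 1) * h⁻¹) *
          (h * tv l j hlj ((M' : 𝓞 F) * b) * h⁻¹) * (h * tv i l hil ((M' : 𝓞 F) * 1) * h⁻¹)⁻¹ *
          (h * tv l j hlj ((M' : 𝓞 F) * b) * h⁻¹)⁻¹ := by
        have e2 : x = h * tv i j hij ((M' : 𝓞 F) ^ 2 * b) * h⁻¹ := by
          apply Units.ext
          rw [hxe, Units.val_mul, Units.val_mul, tv_val]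
        have e3 : (M' : 𝓞 F) ^ 2 * b = ((M' : 𝓞 F) * 1) * ((M' : 𝓞 F) * b) := by ring
        rw [e2, e3, tv_comm i l j hil hlj hij]
        group
      obtain ⟨p, hp⟩ : ∃ p, p = h * tv i l hil ((M' : 𝓞 F) * 1) * h⁻¹ := ⟨_, rfl⟩
      obtain ⟨q, hq⟩ : ∃ q, q = h * tv l j hlj ((M' : 𝓞 F) * b) * h⁻¹ := ⟨_, rfl⟩
      have hp1 : γ⁻¹ * mi F (m + 3) p * γ ∈ Sg F (m + 3) N := by
        rw [hp]
        exact hlev _ (det_conj_tv _ _ _ _ _) (conj_tv_mem _ _ _ _ _)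
      have hq1 : γ⁻¹ * mi F (m + 3) q * γ ∈ Sg F (m + 3) N := by
        rw [hq]
        exact hlev _ (det_conj_tv _ _ _ _ _) (conj_tv_mem _ _ _ _ _)
      rw [← hp, ← hq] at e1
      have e4 : γ⁻¹ * mi F (m + 3) x * γ = (γ⁻¹ * mi F (m + 3) p * γ) *
          (γ⁻¹ * mi F (m + 3) q * γ) * (γ⁻¹ * mi F (m + 3) p * γ)⁻¹ *
          (γ⁻¹ * mi F (m + 3) q * γ)⁻¹ := by
        rw [e1]
        simp only [map_mul, map_inv]
        group
      rw [e4]
      exact ⟨Subgroup.mul_mem _ (Subgroup.mul_mem _ (Subgroup.mul_mem _ hp1 hq1)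
        (Subgroup.inv_mem _ hp1)) (Subgroup.inv_mem _ hq1), add_commutator hadd hp1 hq1⟩
    · rw [map_one, mul_one, inv_mul_cancel]
      exact ⟨Subgroup.one_mem _, add_one hadd⟩
    · rintro a b - - ⟨h1, h2⟩ ⟨h3, h4⟩
      have e4 : γ⁻¹ * mi F (m + 3) (a * b) * γ =
          (γ⁻¹ * mi F (m + 3) a * γ) * (γ⁻¹ * mi F (m + 3) b * γ) := by
        rw [map_mul]
        group
      rw [e4]
      exact ⟨Subgroup.mul_mem _ h1 h3, by rw [hadd _ h1 _ h3, h2, h4, add_zero]⟩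
    · rintro a - ⟨h1, h2⟩
      have e4 : γ⁻¹ * mi F (m + 3) a⁻¹ * γ = (γ⁻¹ * mi F (m + 3) a * γ)⁻¹ := by
        rw [map_inv]
        group
      rw [e4]
      exact ⟨Subgroup.inv_mem _ h1, by rw [add_inv' hadd h1, h2, neg_zero]⟩
  exact ⟨key.1.2, key.2⟩

end Q4.GLC
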